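import Pool.Agent.ZGap.DW.Mean

/-!
# The case of a lattice: most gaps are near its first point
-/

namespace Pool.Agent.AHW

open Set Pool.Agent.ZetaGaps

open Classical in
lemma cn_sum (P : ℕ → Prop) (i j : ℕ) :
    cn P i j = ∑ n ∈ Finset.Ioc i j, (if P n then (1 : ℝ) else 0) := by
  unfold cn
  rw [Finset.sum_boole, ← Set.ncard_coe_finset]
  congr 2
  ext n
  simp

/-- One gap: it is small, or bad, or near `c`, or at least `2 c - η`. -/
lemma near_one {a η δ g : ℝ} (ha : 0 < a) (ha1 : a ≤ 1) (hη8 : η ≤ 1 / 8)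
    (hδη : δ ≤ η) (hP : ¬ (g < 1 / (1 + a) - δ)) (hQ : ¬ (∀ m : ℤ, η < |g - m / (1 + a)|)) :
    |g - 1 / (1 + a)| ≤ η ∨ 2 * (1 / (1 + a)) - η ≤ g := by
  push Not at hP hQ
  obtain ⟨m, hm⟩ := hQ
  obtain ⟨c, hc⟩ : ∃ c : ℝ, c = 1 / (1 + a) := ⟨_, rfl⟩
  have hc2 : 1 / 2 ≤ c := by
    rw [hc, div_le_div_iff₀ (by norm_num) (by linarith)]; linarith
  have hmc : (m : ℝ) / (1 + a) = m * c := by rw [hc]; ring
  rw [hmc] at hm
  rw [← hc] at hP ⊢
  have hm' := abs_le.mp hm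
  rcases lt_trichotomy m 1 with h | h | h
  · exfalso
    have h1 : (m : ℝ) ≤ 0 := by exact_mod_cast (by omega : m ≤ 0)
    have h2 : (m : ℝ) * c ≤ 0 := mul_nonpos_of_nonpos_of_nonneg h1 (by linarith)
    linarith [hm'.2]
  · left
    rw [h, Int.cast_one, one_mul] at hm
    exact hm
  · right
    have h1 : (2 : ℝ) ≤ m := by exact_mod_cast (by omega : (2 : ℤ) ≤ m)
    have h2 : 2 * c ≤ m * c := mul_le_mul_of_nonneg_right h1 (by linarith)
    linarith [hm'.1]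

open Classical in
/-- Few small gaps, few bad gaps, mean at most `1 + η`: then a proportion at least `1 - a - 8 η`
of the gaps is near `1 / (1 + a)`. -/
theorem near_count {a η δ : ℝ} (ha : 0 < a) (ha1 : a ≤ 1) (hη : 0 < η) (hη8 : η ≤ 1 / 8)
    (hδη : δ ≤ η) {i j : ℕ} (hij : i ≤ j) (hpos : ∀ n ∈ Finset.Ioc i j, 0 ≤ gap n)
    (hP : cn (fun n => gap n < 1 / (1 + a) - δ) i j ≤ η * ((j : ℝ) - i))
    (hQ : cn (fun n => ∀ m : ℤ, η < |gap n - m / (1 + a)|) i j ≤ η * ((j : ℝ) - i))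
    (hS : ∑ n ∈ Finset.Ioc i j, gap n ≤ (1 + η) * ((j : ℝ) - i)) :
    (1 - a - 8 * η) * ((j : ℝ) - i) ≤ cn (fun n => |gap n - 1 / (1 + a)| ≤ η) i j := by
  obtain ⟨c, hc⟩ : ∃ c : ℝ, c = 1 / (1 + a) := ⟨_, rfl⟩
  have hc2 : 1 / 2 ≤ c := by
    rw [hc, div_le_div_iff₀ (by norm_num) (by linarith)]; linarith
  have hca : c * (1 + a) = 1 := by rw [hc]; field_simp
  obtain ⟨N, hN⟩ : ∃ N : ℝ, N = (j : ℝ) - i := ⟨_, rfl⟩
  have hN0 : 0 ≤ N := by
    have : (i : ℝ) ≤ j := by exact_mod_cast hij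
    rw [hN]; linarith
  obtain ⟨y, hy⟩ : ∃ y : ℝ, y = cn (fun n => 2 * (1 / (1 + a)) - η ≤ gap n) i j := ⟨_, rfl⟩
  obtain ⟨x, hx⟩ : ∃ x : ℝ, x = cn (fun n => |gap n - 1 / (1 + a)| ≤ η) i j := ⟨_, rfl⟩
  have hcov : N ≤ cn (fun n => gap n < 1 / (1 + a) - δ) i j +
      cn (fun n => ∀ m : ℤ, η < |gap n - m / (1 + a)|) i j + x + y := by
    have h1 : N = ∑ n ∈ Finset.Ioc i j, (1 : ℝ) := by
      rw [Finset.sum_const, Nat.card_Ioc, nsmul_eq_mul, mul_one, Nat.cast_sub hij, hN]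
    rw [h1, hx, hy, cn_sum, cn_sum, cn_sum, cn_sum, ← Finset.sum_add_distrib,
      ← Finset.sum_add_distrib, ← Finset.sum_add_distrib]
    refine Finset.sum_le_sum fun n _ => ?_
    have z : ∀ p : Prop, (0 : ℝ) ≤ (if p then (1 : ℝ) else 0) := fun p => by
      split_ifs <;> norm_num
    by_cases q1 : gap n < 1 / (1 + a) - δ
    · rw [if_pos q1]
      linarith [z (∀ m : ℤ, η < |gap n - m / (1 + a)|), z (|gap n - 1 / (1 + a)| ≤ η),
        z (2 * (1 / (1 + a)) - η ≤ gap n)]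
    by_cases q2 : ∀ m : ℤ, η < |gap n - m / (1 + a)|
    · rw [if_pos q2]
      linarith [z (gap n < 1 / (1 + a) - δ), z (|gap n - 1 / (1 + a)| ≤ η),
        z (2 * (1 / (1 + a)) - η ≤ gap n)]
    rcases near_one ha ha1 hη8 hδη q1 q2 with q3 | q3
    · rw [if_pos q3]
      linarith [z (gap n < 1 / (1 + a) - δ), z (∀ m : ℤ, η < |gap n - m / (1 + a)|),
        z (2 * (1 / (1 + a)) - η ≤ gap n)]
    · rw [if_pos q3]
      linarith [z (gap n < 1 / (1 + a) - δ), z (∀ m : ℤ, η < |gap n - m / (1 + a)|),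
        z (|gap n - 1 / (1 + a)| ≤ η)]
  have hsum : (c - η) * x + (2 * c - η) * y ≤ (1 + η) * N := by
    rw [← hN] at hS
    refine le_trans ?_ hS
    rw [hx, hy, cn_sum, cn_sum, Finset.mul_sum, Finset.mul_sum, ← Finset.sum_add_distrib]
    refine Finset.sum_le_sum fun n hn => ?_
    have g0 := hpos n hn
    rw [← hc]
    by_cases q1 : |gap n - c| ≤ η
    · have q1' := abs_le.mp q1
      have q2 : ¬ (2 * c - η ≤ gap n) := by
        push Not
        linarith [q1'.2]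
      rw [if_pos q1, if_neg q2]
      linarith [q1'.1]
    · rw [if_neg q1]
      by_cases q2 : 2 * c - η ≤ gap n
      · rw [if_pos q2]; linarith
      · rw [if_neg q2]; linarith
  rw [← hN] at hP hQ ⊢
  rw [← hx]
  have e1 : (1 - 2 * η) * N ≤ x + y := by linarith
  have hcη : 0 < c - η := by linarith
  have e2 := mul_le_mul_of_nonneg_left e1 hcη.le
  have e3 : c * y ≤ (1 + η) * N - (c - η) * ((1 - 2 * η) * N) := by nlinarith
  have e4 : y ≤ (1 + a) * ((1 + η) * N - (c - η) * ((1 - 2 * η) * N)) := by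
    have h1 := mul_le_mul_of_nonneg_left e3 (show (0 : ℝ) ≤ 1 + a by linarith)
    have h2 : (1 + a) * (c * y) = y := by
      calc (1 + a) * (c * y) = c * (1 + a) * y := by ring
        _ = y := by rw [hca, one_mul]
    linarith
  have e5 : (1 + a) * ((1 + η) * N - (c - η) * ((1 - 2 * η) * N)) =
      ((1 + a) * (1 + η) - (c * (1 + a) - η * (1 + a)) * (1 - 2 * η)) * N := by ring
  rw [e5, hca] at e4
  have e6 : (1 + a) * (1 + η) - (1 - η * (1 + a)) * (1 - 2 * η) ≤ a + 6 * η := by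
    nlinarith [mul_nonneg hη.le (mul_nonneg hη.le (show (0 : ℝ) ≤ 1 + a by linarith)),
      mul_le_mul_of_nonneg_left ha1 hη.le]
  have e7 := mul_le_mul_of_nonneg_right e6 hN0
  nlinarith

end Pool.Agent.AHW
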