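import Pool.Agent.ZGap.DW.Fe
import Pool.Agent.ZGap.DW.Near

/-!
# The dichotomy in all intervals of length at least `T ^ a`, with the proportion near `1 / (1 + a)`
-/

namespace Pool.Agent.AHW

open Set Pool.Agent.ZetaGaps

lemma gap_nonneg_of {T : ℝ} (hT : 1 ≤ T) {n : ℕ} (h : zeroCount T < n) : 0 ≤ gap n := by
  have h1 := gap_ge (show 1 ≤ n by omega)
  have h2 : T ≤ ordinate n := Me_gt h
  have h3 := ordinate_mono (zeroCount_unbounded (n + 1)) (show 1 ≤ n by omega)
    (show n ≤ n + 1 by omega)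
  have h4 : 0 ≤ Real.log (ordinate n) := Real.log_nonneg (by linarith)
  have h5 : 0 ≤ (ordinate (n + 1) - ordinate n) * Real.log (ordinate n) :=
    mul_nonneg (by linarith) h4
  have hpi := Real.pi_pos
  by_contra hcon
  push Not at hcon
  have : 2 * Real.pi * gap n < 0 := mul_neg_of_pos_of_neg (by positivity) hcon
  linarith

/-- The dichotomy; in the second case a proportion at least `1 - a - ε` of the gaps is within `ε`
of `1 / (1 + a)`. -/
theorem dichotomy_full (hRH : RiemannHypothesis) {a ε : ℝ} (ha : 0 < a) (ha1 : a ≤ 1)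
    (hε : 0 < ε) :
    ∃ δ : ℝ, 0 < δ ∧ ∃ T₀ : ℝ, ∀ T : ℝ, T₀ ≤ T → ∀ H : ℝ, T ^ a ≤ H →
      δ * ((zeroCount (T + H) : ℝ) - zeroCount T) ≤
        ((({n ∈ Finset.Ioc (zeroCount T) (zeroCount (T + H)) |
          gap n < 1 / (1 + a) - δ} : Finset ℕ).card : ℕ) : ℝ) ∨
      ((({n : ℕ | n ∈ Finset.Ioc (zeroCount T) (zeroCount (T + H)) ∧
          ∀ m : ℤ, ε < |gap n - m / (1 + a)|}.ncard : ℕ) : ℝ) ≤
        ε * ((zeroCount (T + H) : ℝ) - zeroCount T) ∧
       (1 - a - ε) * ((zeroCount (T + H) : ℝ) - zeroCount T) ≤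
        (({n : ℕ | n ∈ Finset.Ioc (zeroCount T) (zeroCount (T + H)) ∧
          |gap n - 1 / (1 + a)| ≤ ε}.ncard : ℕ) : ℝ)) := by
  obtain ⟨η, hη⟩ : ∃ η : ℝ, η = min (ε / 8) (1 / 8) := ⟨_, rfl⟩
  have hη0 : 0 < η := by rw [hη]; exact lt_min (by positivity) (by norm_num)
  have hηε : 8 * η ≤ ε := by
    have : η ≤ ε / 8 := by rw [hη]; exact min_le_left _ _
    linarith
  have hη8 : η ≤ 1 / 8 := by rw [hη]; exact min_le_right _ _
  obtain ⟨δ0, hδ0, T1, hD⟩ := dichotomy_long hRH ha ha1 hη0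
  obtain ⟨T2, hT2, hM⟩ := mean_gap ha hη0 (by linarith)
  obtain ⟨δ, hδ⟩ : ∃ δ : ℝ, δ = min δ0 η := ⟨_, rfl⟩
  have hδp : 0 < δ := by rw [hδ]; exact lt_min hδ0 hη0
  have hδa : δ ≤ δ0 := by rw [hδ]; exact min_le_left _ _
  have hδb : δ ≤ η := by rw [hδ]; exact min_le_right _ _
  have hcard : ∀ (δ : ℝ) (i j : ℕ), ((({n ∈ Finset.Ioc i j |
      gap n < 1 / (1 + a) - δ} : Finset ℕ).card : ℕ) : ℝ) =
      cn (fun n => gap n < 1 / (1 + a) - δ) i j := by
    intro δ i j
    unfold cn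
    rw [← Set.ncard_coe_finset]
    congr 2
    ext n
    simp
  refine ⟨δ, hδp, max T1 T2, fun T hT H hH => ?_⟩
  have g1 : T1 ≤ T := (le_max_left _ _).trans hT
  have g2 : T2 ≤ T := (le_max_right _ _).trans hT
  have g3 : 1 ≤ T := by linarith
  have hpos : (1 : ℝ) ≤ T ^ a := Real.one_le_rpow g3 ha.le
  have hcc := zeroCount_mono (show T ≤ T + H by linarith)
  have hccr : (zeroCount T : ℝ) ≤ zeroCount (T + H) := by exact_mod_cast hcc
  rw [hcard]
  rcases le_or_gt (δ * ((zeroCount (T + H) : ℝ) - zeroCount T))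
    (cn (fun n => gap n < 1 / (1 + a) - δ) (zeroCount T) (zeroCount (T + H))) with h | h
  · exact Or.inl h
  right
  have hbad : cn (fun n => ∀ m : ℤ, η < |gap n - m / (1 + a)|) (zeroCount T)
      (zeroCount (T + H)) ≤ η * ((zeroCount (T + H) : ℝ) - zeroCount T) := by
    rcases hD T g1 H hH with h1 | h1
    · exfalso
      rw [hcard] at h1
      have h2 : cn (fun n => gap n < 1 / (1 + a) - δ0) (zeroCount T) (zeroCount (T + H)) ≤
          cn (fun n => gap n < 1 / (1 + a) - δ) (zeroCount T) (zeroCount (T + H)) :=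
        cn_imp _ _ (fun n hn => by linarith)
      have h3 : δ * ((zeroCount (T + H) : ℝ) - zeroCount T) ≤
          δ0 * ((zeroCount (T + H) : ℝ) - zeroCount T) :=
        mul_le_mul_of_nonneg_right hδa (by linarith)
      linarith
    · exact h1
  have hnear := near_count ha ha1 hη0 hη8 hδb hcc
    (fun n hn => gap_nonneg_of g3 (Finset.mem_Ioc.1 hn).1)
    (h.le.trans (mul_le_mul_of_nonneg_right hδb (by linarith))) hbad (hM T g2 H hH)
  constructor
  · have h1 : cn (fun n => ∀ m : ℤ, ε < |gap n - m / (1 + a)|) (zeroCount T)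
        (zeroCount (T + H)) ≤ cn (fun n => ∀ m : ℤ, η < |gap n - m / (1 + a)|) (zeroCount T)
        (zeroCount (T + H)) := cn_imp _ _ (fun n hn m => lt_of_le_of_lt (by linarith) (hn m))
    have h2 : η * ((zeroCount (T + H) : ℝ) - zeroCount T) ≤
        ε * ((zeroCount (T + H) : ℝ) - zeroCount T) :=
      mul_le_mul_of_nonneg_right (by linarith) (by linarith)
    exact h1.trans (hbad.trans h2)
  · have h1 : cn (fun n => |gap n - 1 / (1 + a)| ≤ η) (zeroCount T) (zeroCount (T + H)) ≤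
        cn (fun n => |gap n - 1 / (1 + a)| ≤ ε) (zeroCount T) (zeroCount (T + H)) :=
      cn_imp _ _ (fun n hn => le_trans hn (by linarith))
    have h2 : (1 - a - ε) * ((zeroCount (T + H) : ℝ) - zeroCount T) ≤
        (1 - a - 8 * η) * ((zeroCount (T + H) : ℝ) - zeroCount T) :=
      mul_le_mul_of_nonneg_right (by linarith) (by linarith)
    exact h2.trans (hnear.trans h1)

end Pool.Agent.AHW
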