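import Pool.Agent.ZetaGaps.RvMCount
import Pool.Agent.ZetaGaps.Basic

/-!
# Counting zeros in short windows, and gluing of windows
-/

namespace Pool.Agent.AHW

open Set Pool.Agent.ZetaGaps

lemma Fe_xlogx_ge {a b : ℝ} (ha : 0 < a) (hab : a ≤ b) :
    (b - a) * Real.log a ≤ b * Real.log b - a * Real.log a := by
  have hb : 0 < b := lt_of_lt_of_le ha hab
  have h1 : Real.log a ≤ Real.log b := Real.log_le_log ha hab
  nlinarith [mul_nonneg hb.le (sub_nonneg.2 h1)]

lemma Fe_xlogx_le {a b : ℝ} (ha : 0 < a) (hab : a ≤ b) :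
    b * Real.log b - a * Real.log a ≤ (b - a) * (Real.log b + 1) := by
  have hb : 0 < b := lt_of_lt_of_le ha hab
  have h1 : Real.log (b / a) ≤ b / a - 1 := Real.log_le_sub_one_of_pos (by positivity)
  rw [Real.log_div hb.ne' ha.ne'] at h1
  have h2 : a * (Real.log b - Real.log a) ≤ a * (b / a - 1) := mul_le_mul_of_nonneg_left h1 ha.le
  have h3 : a * (b / a - 1) = b - a := by field_simp
  linarith

/-- The number of zeros in `(T, T + T ^ a]` has the order `T ^ a log T`. -/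
theorem count_win {a : ℝ} (ha : 0 < a) (ha1 : a ≤ 1) : ∃ T0 : ℝ, 1 ≤ T0 ∧ ∀ T : ℝ, T0 ≤ T →
    T ^ a * Real.log T / 20 ≤ (zeroCount (T + T ^ a) : ℝ) - zeroCount T ∧
    (zeroCount (T + T ^ a) : ℝ) - zeroCount T ≤ T ^ a * Real.log T := by
  obtain ⟨C, hC, hN⟩ := zeroCount_asymp
  have hpi := Real.pi_pos
  have hpi3 := Real.pi_gt_three
  have hpi4 := Real.pi_lt_four
  obtain ⟨E, hE⟩ : ∃ E : ℝ, E = 2 * Real.pi * Real.exp 1 := ⟨_, rfl⟩
  have hE0 : 0 < E := by rw [hE]; positivity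
  have hE1 : 1 ≤ Real.log E := by
    rw [Real.le_log_iff_exp_le hE0, hE]
    have := Real.exp_pos 1
    nlinarith
  have hEl : Real.log E = Real.log (2 * Real.pi) + 1 := by
    rw [hE, Real.log_mul (by positivity) (Real.exp_pos 1).ne', Real.log_exp]
  have ev1 : ∀ᶠ T : ℝ in Filter.atTop, 300 * C ≤ T ^ a :=
    (tendsto_rpow_atTop ha).eventually_ge_atTop _
  have ev2 : ∀ᶠ T : ℝ in Filter.atTop, 2 * Real.log E ≤ Real.log T :=
    Real.tendsto_log_atTop.eventually_ge_atTop _
  obtain ⟨T0, hT0⟩ := Filter.eventually_atTop.mp (ev1.and (ev2.and (Filter.eventually_ge_atTop 4)))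
  refine ⟨max T0 1, le_max_right _ _, fun T hT => ?_⟩
  obtain ⟨e1, e2, e3⟩ := hT0 T ((le_max_left _ _).trans hT)
  have hTp : 0 < T := by linarith
  have hT1 : 1 ≤ T := by linarith
  obtain ⟨H, hH⟩ : ∃ H : ℝ, H = T ^ a := ⟨_, rfl⟩
  rw [← hH] at e1 ⊢
  have hH0 : 0 < H := by rw [hH]; positivity
  have hHT : H ≤ T := by
    rw [hH]
    calc T ^ a ≤ T ^ (1 : ℝ) := Real.rpow_le_rpow_of_exponent_le hT1 ha1
      _ = T := Real.rpow_one T
  have h1 := abs_le.mp (hN T (by linarith))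
  have h2 := abs_le.mp (hN (T + H) (by linarith))
  rw [← hE] at h1 h2
  set L := Real.log T with hL
  have hL2 : 2 ≤ L := by linarith
  have hl2 : Real.log (T + H) ≤ 2 * L := by
    have h3 : Real.log (T + H) ≤ Real.log (T * T) := by
      apply Real.log_le_log (by linarith)
      nlinarith
    rw [Real.log_mul hTp.ne' hTp.ne'] at h3
    linarith
  have herr : C * L + C * Real.log (T + H) ≤ H * L / 100 := by
    have h4 : C * Real.log (T + H) ≤ C * (2 * L) := mul_le_mul_of_nonneg_left hl2 hC.le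
    have h5 : 300 * C * L ≤ H * L := mul_le_mul_of_nonneg_right e1 (by linarith)
    linarith
  have hx : T / (2 * Real.pi) * Real.log (T / E) = E / (2 * Real.pi) * (T / E * Real.log (T / E)) := by
    field_simp
  have hy : (T + H) / (2 * Real.pi) * Real.log ((T + H) / E) =
      E / (2 * Real.pi) * ((T + H) / E * Real.log ((T + H) / E)) := by
    field_simp
  have hle : T / E ≤ (T + H) / E := by
    apply div_le_div_of_nonneg_right _ hE0.le
    linarith
  have g1 := Fe_xlogx_ge (a := T / E) (b := (T + H) / E) (by positivity) hle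
  have g2 := Fe_xlogx_le (a := T / E) (b := (T + H) / E) (by positivity) hle
  have hdiff : (T + H) / E - T / E = H / E := by ring
  rw [hdiff] at g1 g2
  have hk : 0 < E / (2 * Real.pi) := by positivity
  have k1 := mul_le_mul_of_nonneg_left g1 hk.le
  have k2 := mul_le_mul_of_nonneg_left g2 hk.le
  have m1 : E / (2 * Real.pi) * (H / E * Real.log (T / E)) = H / (2 * Real.pi) * (L - Real.log E) := by
    rw [Real.log_div hTp.ne' hE0.ne', ← hL]
    field_simp
  have m2 : E / (2 * Real.pi) * (H / E * (Real.log ((T + H) / E) + 1)) =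
      H / (2 * Real.pi) * (Real.log (T + H) - Real.log (2 * Real.pi)) := by
    rw [Real.log_div (by linarith) hE0.ne', hEl]
    field_simp
    ring
  have s1 : E / (2 * Real.pi) * ((T + H) / E * Real.log ((T + H) / E) - T / E * Real.log (T / E)) =
      (T + H) / (2 * Real.pi) * Real.log ((T + H) / E) - T / (2 * Real.pi) * Real.log (T / E) := by
    rw [mul_sub, ← hx, ← hy]
  rw [m1, s1] at k1
  rw [m2, s1] at k2
  have n1 : H * L / 20 + H * L / 100 ≤ H / (2 * Real.pi) * (L - Real.log E) := by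
    have q1 : L / 2 ≤ L - Real.log E := by linarith
    have q2 : H / 8 ≤ H / (2 * Real.pi) := by
      apply div_le_div_of_nonneg_left hH0.le (by positivity)
      linarith
    have q3 : H / 8 * (L / 2) ≤ H / (2 * Real.pi) * (L - Real.log E) :=
      mul_le_mul q2 q1 (by linarith) (by positivity)
    have q4 : 0 < H * L := by positivity
    linarith
  have n2 : H / (2 * Real.pi) * (Real.log (T + H) - Real.log (2 * Real.pi)) ≤ H / 6 * L := by
    have q1 : Real.log (T + H) ≤ Real.log (2 * Real.pi) + L := by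
      rw [hL, ← Real.log_mul (by positivity) hTp.ne']
      apply Real.log_le_log (by linarith)
      nlinarith
    have q2 : H / (2 * Real.pi) ≤ H / 6 := by
      apply div_le_div_of_nonneg_left hH0.le (by norm_num)
      linarith
    calc H / (2 * Real.pi) * (Real.log (T + H) - Real.log (2 * Real.pi)) ≤
        H / (2 * Real.pi) * L := mul_le_mul_of_nonneg_left (by linarith) (by positivity)
      _ ≤ H / 6 * L := mul_le_mul_of_nonneg_right q2 (by linarith)
  have q5 : 0 < H * L := by positivity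
  constructor
  · linarith [h1.2, h2.1]
  · linarith [h1.1, h2.2]

/-- The number of `n ∈ (i, j]` with the property `P`. -/
noncomputable def cn (P : ℕ → Prop) (i j : ℕ) : ℝ := ({n : ℕ | n ∈ Finset.Ioc i j ∧ P n}.ncard : ℝ)

lemma cn_fin (P : ℕ → Prop) (i j : ℕ) : {n : ℕ | n ∈ Finset.Ioc i j ∧ P n}.Finite :=
  (Finset.Ioc i j).finite_toSet.subset fun _ h => h.1

lemma cn_nonneg (P : ℕ → Prop) (i j : ℕ) : 0 ≤ cn P i j := Nat.cast_nonneg _

lemma cn_add (P : ℕ → Prop) {i j k : ℕ} (h1 : i ≤ j) (h2 : j ≤ k) :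
    cn P i k = cn P i j + cn P j k := by
  unfold cn
  have e : {n : ℕ | n ∈ Finset.Ioc i k ∧ P n} =
      {n : ℕ | n ∈ Finset.Ioc i j ∧ P n} ∪ {n : ℕ | n ∈ Finset.Ioc j k ∧ P n} := by
    ext n
    simp only [Set.mem_ofPred_eq, mem_union, Finset.mem_Ioc]
    constructor
    · rintro ⟨⟨h3, h4⟩, h5⟩
      rcases le_or_gt n j with h | h
      · exact Or.inl ⟨⟨h3, h⟩, h5⟩
      · exact Or.inr ⟨⟨h, h4⟩, h5⟩
    · rintro (⟨⟨h3, h4⟩, h5⟩ | ⟨⟨h3, h4⟩, h5⟩)
      · exact ⟨⟨h3, by omega⟩, h5⟩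
      · exact ⟨⟨by omega, h4⟩, h5⟩
  have hd : Disjoint {n : ℕ | n ∈ Finset.Ioc i j ∧ P n} {n : ℕ | n ∈ Finset.Ioc j k ∧ P n} := by
    rw [Set.disjoint_left]
    rintro n ⟨h3, _⟩ ⟨h4, _⟩
    rw [Finset.mem_Ioc] at h3 h4
    omega
  rw [e, Set.ncard_union_eq hd (cn_fin P i j) (cn_fin P j k)]
  push_cast
  ring

lemma cn_mono (P : ℕ → Prop) {i i' j j' : ℕ} (h1 : i' ≤ i) (h2 : j ≤ j') :
    cn P i j ≤ cn P i' j' := by
  unfold cn
  have h : {n : ℕ | n ∈ Finset.Ioc i j ∧ P n} ⊆ {n : ℕ | n ∈ Finset.Ioc i' j' ∧ P n} := by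
    rintro n ⟨h3, h4⟩
    rw [Finset.mem_Ioc] at h3
    exact ⟨Finset.mem_Ioc.2 ⟨by omega, by omega⟩, h4⟩
  exact_mod_cast Set.ncard_le_ncard h (cn_fin P i' j')

lemma cn_imp {P Q : ℕ → Prop} (i j : ℕ) (h : ∀ n, P n → Q n) : cn P i j ≤ cn Q i j := by
  unfold cn
  have h1 : {n : ℕ | n ∈ Finset.Ioc i j ∧ P n} ⊆ {n : ℕ | n ∈ Finset.Ioc i j ∧ Q n} :=
    fun n hn => ⟨hn.1, h n hn.2⟩
  exact_mod_cast Set.ncard_le_ncard h1 (cn_fin Q i j)

lemma cn_le (P : ℕ → Prop) {i j : ℕ} (h : i ≤ j) : cn P i j ≤ (j : ℝ) - i := by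
  unfold cn
  have h1 : {n : ℕ | n ∈ Finset.Ioc i j ∧ P n} ⊆ (Finset.Ioc i j : Set ℕ) := fun n h => h.1
  have h2 := Set.ncard_le_ncard h1 (Finset.Ioc i j).finite_toSet
  rw [Set.ncard_coe_finset, Nat.card_Ioc] at h2
  have h3 : (({n : ℕ | n ∈ Finset.Ioc i j ∧ P n}.ncard : ℕ) : ℝ) ≤ ((j - i : ℕ) : ℝ) := by
    exact_mod_cast h2
  rwa [Nat.cast_sub h] at h3

/-- Gluing of windows: a linear inequality in all windows `(T, T + T ^ a]` holds in all longer
intervals, up to a factor 2. -/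
theorem glue {P Q : ℕ → Prop} {a ε1 C T1 : ℝ} (ha : 0 < a) (hε1 : 0 ≤ ε1) (hC : 0 ≤ C)
    (hT1 : 1 ≤ T1)
    (hW : ∀ T : ℝ, T1 ≤ T → cn Q (zeroCount T) (zeroCount (T + T ^ a)) ≤
      ε1 * ((zeroCount (T + T ^ a) : ℝ) - zeroCount T) +
        C * cn P (zeroCount T) (zeroCount (T + T ^ a))) (k : ℕ) :
    ∀ T : ℝ, T1 ≤ T → ∀ H : ℝ, T ^ a ≤ H → H ≤ k →
      cn Q (zeroCount T) (zeroCount (T + H)) ≤
      2 * ε1 * ((zeroCount (T + H) : ℝ) - zeroCount T) +
        2 * C * cn P (zeroCount T) (zeroCount (T + H)) := by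
  induction k with
  | zero =>
    intro T hT H h1 h2
    exfalso
    have h3 : (1 : ℝ) ≤ T ^ a := Real.one_le_rpow (hT1.trans hT) ha.le
    rw [Nat.cast_zero] at h2
    linarith
  | succ k ih =>
    intro T hT H h1 h2
    have hT1' : 1 ≤ T := hT1.trans hT
    have hT0 : 0 < T := by linarith
    have h3 : (1 : ℝ) ≤ T ^ a := Real.one_le_rpow hT1' ha.le
    have hw := hW T hT
    set U := T + T ^ a with hU
    have hTU : T ≤ U := by linarith
    have hUH : U ≤ T + H := by linarith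
    have c1 := zeroCount_mono hTU
    have c2 := zeroCount_mono hUH
    have c1r : (zeroCount T : ℝ) ≤ zeroCount U := by exact_mod_cast c1
    have c2r : (zeroCount U : ℝ) ≤ zeroCount (T + H) := by exact_mod_cast c2
    have q1 := cn_add Q c1 c2
    have p1 := cn_add P c1 c2
    rcases le_or_gt (U ^ a) (H - T ^ a) with h4 | h4
    · have h5 := ih U (hT.trans hTU) (H - T ^ a) h4 (by push_cast at h2; linarith)
      have e1 : U + (H - T ^ a) = T + H := by rw [hU]; ring
      rw [e1] at h5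
      have p2 := cn_nonneg P (zeroCount T) (zeroCount U)
      have z1 : 0 ≤ ε1 * ((zeroCount U : ℝ) - zeroCount T) := mul_nonneg hε1 (by linarith)
      have z2 : 0 ≤ C * cn P (zeroCount T) (zeroCount U) := mul_nonneg hC p2
      rw [q1, p1]
      nlinarith
    · have hcont : ContinuousOn (fun y : ℝ => y + y ^ a) (Icc T U) := by
        refine ContinuousOn.add continuousOn_id ?_
        intro y hy
        exact (Real.continuousAt_rpow_const y a (Or.inl (by linarith [hy.1]))).continuousWithinAt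
      obtain ⟨y, hy, hyH⟩ := intermediate_value_Icc hTU hcont
        (show T + H ∈ Icc (T + T ^ a) (U + U ^ a) from ⟨by linarith, by linarith⟩)
      beta_reduce at hyH
      have h5 := hW y (hT.trans hy.1)
      rw [hyH] at h5
      have c3 := zeroCount_mono hy.1
      have c4 := zeroCount_mono hy.2
      have c3r : (zeroCount T : ℝ) ≤ zeroCount y := by exact_mod_cast c3
      have q2 := cn_mono Q c4 (le_refl (zeroCount (T + H)))
      have p2 := cn_mono P c3 (le_refl (zeroCount (T + H)))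
      have p3 := cn_mono P (le_refl (zeroCount T)) c2
      have z1 : ε1 * ((zeroCount U : ℝ) - zeroCount T) ≤
          ε1 * ((zeroCount (T + H) : ℝ) - zeroCount T) := mul_le_mul_of_nonneg_left (by linarith) hε1
      have z2 : ε1 * ((zeroCount (T + H) : ℝ) - zeroCount y) ≤
          ε1 * ((zeroCount (T + H) : ℝ) - zeroCount T) := mul_le_mul_of_nonneg_left (by linarith) hε1
      have z3 := mul_le_mul_of_nonneg_left p2 hC
      have z4 := mul_le_mul_of_nonneg_left p3 hC
      rw [q1]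
      linarith

end Pool.Agent.AHW
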