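import Pool.Agent.ZGap.AH.Defs3

/-!
# The dichotomy in short windows: definitions

`T` is the length of the window (the scale of the mollifier), the height is `T ^ (1 / a)`; the
window is `[w + 5 T / 4, w + 7 T / 4]`. With `τ` near `1 / (1 + a)` and `σ = a τ` the shift is
`2 π τ / log (height) = alp σ T`.
-/

open scoped ContDiff

namespace Pool.Agent.AHW

open Complex MeasureTheory Set Pool.Agent.Hadamard Pool.Agent.HalfGap Pool.Agent.AHD

/-- The window `[w + (5/4 - θ) T, w + (7/4 + θ) T]` lies in `[T ^ (1/a), 2 T ^ (1/a)]`. -/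
def Hgt (a θ T w : ℝ) : Prop :=
  T ^ (1 / a) ≤ w + (5 / 4 - θ) * T ∧ w + (7 / 4 + θ) * T ≤ 2 * T ^ (1 / a)

/-- The exceptional set is small in the window. -/
def FewW (σ δ θ T w : ℝ) : Prop :=
  volume.real (EE (alp σ T) ∩ Icc (w + (5 / 4 - θ) * T) (w + (7 / 4 + θ) * T)) ≤ δ * T

/-- The height of the evaluation point, in units of `alp σ T`. -/
noncomputable def Ys (σ ep : ℝ) : ℝ := Yc ep / (2 * σ)

lemma Hgt_mono {a θ θ' T w : ℝ} (hT : 0 ≤ T) (h : Hgt a θ T w) (hθ : θ' ≤ θ) : Hgt a θ' T w := by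
  obtain ⟨h1, h2⟩ := h
  have h3 : θ' * T ≤ θ * T := mul_le_mul_of_nonneg_right hθ hT
  exact ⟨by nlinarith, by nlinarith⟩

lemma FewW_mono {σ δ δ' θ T w : ℝ} (h : FewW σ δ θ T w) (hd : δ ≤ δ') (hT : 0 ≤ T) :
    FewW σ δ' θ T w := by
  unfold FewW at h ⊢
  exact h.trans (mul_le_mul_of_nonneg_right hd hT)

/-- The height is at least the length. -/
lemma le_rpow_inv {a T : ℝ} (ha : 0 < a) (ha1 : a ≤ 1) (hT : 1 ≤ T) : T ≤ T ^ (1 / a) := by
  calc T = T ^ (1 : ℝ) := (Real.rpow_one T).symm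
    _ ≤ T ^ (1 / a) := Real.rpow_le_rpow_of_exponent_le hT (by
        rw [le_div_iff₀ ha]; linarith)

lemma log_rpow_inv {a T : ℝ} (hT : 0 < T) : Real.log (T ^ (1 / a)) = Real.log T / a := by
  rw [Real.log_rpow hT]
  ring

/-- The two expressions of the shift. -/
lemma alp_scale {a τ T : ℝ} (hT : 0 < T) : alp τ (T ^ (1 / a)) = alp (a * τ) T := by
  unfold alp
  rw [log_rpow_inv hT, div_div_eq_mul_div]
  ring

/-- Heights in the window. -/
lemma Hgt.bounds {a T w t : ℝ} (ha : 0 < a) (ha1 : a ≤ 1) (hT : 1 ≤ T) (h : Hgt a 0 T w)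
    (h1 : w + T / 2 ≤ t) (h2 : t ≤ w + 5 * T / 2) :
    T ^ (1 / a) / 4 ≤ t ∧ t ≤ 3 * T ^ (1 / a) := by
  have h3 := le_rpow_inv ha ha1 hT
  obtain ⟨h4, h5⟩ := h
  constructor <;> nlinarith

section numbers

variable {a ep τ : ℝ}

lemma tau_pos (ha : 0 < a) (ha1 : a ≤ 1) (hep : 0 < ep) (hep1 : ep ≤ 1 / 100)
    (h : 1 / (1 + a) - ep ^ 2 ≤ τ) : 49 / 100 < τ := by
  have h1 : 1 / 2 ≤ 1 / (1 + a) := by
    rw [div_le_div_iff₀ (by norm_num) (by linarith)]; linarith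
  have h2 : ep ^ 2 ≤ 1 / 100 * (1 / 100) := by nlinarith
  linarith

lemma tau_lt_one (ha : 0 < a) (h : τ < 1 / (1 + a)) : τ < 1 := by
  have h1 : 1 / (1 + a) < 1 := by
    rw [div_lt_one (by linarith)]; linarith
  linarith

lemma sig_lt (ha : 0 < a) (ha1 : a ≤ 1) (h : τ < 1 / (1 + a)) : a * τ < 1 / 2 := by
  have h1 : a * τ < a * (1 / (1 + a)) := mul_lt_mul_of_pos_left h ha
  have h2 : a * (1 / (1 + a)) ≤ 1 / 2 := by
    rw [mul_one_div, div_le_div_iff₀ (by linarith) (by norm_num)]; linarith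
  linarith

lemma sig_gt (ha : 0 < a) (h : 49 / 100 < τ) : 49 / 100 * a < a * τ := by
  have := mul_lt_mul_of_pos_left h ha
  linarith

/-- The basic relation `τ (1 + a) ∈ [1 - 2 ep², 1)`. -/
lemma tau_mul (ha : 0 < a) (ha1 : a ≤ 1) (h : 1 / (1 + a) - ep ^ 2 ≤ τ) (h' : τ < 1 / (1 + a)) :
    1 - 2 * ep ^ 2 ≤ τ * (1 + a) ∧ τ * (1 + a) < 1 := by
  have h1 : (0 : ℝ) < 1 + a := by linarith
  constructor
  · have h2 := mul_le_mul_of_nonneg_right h h1.le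
    rw [sub_mul, div_mul_cancel₀ _ h1.ne'] at h2
    nlinarith [sq_nonneg ep]
  · rwa [lt_div_iff₀ h1] at h'

end numbers

lemma Ys_mul {σ ep T : ℝ} (hσ : σ ≠ 0) : alp σ T * Ys σ ep = alp (1 / 2) T * Yc ep := by
  unfold Ys alp
  field_simp

end Pool.Agent.AHW
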