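import Pool.Agent.ZGap.AH.B1
import Pool.Agent.ZGap.PS.Box
import Pool.Agent.ZGap.DW.Defs

/-!
# Moments of the mollifier in windows
-/

open scoped ContDiff

namespace Pool.Agent.AHW

open Complex MeasureTheory Set Pool.Agent.Hadamard Pool.Agent.HalfGap Pool.Agent.AHD

/-- The local count on two scales. -/
lemma W1_scale (hRH : RiemannHypothesis) {T Th m : ℝ} (hT : 1 ≤ Real.log T)
    (h : Real.log T ≤ Real.log Th) (hm : Real.log Th ≤ m * Real.log T) (t : ℝ) :
    Pool.Agent.ZGap.Res.FM.W1 T t ≤ m ^ 2 * Pool.Agent.ZGap.Res.FM.W1 Th t := by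
  have hL : 0 < Real.log T := by linarith
  have hm1 : 1 ≤ m := by
    by_contra hcon
    push Not at hcon
    have : m * Real.log T < 1 * Real.log T := mul_lt_mul_of_pos_right hcon hL
    linarith
  unfold Pool.Agent.ZGap.Res.FM.W1
  rw [← tsum_mul_left]
  refine Summable.tsum_le_tsum (fun ρ => ?_)
    (Pool.Agent.ZGap.Res.FM.W1_summable hRH hT t)
    ((Pool.Agent.ZGap.Res.FM.W1_summable hRH (hT.trans h) t).mul_left _)
  set x : ℝ := t - (ρ : ℂ).im with hx
  have h1 : 1 + (Real.log Th * x) ^ 2 ≤ m ^ 2 * (1 + (Real.log T * x) ^ 2) := by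
    have h2 : (Real.log Th * x) ^ 2 ≤ m ^ 2 * (Real.log T * x) ^ 2 := by
      have e : m ^ 2 * (Real.log T * x) ^ 2 = (m * Real.log T) ^ 2 * x ^ 2 := by ring
      rw [e, mul_pow]
      exact mul_le_mul_of_nonneg_right
        (pow_le_pow_left₀ (by linarith) hm 2) (sq_nonneg x)
    have h3 : 1 ≤ m ^ 2 := one_le_pow₀ hm1
    nlinarith
  have h4 : 0 < 1 + (Real.log T * x) ^ 2 := by positivity
  have h5 : 0 < 1 + (Real.log Th * x) ^ 2 := by positivity
  have h6 : 1 / (1 + (Real.log T * x) ^ 2) ≤ m ^ 2 * (1 / (1 + (Real.log Th * x) ^ 2)) := by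
    rw [mul_one_div, div_le_div_iff₀ h4 h5]
    linarith
  calc _ ≤ (mult ρ : ℝ) * (m ^ 2 * (1 / (1 + (Real.log Th * x) ^ 2))) := by gcongr
    _ = _ := by ring

/-- Moments of the prime sum in windows. -/
theorem Pr1_moment_w (hRH : RiemannHypothesis) (D : AData) {a : ℝ} (ha : 0 < a) (ha1 : a ≤ 1)
    (n : ℕ) : ∃ K T0 : ℝ, 0 < K ∧ Real.exp 2 ≤ T0 ∧ ∀ T : ℝ, T0 ≤ T → ∀ y H : ℝ,
      T ^ (1 / a) / 4 ≤ y → y + H ≤ 4 * T ^ (1 / a) → T ≤ H →
      ∫ t in y..(y + H), ‖Pr1 D T t‖ ^ n ≤ K * H := by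
  obtain ⟨b', hb'⟩ := exists_nat_ge (1 / a)
  obtain ⟨b, hb, hba⟩ : ∃ b : ℕ, 1 ≤ b ∧ 1 / (b:ℝ) ≤ a := by
    refine ⟨max b' 1, le_max_right _ _, ?_⟩
    have h2 : 1 / a ≤ ((max b' 1 : ℕ) : ℝ) := hb'.trans (by exact_mod_cast le_max_left _ _)
    exact (one_div_le ha (lt_of_lt_of_le (by positivity) h2)).mp h2
  have hk4 : 4 ≤ b * (n + 4) := by nlinarith
  obtain ⟨C1, T1, hC1, hT1, h1⟩ := Pr1_le hRH D
  obtain ⟨C2, T2, hC2, hT2, h2⟩ := Pool.Agent.ZGap.Res.FM.W1_le hRH (k := b * (n + 4)) hk4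
  obtain ⟨K, hK, h3⟩ := Pool.Agent.ShortPos.QQ_moment_short (b := b) (n := n + 4) hb (by omega)
  set C := C1 * (1 + (1 / a) ^ 2 * C2) + 1 with hC
  have hC1' : 1 ≤ C := by
    have : 0 < C1 * (1 + (1 / a) ^ 2 * C2) := by positivity
    linarith
  refine ⟨C ^ (2 * (n + 4)) * K, max (max T1 T2) (Real.exp 2), by positivity, le_max_right _ _,
    fun T hT y H hy hyH hTH => ?_⟩
  have hTT1 : T1 ≤ T := (le_max_left _ _).trans ((le_max_left _ _).trans hT)
  have hTT2 : T2 ≤ T := (le_max_right _ _).trans ((le_max_left _ _).trans hT)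
  have hTe : Real.exp 2 ≤ T := (le_max_right _ _).trans hT
  have hT0 : 0 < T := (Real.exp_pos _).trans_le hTe
  have hL2 : 2 ≤ Real.log T := by rw [Real.le_log_iff_exp_le hT0]; exact hTe
  have hT1' : 1 ≤ T := hT1.trans hTT1
  obtain ⟨Th, hTh⟩ : ∃ Th : ℝ, Th = T ^ (1 / a) := ⟨_, rfl⟩
  have hTTh : T ≤ Th := by rw [hTh]; exact le_rpow_inv ha ha1 hT1'
  rw [← hTh] at hy hyH
  have hTh1 : 1 ≤ Th := hT1'.trans hTTh
  have hTh0 : 0 < Th := by linarith
  have hH0 : 0 < H := by linarith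
  obtain ⟨h2k, hW⟩ := h2 Th (hTT2.trans hTTh)
  have hTa : Th ^ a = T := by
    rw [hTh, ← Real.rpow_mul hT0.le, one_div_mul_cancel ha.ne', Real.rpow_one]
  have hTbH : Th ^ (1 / (b:ℝ)) ≤ H := by
    refine le_trans ?_ hTH
    calc Th ^ (1 / (b:ℝ)) ≤ Th ^ a := Real.rpow_le_rpow_of_exponent_le hTh1 hba
      _ = T := hTa
  have hlogTh : Real.log Th = (1 / a) * Real.log T := by
    rw [hTh, Real.log_rpow hT0]
  have hlog1 : Real.log T ≤ Real.log Th := Real.log_le_log hT0 hTTh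
  set Q : ℝ → ℝ := Pool.Agent.ZGap.Res.FM.QQ (b * (n + 4)) Th with hQdef
  have hQ : ∀ t ∈ Icc y (y + H), ‖Pr1 D T t‖ ^ n ≤
      C ^ (2 * (n + 4)) * Q t ^ (2 * (n + 4)) := by
    intro t ht
    have e1 := h1 T hTT1 t (by linarith [ht.1])
    have e2 : Pool.Agent.ZGap.Res.FM.W1 Th t ≤ C2 * Q t := hW t (hy.trans ht.1) (ht.2.trans hyH)
    have e2' := W1_scale hRH (by linarith) hlog1 hlogTh.le t
    have e3 : 1 ≤ Q t := Pool.Agent.ZGap.Res.FM.one_le_QQ hTh1 t
    have e4 : ‖Pr1 D T t‖ ≤ C * Q t := by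
      calc ‖Pr1 D T t‖ ≤ C1 * (1 + Pool.Agent.ZGap.Res.FM.W1 T t) := e1
        _ ≤ C1 * (1 + (1 / a) ^ 2 * Pool.Agent.ZGap.Res.FM.W1 Th t) := by gcongr
        _ ≤ C1 * (Q t + (1 / a) ^ 2 * (C2 * Q t)) := by gcongr
        _ = C1 * (1 + (1 / a) ^ 2 * C2) * Q t := by ring
        _ ≤ C * Q t := by
            gcongr
            linarith
    have e5 : 1 ≤ C * Q t := by nlinarith
    calc ‖Pr1 D T t‖ ^ n ≤ (C * Q t) ^ n := by gcongr
      _ ≤ (C * Q t) ^ (2 * (n + 4)) := pow_le_pow_right₀ e5 (by omega)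
      _ = _ := mul_pow _ _ _
  have hle : y ≤ y + H := by linarith
  have hPc := B1_Pr1_continuous D T
  have hQc : Continuous Q := Pool.Agent.ZGap.Res.FM.QQ_continuous (b * (n + 4)) Th
  calc _ ≤ ∫ t in y..(y + H), C ^ (2 * (n + 4)) * Q t ^ (2 * (n + 4)) := by
        refine intervalIntegral.integral_mono_on hle ?_ ?_ hQ
        · exact (by fun_prop : Continuous fun t => ‖Pr1 D T t‖ ^ n).intervalIntegrable _ _
        · exact (by fun_prop : Continuous fun t =>
            C ^ (2 * (n + 4)) * Q t ^ (2 * (n + 4))).intervalIntegrable _ _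
    _ = C ^ (2 * (n + 4)) * ∫ t in y..(y + H), Q t ^ (2 * (n + 4)) := by
        rw [intervalIntegral.integral_const_mul]
    _ ≤ C ^ (2 * (n + 4)) * (K * H) := by
        gcongr
        exact h3 Th h2k y H hTbH
    _ = _ := by ring

/-- The shifted moment in windows. -/
theorem shifted_moment_w (hRH : RiemannHypothesis) (D : AData) {a : ℝ} (ha : 0 < a) (ha1 : a ≤ 1)
    (n : ℕ) : ∃ K T0 : ℝ, 0 < K ∧ Real.exp 2 ≤ T0 ∧ ∀ T : ℝ, T0 ≤ T → ∀ w : ℝ, Hgt a 0 T w →
      ∀ x : ℝ, ∫ t in (w + T)..(w + 2 * T), ‖Pr1 D T (t - x)‖ ^ n ≤ K * T * (1 + |x|) ^ n := by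
  obtain ⟨K, T0, hK, hT0, h⟩ := Pr1_moment_w hRH D ha ha1 n
  refine ⟨K + 3 * 4 ^ n + 1, T0, by positivity, hT0, fun T hT w hw x => ?_⟩
  have hTe : Real.exp 2 ≤ T := hT0.trans hT
  have hTp : 0 < T := (Real.exp_pos _).trans_le hTe
  have hT1 : 1 ≤ T := (Real.one_le_exp (by norm_num)).trans hTe
  have hTTh := le_rpow_inv ha ha1 hT1
  have hPc := B1_Pr1_continuous D T
  have h1a : (1:ℝ) ≤ (1 + |x|) ^ n := one_le_pow₀ (by linarith [abs_nonneg x])
  obtain ⟨hw1, hw2⟩ := hw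
  rcases le_or_gt |x| (T / 4) with hx | hx
  · have h1 : ∫ t in (w + T)..(w + 2 * T), ‖Pr1 D T (t - x)‖ ^ n =
        ∫ t in (w + T - x)..(w + 2 * T - x), ‖Pr1 D T t‖ ^ n :=
      intervalIntegral.integral_comp_sub_right (fun t => ‖Pr1 D T t‖ ^ n) x
    have e : w + 2 * T - x = (w + T - x) + T := by ring
    rw [h1, e]
    have hx' := abs_le.mp hx
    have h2 := h T hT (w + T - x) T (by linarith [hx'.2]) (by linarith [hx'.1]) le_rfl
    calc _ ≤ K * T := h2
      _ ≤ (K + 3 * 4 ^ n + 1) * T * 1 := by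
          have : (0:ℝ) ≤ 3 * 4 ^ n := by positivity
          nlinarith
      _ ≤ _ := by gcongr
  · have h1 : ∫ t in (w + T)..(w + 2 * T), ‖Pr1 D T (t - x)‖ ^ n ≤
        ∫ t in (w + T)..(w + 2 * T), T ^ n := by
      refine intervalIntegral.integral_mono_on (by linarith) ?_ ?_ fun t _ => ?_
      · exact (by fun_prop : Continuous fun t => ‖Pr1 D T (t - x)‖ ^ n).intervalIntegrable _ _
      · simp
      · gcongr
        exact B1_norm_Pr1_le D hTp.le _
    rw [intervalIntegral.integral_const, smul_eq_mul] at h1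
    have h2 : T ^ n ≤ 4 ^ n * (1 + |x|) ^ n := by
      rw [← mul_pow]
      have h5 : T ≤ 4 * (1 + |x|) := by linarith
      gcongr
    calc _ ≤ (w + 2 * T - (w + T)) * T ^ n := h1
      _ ≤ (3 * T) * (4 ^ n * (1 + |x|) ^ n) := by
          gcongr
          linarith
      _ = (3 * 4 ^ n) * T * (1 + |x|) ^ n := by ring
      _ ≤ _ := by
          gcongr
          linarith

/-- Shifted moments of the majorant. -/
theorem b_moment_w (hRH : RiemannHypothesis) (D : AData) {a : ℝ} (ha : 0 < a) (ha1 : a ≤ 1)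
    (k : ℕ) : ∃ K T0 : ℝ, 0 < K ∧
    Real.exp 2 ≤ T0 ∧ ∀ T : ℝ, T0 ≤ T → ∀ w : ℝ, Hgt a 0 T w →
      ∀ x : ℝ,
      ∫ t in (w + T)..(w + 2 * T), B1_b D T (t - x) ^ k ≤ K * T * (1 + |x|) ^ (B1_M D * k) := by
  obtain ⟨K, T0, hK, hT0, h⟩ := shifted_moment_w hRH D ha ha1 (B1_M D * k)
  have hc := B1_one_le_c2 D
  set N := B1_M D * k with hN
  refine ⟨((B1_M D + 1 : ℝ)) ^ k * (2 ^ N * (K + 3 * B1_c2 D ^ N)), T0, by positivity, hT0,
    fun T hT w hw x => ?_⟩
  have hTe : Real.exp 2 ≤ T := hT0.trans hT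
  have hTp : 0 < T := (Real.exp_pos _).trans_le hTe
  have hPc := B1_Pr1_continuous D T
  have hle : w + T ≤ w + 2 * T := by linarith
  have h1a : (1:ℝ) ≤ (1 + |x|) ^ N := one_le_pow₀ (by linarith [abs_nonneg x])
  have hbc := B1_b_continuous D T
  have hpt : ∀ t, B1_b D T (t - x) ^ k ≤ ((B1_M D + 1 : ℝ)) ^ k * (2 ^ N *
      (‖Pr1 D T (t - x)‖ ^ N + B1_c2 D ^ N)) := by
    intro t
    unfold B1_b
    rw [mul_pow, ← pow_mul]
    gcongr
    have h3 := add_pow_le (norm_nonneg (Pr1 D T (t - x))) (by linarith : 0 ≤ B1_c2 D) N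
    refine h3.trans ?_
    gcongr
    · norm_num
    · omega
  have hc1 : Continuous fun t => ‖Pr1 D T (t - x)‖ ^ N := by fun_prop
  calc _ ≤ ∫ t in (w + T)..(w + 2 * T), ((B1_M D + 1 : ℝ)) ^ k * (2 ^ N *
      (‖Pr1 D T (t - x)‖ ^ N + B1_c2 D ^ N)) := by
        refine intervalIntegral.integral_mono_on hle ?_ ?_ fun t _ => hpt t
        · exact (by fun_prop : Continuous fun t => B1_b D T (t - x) ^ k).intervalIntegrable _ _
        · exact (by fun_prop : Continuous fun t => ((B1_M D + 1 : ℝ)) ^ k * (2 ^ N *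
            (‖Pr1 D T (t - x)‖ ^ N + B1_c2 D ^ N))).intervalIntegrable _ _
    _ = ((B1_M D + 1 : ℝ)) ^ k * (2 ^ N * ((∫ t in (w + T)..(w + 2 * T), ‖Pr1 D T (t - x)‖ ^ N) +
          (w + 2 * T - (w + T)) * B1_c2 D ^ N)) := by
        rw [intervalIntegral.integral_const_mul, intervalIntegral.integral_const_mul,
          intervalIntegral.integral_add (hc1.intervalIntegrable _ _) (by simp),
          intervalIntegral.integral_const, smul_eq_mul]
    _ ≤ ((B1_M D + 1 : ℝ)) ^ k * (2 ^ N * (K * T * (1 + |x|) ^ N +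
          (3 * T) * B1_c2 D ^ N * (1 + |x|) ^ N)) := by
        have h4 := h T hT w hw x
        have h5 : (w + 2 * T - (w + T)) * B1_c2 D ^ N ≤ (3 * T) * B1_c2 D ^ N * (1 + |x|) ^ N := by
          have h6 : 0 < B1_c2 D ^ N := by positivity
          calc (w + 2 * T - (w + T)) * B1_c2 D ^ N ≤ (3 * T) * B1_c2 D ^ N * 1 := by nlinarith
            _ ≤ _ := by gcongr
        gcongr
    _ = _ := by ring

/-- Shifted moments of `V` on the line. -/
theorem V_moment_w (hRH : RiemannHypothesis) (D : AData) {a : ℝ} (ha : 0 < a) (ha1 : a ≤ 1)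
    (j : ℕ) : ∃ (N : ℕ) (K T0 : ℝ), 0 < K ∧
    Real.exp 2 ≤ T0 ∧ ∀ T : ℝ, T0 ≤ T → (∃ B, ∀ t, ‖B1_V D T t‖ ≤ B) ∧ ∀ w : ℝ,
      Hgt a 0 T w → ∀ y : ℝ,
      ∫ t in (w + T)..(w + 2 * T), ‖B1_V D T (t - y)‖ ^ (2 ^ j) ≤ K * T * (1 + |y|) ^ N := by
  obtain ⟨Φ, hΦc, hΦi, hΦ⟩ := Pool.Agent.ZGap.Res.FM.exists_Phi D.F_smooth D.F_supp
  obtain ⟨K, T0, hK, hT0, h⟩ := b_moment_w hRH D ha ha1 (2 ^ j)
  set N := B1_M D * 2 ^ j with hN
  have hΦ0 : Integrable fun x => ‖Φ x‖ := by simpa using hΦi 0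
  set W := ∫ x, ‖Φ x‖ with hW
  have hW0 : 0 ≤ W := integral_nonneg fun x => norm_nonneg _
  set V := ∫ x, ‖Φ x‖ * (1 + |x|) ^ N with hV
  have hV0 : 0 ≤ V := integral_nonneg fun x => by positivity
  refine ⟨N, W ^ (2 ^ j - 1) * (K * (1 + 2 * Real.pi) ^ N * V) + 1, T0, by positivity, hT0,
    fun T hT => ?_⟩
  have hTe : Real.exp 2 ≤ T := hT0.trans hT
  have hTp : 0 < T := (Real.exp_pos _).trans_le hTe
  have hL2 : 2 ≤ Real.log T := by rw [Real.le_log_iff_exp_le hTp]; exact hTe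
  have hT1 : 1 < T := by
    have := Real.add_one_le_exp (2:ℝ); linarith
  have hbc := B1_b_continuous D T
  have hb0 := B1_b_nonneg D T
  have hbB := B1_b_le D hTp.le
  set B := (B1_M D + 1) * (T + B1_c2 D) ^ B1_M D with hB
  have hpt : ∀ t, ‖B1_V D T t‖ ≤ ∫ x, ‖Φ x‖ * B1_b D T (t - 2 * Real.pi * x / Real.log T) := by
    intro t
    rw [B1_V_eq_integral D hΦc hΦ0 hΦ hT1]
    refine norm_integral_le_of_norm_le ?_ (Filter.Eventually.of_forall fun x => ?_)
    · exact B1_int_mul hΦ0 (by fun_prop) (fun x => hb0 _) (fun x => hbB _)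
    · rw [norm_mul]
      exact mul_le_mul_of_nonneg_left (B1_norm_E_le D hTe t x) (norm_nonneg _)
  have hVc : Continuous (B1_V D T) := by unfold B1_V; fun_prop
  refine ⟨⟨W * B, fun t => (hpt t).trans ?_⟩, fun w hw y => ?_⟩
  · rw [hW, ← integral_mul_const]
    refine integral_mono (B1_int_mul hΦ0 (by fun_prop) (fun x => hb0 _) (fun x => hbB _))
      (hΦ0.mul_const _) fun x => ?_
    exact mul_le_mul_of_nonneg_left (hbB _) (norm_nonneg _)
  · have hle : w + T ≤ w + 2 * T := by linarith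
    set s : ℝ → ℝ := fun x => y + 2 * Real.pi * x / Real.log T with hs
    have hsc : Continuous s := by simp only [hs]; fun_prop
    have hpt2 : ∀ t, ‖B1_V D T (t - y)‖ ≤ ∫ x, ‖Φ x‖ * B1_b D T (t - s x) := by
      intro t
      refine (hpt (t - y)).trans (le_of_eq ?_)
      refine integral_congr_ae (Filter.Eventually.of_forall fun x => ?_)
      simp only [hs]
      rw [sub_sub]
    have hsx : ∀ x, (1 + |s x|) ^ N ≤ (1 + |y|) ^ N * ((1 + 2 * Real.pi) ^ N * (1 + |x|) ^ N) := by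
      intro x
      rw [← mul_pow, ← mul_pow]
      have hpi := Real.pi_pos
      have h1 : |2 * Real.pi * x / Real.log T| ≤ 2 * Real.pi * |x| := by
        rw [abs_div, abs_mul, abs_of_pos (by positivity : 0 < 2 * Real.pi),
          abs_of_pos (by linarith : 0 < Real.log T)]
        exact div_le_self (by positivity) (by linarith)
      have h2 : |s x| ≤ |y| + 2 * Real.pi * |x| := (abs_add_le _ _).trans (by linarith)
      have h3 : 1 + |s x| ≤ (1 + |y|) * ((1 + 2 * Real.pi) * (1 + |x|)) := by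
        have h4 : 0 ≤ |y| := abs_nonneg y
        have h5 : 0 ≤ |x| := abs_nonneg x
        have h6 : 1 + 2 * Real.pi * |x| ≤ (1 + 2 * Real.pi) * (1 + |x|) := by nlinarith
        have h7 : 1 ≤ 1 + 2 * Real.pi * |x| := by nlinarith
        calc 1 + |s x| ≤ 1 + |y| + 2 * Real.pi * |x| := by linarith
          _ ≤ (1 + |y|) * (1 + 2 * Real.pi * |x|) := by nlinarith [mul_nonneg h4 (by linarith : 0 ≤ 2 * Real.pi * |x|)]
          _ ≤ _ := by gcongr
      have h8 : 0 ≤ 1 + |s x| := by positivity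
      exact pow_le_pow_left₀ h8 h3 _
    have hM := (hΦi N).const_mul (K * T * ((1 + |y|) ^ N * (1 + 2 * Real.pi) ^ N))
    have hconv := B1_conv hΦc.norm (fun x => norm_nonneg (Φ x)) hΦ0 hbc hb0 hbB hsc j hle
      (M := fun x => K * T * ((1 + |y|) ^ N * (1 + 2 * Real.pi) ^ N) * (1 + |x|) ^ N)
      (by
        refine hM.congr (Filter.Eventually.of_forall fun x => ?_)
        simp only
        ring)
      (fun x => by
        refine (h T hT w hw (s x)).trans ?_
        calc K * T * (1 + |s x|) ^ N ≤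
            K * T * ((1 + |y|) ^ N * ((1 + 2 * Real.pi) ^ N * (1 + |x|) ^ N)) := by
              have := hsx x
              gcongr
          _ = _ := by ring)
    have hEc := B1_conv_continuous hΦc.norm (fun x => norm_nonneg (Φ x)) hΦ0 hbc hb0 hbB hsc
    calc ∫ t in (w + T)..(w + 2 * T), ‖B1_V D T (t - y)‖ ^ (2 ^ j) ≤
        ∫ t in (w + T)..(w + 2 * T), (∫ x, ‖Φ x‖ * B1_b D T (t - s x)) ^ (2 ^ j) := by
          refine intervalIntegral.integral_mono_on hle ?_ ?_ fun t _ => ?_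
          · exact (by fun_prop : Continuous fun t =>
              ‖B1_V D T (t - y)‖ ^ (2 ^ j)).intervalIntegrable _ _
          · exact (hEc.pow _).intervalIntegrable _ _
          · exact pow_le_pow_left₀ (norm_nonneg _) (hpt2 t) _
      _ ≤ _ := hconv
      _ = (W ^ (2 ^ j - 1) * (K * (1 + 2 * Real.pi) ^ N * V)) * T * (1 + |y|) ^ N := by
          have e1 : ∀ x, ‖Φ x‖ * (K * T * ((1 + |y|) ^ N * (1 + 2 * Real.pi) ^ N) * (1 + |x|) ^ N) =
              (K * T * ((1 + |y|) ^ N * (1 + 2 * Real.pi) ^ N)) * (‖Φ x‖ * (1 + |x|) ^ N) :=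
            fun x => by ring
          simp_rw [e1]
          rw [integral_const_mul]
          ring
      _ ≤ _ := by
          have h1 : 0 ≤ T * (1 + |y|) ^ N := by positivity
          nlinarith

/-- **Moments of the mollifier in windows.** -/
theorem vmom_w (hRH : RiemannHypothesis) (D : AData) {a : ℝ} (ha : 0 < a) (ha1 : a ≤ 1) (A : ℝ)
    (n : ℕ) : ∃ K T0 : ℝ, 0 < K ∧
    ∀ T : ℝ, T0 ≤ T → ∃ E : ℝ → ℝ, Continuous E ∧ (∀ t, 0 ≤ E t) ∧
      (∀ (t : ℝ) (s : ℂ), ‖s - (1 / 2 + t * I)‖ ≤ A / Real.log T → ‖Vs D T s‖ ≤ E t) ∧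
      ∀ w : ℝ, Hgt a 0 T w → ∫ t in (w + T)..(w + 2 * T), E t ^ n ≤ K * T := by
  obtain ⟨N, K, T0, hK, hT0, hfm⟩ := V_moment_w hRH D ha ha1 n
  obtain ⟨C, hC, hdec⟩ := kk_decay A (N + 2)
  have hpos : ∀ u : ℝ, 0 < 1 + |u| := fun u => by positivity
  -- the weight
  set κ : ℝ → ℝ := fun u => C * ((1 + |u|) ^ (N + 2))⁻¹ with hκ
  have hκc : Continuous κ := by
    simp only [hκ]
    refine continuous_const.mul (Continuous.inv₀ (by fun_prop) fun u => ?_)
    exact pow_ne_zero _ (hpos u).ne'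
  have hκ0 : ∀ u, 0 ≤ κ u := fun u => by simp only [hκ]; positivity
  have hκN : Integrable fun u => κ u * (1 + |u|) ^ N := by
    refine (integrable_inv_one_add_sq.const_mul C).mono'
      (by fun_prop : Continuous fun u => κ u * (1 + |u|) ^ N).aestronglyMeasurable
      (Filter.Eventually.of_forall fun u => ?_)
    rw [Real.norm_of_nonneg (mul_nonneg (hκ0 u) (by positivity))]
    simp only [hκ]
    have h1 : 1 + u ^ 2 ≤ (1 + |u|) ^ 2 := by nlinarith [abs_nonneg u, sq_abs u]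
    have h2 : C * ((1 + |u|) ^ (N + 2))⁻¹ * (1 + |u|) ^ N = C * ((1 + |u|) ^ 2)⁻¹ := by
      rw [pow_add]
      have := (hpos u).ne'
      field_simp
    rw [h2]
    gcongr
  have hκi : Integrable κ := by
    refine hκN.mono' hκc.aestronglyMeasurable (Filter.Eventually.of_forall fun u => ?_)
    rw [Real.norm_of_nonneg (hκ0 u)]
    have : 1 ≤ (1 + |u|) ^ N := one_le_pow₀ (by linarith [abs_nonneg u])
    nlinarith [hκ0 u]
  set W := ∫ u, κ u with hW
  have hW0 : 0 ≤ W := integral_nonneg hκ0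
  set V := ∫ u, κ u * (1 + |u|) ^ N with hV
  have hV0 : 0 ≤ V := integral_nonneg fun u => mul_nonneg (hκ0 u) (by positivity)
  refine ⟨3 + W ^ (2 ^ n - 1) * (K * V), T0, by positivity, fun T hT => ?_⟩
  have hTe : Real.exp 2 ≤ T := hT0.trans hT
  have hTp : 0 < T := (Real.exp_pos _).trans_le hTe
  have hL2 : 2 ≤ Real.log T := by rw [Real.le_log_iff_exp_le hTp]; exact hTe
  have hL : 0 < Real.log T := by linarith
  have hT1 : 1 < T := by
    have := Real.add_one_le_exp (2:ℝ); linarith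
  obtain ⟨⟨B, hB⟩, hmom⟩ := hfm T hT
  have hVc : Continuous (B1_V D T) := by unfold B1_V; fun_prop
  set b : ℝ → ℝ := fun t => ‖B1_V D T t‖ with hb
  have hbc : Continuous b := by simp only [hb]; fun_prop
  have hb0 : ∀ t, 0 ≤ b t := fun t => norm_nonneg _
  have hbB : ∀ t, b t ≤ B := hB
  set s : ℝ → ℝ := fun u => -(u / Real.log T) with hs
  have hsc : Continuous s := by simp only [hs]; fun_prop
  set E : ℝ → ℝ := fun t => ∫ u : ℝ, κ u * b (t - s u) with hE
  have hEc : Continuous E := B1_conv_continuous hκc hκ0 hκi hbc hb0 hbB hsc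
  have hE0 : ∀ t, 0 ≤ E t := fun t => integral_nonneg fun u => mul_nonneg (hκ0 u) (hb0 _)
  refine ⟨E, hEc, hE0, fun t z hz => ?_, fun w hw => ?_⟩
  · -- the pointwise bound
    set z' : ℂ := -I * (z - 1 / 2) with hz'
    have e1 : z = 1 / 2 + z' * I := by
      have hI := Complex.I_mul_I
      rw [hz']
      linear_combination (z - 1 / 2) * hI
    have e2 : ‖z' - t‖ ≤ A / Real.log T := by
      have e3 : z' - t = -I * (z - (1 / 2 + t * I)) := by
        have hI := Complex.I_mul_I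
        rw [hz']
        linear_combination (-(t:ℂ)) * hI
      rw [e3, norm_mul, norm_neg, Complex.norm_I, one_mul]
      exact hz
    rw [e1, B1_Vs_eq D hT1, B1_VC_rep D hT1 t z']
    simp only [hE]
    refine norm_integral_le_of_norm_le (B1_int_mul hκi (by fun_prop) (fun u => hb0 _)
      (fun u => hbB _)) (Filter.Eventually.of_forall fun u => ?_)
    rw [norm_mul]
    have hw : ‖(z' - t) * (Real.log T : ℂ)‖ ≤ A := by
      rw [norm_mul, Complex.norm_real, Real.norm_of_nonneg hL.le]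
      rwa [le_div_iff₀ hL] at e2
    have h1 := hdec _ hw u
    have e4 : t - s u = t + u / Real.log T := by simp only [hs]; ring
    rw [e4]
    simp only [hb, hκ]
    gcongr
  · -- the moment
    have hle : w + T ≤ w + 2 * T := by linarith
    have hM : Integrable fun u => κ u * (K * T * (1 + |u|) ^ N) := by
      refine (hκN.const_mul (K * T)).congr (Filter.Eventually.of_forall fun u => ?_)
      simp only
      ring
    have hconv := B1_conv hκc hκ0 hκi hbc hb0 hbB hsc n hle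
      (M := fun u => K * T * (1 + |u|) ^ N) hM
      (fun u => by
        refine (hmom w hw (s u)).trans ?_
        have h2 : |s u| ≤ |u| := by
          simp only [hs]
          rw [abs_neg, abs_div, abs_of_pos hL]
          exact div_le_self (abs_nonneg _) (by linarith)
        gcongr)
    have hpow : ∀ t, E t ^ n ≤ 1 + E t ^ (2 ^ n) := by
      intro t
      rcases le_or_gt (E t) 1 with h1 | h1
      · have h2 : E t ^ n ≤ 1 := pow_le_one₀ (hE0 t) h1
        have h3 : 0 ≤ E t ^ (2 ^ n) := pow_nonneg (hE0 t) _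
        linarith
      · have h2 : E t ^ n ≤ E t ^ (2 ^ n) := pow_le_pow_right₀ h1.le Nat.lt_two_pow_self.le
        linarith
    calc ∫ t in (w + T)..(w + 2 * T), E t ^ n ≤ ∫ t in (w + T)..(w + 2 * T), (1 + E t ^ (2 ^ n)) := by
          refine intervalIntegral.integral_mono_on hle ?_ ?_ fun t _ => hpow t
          · exact (hEc.pow _).intervalIntegrable _ _
          · exact (continuous_const.add (hEc.pow _)).intervalIntegrable _ _
      _ = (w + 2 * T - (w + T)) + ∫ t in (w + T)..(w + 2 * T), E t ^ (2 ^ n) := by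
          have i1 : IntervalIntegrable (fun _ : ℝ => (1:ℝ)) volume (w + T) (w + 2 * T) := by simp
          have i2 : IntervalIntegrable (fun t : ℝ => E t ^ (2 ^ n)) volume (w + T) (w + 2 * T) :=
            (hEc.pow _).intervalIntegrable _ _
          rw [intervalIntegral.integral_add i1 i2, intervalIntegral.integral_const, smul_eq_mul,
            mul_one]
      _ ≤ 3 * T + W ^ (2 ^ n - 1) * ∫ u, κ u * (K * T * (1 + |u|) ^ N) := by
          have : w + 2 * T - (w + T) ≤ 3 * T := by linarith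
          exact add_le_add this hconv
      _ = (3 + W ^ (2 ^ n - 1) * (K * V)) * T := by
          have e1 : ∀ u, κ u * (K * T * (1 + |u|) ^ N) = (K * T) * (κ u * (1 + |u|) ^ N) :=
            fun u => by ring
          simp_rw [e1]
          rw [integral_const_mul]
          ring

end Pool.Agent.AHW
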