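import Pool.Agent.ZGap.DW.B1
import Pool.Agent.ZGap.AH.B2
import Pool.Agent.ZGap.PS.Exp

/-!
# Bounds on boxes
-/

open scoped ContDiff

namespace Pool.Agent.AHW

open Complex MeasureTheory Set Pool.Agent.Hadamard Pool.Agent.HalfGap Pool.Agent.AHD

theorem gbox_w (hRH : RiemannHypothesis) (D : AData) {a c : ℝ} (ha : 0 < a) (ha1 : a ≤ 1)
    (hc : 0 < c) : ∃ K T0 : ℝ, 0 < K ∧
    ∀ T : ℝ, T0 ≤ T → ∃ G : ℝ → ℝ, Continuous G ∧ (∀ t, 0 ≤ G t) ∧
      (∀ σ : ℝ, 0 ≤ σ → σ ≤ 1 / 2 → ∀ (t : ℝ) (s : ℂ), |s.re - 1 / 2| ≤ 1 / Real.log T →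
        |s.im - t| ≤ alp σ T → (∀ v, Xr v = 0 → c / Real.log T ≤ ‖s - (1 / 2 + v * I)‖) →
        ‖BS (QV (XN D T)) (bA D T (alp σ T)) wV s * fq (alp σ T) s‖ ≤ G t ∧
        ‖Fs D T (alp σ T) s‖ ≤ G t ∧ ‖fq (alp σ T) s‖ ≤ G t) ∧
      ∀ w : ℝ, Hgt a 0 T w → ∫ t in (w + T)..(w + 2 * T), G t ^ 2 ≤ K * T := by
  have hpi := Real.pi_pos
  obtain ⟨b', hb'⟩ := exists_nat_ge (1 / a)
  obtain ⟨b, hb, hba⟩ : ∃ b : ℕ, 1 ≤ b ∧ 1 / (b:ℝ) ≤ a := by
    refine ⟨max b' 1, le_max_right _ _, ?_⟩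
    have h2 : 1 / a ≤ ((max b' 1 : ℕ) : ℝ) := hb'.trans (by exact_mod_cast le_max_left _ _)
    exact (one_div_le ha (lt_of_lt_of_le (by positivity) h2)).mp h2
  obtain ⟨C, hC, hfq⟩ := fq_le_exp hRH (A := (2 * Real.pi + 1) / a) (c := c / a) (by positivity)
    (by positivity)
  obtain ⟨K1, T1, hK1, hV⟩ := vmom_w hRH D ha ha1 (2 * Real.pi + 1) 8
  obtain ⟨K2, T2, hK2, hX⟩ := Pool.Agent.ShortPos.exp_moment_short hRH hb (4 * C) (by positivity)
  refine ⟨128 * (5 / 2 + K1) + K2 / 2, max (max T1 T2) (Real.exp 1), by positivity,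
    fun T hT => ?_⟩
  have hT1 : T1 ≤ T := (le_max_left _ _).trans ((le_max_left _ _).trans hT)
  have hT2 : T2 ≤ T := (le_max_right _ _).trans ((le_max_left _ _).trans hT)
  have hTe : Real.exp 1 ≤ T := (le_max_right _ _).trans hT
  have hT0 : 0 < T := (Real.exp_pos 1).trans_le hTe
  have hT1' : 1 ≤ T := (Real.one_le_exp (by norm_num)).trans hTe
  have hL1 : 1 ≤ Real.log T := by
    rw [Real.le_log_iff_exp_le hT0]
    exact hTe
  obtain ⟨Th, hTh⟩ : ∃ Th : ℝ, Th = T ^ (1 / a) := ⟨_, rfl⟩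
  have hTTh : T ≤ Th := by rw [hTh]; exact le_rpow_inv ha ha1 hT1'
  have hTh1 : 1 ≤ Th := hT1'.trans hTTh
  have hTh0 : 0 < Th := by linarith
  have hTa : Th ^ a = T := by
    rw [hTh, ← Real.rpow_mul hT0.le, one_div_mul_cancel ha.ne', Real.rpow_one]
  have hTbH : Th ^ (1 / (b:ℝ)) ≤ T := by
    calc Th ^ (1 / (b:ℝ)) ≤ Th ^ a := Real.rpow_le_rpow_of_exponent_le hTh1 hba
      _ = T := hTa
  have hlogTh : Real.log Th = Real.log T / a := by
    rw [hTh, log_rpow_inv hT0]
  have hlog1 : Real.log T ≤ Real.log Th := Real.log_le_log hT0 hTTh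
  have hLh1 : 1 ≤ Real.log Th := hL1.trans hlog1
  have hdiv : ∀ x : ℝ, x / a / Real.log Th = x / Real.log T := by
    intro x
    rw [hlogTh]
    field_simp
  obtain ⟨E, hEc, hE0, hEV, hEI⟩ := hV T hT1
  have hXc : Continuous (XX Th) := XX_continuous hRH hLh1
  set L := Real.log T with hL
  have hL0 : 0 < L := by linarith
  refine ⟨fun t => (1 + E t) ^ 2 * Real.exp (C * XX Th t), by fun_prop, fun t => by positivity,
    ?_, fun w hw => ?_⟩
  · intro σ hσ1 hσ2 t s hs1 hs2 hs3
    set α := alp σ T with hα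
    have hα0 : 0 ≤ α := by
      rw [hα]
      unfold alp
      positivity
    have hα1 : α ≤ Real.pi / L := by
      rw [hα]
      unfold alp
      apply div_le_div_of_nonneg_right _ hL0.le
      nlinarith
    have hα2 : Real.pi / L ≤ (2 * Real.pi + 1) / L := by
      apply div_le_div_of_nonneg_right _ hL0.le
      linarith
    have hX1 : ‖fq α s‖ ≤ Real.exp (C * XX Th t) := by
      refine hfq Th hLh1 t α hα0 (by rw [hdiv]; exact hα1.trans hα2) s ?_ ?_
      · have e1 : s - (1 / 2 + t * I) = ((s.re - 1 / 2 : ℝ) : ℂ) + ((s.im - t : ℝ) : ℂ) * I := by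
          apply Complex.ext <;> simp
        rw [e1, hdiv]
        refine (norm_add_le _ _).trans ?_
        rw [norm_mul, norm_I, mul_one, norm_real, norm_real, Real.norm_eq_abs, Real.norm_eq_abs]
        calc |s.re - 1 / 2| + |s.im - t| ≤ 1 / L + Real.pi / L := add_le_add hs1 (hs2.trans hα1)
          _ = (Real.pi + 1) / L := by ring
          _ ≤ (2 * Real.pi + 1) / L := by
              apply div_le_div_of_nonneg_right _ hL0.le
              linarith
      · intro ρ hρ
        obtain ⟨b1, b2⟩ := (xiF_zero_iff hRH).mp (xiF_eq_zero_iff.mpr hρ)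
        have e2 : ρ = 1 / 2 + (ρ.im : ℂ) * I := by
          apply Complex.ext
          · rw [b1]; simp
          · simp
        rw [e2, hdiv]
        exact hs3 _ b2
    have hdist : ∀ x : ℝ, |x| ≤ 1 / L →
        ‖((1 / 2 + x : ℝ) : ℂ) + ((s.im + α : ℝ) : ℂ) * I - (1 / 2 + t * I)‖ ≤
          (2 * Real.pi + 1) / L := by
      intro x hx
      have e1 : ((1 / 2 + x : ℝ) : ℂ) + ((s.im + α : ℝ) : ℂ) * I - (1 / 2 + t * I) =
          (x : ℂ) + ((s.im - t + α : ℝ) : ℂ) * I := by
        apply Complex.ext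
        · simp
        · simp; ring
      rw [e1]
      refine (norm_add_le _ _).trans ?_
      rw [norm_mul, norm_I, mul_one, norm_real, norm_real, Real.norm_eq_abs, Real.norm_eq_abs]
      have h5 : |s.im - t + α| ≤ α + α := (abs_add_le _ _).trans (by rw [abs_of_nonneg hα0]; linarith)
      calc |x| + |s.im - t + α| ≤ 1 / L + (Real.pi / L + Real.pi / L) :=
            add_le_add hx (h5.trans (add_le_add hα1 hα1))
        _ = (2 * Real.pi + 1) / L := by ring
    have hV1 : ‖Vs D T (s + α * I)‖ ≤ E t := by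
      apply hEV
      have e3 : s + α * I = ((1 / 2 + (s.re - 1 / 2) : ℝ) : ℂ) + ((s.im + α : ℝ) : ℂ) * I := by
        apply Complex.ext <;> simp
      rw [e3]
      exact hdist _ hs1
    have hV2 : ‖Vs D T (1 - (starRingEnd ℂ) s + α * I)‖ ≤ E t := by
      apply hEV
      have e3 : 1 - (starRingEnd ℂ) s + α * I =
          ((1 / 2 + (1 / 2 - s.re) : ℝ) : ℂ) + ((s.im + α : ℝ) : ℂ) * I := by
        apply Complex.ext
        · simp; ring
        · simp
      rw [e3]
      apply hdist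
      rw [abs_sub_comm]
      exact hs1
    have hE := hE0 t
    have hXp := Real.exp_pos (C * XX Th t)
    refine ⟨?_, ?_, ?_⟩
    · rw [norm_mul, BA_eq, norm_mul, Complex.norm_conj]
      refine mul_le_mul ?_ hX1 (norm_nonneg _) (by positivity)
      calc ‖Vs D T (s + α * I)‖ * ‖Vs D T (1 - (starRingEnd ℂ) s + α * I)‖ ≤ E t * E t :=
            mul_le_mul hV1 hV2 (norm_nonneg _) hE
        _ ≤ (1 + E t) ^ 2 := by nlinarith
    · unfold Fs
      rw [norm_mul]
      refine mul_le_mul (hV1.trans ?_) hX1 (norm_nonneg _) (by positivity)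
      nlinarith
    · calc ‖fq α s‖ ≤ 1 * Real.exp (C * XX Th t) := by rw [one_mul]; exact hX1
        _ ≤ (1 + E t) ^ 2 * Real.exp (C * XX Th t) := by
            apply mul_le_mul_of_nonneg_right _ hXp.le
            nlinarith
  · have h1 : ∀ t, ((1 + E t) ^ 2 * Real.exp (C * XX Th t)) ^ 2 ≤
        128 * (1 + E t ^ 8) + Real.exp (4 * C * XX Th t) / 2 := by
      intro t
      refine (B2_ineq (hE0 t) (Real.exp_pos _).le).trans (le_of_eq ?_)
      rw [← Real.exp_nat_mul]
      congr 3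
      push_cast
      ring
    have hab : w + T ≤ w + 2 * T := by linarith
    have h2 : ∫ t in (w + T)..(w + 2 * T), ((1 + E t) ^ 2 * Real.exp (C * XX Th t)) ^ 2 ≤
        ∫ t in (w + T)..(w + 2 * T), (128 * (1 + E t ^ 8) + Real.exp (4 * C * XX Th t) / 2) := by
      apply intervalIntegral.integral_mono_on hab
      · exact Continuous.intervalIntegrable (by fun_prop) _ _
      · exact Continuous.intervalIntegrable (by fun_prop) _ _
      · intro t _
        exact h1 t
    have h3 : ∫ t in (w + T)..(w + 2 * T), (128 * (1 + E t ^ 8) + Real.exp (4 * C * XX Th t) / 2) =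
        128 * ((w + 2 * T - (w + T)) + ∫ t in (w + T)..(w + 2 * T), E t ^ 8) +
          (∫ t in (w + T)..(w + 2 * T), Real.exp (4 * C * XX Th t)) / 2 := by
      rw [intervalIntegral.integral_add (Continuous.intervalIntegrable (by fun_prop) _ _)
        (Continuous.intervalIntegrable (by fun_prop) _ _), intervalIntegral.integral_const_mul,
        intervalIntegral.integral_add (Continuous.intervalIntegrable (by fun_prop) _ _)
        (Continuous.intervalIntegrable (by fun_prop) _ _), intervalIntegral.integral_const,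
        intervalIntegral.integral_div, smul_eq_mul, mul_one]
    have h4 : ∫ t in (w + T)..(w + 2 * T), Real.exp (4 * C * XX Th t) ≤ K2 * T := by
      obtain ⟨hw1, hw2⟩ := hw
      rw [← hTh] at hw1 hw2
      have e : w + 2 * T = (w + T) + T := by ring
      rw [e]
      exact hX Th (hT2.trans hTTh) (w + T) T (by linarith) (by linarith) hTbH
    have h5 := hEI w hw
    refine h2.trans ?_
    rw [h3]
    nlinarith

end Pool.Agent.AHW
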