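import Pool.Agent.ZGap.AH.C1
import Pool.Agent.ZGap.DW.Defs

/-!
# The representation in a window
-/

open scoped ContDiff ComplexConjugate

namespace Pool.Agent.AHW

open Complex MeasureTheory Set Pool.Agent.Hadamard Pool.Agent.HalfGap Pool.Agent.AHD


lemma fq_hor_w (hRH : RiemannHypothesis) : ∃ C T0 : ℝ, 0 < C ∧ 10 ≤ T0 ∧ ∀ T : ℝ, T0 ≤ T →
    ∀ α : ℝ, 0 ≤ α → α ≤ 2 * Real.pi / Real.log T → ∀ s : ℂ, s.re ≤ 2 → T / 8 ≤ s.im →
    s.im ≤ 8 * T → (∀ v, Xr v = 0 → 1 / Real.log T ≤ |v - s.im|) → ‖fq α s‖ ≤ T ^ C := by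
  obtain ⟨C1, T1, hC1, hT1, h1⟩ := fq_le_rpow_right hRH (A := 2 * Real.pi) (by positivity)
  obtain ⟨C2, T2, hC2, hT2, h2⟩ := fq_le_rpow_strip hRH (A := 2 * Real.pi) (c := 1)
    (by positivity) one_pos
  obtain ⟨C3, hC3, h3⟩ := C1_fq_far
  refine ⟨max C1 C2 + 1, max (max T1 T2) (max C3 (Real.exp 8)),
    by have := le_max_left C1 C2; linarith,
    hT1.trans ((le_max_left _ _).trans (le_max_left _ _)),
    fun T hT α hα hα2 s hs him1 him2 hd => ?_⟩
  have hTT1 : T1 ≤ T := (le_max_left _ _).trans ((le_max_left _ _).trans hT)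
  have hTT2 : T2 ≤ T := (le_max_right _ _).trans ((le_max_left _ _).trans hT)
  have hTC : C3 ≤ T := (le_max_left _ _).trans ((le_max_right _ _).trans hT)
  have hTe : Real.exp 8 ≤ T := (le_max_right _ _).trans ((le_max_right _ _).trans hT)
  have hT10 : 10 ≤ T := hT1.trans hTT1
  have hT1' : 1 ≤ T := by linarith
  have hT0 : 0 < T := by linarith
  have hL : 8 ≤ Real.log T := by
    rw [← Real.log_exp 8]; exact Real.log_le_log (Real.exp_pos _) hTe
  have hL0 : 0 < Real.log T := by linarith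
  have hL1 : 0 < 1 / Real.log T := by positivity
  have hα1 : α ≤ 1 := by
    refine hα2.trans ?_
    rw [div_le_one hL0]
    linarith [Real.pi_lt_d2]
  have hE1 : T ^ C1 ≤ T ^ (max C1 C2 + 1) :=
    Real.rpow_le_rpow_of_exponent_le hT1' (by linarith [le_max_left C1 C2])
  have hE2 : T ^ C2 ≤ T ^ (max C1 C2 + 1) :=
    Real.rpow_le_rpow_of_exponent_le hT1' (by linarith [le_max_right C1 C2])
  have hE3 : C3 ≤ T ^ (max C1 C2 + 1) := by
    refine hTC.trans ?_
    nth_rewrite 1 [← Real.rpow_one T]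
    exact Real.rpow_le_rpow_of_exponent_le hT1' (by linarith [le_max_left C1 C2])
  rcases le_or_gt (1 / 2 + 1 / Real.log T) s.re with h | h
  · exact (h1 T hTT1 α hα hα2 s h hs him1 him2).trans hE1
  rcases le_or_gt (1 / 2 - 1 / Real.log T) s.re with h' | h'
  · refine (h2 T hTT2 α hα hα2 s ?_ him1 him2 ?_).trans hE2
    · rw [abs_le]; constructor <;> linarith
    · intro ρ hρ
      refine (hd ρ.im (Xr_of_ntz hRH hρ)).trans ?_
      have := Complex.abs_im_le_norm (s - ρ)
      rw [sub_im] at this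
      rw [abs_sub_comm]
      exact this
  · rw [C1_fq_refl]
    have e1 : (1 - conj s).re = 1 - s.re := by simp
    have e2 : (1 - conj s).im = s.im := by simp
    rcases le_or_gt (1 - s.re) 2 with h'' | h''
    · exact (h1 T hTT1 α hα hα2 _ (by rw [e1]; linarith) (by rw [e1]; exact h'')
        (by rw [e2]; exact him1) (by rw [e2]; exact him2)).trans hE1
    · exact (h3 α hα hα1 _ (by rw [e1]; linarith) (by rw [e2]; linarith)).trans hE3


theorem rep_w (hRH : RiemannHypothesis) {a : ℝ} (ha : 0 < a) (ha1 : a ≤ 1) : ∃ N0 : ℕ, ∀ N : ℕ,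
    N0 ≤ N → ∀ D : AData, D.ep ≤ a → ∀ τ θ : ℝ,
    1 / (1 + a) - D.ep ^ 2 ≤ τ → τ < 1 / (1 + a) → 0 < θ → θ ≤ 1 / 8 →
    ∃ K T0 : ℝ, 0 < K ∧ ∀ T : ℝ, T0 ≤ T → ∀ w : ℝ, Hgt a θ T w →
    ∃ h1 ∈ Icc (w + (5 / 4 - θ / 2) * T) (w + (5 / 4 - θ / 4) * T),
    ∃ h2 ∈ Icc (w + (7 / 4 + θ / 4) * T) (w + (7 / 4 + θ / 2) * T),
    ∀ G : ℝ → ℝ, Continuous G → (∀ t, 0 ≤ G t) →
    (∀ t ∈ Icc h1 h2, ∀ s : ℂ, |s.re - 1 / 2| ≤ 1 / Real.log T →
        |s.im - t| ≤ alp (a * τ) T →
        (∀ v, Xr v = 0 → D.ep ^ 2 / 2 / Real.log T ≤ ‖s - (1 / 2 + v * I)‖) →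
        ‖Fs D T (alp (a * τ) T) s‖ ≤ G t) →
    ∀ s0 : ℂ, D.ep ^ 2 / Real.log T ≤ |s0.re - 1 / 2| →
      |s0.re - 1 / 2| ≤ 1 / (D.ep * Real.log T) →
      s0.im ∈ Icc (w + 5 * T / 4) (w + 7 * T / 4) →
      ‖Fs D T (alp (a * τ) T) s0 - LowI D N T (alp (a * τ) T) h1 h2 s0 +
        ResP D N T (alp (a * τ) T) h1 h2 s0‖ ≤
        K * (∫ t in Ioc h1 h2 ∩ EE (alp (a * τ) T), G t * kk1 T (t - s0.im)) + 1 / T := by
  obtain ⟨C1, T1, hC1, hT1, hfq⟩ := fq_hor_w hRH
  obtain ⟨C3, hC3, hfar⟩ := C1_fq_far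
  refine ⟨⌈C1 / a⌉₊ + 8, fun N hN D hDa τ θ hτa hτb hθ hθ8 => ?_⟩
  have hNC : C1 / a + 7 ≤ (N : ℝ) := by
    have h1 := Nat.le_ceil (C1 / a)
    have h2 : ((⌈C1 / a⌉₊ + 8 : ℕ) : ℝ) ≤ N := by exact_mod_cast hN
    push_cast at h2
    linarith
  have hτ1 : 49 / 100 < τ := tau_pos ha ha1 D.ep_pos D.ep_le hτa
  have hτ2 : τ < 1 := tau_lt_one ha hτb
  have hσ2 : a * τ < 1 / 2 := sig_lt ha ha1 hτb
  have hσ1 : 49 / 100 * a < a * τ := sig_gt ha hτ1
  have hN1 : 1 ≤ N := by omega
  have hep := D.ep_pos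
  have hep1 := D.ep_le
  have hpi := Real.pi_pos
  have hpi3 := Real.pi_gt_three
  obtain ⟨C2, T2, hC2, hT2, hcut⟩ := exists_good_cut (τ := τ) (by linarith) (by linarith)
  have hAge : 4 ≤ 4 / D.ep ^ 2 := by
    rw [le_div_iff₀ (by positivity)]
    nlinarith
  set A : ℝ := 4 / D.ep ^ 2 with hAdef
  set B : ℝ := (16 * N / (D.ep * θ)) ^ N with hBdef
  have hB : 0 ≤ B := by positivity
  have hK := C1_K_nonneg D N
  refine ⟨6 * (C1_K D N + 1), max T1 T2 + Real.exp (2 / D.ep + 4) + 4 * C2 / θ + 4 / θ +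
    4 * (A + 2) * B + 4 * C3 * Real.exp (1 / D.ep), by linarith, fun T hT w hHgt => ?_⟩
  have p1 : 0 < Real.exp (2 / D.ep + 4) := Real.exp_pos _
  have p2 : 0 ≤ 4 * C2 / θ := by positivity
  have p3 : 0 ≤ 4 / θ := by positivity
  have p4 : 0 ≤ 4 * (A + 2) * B := by positivity
  have p5 : 0 ≤ 4 * C3 * Real.exp (1 / D.ep) := by positivity
  have p6 : 10 ≤ max T1 T2 := hT1.trans (le_max_left _ _)
  have hTT1 : T1 ≤ T := by linarith [le_max_left T1 T2]
  have hTT2 : T2 ≤ T := by linarith [le_max_right T1 T2]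
  have hTe : Real.exp (2 / D.ep + 4) ≤ T := by linarith
  have hTC : C2 ≤ θ * T / 4 := by
    have : 4 * C2 / θ ≤ T := by linarith
    rw [div_le_iff₀ hθ] at this
    linarith
  have hTθ : 4 ≤ θ * T := by
    have : 4 / θ ≤ T := by linarith
    rw [div_le_iff₀ hθ] at this
    linarith
  have hTB : 4 * (A + 2) * B ≤ T := by linarith
  have hTC3 : 4 * C3 * Real.exp (1 / D.ep) ≤ T := by linarith
  have hT10 : 10 ≤ T := by linarith
  have hT1' : 1 < T := by linarith
  have hT0 : 0 < T := by linarith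
  have hZT : T ≤ T ^ (1 / a) := le_rpow_inv ha ha1 hT1'.le
  have hZlog : Real.log (T ^ (1 / a)) = Real.log T / a := log_rpow_inv hT0
  have hZT1 : T1 ≤ T ^ (1 / a) := hTT1.trans hZT
  have hZT2 : T2 ≤ T ^ (1 / a) := hTT2.trans hZT
  obtain ⟨hHg1, hHg2⟩ := hHgt
  set Z := T ^ (1 / a) with hZdef
  have hZ0 : 0 < Z := by linarith
  have hZC : Z ^ C1 = T ^ (C1 / a) := by
    rw [hZdef, ← Real.rpow_mul hT0.le]
    congr 1
    ring
  have hL2 : 2 / D.ep + 4 ≤ Real.log T := by
    rw [← Real.log_exp (2 / D.ep + 4)]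
    exact Real.log_le_log (Real.exp_pos _) hTe
  have h2ep : 0 < 2 / D.ep := by positivity
  have hL4 : 4 ≤ Real.log T := by linarith
  have hL0 : 0 < Real.log T := by linarith
  have hepL : 2 ≤ D.ep * Real.log T := by
    have : 2 / D.ep ≤ Real.log T := by linarith
    rw [div_le_iff₀ hep] at this
    linarith
  -- the cuts
  have hθT : θ * T ≤ 1 / 8 * T := by gcongr
  have hθT' : 0 < θ * T := by positivity
  obtain ⟨h1, ⟨hh1a, hh1b⟩, hh1c⟩ := hcut Z hZT2 (w + (5 / 4 - θ / 2) * T) (by linarith)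
    (by linarith)
  obtain ⟨h2, ⟨hh2a, hh2b⟩, hh2c⟩ := hcut Z hZT2 (w + (7 / 4 + θ / 4) * T) (by linarith)
    (by linarith)
  have hh1d : h1 ≤ w + (5 / 4 - θ / 4) * T := by linarith
  have hh2d : h2 ≤ w + (7 / 4 + θ / 2) * T := by linarith
  have hh1Z : Z ≤ h1 := by linarith
  have hh2Z : h2 ≤ 2 * Z := by linarith
  refine ⟨h1, ⟨hh1a, hh1d⟩, h2, ⟨hh2a, hh2d⟩, ?_⟩
  have hσ0 : 0 < a * τ := by positivity
  have hα0 : 0 < alp (a * τ) T := by unfold alp; positivity
  have hαhalf : alp (a * τ) T / 2 = Real.pi * (a * τ) / Real.log T := by unfold alp; ring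
  have hα2 : alp (a * τ) T ≤ Real.pi / Real.log T := by
    unfold alp
    apply div_le_div_of_nonneg_right _ hL0.le
    have := mul_nonneg hpi.le (by linarith : 0 ≤ 1 / 2 - a * τ)
    linarith
  have hπτ : 1 ≤ Real.pi * τ := by
    calc (1 : ℝ) ≤ 3 * (49 / 100) := by norm_num
      _ ≤ Real.pi * τ := by gcongr
  have hZL0 : 0 < Real.log Z := by rw [hZlog]; positivity
  have hα3 : 1 / Real.log Z ≤ Real.pi * τ / Real.log Z := by gcongr
  have hcutα : Real.pi * τ / Real.log Z = alp (a * τ) T / 2 := by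
    rw [hαhalf, hZlog]
    field_simp
  have hα2Z : alp (a * τ) T ≤ 2 * Real.pi / Real.log Z := by
    have e : alp (a * τ) T = 2 * (Real.pi * τ / Real.log Z) := by rw [hcutα]; ring
    rw [e, ← mul_div_assoc]
    apply div_le_div_of_nonneg_right _ hZL0.le
    have := mul_nonneg hpi.le (by linarith : 0 ≤ 1 - τ)
    linarith
  have hα1 : alp (a * τ) T ≤ 1 := by
    refine hα2.trans ?_
    rw [div_le_one hL0]
    linarith [Real.pi_lt_d2]
  set α := alp (a * τ) T with hαdef
  have hX : ∀ v : ℝ, Xr v = 0 → (1 / 2 + (v : ℂ) * I) ∈ ntz := by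
    intro v hv
    apply xiF_eq_zero_iff.mp
    rw [xiF_half, hv]; simp
  have hcut1 : ∀ v, Xr v = 0 → Real.pi * τ / Real.log Z ≤ |v - h1| := by
    intro v hv
    have h3 := hh1c _ (hX v hv)
    simpa using h3
  have hcut2 : ∀ v, Xr v = 0 → Real.pi * τ / Real.log Z ≤ |v - h2| := by
    intro v hv
    have h3 := hh2c _ (hX v hv)
    simpa using h3
  have hrpos : 0 < Real.pi * τ / Real.log Z := by positivity
  have hne1 : Xr h1 ≠ 0 := by
    intro h0
    have h3 := hcut1 h1 h0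
    rw [sub_self, abs_zero] at h3
    linarith
  have hne2 : Xr h2 ≠ 0 := by
    intro h0
    have h3 := hcut2 h2 h0
    rw [sub_self, abs_zero] at h3
    linarith
  intro G hGc hG0 hGb s0 hs0a hs0b hs0c
  obtain ⟨hs0c, hs0d⟩ := hs0c
  set y : ℝ := D.ep ^ 2 / (2 * Real.log T) with hydef
  have hy : 0 < y := by positivity
  have h2y : D.ep ^ 2 / Real.log T = 2 * y := by rw [hydef]; field_simp
  have hy' : D.ep ^ 2 / 2 / Real.log T = y := by rw [hydef]; field_simp
  have hyL : y ≤ 1 / Real.log T := by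
    rw [← hy']
    apply div_le_div_of_nonneg_right _ hL0.le
    have : D.ep ^ 2 ≤ 1 := pow_le_one₀ hep.le (by linarith)
    linarith
  have hyα2 : y ≤ α / 2 := by
    rw [hαhalf, ← hy']
    apply div_le_div_of_nonneg_right _ hL0.le
    have e1 : D.ep ^ 2 ≤ a := by nlinarith
    nlinarith
  have hyep : y ≤ 1 / (D.ep * Real.log T) := by
    refine hyL.trans ?_
    apply one_div_le_one_div_of_le (by positivity)
    exact mul_le_of_le_one_left hL0.le (by linarith)
  have hepL' : 1 / (D.ep * Real.log T) ≤ 1 / 2 := by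
    rw [div_le_div_iff₀ (by positivity) (by norm_num)]
    linarith
  rw [h2y] at hs0a
  have hy1 : y < |s0.re - 1 / 2| := by linarith
  have hy2 : |s0.re - 1 / 2| < 3 / 2 := by linarith
  have hθT0 : 0 < θ * T := by positivity
  have hh1 : h1 < s0.im := by linarith
  have hh2 : s0.im < h2 := by linarith
  have hid := C1_ident hRH D N T α (h1 := h1) (h2 := h2) (y := y) (A := A) (s0 := s0) hy
    (by linarith) hy1 hy2 hh1 hh2 hne1 hne2
  have hs0re : 0 ≤ s0.re := by
    have := hs0b.trans hepL'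
    rw [abs_le] at this
    linarith [this.1]
  -- the horizontal sides
  have hhor : ∀ h : ℝ, Z / 8 ≤ h → h ≤ 8 * Z → θ * T / 4 ≤ |h - s0.im| →
      (∀ v, Xr v = 0 → Real.pi * τ / Real.log Z ≤ |v - h|) →
      ‖∫ x : ℝ in (1 / 2 - A)..2, C1_f D N T α s0 (x + h * I)‖ ≤ 1 / (4 * T) := by
    intro h ha' hb hc hd
    have h3 : ∀ x ∈ Set.uIoc (1 / 2 - A) 2, ‖C1_f D N T α s0 ((x : ℂ) + h * I)‖ ≤
        B * (T ^ 3)⁻¹ := by
      intro x hx
      rw [Set.uIoc_of_le (by linarith)] at hx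
      have e1 : ((x : ℂ) + h * I).re = x := by simp
      have e2 : ((x : ℂ) + h * I).im = h := by simp
      apply C1_hor hN1 hNC D hθ hL4 hT1' hTθ hs0re (by rw [e1]; exact hx.2) (by rw [e2]; exact hc)
      rw [← hZC]
      apply hfq Z hZT1 α hα0.le hα2Z _ (by rw [e1]; exact hx.2) (by rw [e2]; exact ha')
        (by rw [e2]; exact hb)
      intro v hv
      rw [e2]
      exact hα3.trans (hd v hv)
    refine (intervalIntegral.norm_integral_le_of_norm_le_const h3).trans ?_
    have e3 : |2 - (1 / 2 - A)| = A + 3 / 2 := by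
      rw [abs_of_nonneg (by linarith)]; ring
    rw [e3]
    have h4 : 4 * (A + 2) * B ≤ T ^ 2 := hTB.trans (le_self_pow₀ hT1'.le (by norm_num))
    rw [le_div_iff₀ (by positivity)]
    calc B * (T ^ 3)⁻¹ * (A + 3 / 2) * (4 * T) ≤ B * (T ^ 3)⁻¹ * (A + 2) * (4 * T) := by
          gcongr
          linarith
      _ = (4 * (A + 2) * B) * (T * (T ^ 3)⁻¹) := by ring
      _ ≤ T ^ 2 * (T * (T ^ 3)⁻¹) := by gcongr
      _ = 1 := by field_simp
  have hhor1 := hhor h1 (by linarith) (by linarith)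
    (by rw [abs_sub_comm, abs_of_nonneg (by linarith)]; linarith) hcut1
  have hhor2 := hhor h2 (by linarith) (by linarith)
    (by rw [abs_of_nonneg (by linarith)]; linarith) hcut2
  -- the left side
  have hleft : ‖∫ y : ℝ in h1..h2, C1_f D N T α s0 (((1 / 2 - A : ℝ) : ℂ) + y * I)‖ ≤
      1 / (4 * T) := by
    have h3 : ∀ x ∈ Set.uIoc h1 h2, ‖C1_f D N T α s0 (((1 / 2 - A : ℝ) : ℂ) + x * I)‖ ≤
        C3 * Real.exp (1 / D.ep) * (T ^ 3)⁻¹ := by
      intro x hx
      rw [Set.uIoc_of_le (by linarith)] at hx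
      have e1 : ((((1 / 2 - A : ℝ) : ℂ)) + x * I).re = 1 / 2 - A := by simp
      have e2 : ((((1 / 2 - A : ℝ) : ℂ)) + x * I).im = x := by simp
      apply C1_left hN1 D (by linarith) hT1' hs0b e1 hC3.le
      rw [C1_fq_refl]
      apply hfar α hα0.le hα1
      · rw [sub_re, one_re, conj_re, e1]; linarith
      · rw [sub_im, one_im, conj_im, e2]; linarith [hx.1]
    refine (intervalIntegral.norm_integral_le_of_norm_le_const h3).trans ?_
    have e3 : |h2 - h1| ≤ T := by
      rw [abs_of_nonneg (by linarith)]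
      linarith
    rw [le_div_iff₀ (by positivity)]
    calc C3 * Real.exp (1 / D.ep) * (T ^ 3)⁻¹ * |h2 - h1| * (4 * T)
        ≤ C3 * Real.exp (1 / D.ep) * (T ^ 3)⁻¹ * T * (4 * T) := by gcongr
      _ = (4 * C3 * Real.exp (1 / D.ep)) * (T * T * (T ^ 3)⁻¹) := by ring
      _ ≤ T * (T * T * (T ^ 3)⁻¹) := by gcongr
      _ = 1 := by field_simp
  -- the strip
  have hstrip := strip_eq hRH (α := α) (y := y) (h1 := h1) (h2 := h2) hα0 hy (by linarith)
    (N := C1_N D N T α s0) (fun s hs => by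
      apply C1_N_diff
      intro hss
      have h3 : |s.re - 1 / 2| ≤ y := by
        rw [abs_le]
        obtain ⟨g1, g2, -, -⟩ := hs
        constructor <;> linarith
      rw [hss] at h3
      linarith) (fun w hw => by rw [← hcutα]; exact hcut1 w hw)
    (fun w hw => by rw [← hcutα]; exact hcut2 w hw)
    (G := fun t => C1_K D N * (G t * kk1 T (t - s0.im)))
    (fun t => by
      have h3 : 0 ≤ kk1 T (t - s0.im) := by unfold kk1; positivity
      exact mul_nonneg hK (mul_nonneg (hG0 t) h3))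
    (by
      have h3 : Continuous (fun t : ℝ => kk1 T (t - s0.im)) := by
        unfold kk1
        apply Continuous.div continuous_const (by fun_prop)
        intro x
        positivity
      exact ((hGc.mul h3).const_smul (C1_K D N)).integrableOn_Ioc)
    (by
      intro t ht s hs1 hs2 hs3 hs4
      have e : C1_N D N T α s0 s / xiF s = C1_f D N T α s0 s := by
        rw [C1_f_eq']
      rw [e]
      unfold C1_f
      rw [norm_mul]
      have b1 : ‖Fs D T α s‖ ≤ G t := by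
        apply hGb t ht s (hs1.trans hyL) hs3
        intro v hv
        rw [hy']
        have hre : |s.re - 1 / 2| ≤ ‖s - (1 / 2 + v * I)‖ := by
          have := Complex.abs_re_le_norm (s - (1 / 2 + v * I))
          simpa using this
        have him : |v - s.im| ≤ ‖s - (1 / 2 + v * I)‖ := by
          have := Complex.abs_im_le_norm (s - (1 / 2 + v * I))
          rw [abs_sub_comm]
          simpa using this
        rcases hs4 with h3 | h3 | h3
        · rw [h3] at hre
          rw [add_sub_cancel_left, abs_of_pos hy] at hre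
          exact hre
        · rw [h3] at hre
          rw [sub_sub_cancel_left, abs_neg, abs_of_pos hy] at hre
          exact hre
        · have h4 := h3 v hv
          linarith
      have b2 : ‖Ke N (ka D T) (kh D N T) (s - s0)‖ ≤ C1_K D N * kk1 T (t - s0.im) := by
        apply C1_near D hN1 hL4
        · have h3 := Complex.abs_re_le_norm (s - s0)
          rw [sub_re] at h3
          have h4 : |s0.re - 1 / 2| ≤ |s.re - s0.re| + |s.re - 1 / 2| := by
            have h5 : s0.re - 1 / 2 = -(s.re - s0.re) + (s.re - 1 / 2) := by ring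
            rw [h5]
            refine (abs_add_le _ _).trans ?_
            rw [abs_neg]
          rw [← hydef]
          linarith
        · rw [sub_re]
          rw [abs_le] at hs1 hs0b
          have e4 : 2 / (D.ep * Real.log T) = 1 / (D.ep * Real.log T) + 1 / (D.ep * Real.log T) := by
            ring
          rw [e4]
          linarith [hs1.2, hs0b.1]
        · rw [sub_im]
          have h5 : t - s0.im = (s.im - s0.im) - (s.im - t) := by ring
          rw [h5]
          refine (abs_sub _ _).trans ?_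
          linarith
      calc ‖Fs D T α s‖ * ‖Ke N (ka D T) (kh D N T) (s - s0)‖
          ≤ G t * (C1_K D N * kk1 T (t - s0.im)) := by
            gcongr
            exact hG0 t
        _ = C1_K D N * (G t * kk1 T (t - s0.im)) := by ring)
  set J := ∫ t in Ioc h1 h2 ∩ EE α, G t * kk1 T (t - s0.im) with hJ
  have hJ0 : 0 ≤ J := by
    apply integral_nonneg
    intro t
    have h3 : 0 ≤ kk1 T (t - s0.im) := by unfold kk1; positivity
    exact mul_nonneg (hG0 t) h3
  have hint : (∫ t in Ioc h1 h2 ∩ EE α, C1_K D N * (G t * kk1 T (t - s0.im))) =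
      C1_K D N * J := integral_const_mul _ _
  rw [hint] at hstrip
  have hyα : y / α ≤ 1 := by
    rw [div_le_one hα0]
    linarith
  have hstrip2 : 16 * (1 + y / α) * (C1_K D N * J) ≤ 32 * (C1_K D N * J) := by
    apply mul_le_mul_of_nonneg_right (by linarith) (by positivity)
  -- conclusion
  have hnorm : ‖2 * (Real.pi : ℂ) * I * (Fs D T α s0 - LowI D N T α h1 h2 s0 +
      ResP D N T α h1 h2 s0)‖ = 2 * Real.pi * ‖Fs D T α s0 - LowI D N T α h1 h2 s0 +
      ResP D N T α h1 h2 s0‖ := by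
    rw [norm_mul, norm_mul, norm_mul, Complex.norm_I, Complex.norm_real,
      Real.norm_of_nonneg hpi.le, mul_one]
    norm_num
  have hfin : 2 * Real.pi * ‖Fs D T α s0 - LowI D N T α h1 h2 s0 + ResP D N T α h1 h2 s0‖ ≤
      3 * (1 / (4 * T)) + 32 * (C1_K D N * J) := by
    rw [← hnorm, hid]
    refine (norm_sub_le _ _).trans ?_
    have e5 := norm_sub_le ((∫ x : ℝ in (1 / 2 - A)..2, C1_f D N T α s0 (x + h1 * I)) -
      (∫ x : ℝ in (1 / 2 - A)..2, C1_f D N T α s0 (x + h2 * I)))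
      (I * (∫ y : ℝ in h1..h2, C1_f D N T α s0 (((1 / 2 - A : ℝ) : ℂ) + y * I)))
    have e6 := norm_sub_le (∫ x : ℝ in (1 / 2 - A)..2, C1_f D N T α s0 (x + h1 * I))
      (∫ x : ℝ in (1 / 2 - A)..2, C1_f D N T α s0 (x + h2 * I))
    rw [norm_mul, Complex.norm_I, one_mul] at e5
    linarith
  have hgoal : 2 * Real.pi * ‖Fs D T α s0 - LowI D N T α h1 h2 s0 + ResP D N T α h1 h2 s0‖ ≤
      2 * Real.pi * (6 * (C1_K D N + 1) * J + 1 / T) := by
    refine hfin.trans ?_
    have e7 : 3 * (1 / (4 * T)) ≤ 2 * Real.pi * (1 / T) := by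
      have e8 : 3 * (1 / (4 * T)) = 3 / 4 * (1 / T) := by field_simp
      rw [e8]
      exact mul_le_mul_of_nonneg_right (by linarith) (by positivity)
    have e9 : 32 * (C1_K D N * J) ≤ 2 * Real.pi * (6 * (C1_K D N + 1) * J) := by
      have e10 : 0 ≤ C1_K D N * J := by positivity
      have e11 : 2 * Real.pi * (6 * (C1_K D N + 1) * J) =
          12 * Real.pi * (C1_K D N * J) + 12 * Real.pi * J := by ring
      rw [e11]
      have e12 : 32 * (C1_K D N * J) ≤ 12 * Real.pi * (C1_K D N * J) := by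
        apply mul_le_mul_of_nonneg_right (by linarith) e10
      have e13 : 0 ≤ 12 * Real.pi * J := by positivity
      linarith
    linarith
  exact le_of_mul_le_mul_left hgoal (by positivity)

end Pool.Agent.AHW
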