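import Pool.Agent.ZGap.AH.Gam
import Pool.Agent.ZGap.DW.Defs

/-!
# The gamma factor
-/

open scoped ContDiff

namespace Pool.Agent.AHW

open Complex MeasureTheory Set Pool.Agent.Hadamard Pool.Agent.HalfGap Pool.Agent.AHD

theorem gam_w : ∃ C : ℝ, 0 < C ∧ ∃ T0 : ℝ, ∀ T : ℝ, T0 ≤ T → ∀ τ : ℝ, 0 ≤ τ → τ ≤ 1 →
    ∀ s : ℂ, |s.re - 1 / 2| ≤ 1 / 4 → T ≤ s.im → s.im ≤ 2 * T →
      ‖gam (alp τ T) s - Complex.exp (((Real.pi * τ : ℝ) : ℂ) * I)‖ ≤ C / Real.log T := by
  refine ⟨192, by norm_num, Real.exp 96, ?_⟩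
  intro T hT τ hτ0 hτ s hre hT1 hT2
  have hTe : (96:ℝ) + 1 ≤ T := (Real.add_one_le_exp 96).trans hT
  have hT0 : 0 < T := by linarith
  have hL : 96 ≤ Real.log T := by
    rw [Real.le_log_iff_exp_le hT0]; exact hT
  have hL0 : 0 < Real.log T := by linarith
  have hpi3 : Real.pi ≤ 4 := Real.pi_le_four
  have hpi0 := Real.pi_pos
  set α : ℝ := alp τ T with hα
  have hαd : α = 2 * Real.pi * τ / Real.log T := rfl
  have hα0 : 0 ≤ α := by rw [hαd]; positivity
  have hα4 : α ≤ 8 / Real.log T := by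
    rw [hαd]
    apply div_le_div_of_nonneg_right _ hL0.le
    nlinarith
  have hα1 : α ≤ 1 := by
    refine hα4.trans ?_
    rw [div_le_one hL0]; linarith
  have hs0 : 0 < s.im := by linarith
  rw [GB.gam_eq_exp hs0 hα0]
  set z0 : ℂ := ((Real.pi * τ : ℝ) : ℂ) * I with hz0
  set e : ℂ := (∫ u in (0:ℝ)..α, I * GB.Psi (s + u * I)) - z0 with he
  have hz0' : z0 = ∫ u in (0:ℝ)..α, I * ((Real.log T / 2 : ℝ) : ℂ) := by
    rw [intervalIntegral.integral_const, hz0, sub_zero, Complex.real_smul]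
    have h1 : Real.pi * τ = α * (Real.log T / 2) := by
      rw [hαd]; field_simp
    rw [h1]
    push_cast
    ring
  have hab := abs_le.mp hre
  have hen : ‖e‖ ≤ 12 * |α - 0| := by
    rw [he, hz0', ← intervalIntegral.integral_sub (GB.intervalIntegrable_Psi hs0 hα0)
      intervalIntegrable_const]
    refine intervalIntegral.norm_integral_le_of_norm_le_const (fun u hu => ?_)
    rw [Set.uIoc_of_le hα0] at hu
    have hu0 : 0 < u := hu.1
    rw [← mul_sub, norm_mul, Complex.norm_I, one_mul]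
    have r1 : (s + u * I).re = s.re := by simp
    have r2 : (s + u * I).im = s.im + u := by simp
    refine Gam_Psi (T := T) (by linarith) ?_ ?_ ?_ ?_
    · rw [r1]; linarith [hab.1]
    · rw [r1]; linarith [hab.2]
    · rw [r2]; linarith
    · rw [r2]; linarith [hu.2]
  rw [sub_zero, abs_of_nonneg hα0] at hen
  have hsum : (∫ u in (0:ℝ)..α, I * GB.Psi (s + u * I)) = z0 + e := by rw [he]; ring
  rw [hsum, Complex.exp_add, ← mul_sub_one, norm_mul]
  have hz0n : ‖cexp z0‖ = 1 := by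
    rw [hz0, Complex.norm_exp_ofReal_mul_I]
  have hen4 : ‖e‖ ≤ 96 / Real.log T := by
    refine hen.trans ?_
    calc 12 * α ≤ 12 * (8 / Real.log T) := by linarith
      _ = 96 / Real.log T := by ring
  have he1 : ‖e‖ ≤ 1 := by
    refine hen4.trans ?_
    rw [div_le_one hL0]; exact hL
  have h10 : ‖cexp e - 1‖ ≤ 2 * ‖e‖ := Complex.norm_exp_sub_one_le he1
  rw [hz0n, one_mul]
  calc ‖cexp e - 1‖ ≤ 2 * ‖e‖ := h10
    _ ≤ 2 * (96 / Real.log T) := by linarith
    _ = 192 / Real.log T := by ring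

end Pool.Agent.AHW
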