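import Pool.Agent.ZGap.AH.K4
import Pool.Agent.ZGap.DW.Defs

/-!
# The right line
-/

open scoped ContDiff

namespace Pool.Agent.AHW

open Complex MeasureTheory Set Pool.Agent.Hadamard Pool.Agent.HalfGap Pool.Agent.AHD

/-- K4: the right line -/
theorem right_line_w {N : ℕ} (hN : 20 ≤ N) (D : AData) {θ : ℝ} (hθ : 0 < θ) (hθ8 : θ ≤ 1 / 8) :
    ∃ T0 : ℝ, ∀ T : ℝ, T0 ≤ T → ∀ σ h1 h2 : ℝ, 0 ≤ σ → σ ≤ 1 / 2 → 1 ≤ h1 → h2 - h1 ≤ T →
    ∀ s0 : ℂ, |s0.re - 1 / 2| ≤ 1 / (D.ep * Real.log T) → θ * T / 4 ≤ s0.im - h1 →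
      θ * T / 4 ≤ h2 - s0.im →
      ‖LowI D N T (alp σ T) h1 h2 s0 -
        (LowP D T (alp σ T) s0 + Win D N T (alp σ T) h1 h2 s0)‖ ≤ 1 / T := by
  set C3 := ∑' n : ℕ, K4_d3 n * ((n:ℝ) ^ (2:ℝ))⁻¹ with hC3
  have hC30 : 0 ≤ C3 := tsum_nonneg fun n => mul_nonneg (K4_d3_nonneg n) (by positivity)
  have hev : ∀ᶠ T : ℝ in Filter.atTop,
      (88 + 2 * N / D.ep + 2 / D.ep ≤ Real.log T) ∧ (4 + (8 / θ) ^ 2 + C3 ≤ T) :=
    (Real.tendsto_log_atTop.eventually_ge_atTop _).and (Filter.eventually_ge_atTop _)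
  obtain ⟨T0, hT0⟩ := Filter.eventually_atTop.mp hev
  refine ⟨T0, fun T hT τ h1 h2 hτ hτ' hh1l hlen s0 hs0 hb ht => ?_⟩
  obtain ⟨hL, hT4⟩ := hT0 T hT
  have hep := D.ep_pos
  have hep' := D.ep_le
  have hNr : (20:ℝ) ≤ N := by exact_mod_cast hN
  have hN0 : (0:ℝ) < N := by linarith
  have e1 : 0 < 2 * (N:ℝ) / D.ep := by positivity
  have e2 : 0 < 2 / D.ep := by positivity
  have e3 : 0 < (8 / θ) ^ 2 := by positivity
  have hT4' : 4 ≤ T := by linarith
  have hTp : 0 < T := by linarith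
  have hT1 : 1 < T := by linarith
  set L := Real.log T with hLdef
  have hL88 : 88 ≤ L := by linarith
  have hLp : 0 < L := by linarith
  have hLN : 2 * N / D.ep ≤ L := by linarith
  have hL2 : 2 / D.ep ≤ L := by linarith
  set h := kh D N T with hh
  set a := ka D T with ha
  set α := alp τ T with hαdef
  set σ := s0.re + 1 / L with hσ
  have hh1' : 1 ≤ h := by
    rw [hh]
    unfold kh
    rw [div_le_iff₀ hep] at hLN
    rw [le_div_iff₀ hN0]
    linarith
  have hNh : (N:ℝ) * h = D.ep / 2 * L := by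
    rw [hh, hLdef]
    unfold kh
    field_simp
  have ha0 : 0 ≤ a := by
    rw [ha]
    unfold ka
    have : 0 ≤ 1 - D.ep := by linarith
    positivity
  have haN : a + N * h = (1 - D.ep / 2) * L := by
    rw [hNh, ha]
    unfold ka
    ring
  have haN' : a + N * h ≤ L := by
    rw [haN]
    linarith [mul_pos hep hLp]
  have hα0 : 0 ≤ α := by
    rw [hαdef]
    unfold alp
    have := Real.pi_pos
    positivity
  have hα28 : α ≤ 1 / 28 := by
    rw [hαdef]
    unfold alp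
    rw [div_le_div_iff₀ hLp (by norm_num)]
    have e4 := Real.pi_lt_d4
    have e5 := mul_le_mul_of_nonneg_left hτ' Real.pi_pos.le
    linarith only [e4, e5, hL88]
  have hre : |s0.re - 1 / 2| ≤ 1 / 2 := by
    refine hs0.trans ?_
    rw [div_le_iff₀ hep] at hL2
    rw [div_le_div_iff₀ (by positivity) (by norm_num)]
    linarith
  have hre' := abs_le.mp hre
  have hre0 : 0 ≤ s0.re := by linarith [hre'.1]
  have hre1 : s0.re ≤ 1 := by linarith [hre'.2]
  have hL1 : 0 < 1 / L := by positivity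
  have hL1' : 1 / L ≤ 1 := by
    rw [div_le_one hLp]; linarith
  have hσ1 : s0.re < σ := by linarith
  have hσ2 : σ ≤ 2 := by linarith
  set ρ := θ * T / 4 with hρdef
  have hρ0 : 0 < ρ := by positivity
  have hθT : θ * T ≤ 1 / 8 * T := mul_le_mul_of_nonneg_right hθ8 hTp.le
  have hρT : ρ ≤ T := by
    rw [hρdef]
    linarith
  have hlen0 : 0 ≤ h2 - h1 := by linarith
  have hM := K4_size hN (E := a + N * h) hh1' hθ hθ8 hT4' (by linarith) hLdef haN'
  rw [← hρdef] at hM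
  set M := 8 * Real.exp (2 * (a + N * h)) * ((2 / (h * ρ)) ^ N / ρ) with hMdef
  have hh0 : 0 < h := by linarith
  have hM0 : 0 ≤ M := by positivity
  -- the terms
  set G := K4_G N a h α s0 with hG
  set W : ℕ → ℂ := fun n => (1 / (2 * Real.pi) : ℝ) * ∫ y : ℝ in h1..h2, G n (2 + y * I) with hW
  set W' : ℕ → ℂ := fun n => (1 / (2 * Real.pi) : ℝ) * ∫ y : ℝ in h1..h2, G n (σ + y * I)
    with hW'
  have hpi : 0 < 1 / (2 * Real.pi) := by positivity
  have hpi1 : 1 / (2 * Real.pi) ≤ 1 := by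
    rw [div_le_one (by positivity)]
    linarith [Real.pi_gt_three]
  have hnormpi : ‖((1 / (2 * Real.pi) : ℝ) : ℂ)‖ ≤ 1 := by
    rw [Complex.norm_real, Real.norm_of_nonneg hpi.le]
    exact hpi1
  have hsmall : ∀ n : ℕ, 1 ≤ n → (n : ℝ) ≤ T → 40 / T ^ 7 ≤ ((n:ℝ) ^ (2:ℝ))⁻¹ * (1 / T ^ 2) := by
    intro n hn hnT
    have hn0 : (0:ℝ) < n := by exact_mod_cast hn
    rw [Real.rpow_two, ← one_div, one_div_mul_one_div, div_le_div_iff₀ (by positivity) (by positivity)]
    have h3 : (n:ℝ) ^ 2 ≤ T ^ 2 := by gcongr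
    have h4 : (40:ℝ) ≤ T ^ 3 := by
      calc (40:ℝ) ≤ 4 ^ 3 := by norm_num
        _ ≤ T ^ 3 := by gcongr
    calc 40 * ((n:ℝ) ^ 2 * T ^ 2) ≤ T ^ 3 * (T ^ 2 * T ^ 2) := by gcongr
      _ = 1 * T ^ 7 := by ring
  have hMT : M * (5 * T) ≤ 40 / T ^ 7 := by
    calc M * (5 * T) ≤ 8 / T ^ 8 * (5 * T) := by gcongr
      _ = 40 / T ^ 7 := by field_simp; norm_num
  -- first range
  have hlow : ∀ n : ℕ, 1 ≤ n → Real.log n ≤ a → (n : ℝ) ≤ T →
      ‖W n - gam α s0 * (n : ℂ) ^ (-s0)‖ ≤ ((n:ℝ) ^ (2:ℝ))⁻¹ * (1 / T ^ 2) := by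
    intro n hn hna hnT
    have h3 := K4_low (N := N) (α := α) ha0 hh0 hρ0 hα0 hα28 hre0 hre1 hh1l hρT hb ht hn hna
    have h4 : W n - gam α s0 * (n : ℂ) ^ (-s0) = ((1 / (2 * Real.pi) : ℝ) : ℂ) *
        ((∫ y : ℝ in h1..h2, G n (2 + y * I)) - 2 * Real.pi * (gam α s0 * (n : ℂ) ^ (-s0))) := by
      simp only [hW]
      have h5 : (Real.pi : ℂ) ≠ 0 := by exact_mod_cast Real.pi_ne_zero
      have h6 : ((1 / (2 * Real.pi) : ℝ) : ℂ) * (2 * Real.pi) = 1 := by
        push_cast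
        field_simp
      linear_combination (gam α s0 * (n : ℂ) ^ (-s0)) * h6
    rw [h4, norm_mul]
    refine le_trans ?_ (hsmall n hn hnT)
    refine le_trans ?_ hMT
    calc ‖((1 / (2 * Real.pi) : ℝ) : ℂ)‖ * _ ≤ 1 * (M * (2 * (T + 2) + (h2 - h1))) :=
          mul_le_mul hnormpi h3 (norm_nonneg _) zero_le_one
      _ ≤ M * (5 * T) := by
          rw [one_mul]
          refine mul_le_mul_of_nonneg_left ?_ hM0
          linarith
  have hmid : ∀ n : ℕ, 1 ≤ n → (n : ℝ) ≤ T →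
      ‖W n - W' n‖ ≤ ((n:ℝ) ^ (2:ℝ))⁻¹ * (1 / T ^ 2) := by
    intro n hn hnT
    have h3 := K4_mid (N := N) (α := α) ha0 hh0 hρ0 hα0 hα28 hre0 hσ1 hσ2 hh1l hb ht hn
    have h4 : W n - W' n = ((1 / (2 * Real.pi) : ℝ) : ℂ) *
        ((∫ y : ℝ in h1..h2, G n (2 + y * I)) - ∫ y : ℝ in h1..h2, G n (σ + y * I)) := by
      simp only [hW, hW']
      ring
    rw [h4, norm_mul]
    refine le_trans ?_ (hsmall n hn hnT)
    refine le_trans ?_ hMT
    calc ‖((1 / (2 * Real.pi) : ℝ) : ℂ)‖ * _ ≤ 1 * (M * (2 * (2 - σ))) :=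
          mul_le_mul hnormpi h3 (norm_nonneg _) zero_le_one
      _ ≤ M * (5 * T) := by
          rw [one_mul]
          refine mul_le_mul_of_nonneg_left ?_ hM0
          linarith
  have hhigh : ∀ n : ℕ, 1 ≤ n → a + N * h ≤ Real.log n →
      ‖W n‖ ≤ ((n:ℝ) ^ (2:ℝ))⁻¹ * (1 / T ^ 2) := by
    intro n hn hna
    have hn0 : (0:ℝ) < n := by exact_mod_cast hn
    have h3 := K4_high (N := N) (α := α) ha0 hh0 hρ0 hα0 hα28 hre0 hre1 hh1l hρT hb ht hn hna
    simp only [hW]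
    rw [norm_mul]
    have h5 : 8 * Real.exp (2 * (a + N * h) - 2 * Real.log n) * ((2 / (h * ρ)) ^ N / ρ) =
        ((n:ℝ) ^ (2:ℝ))⁻¹ * M := by
      rw [hMdef, sub_eq_add_neg, Real.exp_add, ← Real.rpow_neg hn0.le, Real.rpow_def_of_pos hn0]
      have : -(2 * Real.log n) = Real.log n * -2 := by ring
      rw [this]
      ring
    rw [h5] at h3
    have h6 : M * (5 * T) ≤ 1 / T ^ 2 := by
      refine hMT.trans ?_
      rw [div_le_div_iff₀ (by positivity) (by positivity)]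
      have h4 : (40:ℝ) ≤ T ^ 5 := by
        calc (40:ℝ) ≤ 4 ^ 5 := by norm_num
          _ ≤ T ^ 5 := by gcongr
      calc 40 * T ^ 2 ≤ T ^ 5 * T ^ 2 := by gcongr
        _ = 1 * T ^ 7 := by ring
    calc ‖((1 / (2 * Real.pi) : ℝ) : ℂ)‖ * _ ≤ 1 * (((n:ℝ) ^ (2:ℝ))⁻¹ * M *
          (2 * T + (h2 - h1))) := mul_le_mul hnormpi h3 (norm_nonneg _) zero_le_one
      _ = ((n:ℝ) ^ (2:ℝ))⁻¹ * (M * (2 * T + (h2 - h1))) := by ring
      _ ≤ ((n:ℝ) ^ (2:ℝ))⁻¹ * (M * (5 * T)) := by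
          refine mul_le_mul_of_nonneg_left (mul_le_mul_of_nonneg_left (by linarith) hM0)
            (by positivity)
      _ ≤ _ := by gcongr
  -- the ranges
  have hXNlog : ∀ n : ℕ, 1 ≤ n → n ≤ XN D T → Real.log n ≤ a ∧ (n : ℝ) ≤ T := by
    intro n hn hnX
    have hn0 : (0:ℝ) < n := by exact_mod_cast hn
    have h3 : (n:ℝ) ≤ T ^ (1 - D.ep) := by
      have := Nat.floor_le (show 0 ≤ T ^ (1 - D.ep) by positivity)
      have h4 : (n:ℝ) ≤ (XN D T : ℝ) := by exact_mod_cast hnX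
      exact h4.trans this
    refine ⟨?_, h3.trans ?_⟩
    · rw [ha]
      unfold ka
      rw [← Real.log_rpow hTp]
      exact Real.log_le_log hn0 h3
    · calc T ^ (1 - D.ep) ≤ T ^ (1:ℝ) := Real.rpow_le_rpow_of_exponent_le hT1.le (by linarith)
        _ = T := Real.rpow_one T
  have hX1T : ∀ n : ℕ, n ≤ X1 D T → (n : ℝ) ≤ T := by
    intro n hnX
    have h3 : (n:ℝ) ≤ T ^ (1 - D.ep / 2) := by
      have := Nat.floor_le (show 0 ≤ T ^ (1 - D.ep / 2) by positivity)
      have h4 : (n:ℝ) ≤ (X1 D T : ℝ) := by exact_mod_cast hnX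
      exact h4.trans this
    refine h3.trans ?_
    calc T ^ (1 - D.ep / 2) ≤ T ^ (1:ℝ) := Real.rpow_le_rpow_of_exponent_le hT1.le (by linarith)
      _ = T := Real.rpow_one T
  have hXNX1 : XN D T ≤ X1 D T := by
    unfold XN X1
    exact Nat.floor_le_floor (Real.rpow_le_rpow_of_exponent_le hT1.le (by linarith))
  have hX1log : ∀ n : ℕ, X1 D T < n → a + N * h ≤ Real.log n := by
    intro n hnX
    have h3 : T ^ (1 - D.ep / 2) < n := (Nat.floor_lt (by positivity)).mp hnX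
    rw [haN, ← Real.log_rpow hTp]
    exact Real.log_le_log (Real.rpow_pos_of_pos hTp _) h3.le
  -- the series
  have hKc : Continuous (fun t : ℝ => Ke N a h (2 + t * I - s0)) := by
    unfold Ke
    have h3 : Continuous (fun t : ℝ => E1 (h * (2 + t * I - s0))) :=
      E1_diff.continuous.comp (by fun_prop)
    refine Continuous.div ((by fun_prop : Continuous (fun t : ℝ =>
      Complex.exp (a * (2 + t * I - s0)))).mul (h3.pow N)) (by fun_prop) fun t h4 => ?_
    have h5 := congrArg Complex.re h4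
    simp at h5
    linarith
  have hser := (K4_hasSum_int D hT1 α h1 h2 hKc).mul_left ((1 / (2 * Real.pi) : ℝ) : ℂ)
  have hA : HasSum (fun n : ℕ => bn D T α n * W n) (LowI D N T α h1 h2 s0) := by
    have e : (fun n : ℕ => bn D T α n * W n) = fun n : ℕ => ((1 / (2 * Real.pi) : ℝ) : ℂ) *
        (bn D T α n * ∫ t in h1..h2, gam α (2 + t * I) * (n : ℂ) ^ (-(2 + t * I : ℂ)) *
          Ke N a h (2 + t * I - s0)) := by
      funext n
      simp only [hW, hG]
      unfold K4_G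
      ring
    rw [e]
    exact hser
  set f1 : ℕ → ℂ := fun n => if n ∈ Finset.Icc 1 (XN D T) then
    bn D T α n * (gam α s0 * (n : ℂ) ^ (-s0)) else 0 with hf1
  set f2 : ℕ → ℂ := fun n => if n ∈ Finset.Ioc (XN D T) (X1 D T) then
    bn D T α n * W' n else 0 with hf2
  have hB : HasSum f1 (LowP D T α s0) := by
    have h3 : HasSum f1 (∑ n ∈ Finset.Icc 1 (XN D T), f1 n) := hasSum_sum_of_ne_finset_zero
      (fun n hn => by simp only [hf1]; rw [if_neg hn])
    have h4 : ∑ n ∈ Finset.Icc 1 (XN D T), f1 n = LowP D T α s0 := by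
      unfold LowP
      rw [Finset.mul_sum]
      refine Finset.sum_congr rfl fun n hn => ?_
      simp only [hf1]
      rw [if_pos hn]
      ring
    rw [h4] at h3
    exact h3
  have hC : HasSum f2 (Win D N T α h1 h2 s0) := by
    have h3 : HasSum f2 (∑ n ∈ Finset.Ioc (XN D T) (X1 D T), f2 n) :=
      hasSum_sum_of_ne_finset_zero (fun n hn => by simp only [hf2]; rw [if_neg hn])
    have h4 : ∑ n ∈ Finset.Ioc (XN D T) (X1 D T), f2 n = Win D N T α h1 h2 s0 := by
      have h5 : Win D N T α h1 h2 s0 = (1 / (2 * Real.pi) : ℝ) *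
          ∫ t in h1..h2, ∑ n ∈ Finset.Ioc (XN D T) (X1 D T), bn D T α n * G n (σ + t * I) := by
        unfold Win
        congr 1
        refine intervalIntegral.integral_congr fun t _ => ?_
        unfold WinP
        beta_reduce
        rw [Finset.mul_sum, Finset.sum_mul]
        refine Finset.sum_congr rfl fun n hn => ?_
        simp only [hG]
        unfold K4_G
        ring
      rw [h5, intervalIntegral.integral_finsetSum, Finset.mul_sum]
      · refine Finset.sum_congr rfl fun n hn => ?_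
        simp only [hf2]
        rw [if_pos hn, intervalIntegral.integral_const_mul]
        simp only [hW']
        ring
      · intro n hn
        have hn1 : 1 ≤ n := by
          have := (Finset.mem_Ioc.mp hn).1
          omega
        refine IntervalIntegrable.const_mul ?_ _
        have h6 := sides_integrable (f := G n) (a := σ) (b := 2) (c := h1) (d := h2) hσ2
          (by linarith) (fun z hz _ => (K4_diff_G hα0 hn1 (by linarith [hz.2.2.1]) (by
            rintro rfl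
            linarith [hz.1])).continuousAt)
        exact h6.2.2.2
    rw [h4] at h3
    exact h3
  have hD := (hA.sub hB).sub hC
  have hE : HasSum (fun n : ℕ => K4_d3 n * ((n:ℝ) ^ (2:ℝ))⁻¹ * (1 / T ^ 2)) (C3 * (1 / T ^ 2)) :=
    (K4_summable_d3.hasSum).mul_right _
  have hF : ∀ n : ℕ, ‖bn D T α n * W n - f1 n - f2 n‖ ≤
      K4_d3 n * ((n:ℝ) ^ (2:ℝ))⁻¹ * (1 / T ^ 2) := by
    intro n
    rcases Nat.eq_zero_or_pos n with rfl | hn
    · simp [hf1, hf2, bn, K4_d3]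
    · have hbn := K4_bn_le D T α n
      have hgoal : ∀ e : ℂ, ‖e‖ ≤ ((n:ℝ) ^ (2:ℝ))⁻¹ * (1 / T ^ 2) →
          ‖bn D T α n * e‖ ≤ K4_d3 n * ((n:ℝ) ^ (2:ℝ))⁻¹ * (1 / T ^ 2) := by
        intro e he
        rw [norm_mul, mul_assoc]
        exact mul_le_mul hbn he (norm_nonneg _) (K4_d3_nonneg n)
      rcases le_or_gt n (XN D T) with h3 | h3
      · have m1 : n ∈ Finset.Icc 1 (XN D T) := Finset.mem_Icc.mpr ⟨hn, h3⟩
        have m2 : n ∉ Finset.Ioc (XN D T) (X1 D T) := by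
          rw [Finset.mem_Ioc]; omega
        simp only [hf1, hf2]
        rw [if_pos m1, if_neg m2, sub_zero, ← mul_sub]
        obtain ⟨h4, h5⟩ := hXNlog n hn h3
        exact hgoal _ (hlow n hn h4 h5)
      · have m1 : n ∉ Finset.Icc 1 (XN D T) := by
          rw [Finset.mem_Icc]; omega
        rcases le_or_gt n (X1 D T) with h4 | h4
        · have m2 : n ∈ Finset.Ioc (XN D T) (X1 D T) := Finset.mem_Ioc.mpr ⟨h3, h4⟩
          simp only [hf1, hf2]
          rw [if_neg m1, if_pos m2, sub_zero, ← mul_sub]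
          exact hgoal _ (hmid n hn (hX1T n h4))
        · have m2 : n ∉ Finset.Ioc (XN D T) (X1 D T) := by
            rw [Finset.mem_Ioc]; omega
          simp only [hf1, hf2]
          rw [if_neg m1, if_neg m2, sub_zero, sub_zero]
          exact hgoal _ (hhigh n hn (hX1log n h4))
  have hfin := hD.norm_le_of_bounded hE hF
  have e5 : LowI D N T α h1 h2 s0 - (LowP D T α s0 + Win D N T α h1 h2 s0) =
      LowI D N T α h1 h2 s0 - LowP D T α s0 - Win D N T α h1 h2 s0 := by ring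
  rw [e5]
  refine hfin.trans ?_
  rw [mul_one_div, div_le_div_iff₀ (by positivity) hTp]
  have e6 : C3 ≤ T := by linarith
  have e7 := mul_le_mul_of_nonneg_right e6 hTp.le
  rw [one_mul, sq]
  exact e7

end Pool.Agent.AHW
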