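import Pool.Agent.ZGap.AH.M4
import Pool.Agent.ZGap.DW.Defs

/-!
# The diagonal term
-/

open scoped ContDiff

namespace Pool.Agent.AHW

open Complex MeasureTheory Set Pool.Agent.Hadamard Pool.Agent.HalfGap Pool.Agent.AHD

theorem MA_bound_w {a : ℝ} (ha : 0 < a) (ha1 : a ≤ 1) : ∃ C : ℝ, 0 < C ∧ ∀ D : AData, D.ep ≤ a →
    ∀ τ : ℝ, 1 / (1 + a) - D.ep ^ 2 ≤ τ → τ < 1 / (1 + a) →
    ∃ T0 : ℝ, ∀ T : ℝ, T0 ≤ T →
      (Complex.exp (((alp (a * τ) T / 2 * Real.log (T ^ (1 / a) / (2 * Real.pi)) : ℝ) : ℂ) * I) *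
        MA D T (alp (a * τ) T)).im ≤ C * Real.log (1 / D.ep) ∧
      ‖MA D T (alp (a * τ) T)‖ ≤ C / D.ep := by
  obtain ⟨C1, hC1, hcomp⟩ := M4_comp
  obtain ⟨C2, hC2, hwin⟩ := window_Gb
  obtain ⟨C3, hC3, hsum⟩ := sum_Gb
  obtain ⟨C4, hC4, hlin⟩ := HN_lin
  refine ⟨1 + C1 + 2 * C2 + 18 * C4 + 3 / a * C4 + C3, by positivity, ?_⟩
  intro D _ τ hτ1 hτ2
  have hep := D.ep_pos
  have hep1 := D.ep_le
  have hτ49 := tau_pos ha ha1 hep hep1 hτ1
  have hσ2 := sig_lt ha ha1 hτ2
  have hσ1 := sig_gt ha hτ49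
  obtain ⟨hτa1, hτa2⟩ := tau_mul ha ha1 hτ1 hτ2
  obtain ⟨T1, hcomp⟩ := hcomp D
  obtain ⟨T2, hwin⟩ := hwin D
  obtain ⟨T3, hsum⟩ := hsum D
  obtain ⟨T4, hlin⟩ := hlin D
  refine ⟨max (max T1 T2) (max (max T3 T4) (Real.exp ((1 + 4 * C3) / D.ep))), ?_⟩
  intro T hT
  have hT1 : T1 ≤ T := (le_max_left _ _).trans ((le_max_left _ _).trans hT)
  have hT2 : T2 ≤ T := (le_max_right _ _).trans ((le_max_left _ _).trans hT)
  have hT3 : T3 ≤ T :=
    (le_max_left _ _).trans ((le_max_left _ _).trans ((le_max_right _ _).trans hT))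
  have hT4 : T4 ≤ T :=
    (le_max_right _ _).trans ((le_max_left _ _).trans ((le_max_right _ _).trans hT))
  have hT5 : Real.exp ((1 + 4 * C3) / D.ep) ≤ T :=
    (le_max_right _ _).trans ((le_max_right _ _).trans hT)
  have hT0 : 0 < T := lt_of_lt_of_le (Real.exp_pos _) hT5
  have hL : (1 + 4 * C3) / D.ep ≤ Real.log T := by
    rw [Real.le_log_iff_exp_le hT0]
    exact hT5
  have hepL : 1 + 4 * C3 ≤ D.ep * Real.log T := by
    rw [div_le_iff₀ hep] at hL
    linarith
  have hL0 : 0 < Real.log T := lt_of_lt_of_le (by positivity) hL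
  have hTone : 1 < T := by
    have : 1 < Real.exp ((1 + 4 * C3) / D.ep) := Real.one_lt_exp_iff.mpr (by positivity)
    linarith
  set L := Real.log T with hLdef
  set σ := a * τ with hσdef
  have hσ0 : 0 < σ := by positivity
  set α := alp σ T with hαdef
  have hαL : α * L = 2 * Real.pi * σ := by
    rw [hαdef]
    unfold alp
    rw [div_mul_cancel₀ _ hL0.ne']
  have hpi := Real.pi_pos
  have hpi3 := Real.pi_gt_three
  have hpi4 := Real.pi_le_four
  have hep2 : D.ep ^ 2 ≤ 1 / 100 * D.ep := by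
    rw [pow_two]
    exact mul_le_mul_of_nonneg_right hep1 hep.le
  have hα0 : 0 < α := by
    rw [hαdef]
    unfold alp
    positivity
  have hα4 : α * L ≤ 4 := by
    rw [hαL]
    have h := mul_le_mul_of_nonneg_left hσ2.le hpi.le
    linarith
  set κ := 1 - D.ep - 2 * D.ep ^ 2 with hκ
  have hep20 : 0 ≤ D.ep ^ 2 := by positivity
  have hκhalf : 1 / 2 ≤ κ := by rw [hκ]; linarith
  have hκone : κ ≤ 1 := by rw [hκ]; linarith
  have hκep : κ ≤ 1 - D.ep := by rw [hκ]; linarith
  have hMA : MA D T α = ∑ k ∈ Finset.Icc 1 (XN D T), M4_T D T α k := MA_eq D T α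
  have hXN : XN D T = ⌊T ^ (1 - D.ep)⌋₊ := rfl
  -- the norm
  have hnorm : ‖MA D T α‖ ≤ C3 / D.ep := by
    rw [hMA]
    refine (norm_sum_le _ _).trans ?_
    refine le_trans ?_ (hsum T hT3)
    refine (Finset.sum_le_sum (fun k hk => M4_T_le D T α hTone hα0.le hα4 k
      (Finset.mem_Icc.mp hk).1)).trans ?_
    refine Finset.sum_le_sum_of_subset_of_nonneg ?_ ?_
    · refine Finset.Icc_subset_Icc le_rfl ?_
      rw [hXN]
      refine Nat.floor_le_floor ?_
      calc T ^ (1 - D.ep) ≤ T ^ (1 : ℝ) :=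
            Real.rpow_le_rpow_of_exponent_le hTone.le (by linarith)
        _ = T := Real.rpow_one T
    · intro k _ _
      positivity
  have hlog100 : 1 ≤ Real.log (1 / D.ep) := by
    rw [Real.le_log_iff_exp_le (by positivity)]
    have h1 : Real.exp 1 < 2.7182818286 := Real.exp_one_lt_d9
    have h2 : (100 : ℝ) ≤ 1 / D.ep := by
      rw [le_div_iff₀ hep]
      linarith
    linarith
  constructor
  swap
  · refine hnorm.trans ?_
    gcongr
    have h3a : 0 ≤ 3 / a * C4 := by positivity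
    linarith
  -- the phase
  have hphase : (Complex.exp (((α / 2 * Real.log (T ^ (1 / a) / (2 * Real.pi)) : ℝ) : ℂ) * I) *
      MA D T α).im ≤ 1 + (Complex.exp (((Real.pi * τ : ℝ) : ℂ) * I) * MA D T α).im := by
    have hth : α / 2 * Real.log (T ^ (1 / a) / (2 * Real.pi)) =
        Real.pi * τ - α / 2 * Real.log (2 * Real.pi) := by
      have hστ : L / a * α = 2 * Real.pi * τ := by
        rw [div_mul_eq_mul_div, div_eq_iff ha.ne', mul_comm L, hαL, hσdef]
        ring
      rw [Real.log_div (by positivity) (by positivity), log_rpow_inv hT0, ← hLdef]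
      linear_combination (1 / 2 : ℝ) * hστ
    have hlog2pi : Real.log (2 * Real.pi) ≤ 2 := by
      rw [Real.log_le_iff_le_exp (by positivity)]
      have h1 : (2.7182818283 : ℝ) < Real.exp 1 := Real.exp_one_gt_d9
      have h2 : Real.exp 2 = Real.exp 1 * Real.exp 1 := by
        rw [← Real.exp_add]; norm_num
      have h3 : Real.pi < 3.15 := Real.pi_lt_d2
      rw [h2]
      have h4 : (2.7 : ℝ) * 2.7 ≤ Real.exp 1 * Real.exp 1 :=
        mul_le_mul (by linarith) (by linarith) (by norm_num) (Real.exp_pos 1).le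
      linarith
    have hlog2pi0 : 0 ≤ Real.log (2 * Real.pi) := Real.log_nonneg (by linarith)
    have hdiff : ‖Complex.exp (((α / 2 * Real.log (T ^ (1 / a) / (2 * Real.pi)) : ℝ) : ℂ) * I) -
        Complex.exp (((Real.pi * τ : ℝ) : ℂ) * I)‖ ≤ α := by
      have h1 : Complex.exp (((α / 2 * Real.log (T ^ (1 / a) / (2 * Real.pi)) : ℝ) : ℂ) * I) -
          Complex.exp (((Real.pi * τ : ℝ) : ℂ) * I) =
          Complex.exp (((Real.pi * τ : ℝ) : ℂ) * I) *
          (Complex.exp (I * ((-(α / 2 * Real.log (2 * Real.pi)) : ℝ) : ℂ)) - 1) := by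
        rw [mul_sub, mul_one, ← Complex.exp_add, hth]
        congr 2
        push_cast
        ring
      rw [h1, norm_mul, Complex.norm_exp_ofReal_mul_I, one_mul]
      refine (Real.norm_exp_I_mul_ofReal_sub_one_le).trans ?_
      rw [Real.norm_eq_abs, abs_neg, abs_of_nonneg (by positivity)]
      have h2 := mul_le_mul_of_nonneg_left hlog2pi hα0.le
      linarith
    have h2 : (Complex.exp (((α / 2 * Real.log (T ^ (1 / a) / (2 * Real.pi)) : ℝ) : ℂ) * I) *
        MA D T α).im = ((Complex.exp (((α / 2 * Real.log (T ^ (1 / a) / (2 * Real.pi)) : ℝ) : ℂ) * I) -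
        Complex.exp (((Real.pi * τ : ℝ) : ℂ) * I)) * MA D T α).im +
        (Complex.exp (((Real.pi * τ : ℝ) : ℂ) * I) * MA D T α).im := by
      rw [← Complex.add_im]
      congr 1
      ring
    rw [h2]
    have h3 : ((Complex.exp (((α / 2 * Real.log (T ^ (1 / a) / (2 * Real.pi)) : ℝ) : ℂ) * I) -
        Complex.exp (((Real.pi * τ : ℝ) : ℂ) * I)) * MA D T α).im ≤ 1 := by
      refine (Complex.im_le_norm _).trans ?_
      rw [norm_mul]
      have h4 : α ≤ 4 / L := by
        rw [le_div_iff₀ hL0]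
        exact hα4
      calc _ ≤ (4 / L) * (C3 / D.ep) := by
            refine mul_le_mul (hdiff.trans h4) hnorm (norm_nonneg _) (by positivity)
        _ ≤ 1 := by
            rw [div_mul_div_comm, div_le_one (by positivity)]
            linarith
    linarith
  refine hphase.trans ?_
  -- splitting of the sum
  set X := ⌊T ^ κ⌋₊ with hX
  have hXX : X ≤ XN D T := by
    rw [hX, hXN]
    exact Nat.floor_le_floor (Real.rpow_le_rpow_of_exponent_le hTone.le hκep)
  have hsplit : ∑ k ∈ Finset.Icc 1 (XN D T), M4_T D T α k =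
      ∑ k ∈ Finset.Icc 1 X, M4_T D T α k + ∑ k ∈ Finset.Ioc X (XN D T), M4_T D T α k := by
    have h0 : ∀ n : ℕ, Finset.Icc 1 n = Finset.Ioc 0 n := by
      intro n
      ext k
      simp only [Finset.mem_Icc, Finset.mem_Ioc]
      omega
    rw [h0, h0, Finset.sum_Ioc_consecutive _ (Nat.zero_le _) hXX]
  have hS2 : ‖∑ k ∈ Finset.Ioc X (XN D T), M4_T D T α k‖ ≤ 2 * C2 := by
    refine (norm_sum_le _ _).trans ?_
    have h1 := hwin T hT2 (T ^ κ) (T ^ (1 - D.ep))
      (Real.rpow_le_rpow_of_exponent_le hTone.le hκhalf)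
      (Real.rpow_le_rpow_of_exponent_le hTone.le hκep)
      (by
        calc T ^ (1 - D.ep) ≤ T ^ (1 : ℝ) :=
            Real.rpow_le_rpow_of_exponent_le hTone.le (by linarith)
        _ = T := Real.rpow_one T)
    refine (Finset.sum_le_sum (fun k hk => M4_T_le D T α hTone hα0.le hα4 k
      (by have := (Finset.mem_Ioc.mp hk).1; omega))).trans ?_
    refine h1.trans ?_
    rw [Real.log_div (by positivity) (by positivity), Real.log_rpow hT0, Real.log_rpow hT0,
      ← hLdef]
    have h2 : (1 - D.ep) * L - κ * L = 2 * D.ep ^ 2 * L := by rw [hκ]; ring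
    rw [h2]
    have h3 : C2 / D.ep * ((2 * D.ep ^ 2 * L + 1) / L) = 2 * C2 * D.ep + C2 / (D.ep * L) := by
      field_simp
    rw [h3]
    have h4 : C2 / (D.ep * L) ≤ C2 := by
      rw [div_le_iff₀ (by positivity)]
      exact le_mul_of_one_le_right hC2.le (by linarith)
    have h5 := mul_le_mul_of_nonneg_left hep1 hC2.le
    linarith
  have hS1 := hcomp T hT1 α hα0.le hα4
  -- the sum over `H0`
  obtain ⟨c, hc0, hc1, hlin⟩ := hlin T hT4
  set U := κ * L with hU
  have hU0 : 0 < U := by positivity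
  have hexpU : Real.exp U = T ^ κ := by
    rw [Real.rpow_def_of_pos hT0, hU, mul_comm]
  have hS0 := M4_abel (fun n => H0 D T n / n) c (C4 / D.ep) (C4 * L) α U hα0 (by positivity)
    (by positivity) hU0 (by
      intro u hu huU
      have h1 := hlin u hu (huU.trans (by
        rw [hU]
        exact mul_le_mul_of_nonneg_right hκep hL0.le))
      exact h1)
  rw [hexpU, ← hX] at hS0
  have herr : C4 * L / U + 2 * α * (C4 * L) * Real.log (1 + C4 / D.ep * U / (C4 * L)) ≤
      2 * C4 + 16 * C4 * Real.log (1 / D.ep) := by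
    have h1 : C4 * L / U ≤ 2 * C4 := by
      rw [div_le_iff₀ hU0, hU]
      have : 0 < C4 * L := by positivity
      have h2 := mul_le_mul_of_nonneg_left hκhalf this.le
      linarith
    have h2 : C4 / D.ep * U / (C4 * L) = κ / D.ep := by
      rw [hU]
      field_simp
    rw [h2]
    have h3 : Real.log (1 + κ / D.ep) ≤ 2 * Real.log (1 / D.ep) := by
      rw [← Real.log_rpow (by positivity)]
      refine Real.log_le_log (by positivity) ?_
      have h4 : (1 / D.ep) ^ (2 : ℝ) = 1 / D.ep * (1 / D.ep) := by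
        rw [Real.rpow_two]
        ring
      rw [h4]
      have h5 : (2 : ℝ) ≤ 1 / D.ep := by
        rw [le_div_iff₀ hep]
        linarith
      have h6 : κ / D.ep ≤ 1 / D.ep := by gcongr
      have h7 := mul_le_mul_of_nonneg_right h5 (by positivity : (0 : ℝ) ≤ 1 / D.ep)
      linarith
    have h7 : 2 * α * (C4 * L) ≤ 8 * C4 := by
      have h8 := mul_le_mul_of_nonneg_left hα4 hC4.le
      linarith
    have h8 : 0 ≤ Real.log (1 + κ / D.ep) := Real.log_nonneg (by
      have : 0 < κ / D.ep := by positivity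
      linarith)
    calc C4 * L / U + 2 * α * (C4 * L) * Real.log (1 + κ / D.ep)
        ≤ 2 * C4 + 8 * C4 * (2 * Real.log (1 / D.ep)) := by
          refine add_le_add h1 ?_
          exact mul_le_mul h7 h3 h8 (by positivity)
      _ = _ := by ring
  have hmain := M4_im c α U τ hα0 hc0
  have hmain2 : c / α * (2 * |Real.pi - (Real.pi * τ + α * U / 2)|) ≤ 3 / a * C4 := by
    have h1 : Real.pi * τ + α * U / 2 = Real.pi * (τ * (1 + a) - σ * (1 - κ)) := by
      rw [hU, hσdef]
      rw [hσdef] at hαL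
      linear_combination (κ / 2) * hαL
    have h2 : |Real.pi - (Real.pi * τ + α * U / 2)| ≤ Real.pi * D.ep := by
      rw [h1]
      have h3 : Real.pi - Real.pi * (τ * (1 + a) - σ * (1 - κ)) =
          Real.pi * (1 - τ * (1 + a) + σ * (1 - κ)) := by ring
      rw [h3, abs_mul, abs_of_pos hpi]
      refine mul_le_mul_of_nonneg_left ?_ hpi.le
      have hk0 : 0 ≤ 1 - κ := by linarith
      have hk1 : 0 ≤ σ * (1 - κ) := mul_nonneg hσ0.le hk0
      have hk2 : σ * (1 - κ) ≤ 1 / 2 * (1 - κ) := mul_le_mul_of_nonneg_right hσ2.le hk0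
      have hk3 : 1 - κ = D.ep + 2 * D.ep ^ 2 := by rw [hκ]; ring
      rw [hk3] at hk1 hk2 ⊢
      rw [abs_of_nonneg (by linarith)]
      linarith
    have h4 : c / α ≤ C4 / (D.ep * (2 * Real.pi * σ)) := by
      rw [div_le_div_iff₀ hα0 (by positivity)]
      rw [le_div_iff₀ (by positivity)] at hc1
      calc c * (D.ep * (2 * Real.pi * σ)) = α * (c * (D.ep * L)) := by
            rw [← hαL]; ring
        _ ≤ α * C4 := mul_le_mul_of_nonneg_left hc1 hα0.le
        _ = C4 * α := by ring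
    calc c / α * (2 * |Real.pi - (Real.pi * τ + α * U / 2)|)
        ≤ C4 / (D.ep * (2 * Real.pi * σ)) * (2 * (Real.pi * D.ep)) := by
          refine mul_le_mul h4 (by linarith) (by positivity) (by positivity)
      _ = C4 / σ := by field_simp
      _ ≤ 3 / a * C4 := by
          rw [div_mul_eq_mul_div, div_le_div_iff₀ hσ0 ha]
          have h5 := mul_le_mul_of_nonneg_left hσ1.le hC4.le
          have h6 : 0 < C4 * a := by positivity
          linarith
  set w := Complex.exp (((Real.pi * τ : ℝ) : ℂ) * I) with hw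
  have hwn : ‖w‖ = 1 := by rw [hw]; exact Complex.norm_exp_ofReal_mul_I _
  set Mt := (c : ℂ) * ((Complex.exp (((α * U : ℝ) : ℂ) * I) - 1) / (α * I)) with hMt
  set S0 := ∑ k ∈ Finset.Icc 1 X, ((H0 D T k / k : ℝ) : ℂ) * zp α k with hS0def
  set S1 := ∑ k ∈ Finset.Icc 1 X, M4_T D T α k with hS1def
  set S2 := ∑ k ∈ Finset.Ioc X (XN D T), M4_T D T α k with hS2def
  have hdec : w * MA D T α = w * (S1 - S0) + w * S2 + w * (S0 - Mt) + w * Mt := by
    rw [hMA, hsplit]
    ring
  rw [hdec, Complex.add_im, Complex.add_im, Complex.add_im]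
  have e1 : (w * (S1 - S0)).im ≤ C1 := by
    refine (Complex.im_le_norm _).trans ?_
    rw [norm_mul, hwn, one_mul]
    exact hS1
  have e2 : (w * S2).im ≤ 2 * C2 := by
    refine (Complex.im_le_norm _).trans ?_
    rw [norm_mul, hwn, one_mul]
    exact hS2
  have e3 : (w * (S0 - Mt)).im ≤ 2 * C4 + 16 * C4 * Real.log (1 / D.ep) := by
    refine (Complex.im_le_norm _).trans ?_
    rw [norm_mul, hwn, one_mul]
    exact hS0.trans herr
  have e4 : (w * Mt).im ≤ 3 / a * C4 := hmain.trans hmain2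
  have e5 := mul_le_mul_of_nonneg_left hlog100
    (by positivity : (0 : ℝ) ≤ 1 + C1 + 2 * C2 + 2 * C4 + 3 / a * C4 + C3)
  linarith

end Pool.Agent.AHW
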