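import Pool.Agent.ZGap.DW.B2
import Pool.Agent.ZGap.DW.M4
import Pool.Agent.ZGap.AH.R2
import Pool.Agent.ZGap.Half.ShortGam

/-!
# Sums over the isolated zeros in a window
-/

open scoped ContDiff

namespace Pool.Agent.AHW

open Complex MeasureTheory Set Pool.Agent.Hadamard Pool.Agent.HalfGap Pool.Agent.AHD

lemma R2W_core {α T θ H U M w : ℝ} (hT : 0 < T) (hθ : 0 < θ) (hθ8 : θ ≤ 1 / 8) (hH : 1 ≤ H)
    (hHU : H ≤ U) (hUT : 2 * U ≤ 2 / 5 * θ * T)
    (y : ℝ → ℝ) (hy : ∀ z, Xr z = 0 → ¬ badz α z → 0 ≤ y z)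
    (G0 : ℝ → ℝ) (hGc : Continuous G0) (hG0 : ∀ t, 0 ≤ G0 t)
    (hS : ∫ t in EE α ∩ Icc (w + (5 / 4 - θ) * T) (w + (7 / 4 + θ) * T), G0 t ≤ T)
    (hM : 0 ≤ M)
    (hW : ∀ t0 : ℝ, w + (5 / 4 - θ) * T ≤ t0 → t0 ≤ w + (7 / 4 + θ) * T →
      Real.pi * (∑ z ∈ isoZ α (t0 - U) (t0 + U), Real.exp (-(z - t0) ^ 2 / H ^ 2) * y z) -
        20 * (∫ t in Icc (t0 - 2 * U) (t0 + 2 * U) ∩ EE α,
          Real.exp 2 * Real.exp (-(t - t0) ^ 2 / (2 * H ^ 2)) * G0 t) - 1 ≤ M * H) :
    ∑ z ∈ isoZ α (w + (5 / 4 - θ / 2) * T) (w + (7 / 4 + θ / 2) * T), y z ≤ (1300 + 2 * M) * T := by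
  have hpi := Real.pi_gt_three
  have hH0 : 0 < H := by linarith
  set s0 := w + (5 / 4 - 3 / 5 * θ) * T with hs0
  set N := ⌊(1 / 2 + 11 / 10 * θ) * T / H⌋₊ + 1 with hN
  have hUT' : U ≤ 1 / 5 * θ * T := by linarith
  have hθT : 0 < θ * T := by positivity
  have hθT8 : θ * T ≤ 1 / 8 * T := by gcongr
  have hHT : H ≤ 1 / 40 * T := by linarith
  have hx0 : 0 ≤ (1 / 2 + 11 / 10 * θ) * T / H := by positivity
  have hNle : ((N:ℝ) - 1) * H ≤ (1 / 2 + 11 / 10 * θ) * T := by
    have h1 := Nat.floor_le hx0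
    rw [le_div_iff₀ hH0] at h1
    rw [hN]
    push_cast
    linarith
  have hNge : (1 / 2 + 11 / 10 * θ) * T ≤ N * H := by
    have h1 := (Nat.lt_floor_add_one ((1 / 2 + 11 / 10 * θ) * T / H)).le
    rw [div_le_iff₀ hH0] at h1
    rw [hN]
    push_cast
    linarith
  have hN2 : N * H ≤ 2 * T := by linarith only [hNle, hHT, hθT8, hT]
  have ht : ∀ j : ℕ, j < N → s0 ≤ s0 + j * H ∧ s0 + j * H ≤ w + (7 / 4 + θ / 2) * T := by
    intro j hj
    have h1 : ((j:ℝ) + 1) ≤ N := by exact_mod_cast hj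
    have h2 : (j:ℝ) * H ≤ ((N:ℝ) - 1) * H := by
      apply mul_le_mul_of_nonneg_right _ hH0.le
      linarith
    constructor
    · have : 0 ≤ (j:ℝ) * H := by positivity
      linarith
    · rw [hs0]
      linarith
  have hgrid := R2_grid (α := α) (H := H) (U := U) (a := w + (5 / 4 - θ / 2) * T)
    (b := w + (7 / 4 + θ / 2) * T) (s0 := s0) (N := N) hH0 hHU (by rw [hs0]; linarith only [hθT])
    (by rw [hs0]; linarith) y hy
  refine hgrid.trans ?_
  set S := EE α ∩ Icc (w + (5 / 4 - θ) * T) (w + (7 / 4 + θ) * T) with hSdef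
  have hSm : MeasurableSet S := (measurableSet_EE α).inter measurableSet_Icc
  set I : ℕ → ℝ := fun j => ∫ t in S, Real.exp 2 *
    (Real.exp (-(t - (s0 + j * H)) ^ 2 / (2 * H ^ 2)) * G0 t) with hI
  -- integrability
  have hcont : ∀ j : ℕ, Continuous (fun t : ℝ => Real.exp 2 *
      (Real.exp (-(t - (s0 + j * H)) ^ 2 / (2 * H ^ 2)) * G0 t)) := by
    intro j
    have : Continuous (fun t : ℝ => Real.exp (-(t - (s0 + j * H)) ^ 2 / (2 * H ^ 2))) := by fun_prop
    exact continuous_const.mul (this.mul hGc)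
  have hint : ∀ j : ℕ, IntegrableOn (fun t : ℝ => Real.exp 2 *
      (Real.exp (-(t - (s0 + j * H)) ^ 2 / (2 * H ^ 2)) * G0 t)) S := by
    intro j
    exact ((hcont j).continuousOn.integrableOn_compact isCompact_Icc).mono_set inter_subset_right
  have hW2 : ∀ j ∈ Finset.range N, ∑ z ∈ isoZ α (s0 + j * H - U) (s0 + j * H + U),
        Real.exp (-(z - (s0 + j * H)) ^ 2 / H ^ 2) * y z ≤ (20 * I j + (1 + M * H)) / 3 := by
    intro j hj
    obtain ⟨t1, t2⟩ := ht j (Finset.mem_range.mp hj)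
    have h1 := hW (s0 + j * H) (by rw [hs0] at t1 ⊢; linarith only [t1, hθT, hT]) (by linarith only [t2, hθT, hT])
    have h2 : ∫ t in Icc (s0 + j * H - 2 * U) (s0 + j * H + 2 * U) ∩ EE α,
          Real.exp 2 * Real.exp (-(t - (s0 + j * H)) ^ 2 / (2 * H ^ 2)) * G0 t ≤ I j := by
      simp only [hI]
      have e1 : ∀ t : ℝ, Real.exp 2 * Real.exp (-(t - (s0 + j * H)) ^ 2 / (2 * H ^ 2)) * G0 t =
          Real.exp 2 * (Real.exp (-(t - (s0 + j * H)) ^ 2 / (2 * H ^ 2)) * G0 t) := fun t => by ring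
      simp only [e1]
      refine setIntegral_mono_set (hint j) (Filter.Eventually.of_forall fun t => ?_) ?_
      · have := hG0 t
        simp only [Pi.zero_apply]
        positivity
      · apply LE.le.eventuallyLE
        rintro t ⟨⟨ha, hb⟩, hE⟩
        refine ⟨hE, ?_, ?_⟩
        · rw [hs0] at t1 ha
          linarith
        · linarith
    have h3 : 0 ≤ ∑ z ∈ isoZ α (s0 + j * H - U) (s0 + j * H + U),
        Real.exp (-(z - (s0 + j * H)) ^ 2 / H ^ 2) * y z := by
      refine Finset.sum_nonneg fun z hz => ?_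
      obtain ⟨_, hz0, hzb⟩ := mem_isoZ.mp hz
      have := hy z hz0 hzb
      positivity
    have h4 := mul_le_mul_of_nonneg_right hpi.le h3
    rw [le_div_iff₀ (by norm_num)]
    linarith only [h1, h2, h4]
  have hsum : ∑ j ∈ Finset.range N, I j ≤ 8 * Real.exp 2 * T := by
    simp only [hI]
    rw [← integral_finsetSum _ (fun j _ => hint j)]
    calc ∫ t in S, ∑ j ∈ Finset.range N, Real.exp 2 *
          (Real.exp (-(t - (s0 + j * H)) ^ 2 / (2 * H ^ 2)) * G0 t)
        ≤ ∫ t in S, 8 * Real.exp 2 * G0 t := by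
          refine setIntegral_mono_on ?_ ?_ hSm fun t _ => ?_
          · exact integrable_finsetSum _ fun j _ => hint j
          · exact ((continuous_const.mul hGc).continuousOn.integrableOn_compact
              isCompact_Icc).mono_set inter_subset_right
          · have e2 : ∑ j ∈ Finset.range N, Real.exp 2 *
                (Real.exp (-(t - (s0 + j * H)) ^ 2 / (2 * H ^ 2)) * G0 t) =
                Real.exp 2 * G0 t * ∑ j ∈ Finset.range N,
                  Real.exp (-((t - s0) / H - j) ^ 2 / 2) := by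
              rw [Finset.mul_sum]
              refine Finset.sum_congr rfl fun j _ => ?_
              have e3 : -(t - (s0 + j * H)) ^ 2 / (2 * H ^ 2) = -((t - s0) / H - j) ^ 2 / 2 := by
                field_simp
                ring
              rw [e3]
              ring
            rw [e2]
            have h5 := R2_gsum ((t - s0) / H) N
            have h6 := hG0 t
            calc Real.exp 2 * G0 t * ∑ j ∈ Finset.range N,
                  Real.exp (-((t - s0) / H - j) ^ 2 / 2) ≤ Real.exp 2 * G0 t * 8 := by gcongr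
              _ = _ := by ring
      _ = 8 * Real.exp 2 * ∫ t in S, G0 t := integral_const_mul _ _
      _ ≤ 8 * Real.exp 2 * T := by gcongr
  have he1 : Real.exp 1 ≤ 3 := by
    have := Real.exp_one_lt_d9
    linarith
  have he2 : Real.exp 2 ≤ 15 / 2 := by
    have h1 : Real.exp 2 = Real.exp 1 ^ 2 := by
      rw [← Real.exp_nat_mul]
      norm_num
    have h2 := Real.exp_one_lt_d9
    have h3 := Real.exp_pos 1
    rw [h1]
    exact (pow_le_pow_left₀ h3.le h2.le 2).trans (by norm_num)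
  have hE : ∑ j ∈ Finset.range N, ∑ z ∈ isoZ α (s0 + j * H - U) (s0 + j * H + U),
        Real.exp (-(z - (s0 + j * H)) ^ 2 / H ^ 2) * y z ≤ (1300 + 2 * M) * T / 3 := by
    refine (Finset.sum_le_sum hW2).trans ?_
    rw [← Finset.sum_div, Finset.sum_add_distrib, ← Finset.mul_sum, Finset.sum_const,
      Finset.card_range, nsmul_eq_mul]
    apply div_le_div_of_nonneg_right _ (by norm_num)
    have a1 : (N:ℝ) * 1 ≤ N * H := by gcongr
    have a2 : (N:ℝ) * H * M ≤ 2 * T * M := mul_le_mul_of_nonneg_right hN2 hM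
    have h8 : Real.exp 2 * T ≤ 15 / 2 * T := mul_le_mul_of_nonneg_right he2 hT.le
    linarith only [hsum, a1, a2, h8, hN2, hT]
  calc Real.exp 1 * _ ≤ Real.exp 1 * ((1300 + 2 * M) * T / 3) := by gcongr
    _ ≤ 3 * ((1300 + 2 * M) * T / 3) := by gcongr
    _ = _ := by ring

/-- the pointwise bound on the boxes -/
lemma R2W_box {τ T H t0 : ℝ} (hτ : 1 / 3 < τ) (hτ1 : τ < 1)
    (hL7 : 7 ≤ Real.log T) (hH : 1 ≤ H) {B : ℂ → ℂ} {G : ℝ → ℝ}
    (hG : ∀ (t : ℝ) (s : ℂ), |s.re - 1 / 2| ≤ 1 / Real.log T →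
        |s.im - t| ≤ alp τ T → (∀ v, Xr v = 0 → 1 / Real.log T ≤ ‖s - (1 / 2 + v * I)‖) →
        ‖B s * fq (alp τ T) s‖ ≤ G t)
    (t : ℝ) (s : ℂ) (hs1 : |s.re - 1 / 2| ≤ 1 / Real.log T) (hs2 : |s.im - t| ≤ alp τ T)
    (hs3 : s.re = 1 / 2 + 1 / Real.log T ∨ s.re = 1 / 2 - 1 / Real.log T ∨
          ∀ v, Xr v = 0 → Real.pi * τ / Real.log T ≤ |v - s.im|) :
    ‖FF H t0 (alp τ T) B s‖ ≤
      Real.exp 2 * Real.exp (-(t - t0) ^ 2 / (2 * H ^ 2)) * G t := by
  have hpi := Real.pi_pos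
  have hpi3 := Real.pi_gt_three
  have hpi4 := Real.pi_lt_four
  set L := Real.log T with hL
  have hLpos : 0 < L := by linarith
  have hα1 : alp τ T ≤ 8 / 7 := by
    unfold alp
    rw [← hL, div_le_iff₀ hLpos]
    nlinarith
  have h1 : ‖Og H t0 s‖ ≤ Real.exp 2 * Real.exp (-(t - t0) ^ 2 / (2 * H ^ 2)) := by
    rw [norm_Og_s, ← Real.exp_add]
    apply Real.exp_le_exp.mpr
    have hH2 : 1 ≤ H ^ 2 := one_le_pow₀ hH
    have a1 : (s.re - 1 / 2) ^ 2 ≤ (1 / 2) ^ 2 := by
      rw [← sq_abs]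
      have : 1 / L ≤ 1 / 2 := by
        rw [div_le_div_iff₀ hLpos (by norm_num)]; linarith
      have h5 : |s.re - 1 / 2| ≤ 1 / 2 := hs1.trans this
      exact pow_le_pow_left₀ (abs_nonneg _) h5 2
    have a2 : (s.im - t) ^ 2 ≤ (8 / 7) ^ 2 := by
      rw [← sq_abs]
      exact pow_le_pow_left₀ (abs_nonneg _) (hs2.trans hα1) 2
    have a3 : (s.re - 1 / 2) ^ 2 - (s.im - t0) ^ 2 ≤ 2 - (t - t0) ^ 2 / 2 := by
      nlinarith [sq_nonneg ((s.im - t0) + (s.im - t))]
    have hH0 : 0 < H ^ 2 := by positivity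
    calc ((s.re - 1 / 2) ^ 2 - (s.im - t0) ^ 2) / H ^ 2 ≤ (2 - (t - t0) ^ 2 / 2) / H ^ 2 :=
          div_le_div_of_nonneg_right a3 hH0.le
      _ = 2 / H ^ 2 + -(t - t0) ^ 2 / (2 * H ^ 2) := by field_simp; ring
      _ ≤ 2 + -(t - t0) ^ 2 / (2 * H ^ 2) := by
          gcongr
          rw [div_le_iff₀ hH0]; linarith
  have h2 : ‖B s * fq (alp τ T) s‖ ≤ G t := by
    refine hG t s hs1 hs2 fun v hv => ?_
    have e1 : s - (1 / 2 + v * I) = ((s.re - 1 / 2 : ℝ) : ℂ) + ((s.im - v : ℝ) : ℂ) * I := by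
      apply Complex.ext <;> simp
    have c1 := Complex.abs_re_le_norm (s - (1 / 2 + v * I))
    have c2 := Complex.abs_im_le_norm (s - (1 / 2 + v * I))
    have d1 : (s - (1 / 2 + v * I)).re = s.re - 1 / 2 := by rw [e1]; simp
    have d2 : (s - (1 / 2 + v * I)).im = s.im - v := by rw [e1]; simp
    rw [d1] at c1
    rw [d2] at c2
    rcases hs3 with h | h | h
    · rw [h] at c1
      refine le_trans ?_ c1
      rw [add_sub_cancel_left]
      exact le_abs_self _
    · rw [h] at c1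
      refine le_trans ?_ c1
      rw [sub_sub_cancel_left, abs_neg]
      exact le_abs_self _
    · have := h _ hv
      rw [abs_sub_comm] at this
      refine le_trans ?_ (this.trans c2)
      apply div_le_div_of_nonneg_right _ hLpos.le
      nlinarith
  unfold FF
  rw [mul_assoc, norm_mul]
  exact mul_le_mul h1 h2 (norm_nonneg _) (by positivity)

lemma R2W_intS {α T θ K w : ℝ} (hT : 0 < T) (hθ : 0 < θ) (hθ8 : θ ≤ 1 / 8) (hK : 0 < K) {G : ℝ → ℝ}
    (hGc : Continuous G) (h2 : ∫ t in (w + T)..(w + 2 * T), G t ^ 2 ≤ K * T)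
    (hF : volume.real (EE α ∩ Icc (w + (5 / 4 - θ) * T) (w + (7 / 4 + θ) * T)) ≤ 1 / K * T) :
    ∫ t in EE α ∩ Icc (w + (5 / 4 - θ) * T) (w + (7 / 4 + θ) * T), G t ≤ T := by
  set S := EE α ∩ Icc (w + (5 / 4 - θ) * T) (w + (7 / 4 + θ) * T) with hS
  have hSm : MeasurableSet S := (measurableSet_EE α).inter measurableSet_Icc
  have hθT : 0 < θ * T := by positivity
  have hθT8 : θ * T ≤ 1 / 8 * T := by gcongr
  have hSs : S ⊆ Ioc (w + T) (w + 2 * T) := by
    rintro t ⟨_, h1, h2⟩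
    constructor <;> linarith
  have hSfin : volume S ≠ ⊤ := ne_top_of_le_ne_top (by simp) (measure_mono hSs)
  have i1 : IntegrableOn G S := (hGc.continuousOn.integrableOn_compact isCompact_Icc).mono_set
    inter_subset_right
  have i2' : IntegrableOn (fun t => G t ^ 2) (Ioc (w + T) (w + 2 * T)) :=
    ((hGc.pow 2).continuousOn.integrableOn_compact isCompact_Icc).mono_set Ioc_subset_Icc_self
  have i2 : IntegrableOn (fun t => G t ^ 2) S := i2'.mono_set hSs
  have i3 : IntegrableOn (fun _ : ℝ => K / 2) S := integrableOn_const hSfin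
  rw [intervalIntegral.integral_of_le (by linarith)] at h2
  have h3 : ∫ t in S, G t ^ 2 ≤ K * T := by
    refine le_trans ?_ h2
    exact setIntegral_mono_set i2' (Filter.Eventually.of_forall fun t => sq_nonneg _)
      hSs.eventuallyLE
  calc ∫ t in S, G t ≤ ∫ t in S, (1 / (2 * K) * G t ^ 2 + K / 2) := by
        refine setIntegral_mono_on i1 ((i2.const_mul _).add i3) hSm fun t _ => ?_
        have h4 : 0 ≤ (G t - K) ^ 2 / (2 * K) := by positivity
        have h5 : 1 / (2 * K) * G t ^ 2 + K / 2 - G t = (G t - K) ^ 2 / (2 * K) := by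
          field_simp
          ring
        linarith
    _ = 1 / (2 * K) * (∫ t in S, G t ^ 2) + volume.real S * (K / 2) := by
        rw [integral_add (i2.const_mul _) i3, integral_const_mul, setIntegral_const, smul_eq_mul]
    _ ≤ 1 / (2 * K) * (K * T) + 1 / K * T * (K / 2) := by gcongr
    _ = T := by
        field_simp
        ring

theorem sumres_w (hRH : RiemannHypothesis) {a : ℝ} (ha : 0 < a) (ha1 : a ≤ 1) : ∃ C : ℝ, 0 < C ∧
    ∀ D : AData, D.ep ≤ a → ∀ τ θ : ℝ,
    1 / (1 + a) - D.ep ^ 2 ≤ τ → τ < 1 / (1 + a) → 0 < θ → θ ≤ 1 / 8 →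
    ∃ δ T0 : ℝ, 0 < δ ∧ ∀ T : ℝ, T0 ≤ T → ∀ w : ℝ, Hgt a θ T w → FewW (a * τ) δ θ T w →
    (∑ z ∈ isoZ (alp (a * τ) T) (w + (5 / 4 - θ / 2) * T) (w + (7 / 4 + θ / 2) * T),
      ‖Vs D T (1 / 2 + ((z + alp (a * τ) T : ℝ) : ℂ) * I)‖ ^ 2 * cz (alp (a * τ) T) z ≤
        C * Real.log (1 / D.ep) * T) ∧
    (∑ z ∈ isoZ (alp (a * τ) T) (w + (5 / 4 - θ / 2) * T) (w + (7 / 4 + θ / 2) * T),
      cz (alp (a * τ) T) z ≤ C * T) := by
  obtain ⟨C0, hC0, hMA⟩ := MA_bound_w ha ha1
  refine ⟨1306 + 4 * C0, by positivity, fun D hea τ θ hτ hτ2 hθ hθ8 => ?_⟩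
  have hpi3 := Real.pi_gt_three
  have hpi4 := Real.pi_lt_four
  have hep := D.ep_pos
  have hep1 := D.ep_le
  have hτ49 : 49 / 100 < τ := tau_pos ha ha1 hep hep1 hτ
  have hτ1 : τ < 1 := tau_lt_one ha hτ2
  have hσ2 : a * τ < 1 / 2 := sig_lt ha ha1 hτ2
  have hσ0 : 0 < a * τ := by positivity
  set η1 := a * (1 - D.ep / 2) with hη1
  set η2 := a * (1 - D.ep / 4) with hη2
  have hη1p : 0 < η1 := mul_pos ha (by linarith)
  have h12 : η1 < η2 := mul_lt_mul_of_pos_left (by linarith) ha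
  have hη21 : η2 < 1 := by
    have : a * (1 - D.ep / 4) ≤ 1 * (1 - D.ep / 4) := mul_le_mul_of_nonneg_right ha1 (by linarith)
    linarith
  have h12' : η2 < 2 * η1 := by
    have : a * (1 - D.ep / 4) < a * (2 * (1 - D.ep / 2)) :=
      mul_lt_mul_of_pos_left (by linarith) ha
    linarith
  have hκη : a * (1 - D.ep) < η1 := mul_lt_mul_of_pos_left (by linarith) ha
  obtain ⟨T1, hMA1⟩ := hMA D hea τ hτ hτ2
  obtain ⟨T2, hW⟩ := wrap_res hRH (τ := τ) (κ := a * (1 - D.ep)) (η1 := η1) (η2 := η2) (A := 4)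
    (by linarith) hτ1 hκη hη1p h12 hη21
  obtain ⟨K, T3, hK, hbox⟩ := gbox_w hRH D ha ha1 ha
  obtain ⟨C1, T4, hC1, hgam⟩ := gam_int_gen (A := 2 * Real.pi) (η1 := η1) (η2 := η2)
    (by positivity) hη1p h12' h12 hη21
  have e1 : ∀ᶠ T : ℝ in Filter.atTop, 5 / θ ≤ T ^ (D.ep / 4) :=
    (tendsto_rpow_atTop (by linarith : 0 < D.ep / 4)).eventually_ge_atTop _
  have e2 : ∀ᶠ T : ℝ in Filter.atTop, max 7 (max C1 (C0 * C1 / D.ep)) ≤ Real.log T :=
    Real.tendsto_log_atTop.eventually_ge_atTop _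
  obtain ⟨T5, hT5⟩ := Filter.eventually_atTop.mp (e1.and e2)
  refine ⟨1 / K, max (max (max T1 T2) (max T3 T4)) (max T5 1), by positivity,
    fun T hT w hgt hFew => ?_⟩
  have hTT1 : T1 ≤ T := ((le_max_left _ _).trans ((le_max_left _ _).trans (le_max_left _ _))).trans hT
  have hTT2 : T2 ≤ T := ((le_max_right _ _).trans ((le_max_left _ _).trans (le_max_left _ _))).trans hT
  have hTT3 : T3 ≤ T := ((le_max_left _ _).trans ((le_max_right _ _).trans (le_max_left _ _))).trans hT
  have hTT4 : T4 ≤ T := ((le_max_right _ _).trans ((le_max_right _ _).trans (le_max_left _ _))).trans hT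
  have hTT5 : T5 ≤ T := ((le_max_left _ _).trans (le_max_right _ _)).trans hT
  have hTT6 : 1 ≤ T := ((le_max_right _ _).trans (le_max_right _ _)).trans hT
  have hT0 : 0 < T := by linarith
  obtain ⟨f1, f2⟩ := hT5 T hTT5
  obtain ⟨b1, b2⟩ := hMA1 T hTT1
  obtain ⟨G, hGc, hG0, hGb, hG2w⟩ := hbox T hTT3
  have hG2 := hG2w w (Hgt_mono hT0.le hgt hθ.le)
  -- the height
  set Th := T ^ (1 / a) with hTh
  have hTTh : T ≤ Th := le_rpow_inv ha ha1 hTT6
  have hTh1 : 1 ≤ Th := hTT6.trans hTTh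
  have hTh0 : 0 < Th := by linarith
  have hLh : Real.log Th = Real.log T / a := log_rpow_inv hT0
  have hLT : 7 ≤ Real.log T := (le_max_left _ _).trans f2
  have hLT0 : 0 < Real.log T := by linarith
  have hLLh : Real.log T ≤ Real.log Th := Real.log_le_log hT0 hTTh
  set L := Real.log Th with hL
  have hL7 : 7 ≤ L := hLT.trans hLLh
  have hLC1 : C1 ≤ L := ((le_max_left _ _).trans ((le_max_right _ _).trans f2)).trans hLLh
  have hLC2 : C0 * C1 / D.ep ≤ L :=
    ((le_max_right _ _).trans ((le_max_right _ _).trans f2)).trans hLLh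
  have hL0 : 0 < L := by linarith
  have hinv : 1 / L = a / Real.log T := by
    rw [hLh, one_div_div]
  have hinvle : 1 / L ≤ 1 / Real.log T := by
    rw [hinv]
    exact div_le_div_of_nonneg_right ha1 hLT0.le
  have hsc : alp τ Th = alp (a * τ) T := alp_scale hT0
  set α := alp (a * τ) T with hα
  have hα0 : 0 < α := by
    rw [hα]
    unfold alp
    positivity
  have hα1 : α ≤ 2 * Real.pi / L := by
    rw [← hsc]
    unfold alp
    rw [← hL]
    apply div_le_div_of_nonneg_right _ hL0.le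
    exact mul_le_of_le_one_right (by positivity) hτ1.le
  set H := Th ^ η1 with hH
  set U := Th ^ η2 with hU
  have hH1 : 1 ≤ H := Real.one_le_rpow hTh1 hη1p.le
  have hHU : H ≤ U := Real.rpow_le_rpow_of_exponent_le hTh1 h12.le
  have hU0 : 0 < U := by linarith
  have hUe : U = T ^ (1 - D.ep / 4) := by
    rw [hU, hTh, ← Real.rpow_mul hT0.le, hη2]
    congr 1
    field_simp
  have hUT : 2 * U ≤ 2 / 5 * θ * T := by
    have h2 : T ^ (D.ep / 4) * U = T := by
      rw [hUe, ← Real.rpow_add hT0]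
      simp
    have h3 : 5 / θ * U ≤ T := (mul_le_mul_of_nonneg_right f1 hU0.le).trans_eq h2
    have h4 : θ * (5 / θ * U) ≤ θ * T := mul_le_mul_of_nonneg_left h3 hθ.le
    have h5 : θ * (5 / θ * U) = 5 * U := by field_simp
    linarith
  have hS := R2W_intS (α := α) (w := w) hT0 hθ hθ8 hK hGc hG2 hFew
  -- the weighted envelope is continuous
  have hGt : ∀ t0 : ℝ, Continuous (fun t : ℝ =>
      Real.exp 2 * Real.exp (-(t - t0) ^ 2 / (2 * H ^ 2)) * G t) := by
    intro t0
    have : Continuous (fun t : ℝ => Real.exp (-(t - t0) ^ 2 / (2 * H ^ 2))) := by fun_prop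
    exact (continuous_const.mul this).mul hGc
  have hlam : 1 ≤ Real.log (1 / D.ep) := by
    rw [Real.le_log_iff_exp_le (by positivity), le_div_iff₀ hep]
    have h6 := mul_le_mul Real.exp_one_lt_d9.le hep1 hep.le (by norm_num)
    exact h6.trans (by norm_num)
  have hsp : Real.sqrt Real.pi ≤ 2 := by
    rw [Real.sqrt_le_left (by norm_num)]
    linarith
  have hsp0 : 0 ≤ Real.sqrt Real.pi := Real.sqrt_nonneg _
  set P : ℂ := Complex.exp (((α / 2 * Real.log (Th / (2 * Real.pi)) : ℝ) : ℂ) * I) with hP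
  have hPn : ‖P‖ = 1 := Complex.norm_exp_ofReal_mul_I _
  have hrange : ∀ t0 : ℝ, w + (5 / 4 - θ) * T ≤ t0 → t0 ≤ w + (7 / 4 + θ) * T →
      Th ≤ t0 ∧ t0 ≤ 2 * Th := fun t0 h1 h2 => ⟨hgt.1.trans h1, h2.trans hgt.2⟩
  have hJ : ∀ t0 : ℝ, Th ≤ t0 → t0 ≤ 2 * Th →
      ‖(∫ t in (t0 - U)..(t0 + U), Og H t0 (2 + t * I) * gam α (2 + t * I)) -
        ((Real.sqrt Real.pi * H : ℝ) : ℂ) * P‖ ≤ C1 / L * H :=
    fun t0 h1 h2 => hgam Th α t0 (hTT4.trans hTTh) hα0.le hα1 h1 h2
  have hcz : ∀ z, Xr z = 0 → ¬ badz α z → 0 ≤ cz α z := fun z h1 h2 => cz_nonneg hα0 h1 h2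
  have hbx : ∀ (t : ℝ) (s : ℂ), |s.re - 1 / 2| ≤ 1 / Real.log Th → |s.im - t| ≤ alp τ Th →
      (∀ v, Xr v = 0 → 1 / Real.log Th ≤ ‖s - (1 / 2 + v * I)‖) →
      ‖BS (QV (XN D T)) (bA D T α) wV s * fq α s‖ ≤ G t ∧
        ‖Fs D T α s‖ ≤ G t ∧ ‖fq α s‖ ≤ G t := by
    intro t s h1 h2 h3
    refine hGb (a * τ) hσ0.le hσ2.le t s (h1.trans hinvle) (h2.trans_eq hsc) fun v hv => ?_
    rw [← hinv]
    exact h3 v hv
  constructor
  · have hy : ∀ z, Xr z = 0 → ¬ badz α z →
        0 ≤ ‖Vs D T (1 / 2 + ((z + α : ℝ) : ℂ) * I)‖ ^ 2 * cz α z :=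
      fun z h1 h2 => mul_nonneg (by positivity) (hcz z h1 h2)
    set M := 2 * C0 * Real.log (1 / D.ep) + 1 with hM
    have hM0 : 0 ≤ M := by positivity
    have key := R2W_core (α := α) (T := T) (θ := θ) (H := H) (U := U) (M := M) (w := w) hT0 hθ hθ8
      hH1 hHU hUT _ hy G hGc hG0 hS hM0 ?_
    · refine key.trans ?_
      have h1 : (1302:ℝ) ≤ 1302 * Real.log (1 / D.ep) := by linarith
      have h2 : 1300 + 2 * M ≤ (1306 + 4 * C0) * Real.log (1 / D.ep) := by
        rw [hM]
        linarith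
      exact mul_le_mul_of_nonneg_right h2 hT0.le
    · intro t0 hr1 hr2
      obtain ⟨ht1, ht2⟩ := hrange t0 hr1 hr2
      have w' := hW Th (hTT2.trans hTTh) t0 ht1 ht2 (QV (XN D T)) (bA D T α) wV (R2_conj D T α)
        (R2_re_nonneg D T α) ?_ ?_
        (fun t : ℝ => Real.exp 2 * Real.exp (-(t - t0) ^ 2 / (2 * H ^ 2)) * G t)
        (fun t => by have := hG0 t; positivity)
        ((hGt t0).continuousOn.integrableOn_compact isCompact_Icc) ?_
      · have e5 : ∀ z : ℝ, Real.exp (-(z - t0) ^ 2 / H ^ 2) *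
            (BS (QV (XN D T)) (bA D T α) wV (1 / 2 + z * I)).re * cz α z =
            Real.exp (-(z - t0) ^ 2 / H ^ 2) *
            (‖Vs D T (1 / 2 + ((z + α : ℝ) : ℂ) * I)‖ ^ 2 * cz α z) := by
          intro z
          rw [BA_half, Complex.ofReal_re, mul_assoc]
        rw [hsc, ← hH, ← hU] at w'
        simp only [e5] at w'
        refine w'.trans ?_
        set J := ∫ t in (t0 - U)..(t0 + U), Og H t0 (2 + t * I) * gam α (2 + t * I) with hJdef
        have j1 := hJ t0 ht1 ht2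
        have j2 : (MA D T α * J).im = (MA D T α * (((Real.sqrt Real.pi * H : ℝ) : ℂ) * P)).im +
            (MA D T α * (J - ((Real.sqrt Real.pi * H : ℝ) : ℂ) * P)).im := by
          rw [← Complex.add_im]
          congr 1
          ring
        have j3 : (MA D T α * (((Real.sqrt Real.pi * H : ℝ) : ℂ) * P)).im ≤
            2 * H * (C0 * Real.log (1 / D.ep)) := by
          have e6 : MA D T α * (((Real.sqrt Real.pi * H : ℝ) : ℂ) * P) =
              ((Real.sqrt Real.pi * H : ℝ) : ℂ) * (P * MA D T α) := by ring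
          rw [e6, Complex.im_ofReal_mul]
          calc _ ≤ Real.sqrt Real.pi * H * (C0 * Real.log (1 / D.ep)) :=
                mul_le_mul_of_nonneg_left b1 (by positivity)
            _ ≤ 2 * H * (C0 * Real.log (1 / D.ep)) := by gcongr
        have j4 : (MA D T α * (J - ((Real.sqrt Real.pi * H : ℝ) : ℂ) * P)).im ≤ H := by
          refine (le_abs_self _).trans ((Complex.abs_im_le_norm _).trans ?_)
          rw [norm_mul]
          calc _ ≤ C0 / D.ep * (C1 / L * H) :=
                mul_le_mul b2 j1 (norm_nonneg _) (by positivity)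
            _ = (C0 * C1 / D.ep) / L * H := by ring
            _ ≤ 1 * H := by
                apply mul_le_mul_of_nonneg_right _ (by linarith)
                rw [div_le_one hL0]
                exact hLC2
            _ = H := one_mul H
        change (MA D T α * J).im ≤ M * H
        rw [j2, hM]
        linarith only [j3, j4]
      · -- the size of the coefficients
        refine (R2_sum D T α (XN D T)).trans ?_
        have h1 : (XN D T : ℝ) ≤ Th := by
          unfold XN
          refine (Nat.floor_le (Real.rpow_nonneg hT0.le _)).trans ?_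
          calc T ^ (1 - D.ep) ≤ T ^ (1:ℝ) :=
                Real.rpow_le_rpow_of_exponent_le hTT6 (by linarith)
            _ = T := Real.rpow_one T
            _ ≤ Th := hTTh
        calc (XN D T : ℝ) ^ 4 ≤ Th ^ 4 := pow_le_pow_left₀ (Nat.cast_nonneg _) h1 4
          _ = Th ^ (4:ℝ) := by
              rw [← Real.rpow_natCast]
              norm_num
      · -- separation
        intro q hq n hn
        rcases wV_sep hq hn with h | h
        · exact Or.inl h
        · right
          refine le_trans ?_ h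
          have e7 : Th ^ (-(a * (1 - D.ep))) = T ^ (-(1 - D.ep)) := by
            rw [hTh, ← Real.rpow_mul hT0.le]
            congr 1
            field_simp
          rw [e7]
          have h1 : (XN D T : ℝ) ≤ T ^ (1 - D.ep) := by
            unfold XN
            exact Nat.floor_le (Real.rpow_nonneg hT0.le _)
          have h2 : 1 ≤ T ^ (1 - D.ep) := Real.one_le_rpow hTT6 (by linarith)
          rw [Real.rpow_neg hT0.le, div_le_div_iff₀ (by norm_num) (by positivity), one_mul]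
          rw [inv_mul_le_iff₀ (by linarith)]
          linarith
      · intro t _ s hs1 hs2 hs3
        refine R2W_box (τ := τ) (T := Th) (by linarith) hτ1 hL7 hH1
          (fun t s h1 h2 h3 => ?_) t s hs1 hs2 hs3
        rw [hsc]
        exact (hbx t s h1 h2 h3).1
  · have key := R2W_core (α := α) (T := T) (θ := θ) (H := H) (U := U) (M := 3) (w := w) hT0 hθ hθ8
      hH1 hHU hUT _ hcz G hGc hG0 hS (by norm_num) ?_
    · refine key.trans ?_
      apply mul_le_mul_of_nonneg_right _ hT0.le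
      linarith
    · intro t0 hr1 hr2
      obtain ⟨ht1, ht2⟩ := hrange t0 hr1 hr2
      have w' := hW Th (hTT2.trans hTTh) t0 ht1 ht2 ({()} : Finset Unit) (fun _ => (1:ℂ))
        (fun _ => (0:ℝ))
        (fun s => by rw [R2_bs, R2_bs, map_one]) (fun t => by rw [R2_bs]; simp) ?_ ?_
        (fun t : ℝ => Real.exp 2 * Real.exp (-(t - t0) ^ 2 / (2 * H ^ 2)) * G t)
        (fun t => by have := hG0 t; positivity)
        ((hGt t0).continuousOn.integrableOn_compact isCompact_Icc) ?_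
      · have e5 : ∀ z : ℝ, Real.exp (-(z - t0) ^ 2 / H ^ 2) *
            (BS ({()} : Finset Unit) (fun _ => (1:ℂ)) (fun _ => (0:ℝ)) (1 / 2 + z * I)).re * cz α z =
            Real.exp (-(z - t0) ^ 2 / H ^ 2) * cz α z := by
          intro z
          rw [R2_bs, Complex.one_re, mul_one]
        rw [hsc, ← hH, ← hU] at w'
        simp only [e5] at w'
        refine w'.trans ?_
        rw [R2_mdiag, one_mul]
        refine (le_abs_self _).trans ((Complex.abs_im_le_norm _).trans ?_)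
        have j1 := hJ t0 ht1 ht2
        have j2 : ‖((Real.sqrt Real.pi * H : ℝ) : ℂ) * P‖ ≤ 2 * H := by
          rw [norm_mul, hPn, mul_one, Complex.norm_real, Real.norm_of_nonneg (by positivity)]
          gcongr
        have j3 : C1 / L * H ≤ 1 * H := by
          apply mul_le_mul_of_nonneg_right _ (by linarith)
          rw [div_le_one hL0]
          exact hLC1
        have j4 := norm_sub_norm_le
          (∫ t in (t0 - U)..(t0 + U), Og H t0 (2 + t * I) * gam α (2 + t * I))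
          (((Real.sqrt Real.pi * H : ℝ) : ℂ) * P)
        linarith only [j1, j2, j3, j4]
      · rw [Finset.sum_singleton]
        simp only [norm_one, abs_zero, mul_zero, Real.exp_zero, mul_one]
        exact Real.one_le_rpow hTh1 (by norm_num)
      · intro q _ n hn
        rcases Nat.lt_or_ge 1 n with h | h
        · right
          rw [zero_add]
          have h2 : Real.log 2 ≤ Real.log n := by
            apply Real.log_le_log (by norm_num)
            exact_mod_cast h
          have h3 := Real.log_two_gt_d9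
          refine le_trans ?_ (le_abs_self _)
          have h4 : Th ^ (-(a * (1 - D.ep))) ≤ 1 :=
            Real.rpow_le_one_of_one_le_of_nonpos hTh1 (by
              have : 0 ≤ a * (1 - D.ep) := mul_nonneg ha.le (by linarith)
              linarith)
          linarith
        · left
          have : n = 1 := le_antisymm h hn
          rw [this]
          simp
      · intro t _ s hs1 hs2 hs3
        refine R2W_box (τ := τ) (T := Th) (by linarith) hτ1 hL7 hH1
          (fun t s h1 h2 h3 => ?_) t s hs1 hs2 hs3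
        rw [R2_bs, one_mul, hsc]
        exact (hbx t s h1 h2 h3).2.2

end Pool.Agent.AHW
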