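import Pool.Agent.ZGap.AH.V
import Pool.Agent.ZGap.DW.Gam

/-!
# Mean values in windows
-/

open scoped ContDiff

namespace Pool.Agent.AHW

open Complex MeasureTheory Set Pool.Agent.Hadamard Pool.Agent.HalfGap Pool.Agent.AHD

/-- the mean value theorem in a window -/
lemma V_mvt_w {S : Finset ℕ} {N : ℕ} (hS : S ⊆ Finset.Icc 1 N) {T : ℝ} (hT : 0 < T)
    (hN : (N : ℝ) ≤ 2 * T) (a : ℕ → ℂ) {x K : ℝ} (hK : ∀ n ∈ S, Real.log n ≤ K) {u v : ℝ}
    (huv : u ≤ v) (hv : v ≤ u + 2 * T) :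
    ∫ t in u..v, ‖∑ n ∈ S, a n * (n : ℂ) ^ (-(ss x t))‖ ^ 2 ≤
      5 * Real.pi * T * (Real.exp (2 * (K * max (-x) 0)) * ∑ n ∈ S, ‖a n‖ ^ 2 / n) := by
  have h1 : ∫ t in u..v, ‖∑ n ∈ S, a n * (n : ℂ) ^ (-(ss x t))‖ ^ 2 =
      ∫ t in (0 : ℝ)..(v - u),
        ‖∑ n ∈ S, (a n * (n : ℂ) ^ (-(u * I) : ℂ)) * (n : ℂ) ^ (-(ss x t))‖ ^ 2 := by
    have h2 := intervalIntegral.integral_comp_add_left
      (fun t => ‖∑ n ∈ S, a n * (n : ℂ) ^ (-(ss x t))‖ ^ 2) (a := (0 : ℝ)) (b := v - u) u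
    rw [add_zero, add_sub_cancel] at h2
    rw [← h2]
    refine intervalIntegral.integral_congr fun t _ => ?_
    congr 2
    refine Finset.sum_congr rfl fun n hn => ?_
    have hn0 : (n : ℂ) ≠ 0 := by
      have := (Finset.mem_Icc.1 (hS hn)).1
      exact_mod_cast (by omega : n ≠ 0)
    rw [mul_assoc, ← Complex.cpow_add _ _ hn0]
    congr 2
    unfold ss
    push_cast
    ring
  rw [h1]
  have h3 := V_mvt hS hT hN (fun n => a n * (n : ℂ) ^ (-(u * I) : ℂ)) (x := x) hK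
    (u := 0) (v := v - u) (by linarith) (by linarith) (by linarith)
  refine h3.trans (le_of_eq ?_)
  congr 2
  refine Finset.sum_congr rfl fun n hn => ?_
  have hn0 : 0 < n := (Finset.mem_Icc.1 (hS hn)).1
  have h4 : ‖(n : ℂ) ^ (-(u * I) : ℂ)‖ = 1 := by
    rw [Complex.norm_natCast_cpow_of_pos hn0]
    simp
  rw [norm_mul, h4, mul_one]

/-- mean value of `V` on subintervals -/
theorem V_vmean_gen_w : ∃ C : ℝ, 0 < C ∧ ∀ D : AData, ∃ T0 : ℝ, ∀ T : ℝ, T0 ≤ T → ∀ x u v : ℝ,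
    u ≤ v → v ≤ u + 2 * T →
    ∫ t in u..v, ‖Vs D T (ss x t)‖ ^ 2 ≤
      C / D.ep * Real.exp (2 * (ka D T * max (-x) 0)) * T := by
  obtain ⟨C1, hC1, h1⟩ := sum_Gb
  refine ⟨5 * Real.pi * C1, by positivity, fun D => ?_⟩
  obtain ⟨T1, hT1⟩ := h1 D
  refine ⟨max T1 (Real.exp 1), fun T hT x u v huv hv => ?_⟩
  have hTT1 : T1 ≤ T := (le_max_left _ _).trans hT
  have hTe : Real.exp 1 ≤ T := (le_max_right _ _).trans hT
  have hT1' : 1 ≤ T := le_trans (by linarith [Real.add_one_le_exp (1 : ℝ)]) hTe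
  have hT0 : 0 < T := by linarith
  have hep := D.ep_pos
  have hXT : ((XN D T : ℕ) : ℝ) ≤ T := V_floor_le hT1' (by linarith)
  have h2 := V_mvt_w (S := Finset.Icc 1 (XN D T)) (N := XN D T) (Finset.Subset.refl _) hT0
    (by linarith) (fun n => (av D T n : ℂ)) (x := x) (K := ka D T)
    (fun n hn => V_log_le hT1' (Finset.mem_Icc.1 hn).1 (Finset.mem_Icc.1 hn).2)
    (u := u) (v := v) huv hv
  refine h2.trans ?_
  have h3 : ∑ n ∈ Finset.Icc 1 (XN D T), ‖(av D T n : ℂ)‖ ^ 2 / n ≤ C1 / D.ep := by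
    refine le_trans ?_ (hT1 T hTT1)
    refine (Finset.sum_le_sum fun n hn => ?_).trans
      (Finset.sum_le_sum_of_subset_of_nonneg (s := Finset.Icc 1 (XN D T)) ?_ fun n _ _ => by
        positivity)
    · have hn1 := (Finset.mem_Icc.1 hn).1
      have hnT : (n : ℝ) ≤ T := le_trans (by exact_mod_cast (Finset.mem_Icc.1 hn).2) hXT
      have h4 := (norm_bn_le D (τ := 0) le_rfl (by norm_num) hTe hn1 hnT).2
      rw [Complex.norm_real, Real.norm_eq_abs]
      apply div_le_div_of_nonneg_right _ (Nat.cast_nonneg n)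
      exact pow_le_pow_left₀ (abs_nonneg _) h4 2
    · apply Finset.Icc_subset_Icc le_rfl
      exact Nat.le_floor hXT
  calc 5 * Real.pi * T * (Real.exp (2 * (ka D T * max (-x) 0)) *
        ∑ n ∈ Finset.Icc 1 (XN D T), ‖(av D T n : ℂ)‖ ^ 2 / n) ≤
      5 * Real.pi * T * (Real.exp (2 * (ka D T * max (-x) 0)) * (C1 / D.ep)) := by gcongr
    _ = _ := by ring

/-- V1 -/
theorem vmean_w : ∃ C : ℝ, 0 < C ∧ ∀ D : AData, ∃ T0 : ℝ, ∀ T : ℝ, T0 ≤ T → ∀ x y : ℝ,
    ∫ t in y..(y + T), ‖Vs D T (ss x t)‖ ^ 2 ≤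
      C / D.ep * Real.exp (2 * (ka D T * max (-x) 0)) * T := by
  obtain ⟨C, hC, h⟩ := V_vmean_gen_w
  refine ⟨C, hC, fun D => ?_⟩
  obtain ⟨T0, hT0⟩ := h D
  refine ⟨max T0 0, fun T hT x y => ?_⟩
  have h0 : 0 ≤ T := (le_max_right _ _).trans hT
  exact hT0 T ((le_max_left _ _).trans hT) x y (y + T) (by linarith) (by linarith)

/-- the phases nearly cancel -/
lemma V_phase_w (D : AData) {a τ : ℝ} (ha : 0 < a) (ha1 : a ≤ 1)
    (h1 : 1 / (1 + a) - D.ep ^ 2 ≤ τ) (h2 : τ < 1 / (1 + a)) :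
    ‖Complex.exp (((Real.pi * τ : ℝ) : ℂ) * I) + ph D (a * τ)‖ ≤ 4 * D.ep := by
  have hep := D.ep_pos
  have hep1 := D.ep_le
  have hτ := tau_pos ha ha1 hep hep1 h1
  obtain ⟨hm1, hm2⟩ := tau_mul ha ha1 h1 h2
  have hs := sig_lt ha ha1 h2
  have h3 : Complex.exp (((Real.pi * τ : ℝ) : ℂ) * I) =
      -Complex.exp (((Real.pi * τ - Real.pi : ℝ) : ℂ) * I) := by
    have : (((Real.pi * τ - Real.pi : ℝ) : ℂ) * I) = ((Real.pi * τ : ℝ) : ℂ) * I - Real.pi * I := by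
      push_cast
      ring
    rw [this, Complex.exp_sub, Complex.exp_pi_mul_I, div_neg, div_one, neg_neg]
  rw [h3]
  unfold ph
  rw [neg_add_eq_sub]
  refine (V_exp_sub _ _).trans ?_
  have h4 : -(Real.pi * (1 - D.ep) * (a * τ)) - (Real.pi * τ - Real.pi) =
      Real.pi * (1 - τ * (1 + a) + D.ep * (a * τ)) := by ring
  have hσ0 : 0 < a * τ := by
    have : 0 < τ := by linarith
    positivity
  have h5 : 0 ≤ D.ep * (a * τ) := by positivity
  have h6 : D.ep * (a * τ) ≤ D.ep * (1 / 2) := mul_le_mul_of_nonneg_left hs.le hep.le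
  have h7 : D.ep ^ 2 ≤ 1 / 100 * D.ep := by nlinarith
  have h8 : 0 ≤ 1 - τ * (1 + a) + D.ep * (a * τ) := by linarith
  have h9 : 1 - τ * (1 + a) + D.ep * (a * τ) ≤ D.ep := by linarith
  rw [h4, abs_mul, abs_of_pos Real.pi_pos, abs_of_nonneg h8]
  calc Real.pi * (1 - τ * (1 + a) + D.ep * (a * τ)) ≤ Real.pi * D.ep :=
        mul_le_mul_of_nonneg_left h9 Real.pi_pos.le
    _ ≤ 4 * D.ep := mul_le_mul_of_nonneg_right Real.pi_le_four hep.le

/-- V2 -/
theorem lowmean_w {a : ℝ} (ha : 0 < a) (ha1 : a ≤ 1) : ∃ C : ℝ, 0 < C ∧ ∀ D : AData, D.ep ≤ a →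
    ∀ τ : ℝ, 1 / (1 + a) - D.ep ^ 2 ≤ τ → τ < 1 / (1 + a) →
    ∃ T0 : ℝ, ∀ T : ℝ, T0 ≤ T → ∀ w : ℝ, Hgt a 0 T w → ∀ x : ℝ, |x| ≤ 1 / (D.ep * Real.log T) →
    ∫ t in (w + 5 * T / 4)..(w + 7 * T / 4),
      ‖LowP D T (alp (a * τ) T) (ss x t) + ph D (a * τ) * Vs D T (ss x t)‖ ≤
      C * Real.exp (ka D T * max (-x) 0) * T := by
  obtain ⟨C1, hC1, hw⟩ := window_Gb
  obtain ⟨C2, hC2, hb⟩ := sum_bn_sub_av
  obtain ⟨C3, hC3, T3, hg⟩ := gam_w
  obtain ⟨C4, hC4, hv⟩ := V_vmean_gen_w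
  refine ⟨2 * Real.sqrt (5 * Real.pi * (C2 + 8 * C1)) + 5 * Real.sqrt C4, by positivity,
    fun D _ τ hτ1 hτ2 => ?_⟩
  obtain ⟨T1, hT1⟩ := hw D
  obtain ⟨T2, hT2⟩ := hb D
  obtain ⟨T4, hT4⟩ := hv D
  have hep := D.ep_pos
  have hep1 := D.ep_le
  have hτ49 := tau_pos ha ha1 hep hep1 hτ1
  have hτ00 : 0 ≤ τ := by linarith
  have hτone := tau_lt_one ha hτ2
  have hσ0 : 0 ≤ a * τ := by positivity
  have hσ2 := sig_lt ha ha1 hτ2
  have hlogT : Filter.Tendsto Real.log Filter.atTop Filter.atTop := Real.tendsto_log_atTop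
  obtain ⟨T5, hT5⟩ := Filter.eventually_atTop.1 (hlogT.eventually_ge_atTop
    ((C3 * a + C3 + 4) / D.ep))
  refine ⟨max (max (max T1 T2) (max T3 T4)) (max T5 (Real.exp 1)), fun T hT w hw x hx => ?_⟩
  have hTT1 : T1 ≤ T := ((le_max_left _ _).trans ((le_max_left _ _).trans (le_max_left _ _))).trans hT
  have hTT2 : T2 ≤ T := ((le_max_right _ _).trans ((le_max_left _ _).trans (le_max_left _ _))).trans hT
  have hTT3 : T3 ≤ T := ((le_max_left _ _).trans ((le_max_right _ _).trans (le_max_left _ _))).trans hT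
  have hTT4 : T4 ≤ T := ((le_max_right _ _).trans ((le_max_right _ _).trans (le_max_left _ _))).trans hT
  have hTT5 : T5 ≤ T := ((le_max_left _ _).trans (le_max_right _ _)).trans hT
  have hTe : Real.exp 1 ≤ T := ((le_max_right _ _).trans (le_max_right _ _)).trans hT
  have hT1' : 1 ≤ T := le_trans (by linarith [Real.add_one_le_exp (1 : ℝ)]) hTe
  have hT0 : 0 < T := by linarith
  have hTH := le_rpow_inv ha ha1 hT1'
  have hCa : 0 < C3 * a := mul_pos hC3 ha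
  have hL := hT5 T hTT5
  set L := Real.log T with hLdef
  have hL2 : C3 * a + C3 + 4 ≤ D.ep * L := by
    rw [div_le_iff₀ hep] at hL
    linarith
  have hLpos : 0 < L := by
    by_contra hcon
    have : D.ep * L ≤ 0 := mul_nonpos_of_nonneg_of_nonpos hep.le (not_lt.1 hcon)
    linarith
  have hx4 : |x| ≤ 1 / 4 := by
    refine hx.trans ?_
    apply one_div_le_one_div_of_le (by norm_num)
    linarith
  set m := max (-x) 0 with hm
  have hm0 : 0 ≤ m := le_max_right _ _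
  have hexp2 : Real.exp (2 * (ka D T * m)) = Real.exp (ka D T * m) ^ 2 := by
    rw [← Real.exp_nat_mul]
    push_cast
    ring_nf
  have hXT : ((XN D T : ℕ) : ℝ) ≤ T := V_floor_le hT1' (by linarith)
  have hS1 : ∑ n ∈ Finset.Icc 1 (XN D T), ‖bn D T (alp (a * τ) T) n - (av D T n : ℂ)‖ ^ 2 / n ≤
      C2 + 8 * C1 :=
    V_sum_diff D hσ0 hσ2.le hTe hC1 (by linarith) (hT1 T hTT1) (hT2 T hTT2 (a * τ) hσ0 hσ2.le)
  -- the two polynomials
  let g1 : ℝ → ℂ := fun t => ∑ n ∈ Finset.Icc 1 (XN D T),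
    (bn D T (alp (a * τ) T) n - (av D T n : ℂ)) * (n : ℂ) ^ (-(ss x t))
  let g2 : ℝ → ℂ := fun t => Vs D T (ss x t)
  have hg1c : Continuous g1 := V_continuous _ (fun n hn => (Finset.mem_Icc.1 hn).1) _ x
  have hg2c : Continuous g2 := V_continuous _ (fun n hn => (Finset.mem_Icc.1 hn).1)
    (fun n => (av D T n : ℂ)) x
  have hint1 : ∫ t in (w + 5 * T / 4)..(w + 7 * T / 4), ‖g1 t‖ ≤
      (Real.sqrt (5 * Real.pi * (C2 + 8 * C1)) * Real.exp (ka D T * m)) * T := by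
    refine V_cs hg1c (by linarith) (by linarith) (by positivity) ?_
    refine (V_mvt_w (S := Finset.Icc 1 (XN D T)) (N := XN D T) (Finset.Subset.refl _) hT0
      (by linarith) (fun n => bn D T (alp (a * τ) T) n - (av D T n : ℂ)) (x := x) (K := ka D T)
      (fun n hn => V_log_le hT1' (Finset.mem_Icc.1 hn).1 (Finset.mem_Icc.1 hn).2)
      (by linarith) (by linarith)).trans ?_
    rw [mul_pow, Real.sq_sqrt (by positivity), ← hm, hexp2]
    calc 5 * Real.pi * T * (Real.exp (ka D T * m) ^ 2 *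
          ∑ n ∈ Finset.Icc 1 (XN D T), ‖bn D T (alp (a * τ) T) n - (av D T n : ℂ)‖ ^ 2 / n) ≤
        5 * Real.pi * T * (Real.exp (ka D T * m) ^ 2 * (C2 + 8 * C1)) := by gcongr
      _ = _ := by ring
  have hint2 : ∫ t in (w + 5 * T / 4)..(w + 7 * T / 4), ‖g2 t‖ ≤
      (Real.sqrt C4 / D.ep * Real.exp (ka D T * m)) * T := by
    refine V_cs hg2c (by linarith) (by linarith) (by positivity) ?_
    refine (hT4 T hTT4 x (w + 5 * T / 4) (w + 7 * T / 4) (by linarith)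
      (by linarith)).trans ?_
    rw [mul_pow, div_pow, Real.sq_sqrt hC4.le, ← hm, hexp2]
    have h1 : C4 / D.ep ≤ C4 / D.ep ^ 2 := by
      apply div_le_div_of_nonneg_left hC4.le (by positivity)
      nlinarith
    gcongr
  -- the pointwise bound
  have hpt : ∀ t ∈ Icc (w + 5 * T / 4) (w + 7 * T / 4),
      ‖LowP D T (alp (a * τ) T) (ss x t) + ph D (a * τ) * Vs D T (ss x t)‖ ≤
      2 * ‖g1 t‖ + 5 * D.ep * ‖g2 t‖ := by
    intro t ht
    have hre : (ss x t).re = 1 / 2 + x := by simp [ss]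
    have him : (ss x t).im = t := by simp [ss]
    have hwa := hw.1
    have hwb := hw.2
    have h1 := hg (T ^ (1 / a)) (hTT3.trans hTH) τ hτ00 hτone.le (ss x t)
      (by rw [hre]; simpa using hx4)
      (by rw [him]; linarith [ht.1]) (by rw [him]; linarith [ht.2])
    rw [alp_scale hT0, log_rpow_inv hT0] at h1
    have h2 : C3 / (Real.log T / a) ≤ D.ep := by
      rw [← hLdef, div_div_eq_mul_div, div_le_iff₀ hLpos]
      linarith
    have h3 := V_phase_w D ha ha1 hτ1 hτ2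
    have hn1 : ‖Complex.exp (((Real.pi * τ : ℝ) : ℂ) * I)‖ = 1 := Complex.norm_exp_ofReal_mul_I _
    have h4 : ‖gam (alp (a * τ) T) (ss x t)‖ ≤ 2 := by
      have := norm_sub_norm_le (gam (alp (a * τ) T) (ss x t)) (Complex.exp (((Real.pi * τ : ℝ) : ℂ) * I))
      linarith
    have h5 : ‖gam (alp (a * τ) T) (ss x t) + ph D (a * τ)‖ ≤ 5 * D.ep := by
      have h6 : gam (alp (a * τ) T) (ss x t) + ph D (a * τ) =
          (gam (alp (a * τ) T) (ss x t) - Complex.exp (((Real.pi * τ : ℝ) : ℂ) * I)) +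
          (Complex.exp (((Real.pi * τ : ℝ) : ℂ) * I) + ph D (a * τ)) := by ring
      rw [h6]
      refine (norm_add_le _ _).trans ?_
      linarith
    have h7 : LowP D T (alp (a * τ) T) (ss x t) + ph D (a * τ) * Vs D T (ss x t) =
        gam (alp (a * τ) T) (ss x t) * g1 t + (gam (alp (a * τ) T) (ss x t) + ph D (a * τ)) * g2 t := by
      have h8 : g1 t = ∑ n ∈ Finset.Icc 1 (XN D T), bn D T (alp (a * τ) T) n * (n : ℂ) ^ (-(ss x t)) -
          Vs D T (ss x t) := by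
        show ∑ n ∈ Finset.Icc 1 (XN D T),
          (bn D T (alp (a * τ) T) n - (av D T n : ℂ)) * (n : ℂ) ^ (-(ss x t)) = _
        unfold Vs
        rw [← Finset.sum_sub_distrib]
        exact Finset.sum_congr rfl fun n _ => by ring
      rw [h8]
      show LowP D T (alp (a * τ) T) (ss x t) + ph D (a * τ) * Vs D T (ss x t) =
        gam (alp (a * τ) T) (ss x t) * (_ - Vs D T (ss x t)) +
          (gam (alp (a * τ) T) (ss x t) + ph D (a * τ)) * Vs D T (ss x t)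
      unfold LowP
      ring
    rw [h7]
    refine (norm_add_le _ _).trans ?_
    rw [norm_mul, norm_mul]
    exact add_le_add (mul_le_mul_of_nonneg_right h4 (norm_nonneg _))
      (mul_le_mul_of_nonneg_right h5 (norm_nonneg _))
  refine (V_int_mono (fun t => norm_nonneg _) (by fun_prop) (by linarith) hpt).trans ?_
  rw [intervalIntegral.integral_add (Continuous.intervalIntegrable (by fun_prop) _ _)
    (Continuous.intervalIntegrable (by fun_prop) _ _), intervalIntegral.integral_const_mul,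
    intervalIntegral.integral_const_mul]
  have hfin : 5 * D.ep * ((Real.sqrt C4 / D.ep * Real.exp (ka D T * m)) * T) =
      5 * Real.sqrt C4 * Real.exp (ka D T * m) * T := by
    field_simp
  have h8 : 5 * D.ep * ∫ t in (w + 5 * T / 4)..(w + 7 * T / 4), ‖g2 t‖ ≤
      5 * D.ep * ((Real.sqrt C4 / D.ep * Real.exp (ka D T * m)) * T) :=
    mul_le_mul_of_nonneg_left hint2 (by positivity)
  rw [hfin] at h8
  nlinarith

/-- V3 -/
theorem winmean_w : ∃ C : ℝ, 0 < C ∧ ∀ D : AData, ∀ σ : ℝ, 0 ≤ σ → σ ≤ 1 / 2 →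
    ∃ T0 : ℝ, ∀ T : ℝ, T0 ≤ T → ∀ x : ℝ, |x| ≤ 2 / (D.ep * Real.log T) → ∀ y : ℝ,
    ∫ t in y..(y + T), ‖WinP D T (alp σ T) (ss x t)‖ ≤
      C * Real.exp (ka D T * max (-x) 0) * T := by
  obtain ⟨C1, hC1, hw⟩ := window_Gb
  refine ⟨Real.sqrt (15 / 2 * Real.pi * C1 * Real.exp 2), by positivity, fun D σ hσ0 hσ2 => ?_⟩
  obtain ⟨T1, hT1⟩ := hw D
  have hep := D.ep_pos
  have hep1 := D.ep_le
  have hlogT : Filter.Tendsto Real.log Filter.atTop Filter.atTop := Real.tendsto_log_atTop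
  obtain ⟨T5, hT5⟩ := Filter.eventually_atTop.1 (hlogT.eventually_ge_atTop (1 / D.ep))
  refine ⟨max T1 (max T5 (Real.exp 1)), fun T hT x hx y => ?_⟩
  have hTT1 : T1 ≤ T := (le_max_left _ _).trans hT
  have hTT5 : T5 ≤ T := ((le_max_left _ _).trans (le_max_right _ _)).trans hT
  have hTe : Real.exp 1 ≤ T := ((le_max_right _ _).trans (le_max_right _ _)).trans hT
  have hT1' : 1 ≤ T := le_trans (by linarith [Real.add_one_le_exp (1 : ℝ)]) hTe
  have hT0 : 0 < T := by linarith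
  have hL := hT5 T hTT5
  set L := Real.log T with hLdef
  have hL2 : 1 ≤ D.ep * L := by
    rw [div_le_iff₀ hep] at hL
    linarith
  have hLpos : 0 < L := by
    by_contra hcon
    have : D.ep * L ≤ 0 := mul_nonpos_of_nonneg_of_nonpos hep.le (not_lt.1 hcon)
    linarith
  set m := max (-x) 0 with hm
  have hm0 : 0 ≤ m := le_max_right _ _
  have hm1 : m ≤ 2 / (D.ep * L) := by
    refine le_trans ?_ hx
    rw [hm]
    exact max_le (neg_le_abs x) (abs_nonneg x)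
  have hm2 : D.ep * L * m ≤ 2 := by
    have := mul_le_mul_of_nonneg_left hm1 (show 0 ≤ D.ep * L by positivity)
    rwa [mul_div_cancel₀ _ (by positivity)] at this
  have hXT : ((X1 D T : ℕ) : ℝ) ≤ T := V_floor_le hT1' (by linarith)
  have hexp2 : Real.exp (2 * ((1 - D.ep / 2) * L * m)) ≤
      Real.exp 2 * Real.exp (ka D T * m) ^ 2 := by
    rw [← Real.exp_nat_mul, ← Real.exp_add]
    apply Real.exp_le_exp.2
    unfold ka
    push_cast
    nlinarith
  have hwin := hT1 T hTT1 (T ^ (1 - D.ep)) (T ^ (1 - D.ep / 2))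
    (Real.rpow_le_rpow_of_exponent_le hT1' (by linarith))
    (Real.rpow_le_rpow_of_exponent_le hT1' (by linarith))
    (by
      have := Real.rpow_le_rpow_of_exponent_le hT1' (show 1 - D.ep / 2 ≤ 1 by linarith)
      rwa [Real.rpow_one] at this)
  have hlogw : Real.log (T ^ (1 - D.ep / 2) / T ^ (1 - D.ep)) = D.ep / 2 * L := by
    rw [← Real.rpow_sub hT0, Real.log_rpow hT0]
    ring
  rw [hlogw] at hwin
  have hw2 : C1 / D.ep * ((D.ep / 2 * L + 1) / L) ≤ 3 / 2 * C1 := by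
    have h1 : C1 / D.ep * ((D.ep / 2 * L + 1) / L) = C1 * (1 / 2 + 1 / (D.ep * L)) := by
      field_simp
    rw [h1]
    have h2 : 1 / (D.ep * L) ≤ 1 := by
      rw [div_le_one (by positivity)]
      linarith
    nlinarith
  have hsum : ∑ n ∈ Finset.Ioc (XN D T) (X1 D T), ‖bn D T (alp σ T) n‖ ^ 2 / n ≤ 3 / 2 * C1 := by
    refine le_trans (Finset.sum_le_sum fun n hn => ?_) (hwin.trans hw2)
    have hn1 : 1 ≤ n := by
      have := (Finset.mem_Ioc.1 hn).1
      omega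
    have hnT : (n : ℝ) ≤ T := le_trans (by exact_mod_cast (Finset.mem_Ioc.1 hn).2) hXT
    obtain ⟨h1, h2⟩ := norm_bn_le D hσ0 hσ2 hTe hn1 hnT
    exact div_le_div_of_nonneg_right (pow_le_pow_left₀ (norm_nonneg _) h1 2) (Nat.cast_nonneg n)
  have hS : Finset.Ioc (XN D T) (X1 D T) ⊆ Finset.Icc 1 (X1 D T) := by
    intro n hn
    have h1 := Finset.mem_Ioc.1 hn
    exact Finset.mem_Icc.2 ⟨by omega, h1.2⟩
  have hgc : Continuous (fun t => WinP D T (alp σ T) (ss x t)) :=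
    V_continuous _ (fun n hn => (Finset.mem_Icc.1 (hS hn)).1) (fun n => bn D T (alp σ T) n) x
  refine V_cs hgc (by linarith) (by linarith) (by positivity) ?_
  refine (V_mvt_w hS hT0 (by linarith) (fun n => bn D T (alp σ T) n) (x := x)
    (K := (1 - D.ep / 2) * L)
    (fun n hn => V_log_le hT1' (Finset.mem_Icc.1 (hS hn)).1 (Finset.mem_Ioc.1 hn).2)
    (by linarith) (by linarith)).trans ?_
  rw [mul_pow, Real.sq_sqrt (by positivity), ← hm]
  calc 5 * Real.pi * T * (Real.exp (2 * ((1 - D.ep / 2) * L * m)) *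
        ∑ n ∈ Finset.Ioc (XN D T) (X1 D T), ‖bn D T (alp σ T) n‖ ^ 2 / n) ≤
      5 * Real.pi * T * ((Real.exp 2 * Real.exp (ka D T * m) ^ 2) * (3 / 2 * C1)) := by
        have h9 : (0 : ℝ) ≤ ∑ n ∈ Finset.Ioc (XN D T) (X1 D T), ‖bn D T (alp σ T) n‖ ^ 2 / n :=
          Finset.sum_nonneg fun n _ => by positivity
        gcongr
    _ = _ := by ring

end Pool.Agent.AHW
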