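import Pool.Agent.ZGap.DW.C1
import Pool.Agent.ZGap.DW.K4
import Pool.Agent.ZGap.DW.V
import Pool.Agent.ZGap.DW.Gam
import Pool.Agent.ZGap.DW.R2
import Pool.Agent.ZGap.AH.C2

/-!
# The mean of the difference in a window
-/

open scoped ContDiff

namespace Pool.Agent.AHW

open Complex MeasureTheory Set Pool.Agent.Hadamard Pool.Agent.HalfGap Pool.Agent.AHD

/-- The integral of the window part. -/
lemma C2_int_win_w {C1 C3 : ℝ} {N : ℕ} (hN : 0 < N) (D : AData) {τ T h1 h2 x a b p q : ℝ} (hT : 1 < T)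
    (hab : a ≤ b) (h12 : h1 ≤ h2)
    (hint : ∀ a h c V : ℝ, 0 ≤ a → 0 < h → c ≠ 0 →
      0 ≤ V → ∫ v in (-V)..V, ‖Ke N a h (c + v * I)‖ ≤
        C1 * Real.exp ((a + N * h) * max c 0) * (1 + Real.log (1 + 1 / (h * |c|))))
    (hC1 : 0 < C1)
    (h1T : p ≤ h1) (h2T : h2 ≤ q)
    (hW : ∫ t in p..q, ‖WinP D T (alp τ T) (ss (x + 1 / Real.log T) t)‖ ≤
      C3 * Real.exp (ka D T * max (-x) 0) * T) :
    IntervalIntegrable (fun t => ∫ u in Ioc h1 h2,
      ‖WinP D T (alp τ T) (ss (x + 1 / Real.log T) u)‖ *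
        ‖Ke N (ka D T) (kh D N T) (((1 / Real.log T : ℝ) : ℂ) + ((u - t : ℝ) : ℂ) * I)‖)
        volume a b ∧
    ∫ t in a..b, (∫ u in Ioc h1 h2,
      ‖WinP D T (alp τ T) (ss (x + 1 / Real.log T) u)‖ *
        ‖Ke N (ka D T) (kh D N T) (((1 / Real.log T : ℝ) : ℂ) + ((u - t : ℝ) : ℂ) * I)‖) ≤
      C1 * Real.exp 1 * (1 + Real.log (1 + 2 * N / D.ep ^ 1)) *
        (C3 * Real.exp (ka D T * max (-x) 0) * T) := by
  have hL : 0 < Real.log T := Real.log_pos hT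
  have hN' : (0:ℝ) < N := by exact_mod_cast hN
  have hep := D.ep_pos
  have hep1 : D.ep ≤ 1 := by linarith [D.ep_le]
  have hka : 0 ≤ ka D T := by
    unfold ka
    exact mul_nonneg (by linarith) hL.le
  have hkh : 0 < kh D N T := by
    unfold kh
    positivity
  have hwc : Continuous fun u : ℝ => ‖WinP D T (alp τ T) (ss (x + 1 / Real.log T) u)‖ := by
    refine continuous_norm.comp ?_
    exact C2_dir_continuous _ (fun n hn => by have := (Finset.mem_Ioc.1 hn).1; omega) _ _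
  have hkc : Continuous fun v : ℝ =>
      ‖Ke N (ka D T) (kh D N T) (((1 / Real.log T : ℝ) : ℂ) + (v : ℂ) * I)‖ :=
    C2_Ke_continuous N (ka D T) (kh D N T) (c := 1 / Real.log T) (by positivity)
  have hB : ∀ V, 0 ≤ V → ∫ v in (-V)..V,
      ‖Ke N (ka D T) (kh D N T) (((1 / Real.log T : ℝ) : ℂ) + (v : ℂ) * I)‖ ≤
      C1 * Real.exp 1 * (1 + Real.log (1 + 2 * N / D.ep ^ 1)) := by
    intro V hV
    refine (hint (ka D T) (kh D N T) (1 / Real.log T) V hka hkh (by positivity) hV).trans ?_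
    have e1 : max (1 / Real.log T) 0 = 1 / Real.log T := max_eq_left (by positivity)
    have e2 : |1 / Real.log T| = 1 / Real.log T := abs_of_nonneg (by positivity)
    have e3 : 1 / (kh D N T * (1 / Real.log T)) = 2 * N / D.ep ^ 1 := by
      unfold kh
      field_simp
    have e4 : (ka D T + N * kh D N T) * (1 / Real.log T) ≤ 1 := by
      have : (ka D T + N * kh D N T) * (1 / Real.log T) = 1 - D.ep / 2 := by
        unfold ka kh
        field_simp
        ring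
      rw [this]
      linarith
    rw [e1, e2, e3]
    have h0 : 0 ≤ 1 + Real.log (1 + 2 * N / D.ep ^ 1) := by
      have : 0 ≤ Real.log (1 + 2 * N / D.ep ^ 1) := Real.log_nonneg (by
        have : 0 ≤ 2 * N / D.ep ^ 1 := by positivity
        linarith)
      linarith
    refine mul_le_mul_of_nonneg_right ?_ h0
    exact mul_le_mul_of_nonneg_left (Real.exp_le_exp.2 e4) hC1.le
  have hf := C2_fub hab (S := Ioc h1 h2) (h1 := h1) (h2 := h2) measurableSet_Ioc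
    Ioc_subset_Icc_self hwc (fun u => norm_nonneg _) hkc
    (M := C1 * Real.exp 1 * (1 + Real.log (1 + 2 * N / D.ep ^ 1)))
    (fun u _ => C2_Ke (c := 1 / Real.log T) (by positivity) hB u a b hab)
  refine ⟨hf.1, hf.2.trans ?_⟩
  have h0 : 0 ≤ C1 * Real.exp 1 * (1 + Real.log (1 + 2 * N / D.ep ^ 1)) := by
    have : 0 ≤ Real.log (1 + 2 * N / D.ep ^ 1) := Real.log_nonneg (by
      have : 0 ≤ 2 * N / D.ep ^ 1 := by positivity
      linarith)
    positivity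
  refine mul_le_mul_of_nonneg_left ?_ h0
  refine le_trans ?_ hW
  rw [← intervalIntegral.integral_of_le h12]
  refine intervalIntegral.integral_mono_interval h1T h12 h2T ?_ ?_
  · filter_upwards with v
    exact norm_nonneg _
  · exact hwc.intervalIntegrable _ _

/-- The integral of the exceptional part. -/
lemma C2_int_bad_w {K KG δ θ w : ℝ} {τ T h1 h2 a b : ℝ} (hT : 1 < T) (hθ : 0 < θ)
    (hθ8 : θ ≤ 1 / 8) (hab : a ≤ b)
    (hK : 0 < K) (hδ : 0 ≤ δ) (hδK : (K * Real.pi) ^ 2 * (δ * KG) ≤ 1)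
    (hF : FewW τ δ θ T w) (hb1 : w + (5 / 4 - θ / 2) * T ≤ h1)
    (hb2 : h2 ≤ w + (7 / 4 + θ / 2) * T)
    {G : ℝ → ℝ} (hGc : Continuous G) (hG0 : ∀ t, 0 ≤ G t)
    (hGi : ∫ t in (w + T)..(w + 2 * T), G t ^ 2 ≤ KG * T) :
    IntervalIntegrable (fun t => K * ∫ u in Ioc h1 h2 ∩ EE (alp τ T), G u * kk1 T (u - t))
      volume a b ∧
    ∫ t in a..b, (K * ∫ u in Ioc h1 h2 ∩ EE (alp τ T), G u * kk1 T (u - t)) ≤ T := by
  have hT0 : 0 < T := by linarith
  have hSm : MeasurableSet (Ioc h1 h2 ∩ EE (alp τ T)) :=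
    measurableSet_Ioc.inter (measurableSet_EE _)
  have hSs : Ioc h1 h2 ∩ EE (alp τ T) ⊆ Icc h1 h2 := fun t ht => Ioc_subset_Icc_self ht.1
  have hf := C2_fub hab hSm hSs hGc hG0 (C2_kk1_continuous T) (M := Real.pi)
    (fun u _ => C2_kk1 hT u a b)
  refine ⟨hf.1.const_mul K, ?_⟩
  rw [intervalIntegral.integral_const_mul]
  refine (mul_le_mul_of_nonneg_left hf.2 hK.le).trans ?_
  set S := Ioc h1 h2 ∩ EE (alp τ T) with hS
  have hSfin : volume S ≠ ⊤ := ne_top_of_le_ne_top (by simp) (measure_mono hSs)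
  have hG2i : IntegrableOn (fun t => G t ^ 2) S volume :=
    ((hGc.pow 2).continuousOn.integrableOn_compact isCompact_Icc).mono_set hSs
  have : IsFiniteMeasure (volume.restrict S) := ⟨by
    rw [Measure.restrict_apply_univ]; exact lt_top_iff_ne_top.2 hSfin⟩
  have hcs := cs_sq (μ := volume.restrict S) (f := fun _ => (1:ℝ)) (g := G)
    aestronglyMeasurable_const hGc.aestronglyMeasurable (by simp) hG2i
  simp only [one_mul, one_pow] at hcs
  have hvol : ∫ _ in S, (1:ℝ) ≤ δ * T := by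
    rw [setIntegral_const, smul_eq_mul, mul_one]
    refine le_trans ?_ hF
    refine measureReal_mono ?_ ?_
    · intro t ht
      refine ⟨ht.2, ?_, ?_⟩
      · have := ht.1.1
        nlinarith
      · have := ht.1.2
        nlinarith
    · exact ne_top_of_le_ne_top (by simp) (measure_mono inter_subset_right)
  have hG2 : ∫ t in S, G t ^ 2 ≤ KG * T := by
    refine le_trans ?_ hGi
    rw [intervalIntegral.integral_of_le (by linarith)]
    refine setIntegral_mono_set ?_ ?_ ?_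
    · exact ((hGc.pow 2).continuousOn.integrableOn_compact isCompact_Icc).mono_set
        Ioc_subset_Icc_self
    · filter_upwards with t
      positivity
    · refine LE.le.eventuallyLE ?_
      intro t ht
      refine ⟨?_, ?_⟩
      · have := ht.1.1
        nlinarith
      · have := ht.1.2
        nlinarith
  have hG20 : 0 ≤ ∫ t in S, G t ^ 2 := integral_nonneg fun t => by positivity
  have h3 : (∫ t in S, G t) ^ 2 ≤ (δ * T) * (KG * T) :=
    hcs.trans (mul_le_mul hvol hG2 hG20 (by positivity))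
  refine abs_le_of_sq_le_sq' ?_ hT0.le |>.2
  calc (K * (Real.pi * ∫ t in S, G t)) ^ 2 = (K * Real.pi) ^ 2 * (∫ t in S, G t) ^ 2 := by ring
    _ ≤ (K * Real.pi) ^ 2 * ((δ * T) * (KG * T)) := mul_le_mul_of_nonneg_left h3 (by positivity)
    _ = ((K * Real.pi) ^ 2 * (δ * KG)) * T ^ 2 := by ring
    _ ≤ 1 * T ^ 2 := mul_le_mul_of_nonneg_right hδK (by positivity)
    _ = T ^ 2 := one_mul _

/-- C2 -/
theorem dmean_w (hRH : RiemannHypothesis) {a : ℝ} (ha : 0 < a) (ha1 : a ≤ 1) : ∃ C : ℝ, 0 < C ∧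
    ∀ D : AData, D.ep ≤ a → ∀ τ θ : ℝ,
    1 / (1 + a) - D.ep ^ 2 ≤ τ → τ < 1 / (1 + a) → 0 < θ → θ ≤ 1 / 8 →
    ∃ δ T0 : ℝ, 0 < δ ∧ ∀ T : ℝ, T0 ≤ T → ∀ w : ℝ, Hgt a θ T w → FewW (a * τ) δ θ T w →
    ∀ x : ℝ, D.ep ^ 2 / Real.log T ≤ |x| → |x| ≤ 1 / (D.ep * Real.log T) →
    ∫ t in (w + 5 * T / 4)..(w + 7 * T / 4), ‖Ds D (a * τ) T (ss x t)‖ ≤
      C * Real.log (1 / D.ep) ^ 2 * Real.exp (ka D T * max (-x) 0) * T := by
  obtain ⟨N0, hrep⟩ := rep_w hRH ha ha1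
  obtain ⟨N, hNN, hN20⟩ : ∃ N, N0 ≤ N ∧ 20 ≤ N := ⟨max N0 20, le_max_left _ _, le_max_right _ _⟩
  have hN0 : 0 < N := by omega
  obtain ⟨C1, hC1, hint⟩ := int_Ke (N := N) (by omega)
  obtain ⟨C2, hC2, hlow⟩ := lowmean_w ha ha1
  obtain ⟨C3, hC3, hwin⟩ := winmean_w
  obtain ⟨C4, hC4, hres⟩ := sumres_w hRH ha ha1
  obtain ⟨Cg, hCg, Tg, hgam⟩ := gam_w
  obtain ⟨Λ, hΛ⟩ : ∃ Λ : ℝ, Λ = Real.log (1 + 2 * N) := ⟨_, rfl⟩
  have hΛ0 : 0 ≤ Λ := by
    rw [hΛ]
    refine Real.log_nonneg ?_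
    have : (0:ℝ) ≤ N := by positivity
    linarith
  refine ⟨2 + C2 + 5 / (2 * Real.pi) * (C1 * Real.exp 1 * (2 + Λ) * C3) +
    C4 * (C1 * Real.exp 1 * (4 + Λ)), by positivity, ?_⟩
  intro D hDa τ θ hτ1 hτ2 hθ hθ8
  have hep := D.ep_pos
  have hep1 := D.ep_le
  have hep3 : D.ep ^ 2 ≤ (1 / 100) ^ 2 := pow_le_pow_left₀ hep.le hep1 2
  have hτ49 := tau_pos ha ha1 hep hep1 hτ1
  have hτ0 : 0 < τ := by linarith
  have hτone := tau_lt_one ha hτ2
  have hσ0 : 0 < a * τ := by positivity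
  have hσ2 := sig_lt ha ha1 hτ2
  obtain ⟨K, T1, hK, hrep⟩ := hrep N hNN D hDa τ θ hτ1 hτ2 hθ hθ8
  obtain ⟨KG, T2, hKG, hgb⟩ := gbox_w hRH D (c := D.ep ^ 2 / 2) ha ha1 (by positivity)
  obtain ⟨δ1, T3, hδ1, hres⟩ := hres D hDa τ θ hτ1 hτ2 hθ hθ8
  obtain ⟨T4, hright⟩ := right_line_w hN20 D hθ hθ8
  obtain ⟨T5, hlow⟩ := hlow D hDa τ hτ1 hτ2
  obtain ⟨T6, hwin⟩ := hwin D (a * τ) hσ0.le hσ2.le
  obtain ⟨δ2, hδ2⟩ : ∃ δ2 : ℝ, δ2 = 1 / ((K * Real.pi) ^ 2 * KG) := ⟨_, rfl⟩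
  have hδ2p : 0 < δ2 := by rw [hδ2]; positivity
  have hδ2' : (K * Real.pi) ^ 2 * (δ2 * KG) ≤ 1 := by
    rw [hδ2]
    apply le_of_eq
    field_simp
  refine ⟨min δ1 δ2, max (max (max T1 T2) (max T3 T4)) (max (max T5 T6)
    (max Tg (max (Real.exp (8 / D.ep)) (Real.exp (Cg / 4))))), lt_min hδ1 hδ2p, ?_⟩
  intro T hT w hw hF x hx1 hx2
  simp only [max_le_iff] at hT
  obtain ⟨⟨⟨hT1, hT2⟩, hT3, hT4⟩, ⟨hT5, hT6⟩, hTg, hTe, hTc⟩ := hT
  have hT0 : 0 < T := lt_of_lt_of_le (Real.exp_pos _) hTe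
  have hL8 : 8 / D.ep ≤ Real.log T := (Real.le_log_iff_exp_le hT0).2 hTe
  have hLc : Cg / 4 ≤ Real.log T := (Real.le_log_iff_exp_le hT0).2 hTc
  have hL : 0 < Real.log T := lt_of_lt_of_le (by positivity) hL8
  have hTgt : 1 < T := (Real.log_pos_iff hT0.le).1 hL
  obtain ⟨ℓ, hℓdef⟩ : ∃ ℓ : ℝ, ℓ = Real.log (1 / D.ep) := ⟨_, rfl⟩
  have hℓ : 1 ≤ ℓ := by
    rw [hℓdef, Real.le_log_iff_exp_le (by positivity)]
    have h1 : (100:ℝ) ≤ 1 / D.ep := by
      rw [le_div_iff₀ hep]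
      linarith
    have := Real.exp_one_lt_d9
    linarith
  have hα : 0 < alp (a * τ) T := by
    unfold alp
    positivity
  have hF1 : FewW (a * τ) δ1 θ T w := FewW_mono hF (min_le_left _ _) hT0.le
  have hF2 : FewW (a * τ) δ2 θ T w := FewW_mono hF (min_le_right _ _) hT0.le
  have hw0 : Hgt a 0 T w := Hgt_mono hT0.le hw hθ.le
  obtain ⟨h1, hh1, h2, hh2, hrep⟩ := hrep T hT1 w hw
  obtain ⟨G, hGc, hG0, hGb, hGi⟩ := hgb T hT2
  replace hGi := hGi w hw0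
  obtain ⟨hresX, hresY⟩ := hres T hT3 w hw hF1
  have hTH := le_rpow_inv ha ha1 hTgt.le
  have hlogTH := log_rpow_inv (a := a) hT0
  have hθT : 0 < θ * T := by positivity
  have hθT8 : θ * T ≤ 1 / 8 * T := mul_le_mul_of_nonneg_right hθ8 hT0.le
  obtain ⟨hwa, hwb⟩ := hw
  have h1T : w + T ≤ h1 := by
    have := hh1.1
    linarith
  have h2T : h2 ≤ w + 2 * T := by
    have := hh2.2
    linarith
  have h1H : T ^ (1 / a) ≤ h1 := by
    have := hh1.1
    linarith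
  have h2H : h2 ≤ 2 * T ^ (1 / a) := by
    have := hh2.2
    linarith
  have h12 : h1 ≤ h2 := by
    have := hh1.2
    have := hh2.1
    linarith
  have hab : w + 5 * T / 4 ≤ w + 7 * T / 4 := by linarith
  have ha0 : 0 < w + 5 * T / 4 := by linarith
  -- the window part
  obtain ⟨hxL, hx4⟩ := C2_shift hL8 hx2
  have hg5 : ∀ u ∈ Icc h1 h2, ‖gam (alp (a * τ) T) (ss (x + 1 / Real.log T) u)‖ ≤ 5 := by
    intro u hu
    have hLTH : 0 < Real.log (T ^ (1 / a)) := by rw [hlogTH]; positivity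
    have hLcTH : Cg / 4 ≤ Real.log (T ^ (1 / a)) := by
      refine hLc.trans ?_
      rw [hlogTH, le_div_iff₀ ha]
      exact mul_le_of_le_one_right hL.le ha1
    have hgg := C2_gam5 hLTH hLcTH (hgam (T ^ (1 / a)) (hTg.trans hTH) τ hτ0.le hτone.le
      (ss (x + 1 / Real.log T) u)
      (by rw [ss_re, add_sub_cancel_left]; exact hx4) (by rw [ss_im]; exact h1H.trans hu.1)
      (by rw [ss_im]; exact hu.2.trans h2H))
    rw [alp_scale hT0] at hgg
    exact hgg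
  have hWin0 := hwin T hT6 (x + 1 / Real.log T) hxL (w + T)
  have ewT : w + T + T = w + 2 * T := by ring
  rw [ewT] at hWin0
  have hmax : max (-(x + 1 / Real.log T)) 0 ≤ max (-x) 0 := by
    refine max_le_max ?_ le_rfl
    have : 0 ≤ 1 / Real.log T := by positivity
    linarith
  have hka : 0 ≤ ka D T := by
    unfold ka
    exact mul_nonneg (by linarith) hL.le
  obtain ⟨E, hE⟩ : ∃ E : ℝ, E = Real.exp (ka D T * max (-x) 0) := ⟨_, rfl⟩
  have hE1 : 1 ≤ E := by rw [hE]; exact Real.one_le_exp (mul_nonneg hka (le_max_right _ _))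
  have hWin1 : ∫ t in (w + T)..(w + 2 * T), ‖WinP D T (alp (a * τ) T) (ss (x + 1 / Real.log T) t)‖ ≤
      C3 * Real.exp (ka D T * max (-x) 0) * T := by
    refine hWin0.trans ?_
    refine mul_le_mul_of_nonneg_right ?_ hT0.le
    refine mul_le_mul_of_nonneg_left ?_ hC3.le
    exact Real.exp_le_exp.2 (mul_le_mul_of_nonneg_left hmax hka)
  have hWI := C2_int_win_w hN0 D (a := w + 5 * T / 4) (b := w + 7 * T / 4) hTgt hab h12 hint hC1 h1T h2T
    hWin1
  -- the residues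
  have hZ := C2_cs (D := D) (T := T) (h1 := h1) (h2 := h2) hα hh1.1 hh2.2 hresX hresY
  have hRI := C2_int_res hN0 D (a := w + 5 * T / 4) (b := w + 7 * T / 4) hTgt hα hab hint hC1 hx1 hx2 hZ
  -- the exceptional set
  have hBI := C2_int_bad_w (a := w + 5 * T / 4) (b := w + 7 * T / 4) (h1 := h1) (h2 := h2) hTgt hθ hθ8 hab
    hK hδ2p.le hδ2' hF2 hh1.1 hh2.2 hGc hG0 hGi
  -- the low part
  have hLc := C2_low_cont D (τ := a * τ) (T := T) (x := x) (a := w + 5 * T / 4) (b := w + 7 * T / 4) hα.le ha0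
  have hLi : IntervalIntegrable
      (fun t => ‖LowP D T (alp (a * τ) T) (ss x t) + ph D (a * τ) * Vs D T (ss x t)‖) volume
        (w + 5 * T / 4) (w + 7 * T / 4) := by
    apply ContinuousOn.intervalIntegrable
    rw [uIcc_of_le hab]
    exact hLc
  have hLI := hlow T hT5 w hw0 x hx2
  -- the pointwise bound
  have hpt : ∀ t ∈ Ioc (w + 5 * T / 4) (w + 7 * T / 4), ‖Ds D (a * τ) T (ss x t)‖ ≤
      (K * ∫ u in Ioc h1 h2 ∩ EE (alp (a * τ) T), G u * kk1 T (u - t)) + (1 / T + 1 / T) +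
      ‖LowP D T (alp (a * τ) T) (ss x t) + ph D (a * τ) * Vs D T (ss x t)‖ +
      5 / (2 * Real.pi) * (∫ u in Ioc h1 h2,
        ‖WinP D T (alp (a * τ) T) (ss (x + 1 / Real.log T) u)‖ *
          ‖Ke N (ka D T) (kh D N T) (((1 / Real.log T : ℝ) : ℂ) + ((u - t : ℝ) : ℂ) * I)‖) +
      (∑ z ∈ isoZ (alp (a * τ) T) h1 h2,
        (cz (alp (a * τ) T) z * ‖Vs D T (1 / 2 + ((z + alp (a * τ) T : ℝ) : ℂ) * I)‖) *
          ‖Ke N (ka D T) (kh D N T) (((-x : ℝ) : ℂ) + ((z - t : ℝ) : ℂ) * I)‖) := by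
    intro t ht
    have hre : (ss x t).re - 1 / 2 = x := by rw [ss_re, add_sub_cancel_left]
    have ht' : (ss x t).im ∈ Icc (w + 5 * T / 4) (w + 7 * T / 4) := by
      rw [ss_im]
      exact ⟨ht.1.le, ht.2⟩
    have p1 := hrep G hGc hG0 (fun t' ht' s hs1 hs2 hs3 =>
      (hGb (a * τ) hσ0.le hσ2.le t' s hs1 hs2 hs3).2.1) (ss x t) (by rw [hre]; exact hx1)
      (by rw [hre]; exact hx2) ht'
    rw [ss_im] at p1
    have p2 := hright T hT4 (a * τ) h1 h2 hσ0.le hσ2.le (by linarith) (by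
      have := hh1.1
      have := hh2.2
      linarith) (ss x t) (by rw [hre]; exact hx2)
      (by
        have := hh1.2
        have := ht'.1
        linarith) (by
        have := hh2.1
        have := ht'.2
        linarith)
    exact C2_dec D (ss x t) p1 p2 (C2_win D (N := N) (α := alp (a * τ) T) (x := x) hTgt h12 hg5 t)
      (C2_res D (N := N) (T := T) (h1 := h1) (h2 := h2) (x := x) hα t)
  have hI := C2_sum (K := 5 / (2 * Real.pi)) hab hpt (fun t => norm_nonneg _) (by positivity)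
    hBI.1 hLi hWI.1 hRI.1 hBI.2 hLI hWI.2 hRI.2
  refine hI.trans ?_
  have hcst : (w + 7 * T / 4 - (w + 5 * T / 4)) * (1 / T + 1 / T) ≤ T := by
    have : (w + 7 * T / 4 - (w + 5 * T / 4)) * (1 / T + 1 / T) = 1 := by
      field_simp
      ring
    rw [this]
    exact hTgt.le
  have hlog1 := C2_log1 (N := N) hep (by linarith) (by positivity) 1
  have hlog3 := C2_log1 (N := N) hep (by linarith) (by positivity) 3
  rw [← hℓdef, ← hΛ] at hlog1 hlog3
  rw [← hℓdef, ← hE]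
  have hnn : 0 ≤ Real.log (1 + 2 * N / D.ep ^ 3) := Real.log_nonneg (by
    have : 0 ≤ 2 * (N:ℝ) / D.ep ^ 3 := by positivity
    linarith)
  have hfin := C2_num (X3 := 5 / (2 * Real.pi) * (C1 * Real.exp 1 *
    (1 + Real.log (1 + 2 * N / D.ep ^ 1)) * (C3 * E * T))) hC1 hC2 hC3 hC4 hΛ0 hℓ hE1 hT0 le_rfl
    (Y1 := Real.log (1 + 2 * N / D.ep ^ 1)) (Y3 := Real.log (1 + 2 * N / D.ep ^ 3))
    (by simpa using hlog1) (by simpa using hlog3) hnn
  refine le_trans ?_ hfin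
  gcongr

end Pool.Agent.AHW
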