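import Pool.Agent.ZGap.AH.L2
import Pool.Agent.ZGap.DW.V

/-!
# The exponential approximation in windows
-/

open scoped ContDiff

namespace Pool.Agent.AHW

open Complex MeasureTheory Set Pool.Agent.Hadamard Pool.Agent.HalfGap Pool.Agent.AHD

/-- mean value theorem on the line `1/2 + δ`, in a window -/
theorem L2_mvt_w {N : ℕ} {T δ : ℝ} (hT : 0 < T) (hN : (N : ℝ) ≤ 2 * T) (c : ℕ → ℂ) (y : ℝ) :
    ∫ t in y..(y + T), ‖∑ n ∈ Finset.Icc 1 N, c n * (n : ℂ) ^ (-(ss δ t))‖ ^ 2 ≤
      5 * Real.pi * T * ∑ n ∈ Finset.Icc 1 N, ‖c n‖ ^ 2 * (n : ℝ) ^ (-(1 + 2 * δ)) := by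
  set u : ℝ := y - T with hu
  have h1 : ∫ t in y..(y + T), ‖∑ n ∈ Finset.Icc 1 N, c n * (n : ℂ) ^ (-(ss δ t))‖ ^ 2 =
      ∫ t in T..(2 * T),
        ‖∑ n ∈ Finset.Icc 1 N, (c n * (n : ℂ) ^ (-(u * I) : ℂ)) * (n : ℂ) ^ (-(ss δ t))‖ ^ 2 := by
    have h2 := intervalIntegral.integral_comp_add_left
      (fun t => ‖∑ n ∈ Finset.Icc 1 N, c n * (n : ℂ) ^ (-(ss δ t))‖ ^ 2) (a := T) (b := 2 * T) u
    rw [show u + T = y by rw [hu]; ring, show u + 2 * T = y + T by rw [hu]; ring] at h2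
    rw [← h2]
    refine intervalIntegral.integral_congr fun t _ => ?_
    congr 2
    refine Finset.sum_congr rfl fun n hn => ?_
    have hn0 : (n : ℂ) ≠ 0 := by
      have := (Finset.mem_Icc.1 hn).1
      exact_mod_cast (by omega : n ≠ 0)
    rw [mul_assoc, ← Complex.cpow_add _ _ hn0]
    congr 2
    unfold ss
    push_cast
    ring
  rw [h1]
  refine (L2_mvt hT hN (fun n => c n * (n : ℂ) ^ (-(u * I) : ℂ))).trans (le_of_eq ?_)
  congr 1
  refine Finset.sum_congr rfl fun n hn => ?_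
  have hn0 : 0 < n := (Finset.mem_Icc.1 hn).1
  have h4 : ‖(n : ℂ) ^ (-(u * I) : ℂ)‖ = 1 := by
    rw [Complex.norm_natCast_cpow_of_pos hn0]
    simp
  rw [norm_mul, h4, mul_one]

theorem exp_approx_w : ∃ C : ℝ, 0 < C ∧ ∀ D : AData, ∃ T0 : ℝ, ∀ T : ℝ, T0 ≤ T → ∀ τ : ℝ,
    1 / 3 ≤ τ → τ ≤ 1 / 2 → ∀ y : ℝ,
    ∫ t in y..(y + T), ‖Vs D T (ss (alp τ T * Yc D.ep) t) - Qe D T τ t‖ ^ 2 ≤ C * D.ep * T := by
  classical
  obtain ⟨C1, hC1, h1⟩ := sum_Gb
  obtain ⟨C2, hC2, h2⟩ := sg_asymp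
  refine ⟨5 * Real.pi * (C1 + 2), by have := Real.pi_pos; positivity, fun D => ?_⟩
  obtain ⟨T1, hT1⟩ := h1 D
  set P : ℝ := Real.log (1 / D.ep) + 1 with hP
  set K : ℝ := P * ∑ j ∈ Finset.range (Jd D.ep + 1), P ^ j with hK
  have hl := L2_ell D.ep_pos D.ep_le
  have hep := D.ep_pos
  have hep1 := D.ep_le
  have hP0 : 0 < P := by rw [hP]; linarith
  have hK0 : 0 ≤ K := by rw [hK]; positivity
  refine ⟨max T1 (Real.exp (1 + 1 / D.ep + C2 / D.ep + K / D.ep ^ 2)), fun T hT τ hτ1 hτ2 y => ?_⟩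
  have hTT1 : T1 ≤ T := (le_max_left _ _).trans hT
  have hexp : Real.exp (1 + 1 / D.ep + C2 / D.ep + K / D.ep ^ 2) ≤ T := (le_max_right _ _).trans hT
  have hT0 : 0 < T := lt_of_lt_of_le (Real.exp_pos _) hexp
  have hLL : 1 + 1 / D.ep + C2 / D.ep + K / D.ep ^ 2 ≤ Real.log T :=
    (Real.le_log_iff_exp_le hT0).2 hexp
  have hq1 : 0 < 1 / D.ep := by positivity
  have hq2 : 0 < C2 / D.ep := by positivity
  have hq3 : 0 ≤ K / D.ep ^ 2 := by positivity
  have hL1 : 1 ≤ Real.log T := by linarith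
  have hL : 0 < Real.log T := by linarith
  have hT : 1 < T := (Real.log_pos_iff hT0.le).1 hL
  -- the sum over primes
  have hPS : ∑ p ∈ L2_S D T, (1 : ℝ) / p ≤ P := by
    have h3 : 1 ≤ D.ep * Real.log T := by
      have : 1 / D.ep ≤ Real.log T := by linarith
      rw [div_le_iff₀ hep] at this
      linarith
    have h4 := h2 T D.ep 1 hT hep (by linarith) h3
    have h5 : C2 / (D.ep * Real.log T) ≤ 1 := by
      rw [div_le_one (by positivity)]
      have : C2 / D.ep ≤ Real.log T := by linarith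
      rw [div_le_iff₀ hep] at this
      linarith
    have h6 : ∑ p ∈ L2_S D T, (1 : ℝ) / p ≤ sg T D.ep 1 :=
      Finset.sum_le_sum_of_subset_of_nonneg (L2_S_sub hT) fun p _ _ => by positivity
    have h7 := (abs_le.1 h4).2
    rw [hP]
    linarith
  have hN : ((XN D T : ℕ) : ℝ) ≤ T := by
    unfold XN
    refine (Nat.floor_le (Real.rpow_nonneg hT0.le _)).trans ?_
    calc T ^ (1 - D.ep) ≤ T ^ (1 : ℝ) := Real.rpow_le_rpow_of_exponent_le hT.le (by linarith)
      _ = T := Real.rpow_one T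
  have hNT : XN D T ≤ ⌊T⌋₊ := Nat.le_floor hN
  calc ∫ t in y..(y + T), ‖Vs D T (ss (alp τ T * Yc D.ep) t) - Qe D T τ t‖ ^ 2
      = ∫ t in y..(y + T), ‖∑ n ∈ Finset.Icc 1 (XN D T), ((L2_c D T n : ℝ) : ℂ) *
        (n : ℂ) ^ (-(ss (alp τ T * Yc D.ep) t))‖ ^ 2 := by
        refine intervalIntegral.integral_congr fun t _ => ?_
        rw [L2_diff D hT τ t]
    _ ≤ 5 * Real.pi * T * ∑ n ∈ Finset.Icc 1 (XN D T), ‖((L2_c D T n : ℝ) : ℂ)‖ ^ 2 *
          (n : ℝ) ^ (-(1 + 2 * (alp τ T * Yc D.ep))) :=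
        L2_mvt_w hT0 (by linarith) (fun n => ((L2_c D T n : ℝ) : ℂ)) y
    _ ≤ 5 * Real.pi * T * (C1 * D.ep + D.ep + D.ep) := by
        refine mul_le_mul_of_nonneg_left ?_ (by have := Real.pi_pos; positivity)
        refine (Finset.sum_le_sum fun n hn =>
          L2_point D hT hτ1 (Finset.mem_Icc.1 hn).1).trans ?_
        rw [Finset.sum_add_distrib, Finset.sum_add_distrib]
        refine add_le_add (add_le_add ?_ ?_) ?_
        · rw [← Finset.mul_sum]
          have h3 : ∑ n ∈ Finset.Icc 1 (XN D T), Gb D T n ^ 2 / (n : ℝ) ≤ C1 / D.ep := by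
            refine le_trans ?_ (hT1 T hTT1)
            refine Finset.sum_le_sum_of_subset_of_nonneg ?_ fun n _ _ => by positivity
            exact Finset.Icc_subset_Icc_right hNT
          calc D.ep ^ 2 * ∑ n ∈ Finset.Icc 1 (XN D T), Gb D T n ^ 2 / (n : ℝ)
              ≤ D.ep ^ 2 * (C1 / D.ep) := mul_le_mul_of_nonneg_left h3 (by positivity)
            _ = C1 * D.ep := by field_simp
        · rw [← Finset.sum_filter]
          refine (L2_sum_many (S := L2_S D T) (N := XN D T) (J := Jd D.ep) hPS).trans ?_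
          have h3 := (L2_Jd D.ep_pos D.ep_le).1
          have h4 : Real.exp 1 * P ≤ 3 * P :=
            mul_le_mul_of_nonneg_right (by have := Real.exp_one_lt_d9; linarith) hP0.le
          calc Real.exp (Real.exp 1 * P - Jd D.ep) ≤ Real.exp (Real.log D.ep) := by
                apply Real.exp_le_exp.2
                have h5 : Real.log D.ep = -Real.log (1 / D.ep) := by
                  rw [one_div, Real.log_inv]; ring
                rw [h5]
                rw [hP] at h4 ⊢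
                linarith
            _ = D.ep := Real.exp_log hep
        · rw [← Finset.sum_filter]
          have h3 : (Finset.Icc 1 (XN D T)).filter
              (fun n => n ∈ L2_NS (L2_S D T) (Jd D.ep) ∧ ¬ Squarefree n) ⊆
              (L2_NS (L2_S D T) (Jd D.ep)).filter (fun n => ¬ Squarefree n) := by
            intro n hn
            rw [Finset.mem_filter] at hn ⊢
            exact hn.2
          refine (Finset.sum_le_sum_of_subset_of_nonneg h3 fun n _ _ => by positivity).trans ?_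
          have hTe : (0 : ℝ) < T ^ D.ep := Real.rpow_pos_of_pos hT0 _
          refine (L2_sum_nonsqf L2_S_prime (Jd D.ep) hTe
            (fun p hp => (L2_S_gt hT hp).le) hPS).trans ?_
          rw [div_mul_eq_mul_div, div_le_iff₀ hTe, ← hK]
          have h4 : K / D.ep ≤ T ^ D.ep := by
            rw [Real.rpow_def_of_pos hT0]
            have h5 : K / D.ep ^ 2 ≤ Real.log T := by linarith
            have h6 : K / D.ep ≤ Real.log T * D.ep := by
              have h7 := mul_le_mul_of_nonneg_right h5 hep.le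
              have h8 : K / D.ep ^ 2 * D.ep = K / D.ep := by field_simp
              rw [h8] at h7
              exact h7
            have := Real.add_one_le_exp (Real.log T * D.ep)
            linarith
          rw [div_le_iff₀ hep] at h4
          linarith
    _ = 5 * Real.pi * (C1 + 2) * D.ep * T := by ring

end Pool.Agent.AHW
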