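import Pool.Agent.ZGap.AH.L34
import Pool.Agent.ZGap.DW.V

/-!
# The prime sum in windows
-/

open scoped ContDiff

namespace Pool.Agent.AHW

open Complex MeasureTheory Set Pool.Agent.Hadamard Pool.Agent.HalfGap Pool.Agent.AHD

/-- Mean value upper bound on a window of length `T`. -/
lemma L34w_mv {N : ℕ} {T : ℝ} (hT : 0 < T) (hNT : (N : ℝ) ≤ 2 * T) (a : ℕ → ℂ) (y : ℝ) :
    ∫ t in y..(y + T), ‖∑ n ∈ Finset.Icc 1 N, a n * (n : ℂ) ^ (-(t * I) : ℂ)‖ ^ 2 ≤
      5 * Real.pi * T * ∑ n ∈ Finset.Icc 1 N, ‖a n‖ ^ 2 := by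
  have h2T : 0 < 2 * T := by positivity
  obtain ⟨b, hb⟩ : ∃ b : ℕ → ℂ, ∀ n, b n = a n * (n : ℂ) ^ (-(y * I) : ℂ) := ⟨_, fun _ => rfl⟩
  have hnb : ∀ n ∈ Finset.Icc 1 N, ‖b n‖ = ‖a n‖ := by
    intro n hn
    have hn0 : 0 < n := (Finset.mem_Icc.mp hn).1
    rw [hb, norm_mul, Complex.norm_natCast_cpow_of_pos hn0]
    simp
  have hshift : ∫ t in y..(y + T), ‖∑ n ∈ Finset.Icc 1 N, a n * (n : ℂ) ^ (-(t * I) : ℂ)‖ ^ 2 =
      ∫ t in (0 : ℝ)..T, ‖∑ n ∈ Finset.Icc 1 N, b n * (n : ℂ) ^ (-(t * I) : ℂ)‖ ^ 2 := by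
    have h1 := intervalIntegral.integral_comp_add_left (a := 0) (b := T)
      (fun t : ℝ => ‖∑ n ∈ Finset.Icc 1 N, a n * (n : ℂ) ^ (-(t * I) : ℂ)‖ ^ 2) y
    rw [add_zero] at h1
    rw [← h1]
    refine intervalIntegral.integral_congr fun t _ => ?_
    congr 2
    refine Finset.sum_congr rfl fun n hn => ?_
    have hn0 : (n : ℂ) ≠ 0 := by
      have := (Finset.mem_Icc.mp hn).1
      exact_mod_cast (by omega : n ≠ 0)
    have e1 : (-(((y + t : ℝ) : ℂ) * I) : ℂ) = -((y : ℂ) * I) + -((t : ℂ) * I) := by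
      push_cast; ring
    rw [hb, e1, Complex.cpow_add _ _ hn0, mul_assoc]
  have hsum : ∑ n ∈ Finset.Icc 1 N, ‖a n‖ ^ 2 = ∑ n ∈ Finset.Icc 1 N, ‖b n‖ ^ 2 :=
    Finset.sum_congr rfl fun n hn => by rw [hnb n hn]
  have h := dirichlet_mean_value h2T hNT b
  rw [hshift, hsum, show 5 * Real.pi * T = 5 / 2 * Real.pi * (2 * T) by ring, ← h,
    intervalIntegral.integral_of_le hT.le]
  have hcont : Continuous (fun t : ℝ =>
      ‖∑ n ∈ Finset.Icc 1 N, b n * (n : ℂ) ^ (-(t * I) : ℂ)‖ ^ 2) := by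
    refine (continuous_norm.comp (continuous_finsetSum _ fun n hn => ?_)).pow 2
    have hn0 : (n : ℂ) ≠ 0 := by
      have := (Finset.mem_Icc.mp hn).1
      exact_mod_cast (by omega : n ≠ 0)
    refine continuous_const.mul ?_
    refine Continuous.const_cpow (by fun_prop) (Or.inl hn0)
  have hint : Integrable (fun t : ℝ =>
      ‖∑ n ∈ Finset.Icc 1 N, b n * (n : ℂ) ^ (-(t * I) : ℂ)‖ ^ 2 * fejerW (t / (2 * T))) := by
    refine (fejer_integrable (Finset.Icc 1 N) (fun n : ℕ => Real.log n) b h2T).congr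
      (Filter.Eventually.of_forall fun t => ?_)
    simp only
    congr 3
    refine Finset.sum_congr rfl fun n hn => ?_
    have hn0 : (n : ℂ) ≠ 0 := by
      have := (Finset.mem_Icc.mp hn).1
      exact_mod_cast (by omega : n ≠ 0)
    rw [Complex.cpow_def_of_ne_zero hn0, ← Complex.ofReal_natCast,
      ← Complex.ofReal_log (Nat.cast_nonneg n)]
    congr 2
    push_cast
    ring
  have hnn : ∀ t : ℝ, 0 ≤ ‖∑ n ∈ Finset.Icc 1 N, b n * (n : ℂ) ^ (-(t * I) : ℂ)‖ ^ 2 *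
      fejerW (t / (2 * T)) := fun t => mul_nonneg (by positivity) (fejerW_nonneg _)
  refine le_trans ?_ (setIntegral_le_integral (s := Ioc 0 T) hint
    (Filter.Eventually.of_forall hnn))
  refine setIntegral_mono_on ?_ hint.integrableOn measurableSet_Ioc fun t ht => ?_
  · exact (hcont.integrableOn_Icc (a := 0) (b := T)).mono_set Ioc_subset_Icc_self
  · have h1 : 1 ≤ fejerW (t / (2 * T)) := by
      refine fejerW_ge_one ?_
      rw [abs_of_nonneg (div_nonneg ht.1.le h2T.le), div_le_one h2T]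
      linarith [ht.2]
    exact le_mul_of_one_le_right (by positivity) h1

/-- L3 -/
theorem XXp_sq_w : ∃ C : ℝ, 0 < C ∧ ∀ D : AData, ∃ T0 : ℝ, ∀ T : ℝ, T0 ≤ T → ∀ τ : ℝ,
    1 / 3 ≤ τ → τ ≤ 1 / 2 → ∀ y : ℝ,
    ∫ t in y..(y + T), ‖XXp D T τ t‖ ^ 2 ≤ C * Real.log (1 / D.ep) * T := by
  obtain ⟨C, hC, hsg⟩ := sg_asymp
  refine ⟨5 * Real.pi * (1 + C), by positivity, fun D => ⟨Real.exp (1 / D.ep), ?_⟩⟩
  intro T hT τ hτ1 hτ2 y
  have hep := D.ep_pos
  have hep1 := D.ep_le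
  have hT1 : 1 < T := lt_of_lt_of_le (by
    rw [← Real.exp_zero]; exact Real.exp_lt_exp.2 (by positivity)) hT
  have hT0 : 0 < T := by linarith
  have hL : 1 / D.ep ≤ Real.log T := by
    rw [← Real.log_exp (1 / D.ep)]
    exact Real.log_le_log (Real.exp_pos _) hT
  have hepL : 1 ≤ D.ep * Real.log T := by
    rw [div_le_iff₀ hep] at hL
    linarith
  have hfl : ((⌊T ^ (1 / 2 : ℝ)⌋₊ : ℕ) : ℝ) ≤ 2 * T := by
    refine (Nat.floor_le (by positivity)).trans ?_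
    have : T ^ (1 / 2 : ℝ) ≤ T ^ (1 : ℝ) :=
      Real.rpow_le_rpow_of_exponent_le hT1.le (by norm_num)
    rw [Real.rpow_one] at this
    linarith
  have h1 := L34w_mv hT0 hfl (fun n => ((L34_x D T τ n * (n : ℝ) ^ (-(1 / 2) : ℝ) : ℝ) : ℂ)) y
  have h2 : ∫ t in y..(y + T), ‖XXp D T τ t‖ ^ 2 =
      ∫ t in y..(y + T), ‖∑ n ∈ Finset.Icc 1 ⌊T ^ (1 / 2 : ℝ)⌋₊,
        ((L34_x D T τ n * (n : ℝ) ^ (-(1 / 2) : ℝ) : ℝ) : ℂ) * (n : ℂ) ^ (-(t * I) : ℂ)‖ ^ 2 := by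
    refine intervalIntegral.integral_congr fun t _ => ?_
    simp_rw [L34_XXp_eq D hT1]
  rw [h2]
  refine h1.trans ?_
  have h3 : ∑ n ∈ Finset.Icc 1 ⌊T ^ (1 / 2 : ℝ)⌋₊,
      ‖((L34_x D T τ n * (n : ℝ) ^ (-(1 / 2) : ℝ) : ℝ) : ℂ)‖ ^ 2 ≤ sg T D.ep (1 / 2) := by
    have h4 : PR T D.ep (1 / 2) ⊆ Finset.Icc 1 ⌊T ^ (1 / 2 : ℝ)⌋₊ := by
      intro n hn
      rw [L34_mem_PR hT0] at hn
      rw [Finset.mem_Icc]
      exact ⟨hn.1.one_le, Nat.le_floor hn.2.2⟩
    rw [← Finset.sum_subset h4]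
    · unfold sg
      refine Finset.sum_le_sum fun n hn => ?_
      have hn' : n.Prime := ((L34_mem_PR hT0).1 hn).1
      rw [L34_norm_sq _ hn'.pos]
      have hx1 := L34_x_le D hT1 (by linarith : 0 ≤ τ) n
      have hx0 := L34_x_nonneg D T τ n
      refine div_le_div_of_nonneg_right ?_ (Nat.cast_nonneg n)
      exact pow_le_one₀ hx0 hx1
    · intro n hn hnP
      have hn1 : 0 < n := (Finset.mem_Icc.1 hn).1
      rw [L34_norm_sq _ hn1]
      have hx : L34_x D T τ n = 0 := by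
        unfold L34_x
        split_ifs with h
        · have hp := (Finset.mem_filter.1 h).2
          have h5 : ¬ (T ^ D.ep < n) := by
            intro h6
            refine hnP ((L34_mem_PR hT0).2 ⟨hp, h6, ?_⟩)
            exact (Nat.le_floor_iff (by positivity)).1 (Finset.mem_Icc.1 hn).2
          rw [D.f_low _ (L34_xip_le hT1 hn1 (not_lt.1 h5)), zero_mul]
        · rfl
      rw [hx]
      simp
  have h5 := hsg T D.ep (1 / 2) hT1 hep (by linarith) hepL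
  have h6 : sg T D.ep (1 / 2) ≤ Real.log (1 / D.ep) + C := by
    have h7 := (abs_le.1 h5).2
    have h8 : C / (D.ep * Real.log T) ≤ C := div_le_self hC.le hepL
    have h9 : Real.log (1 / 2 / D.ep) ≤ Real.log (1 / D.ep) := by
      refine Real.log_le_log (by positivity) ?_
      exact div_le_div_of_nonneg_right (by norm_num) hep.le
    linarith
  have h10 := L34_log_ep D
  calc 5 * Real.pi * T * ∑ n ∈ Finset.Icc 1 ⌊T ^ (1 / 2 : ℝ)⌋₊,
      ‖((L34_x D T τ n * (n : ℝ) ^ (-(1 / 2) : ℝ) : ℝ) : ℂ)‖ ^ 2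
      ≤ 5 * Real.pi * T * ((1 + C) * Real.log (1 / D.ep)) := by
        refine mul_le_mul_of_nonneg_left ?_ (by positivity)
        nlinarith
    _ = 5 * Real.pi * (1 + C) * Real.log (1 / D.ep) * T := by ring

/-- L4 -/
theorem XXp_sub_w : ∃ C : ℝ, 0 < C ∧ ∀ D : AData, ∀ b : ℝ, 2 * D.ep ≤ b → b ≤ 1 / 2 →
    ∃ T0 : ℝ, ∀ T : ℝ, T0 ≤ T → ∀ τ : ℝ, 1 / 3 ≤ τ → τ ≤ 1 / 2 → ∀ y : ℝ,
    ∫ t in y..(y + T), ‖XXp D T τ t - Dl T D.ep b t‖ ^ 2 ≤
      C * (1 + Real.log (Real.log (1 / D.ep)) + Real.log (1 / b)) * T := by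
  obtain ⟨C, hC, hsg⟩ := sg_asymp
  obtain ⟨C1, hC1, hlp⟩ := sum_log_prime
  have hl2 : 0 ≤ Real.log 2 := Real.log_nonneg (by norm_num)
  have hl20 : 0 ≤ Real.log 20 := Real.log_nonneg (by norm_num)
  have hl500 : 0 ≤ Real.log (500 * Real.pi) :=
    Real.log_nonneg (by nlinarith [Real.pi_gt_three])
  set K : ℝ := Real.log 2 + Real.log 20 + Real.log (500 * Real.pi) + 4 * C + 5 with hK
  have hK0 : 0 < K := by positivity
  refine ⟨5 * Real.pi * K, by positivity, fun D b hb1 hb2 => ?_⟩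
  have hep := D.ep_pos
  have hep1 := D.ep_le
  have hlog := L34_log_ep D
  have hLam := L34_Lam_ge D
  have hJ := L34_Jd_pos D
  have hb0 : 0 < b := by linarith
  have hlb : 0 ≤ Real.log (1 / b) := Real.log_nonneg (by
    rw [le_div_iff₀ hb0]; linarith)
  have hll : 0 ≤ Real.log (Real.log (1 / D.ep)) := Real.log_nonneg (by linarith)
  refine ⟨Real.exp (1 / D.ep + 4 * (Jd D.ep : ℝ) + L34_Lam D + C1 * L34_Lam D), ?_⟩
  intro T hT τ hτ1 hτ2 y
  have hLs : 1 / D.ep + 4 * (Jd D.ep : ℝ) + L34_Lam D + C1 * L34_Lam D ≤ Real.log T := by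
    rw [← Real.log_exp (1 / D.ep + 4 * (Jd D.ep : ℝ) + L34_Lam D + C1 * L34_Lam D)]
    exact Real.log_le_log (Real.exp_pos _) hT
  have hCL : 0 < C1 * L34_Lam D := by positivity
  have hie : 0 < 1 / D.ep := by positivity
  have hL1 : 1 / D.ep ≤ Real.log T := by linarith
  have hL2 : 4 * (Jd D.ep : ℝ) ≤ Real.log T := by linarith
  have hL3 : L34_Lam D ≤ Real.log T := by linarith
  have hL4 : C1 * L34_Lam D ≤ Real.log T := by linarith
  have hL0 : 0 < Real.log T := by linarith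
  have hT1 : 1 < T := by
    have : 0 < T := lt_of_lt_of_le (Real.exp_pos _) hT
    exact (Real.log_pos_iff this.le).1 hL0
  have hT0 : 0 < T := by linarith
  have hfl : ((⌊T ^ (1 / 2 : ℝ)⌋₊ : ℕ) : ℝ) ≤ 2 * T := by
    refine (Nat.floor_le (by positivity)).trans ?_
    have : T ^ (1 / 2 : ℝ) ≤ T ^ (1 : ℝ) :=
      Real.rpow_le_rpow_of_exponent_le hT1.le (by norm_num)
    rw [Real.rpow_one] at this
    linarith
  have h1 := L34w_mv hT0 hfl
    (fun n => (((L34_x D T τ n - L34_d T D.ep b n) * (n : ℝ) ^ (-(1 / 2) : ℝ) : ℝ) : ℂ)) y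
  have h2 : ∫ t in y..(y + T), ‖XXp D T τ t - Dl T D.ep b t‖ ^ 2 =
      ∫ t in y..(y + T), ‖∑ n ∈ Finset.Icc 1 ⌊T ^ (1 / 2 : ℝ)⌋₊,
        (((L34_x D T τ n - L34_d T D.ep b n) * (n : ℝ) ^ (-(1 / 2) : ℝ) : ℝ) : ℂ) *
          (n : ℂ) ^ (-(t * I) : ℂ)‖ ^ 2 := by
    refine intervalIntegral.integral_congr fun t _ => ?_
    simp_rw [L34_XXp_eq D hT1, L34_Dl_eq hT1 hb2]
    rw [← Finset.sum_sub_distrib]
    congr 2
    refine Finset.sum_congr rfl fun n _ => ?_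
    push_cast
    ring
  rw [h2]
  refine h1.trans ?_
  have h3 : ∑ n ∈ Finset.Icc 1 ⌊T ^ (1 / 2 : ℝ)⌋₊,
      ‖(((L34_x D T τ n - L34_d T D.ep b n) * (n : ℝ) ^ (-(1 / 2) : ℝ) : ℝ) : ℂ)‖ ^ 2 ≤
      sg T D.ep (2 * D.ep) + sg T b (1 / 2) + sg T (1 / (4 * (Jd D.ep : ℝ))) (1 / 2) +
        sg T (1 / L34_Lam D) (1 / 2) +
        L34_Lam D / Real.log T * ∑ p ∈ (Finset.Icc 1 ⌊T ^ (1 / L34_Lam D)⌋₊).filter Nat.Prime,
          Real.log p / p := by
    have h4 : ∑ n ∈ Finset.Icc 1 ⌊T ^ (1 / 2 : ℝ)⌋₊,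
        ‖(((L34_x D T τ n - L34_d T D.ep b n) * (n : ℝ) ^ (-(1 / 2) : ℝ) : ℝ) : ℂ)‖ ^ 2 ≤
        ∑ n ∈ Finset.Icc 1 ⌊T ^ (1 / 2 : ℝ)⌋₊,
        ((if n ∈ PR T D.ep (2 * D.ep) then (1 : ℝ) else 0) / n +
        (if n ∈ PR T b (1 / 2) then (1 : ℝ) else 0) / n +
        (if n ∈ PR T (1 / (4 * (Jd D.ep : ℝ))) (1 / 2) then (1 : ℝ) else 0) / n +
        (if n ∈ PR T (1 / L34_Lam D) (1 / 2) then (1 : ℝ) else 0) / n +
        (if n ∈ (Finset.Icc 1 ⌊T ^ (1 / L34_Lam D)⌋₊).filter Nat.Prime then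
          L34_Lam D * xip T n else 0) / n) := by
      refine Finset.sum_le_sum fun n hn => ?_
      have hn1 : 0 < n := (Finset.mem_Icc.1 hn).1
      rw [L34_norm_sq _ hn1, ← add_div, ← add_div, ← add_div, ← add_div]
      exact div_le_div_of_nonneg_right (L34_pt D hT1 (by linarith) hτ2 hn)
        (Nat.cast_nonneg n)
    refine h4.trans (le_of_eq ?_)
    rw [Finset.sum_add_distrib, Finset.sum_add_distrib, Finset.sum_add_distrib,
      Finset.sum_add_distrib, L34_sum_PR hT0, L34_sum_PR hT0, L34_sum_PR hT0]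
    have hsub1 : PR T D.ep (2 * D.ep) ⊆ Finset.Icc 1 ⌊T ^ (1 / 2 : ℝ)⌋₊ := by
      intro n hn
      rw [L34_mem_PR hT0] at hn
      rw [Finset.mem_Icc]
      refine ⟨hn.1.one_le, Nat.le_floor (hn.2.2.trans ?_)⟩
      exact Real.rpow_le_rpow_of_exponent_le hT1.le (by linarith)
    have e1 : ∑ n ∈ Finset.Icc 1 ⌊T ^ (1 / 2 : ℝ)⌋₊,
        (if n ∈ PR T D.ep (2 * D.ep) then (1 : ℝ) else 0) / n = sg T D.ep (2 * D.ep) := by
      rw [← Finset.sum_subset hsub1]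
      · unfold sg
        exact Finset.sum_congr rfl fun n hn => by rw [if_pos hn]
      · intro n _ hn
        rw [if_neg hn, zero_div]
    have hsub2 : (Finset.Icc 1 ⌊T ^ (1 / L34_Lam D)⌋₊).filter Nat.Prime ⊆
        Finset.Icc 1 ⌊T ^ (1 / 2 : ℝ)⌋₊ := by
      refine (Finset.filter_subset _ _).trans (Finset.Icc_subset_Icc le_rfl ?_)
      refine Nat.floor_le_floor (Real.rpow_le_rpow_of_exponent_le hT1.le ?_)
      exact one_div_le_one_div_of_le (by norm_num) hLam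
    have e2 : ∑ n ∈ Finset.Icc 1 ⌊T ^ (1 / 2 : ℝ)⌋₊,
        (if n ∈ (Finset.Icc 1 ⌊T ^ (1 / L34_Lam D)⌋₊).filter Nat.Prime then
          L34_Lam D * xip T n else 0) / n =
        L34_Lam D / Real.log T * ∑ p ∈ (Finset.Icc 1 ⌊T ^ (1 / L34_Lam D)⌋₊).filter Nat.Prime,
          Real.log p / p := by
      rw [← Finset.sum_subset hsub2]
      · rw [Finset.mul_sum]
        refine Finset.sum_congr rfl fun n hn => ?_
        rw [if_pos hn]
        unfold xip
        ring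
      · intro n _ hn
        rw [if_neg hn, zero_div]
    rw [e1, e2]
  have hsgle : ∀ a c : ℝ, 0 < a → a ≤ c → 1 ≤ a * Real.log T → sg T a c ≤ Real.log (c / a) + C := by
    intro a c ha hac haL
    have h7 := (abs_le.1 (hsg T a c hT1 ha hac haL)).2
    have h8 : C / (a * Real.log T) ≤ C := div_le_self hC.le haL
    linarith
  have hepL : 1 ≤ D.ep * Real.log T := by
    rw [div_le_iff₀ hep] at hL1
    linarith
  have s1 : sg T D.ep (2 * D.ep) ≤ Real.log 2 + C := by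
    have := hsgle D.ep (2 * D.ep) hep (by linarith) hepL
    rwa [mul_div_cancel_right₀ _ hep.ne'] at this
  have s2 : sg T b (1 / 2) ≤ Real.log (1 / b) + C := by
    have h5 := hsgle b (1 / 2) hb0 hb2 (by nlinarith)
    have h6 : Real.log (1 / 2 / b) ≤ Real.log (1 / b) :=
      Real.log_le_log (by positivity) (div_le_div_of_nonneg_right (by norm_num) hb0.le)
    linarith
  have hJ0 : (0 : ℝ) < Jd D.ep := by linarith
  have s3 : sg T (1 / (4 * (Jd D.ep : ℝ))) (1 / 2) ≤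
      Real.log 20 + Real.log (Real.log (1 / D.ep)) + C := by
    have h5 := hsgle (1 / (4 * (Jd D.ep : ℝ))) (1 / 2) (by positivity)
      (one_div_le_one_div_of_le (by norm_num) (by linarith)) (by
        rw [one_div_mul_eq_div, le_div_iff₀ (by positivity)]
        linarith)
    have h6 : (1 / 2 / (1 / (4 * (Jd D.ep : ℝ)))) ≤ 20 * Real.log (1 / D.ep) := by
      have h7 : (Jd D.ep : ℝ) < 8 * Real.log (1 / D.ep) + 8 + 1 :=
        Nat.ceil_lt_add_one (by linarith)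
      have h8 : (1 / 2 / (1 / (4 * (Jd D.ep : ℝ)))) = 2 * (Jd D.ep : ℝ) := by
        field_simp
        norm_num
      rw [h8]
      linarith
    have h9 := Real.log_le_log (by positivity) h6
    rw [Real.log_mul (by norm_num) (by linarith)] at h9
    linarith
  have s4 : sg T (1 / L34_Lam D) (1 / 2) ≤
      Real.log (500 * Real.pi) + 2 * Real.log (Real.log (1 / D.ep)) + C := by
    have hLam0 : 0 < L34_Lam D := by linarith
    have h5 := hsgle (1 / L34_Lam D) (1 / 2) (by positivity)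
      (one_div_le_one_div_of_le (by norm_num) (by linarith)) (by
        rw [one_div_mul_eq_div, le_div_iff₀ (by positivity)]
        linarith)
    have h8 : (1 / 2 / (1 / L34_Lam D)) = 500 * Real.pi * Real.log (1 / D.ep) ^ 2 := by
      rw [div_div_eq_mul_div, div_one]
      unfold L34_Lam
      ring
    rw [h8, Real.log_mul (by positivity) (by positivity), Real.log_pow] at h5
    push_cast at h5
    linarith
  have s5 : L34_Lam D / Real.log T *
      ∑ p ∈ (Finset.Icc 1 ⌊T ^ (1 / L34_Lam D)⌋₊).filter Nat.Prime, Real.log p / p ≤ 2 := by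
    have hLam0 : 0 < L34_Lam D := by linarith
    have h5 := (abs_le.1 (hlp (T ^ (1 / L34_Lam D))
      (Real.one_le_rpow hT1.le (by positivity)))).2
    rw [Real.log_rpow hT0] at h5
    have h6 : ∑ p ∈ (Finset.Icc 1 ⌊T ^ (1 / L34_Lam D)⌋₊).filter Nat.Prime, Real.log p / p ≤
        1 / L34_Lam D * Real.log T + C1 := by linarith
    calc L34_Lam D / Real.log T *
          ∑ p ∈ (Finset.Icc 1 ⌊T ^ (1 / L34_Lam D)⌋₊).filter Nat.Prime, Real.log p / p
        ≤ L34_Lam D / Real.log T * (1 / L34_Lam D * Real.log T + C1) :=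
          mul_le_mul_of_nonneg_left h6 (by positivity)
      _ = 1 + C1 * L34_Lam D / Real.log T := by field_simp
      _ ≤ 2 := by
          have : C1 * L34_Lam D / Real.log T ≤ 1 := by
            rw [div_le_one hL0]
            exact hL4
          linarith
  calc 5 * Real.pi * T * ∑ n ∈ Finset.Icc 1 ⌊T ^ (1 / 2 : ℝ)⌋₊,
      ‖(((L34_x D T τ n - L34_d T D.ep b n) * (n : ℝ) ^ (-(1 / 2) : ℝ) : ℝ) : ℂ)‖ ^ 2
      ≤ 5 * Real.pi * T * (K * (1 + Real.log (Real.log (1 / D.ep)) + Real.log (1 / b))) := by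
        refine mul_le_mul_of_nonneg_left ?_ (by positivity)
        have h10 : 3 * Real.log (Real.log (1 / D.ep)) ≤ K * Real.log (Real.log (1 / D.ep)) :=
          mul_le_mul_of_nonneg_right (by linarith) hll
        have h11 : 1 * Real.log (1 / b) ≤ K * Real.log (1 / b) :=
          mul_le_mul_of_nonneg_right (by linarith) hlb
        rw [mul_add, mul_add]
        linarith
    _ = 5 * Real.pi * K * (1 + Real.log (Real.log (1 / D.ep)) + Real.log (1 / b)) * T := by ring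

end Pool.Agent.AHW
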