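import Pool.Agent.ZGap.AH.L5
import Pool.Agent.ZGap.DW.Defs

/-!
# Anticoncentration in shifted windows
-/

open scoped ContDiff

namespace Pool.Agent.AHW

open Complex MeasureTheory Set Pool.Agent.Hadamard Pool.Agent.HalfGap Pool.Agent.AHD

lemma L5w_e_add (l w t : ℝ) : L5_e l (w + t) = L5_e l w * Complex.exp (-(l * t : ℝ) * I) := by
  unfold L5_e
  rw [← Complex.exp_add]
  congr 1
  push_cast
  ring

lemma L5w_e_norm (l w : ℝ) : ‖L5_e l w‖ = 1 := by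
  unfold L5_e
  rw [show (-((l * w : ℝ) : ℂ) * I) = ((-(l * w) : ℝ) : ℂ) * I by push_cast; ring,
    Complex.norm_exp_ofReal_mul_I]

section fam

variable {m : ℕ} {P : Fin m → Finset ℕ} {s : Fin m → ℝ} {x : ℕ} {U : ℝ}

lemma L5w_m1 (w : ℝ) (hP : ∀ i, ∀ p ∈ P i, p.Prime ∧ p ≤ x) (hU : 0 < U) (hx : (x : ℝ) ^ 2 ≤ U)
    (hd : ∀ i j, ∀ p, p ∈ P i → p ∈ P j → i = j) (hs : ∀ i, 0 < s i)
    (hsum : ∀ i, ∑ p ∈ P i, (1 : ℝ) / p = s i) :
    Integrable (fun t : ℝ => ‖∑ i, L5_N (P i) (s i) (w + t)‖ ^ 2 * fejerW (t / U)) ∧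
    ∫ t : ℝ, ‖∑ i, L5_N (P i) (s i) (w + t)‖ ^ 2 * fejerW (t / U) ≤ 5 / 2 * Real.pi * U * m := by
  have h1 : ∀ t, ∑ i, L5_N (P i) (s i) (w + t) = ∑ y ∈ Finset.univ.sigma P,
      ((L5_c (s y.1) y.2 : ℂ) * L5_e (Real.log y.2) w) *
        Complex.exp (-((fun y : (Σ _ : Fin m, ℕ) => Real.log y.2) y * t : ℝ) * I) := by
    intro t
    rw [Finset.sum_sigma]
    refine Finset.sum_congr rfl fun i _ => ?_
    rw [L5_N_eq]
    refine Finset.sum_congr rfl fun p _ => ?_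
    rw [L5w_e_add, ← mul_assoc]
  simp only [h1]
  refine ⟨fejer_integrable (Finset.univ.sigma P) (fun y => Real.log y.2)
    (fun y => ((L5_c (s y.1) y.2 : ℂ) * L5_e (Real.log y.2) w)) hU, le_of_eq ?_⟩
  rw [fejer_mean_value (Finset.univ.sigma P) (fun y => Real.log y.2)
    (fun y => ((L5_c (s y.1) y.2 : ℂ) * L5_e (Real.log y.2) w)) hU]
  · congr 1
    rw [Finset.sum_sigma]
    have h2 : ∀ i : Fin m, ∑ p ∈ P i, ‖(L5_c (s i) p : ℂ) * L5_e (Real.log p) w‖ ^ 2 = 1 := by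
      intro i
      rw [← L5_sum_c (hs i) (hsum i)]
      refine Finset.sum_congr rfl fun p _ => ?_
      rw [norm_mul, L5w_e_norm, mul_one, Complex.norm_real, Real.norm_eq_abs, sq_abs]
    rw [Finset.sum_congr rfl fun i _ => h2 i]
    simp
  · intro j hj k hk hjk
    simp only [Finset.mem_sigma, Finset.mem_univ, true_and] at hj hk
    obtain ⟨pj, hxj⟩ := hP _ _ hj
    obtain ⟨pk, hxk⟩ := hP _ _ hk
    have hxU : (x : ℝ) ≤ U := by
      refine le_trans ?_ hx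
      have : 1 ≤ x := pj.one_lt.le.trans hxj
      exact_mod_cast Nat.le_self_pow (by norm_num) x
    refine one_le_mul_log_sub hxU (Finset.mem_Icc.mpr ⟨pj.one_lt.le, hxj⟩)
      (Finset.mem_Icc.mpr ⟨pk.one_lt.le, hxk⟩) ?_
    intro h
    apply hjk
    have h2 : j.1 = k.1 := hd _ _ j.2 hj (h ▸ hk)
    ext
    · rw [h2]
    · simpa using h

lemma L5w_m2 (w : ℝ) (J : Finset (Fin m)) (hP : ∀ i, ∀ p ∈ P i, p.Prime ∧ p ≤ x) (hU : 0 < U)
    (hx : (x : ℝ) ^ 2 ≤ U)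
    (hd : ∀ i j, ∀ p, p ∈ P i → p ∈ P j → i = j) (hs : ∀ i, 0 < s i)
    (hsum : ∀ i, ∑ p ∈ P i, (1 : ℝ) / p = s i) :
    Integrable (fun t : ℝ => ‖∑ i ∈ J, L5_N (P i) (s i) (w + t) ^ 2‖ ^ 2 * fejerW (t / U)) ∧
    ∫ t : ℝ, ‖∑ i ∈ J, L5_N (P i) (s i) (w + t) ^ 2‖ ^ 2 * fejerW (t / U) ≤
      5 * Real.pi * U * J.card := by
  classical
  set S : Finset (Σ _ : Fin m, ℕ × ℕ) :=
    J.sigma (fun i => (P i ×ˢ P i).filter (fun x => x.1 ≤ x.2)) with hS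
  have h1 : ∀ t, ∑ i ∈ J, L5_N (P i) (s i) (w + t) ^ 2 = ∑ y ∈ S,
      ((((if y.2.1 = y.2.2 then 1 else 2) * (L5_c (s y.1) y.2.1 * L5_c (s y.1) y.2.2) : ℝ) : ℂ) *
        L5_e (Real.log y.2.1 + Real.log y.2.2) w) *
        Complex.exp (-((fun y : (Σ _ : Fin m, ℕ × ℕ) => Real.log y.2.1 + Real.log y.2.2) y * t : ℝ) * I) := by
    intro t
    rw [hS, Finset.sum_sigma]
    refine Finset.sum_congr rfl fun i _ => ?_
    rw [L5_sq]
    refine Finset.sum_congr rfl fun y _ => ?_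
    rw [L5w_e_add, ← mul_assoc]
  simp only [h1]
  refine ⟨fejer_integrable S (fun y => Real.log y.2.1 + Real.log y.2.2)
    (fun y => ((((if y.2.1 = y.2.2 then 1 else 2) * (L5_c (s y.1) y.2.1 * L5_c (s y.1) y.2.2) : ℝ) : ℂ) *
        L5_e (Real.log y.2.1 + Real.log y.2.2) w)) hU, ?_⟩
  rw [fejer_mean_value S (fun y => Real.log y.2.1 + Real.log y.2.2)
    (fun y => ((((if y.2.1 = y.2.2 then 1 else 2) * (L5_c (s y.1) y.2.1 * L5_c (s y.1) y.2.2) : ℝ) : ℂ) *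
        L5_e (Real.log y.2.1 + Real.log y.2.2) w)) hU]
  · rw [show 5 * Real.pi * U * (J.card : ℝ) = 5 / 2 * Real.pi * U * (2 * J.card) by ring]
    refine mul_le_mul_of_nonneg_left ?_ (by positivity)
    rw [hS, Finset.sum_sigma]
    have h2 : ∀ i ∈ J, ∑ y ∈ (P i ×ˢ P i).filter (fun x => x.1 ≤ x.2),
        ‖(((if y.1 = y.2 then 1 else 2) * (L5_c (s i) y.1 * L5_c (s i) y.2) : ℝ) : ℂ) *
          L5_e (Real.log y.1 + Real.log y.2) w‖ ^ 2 ≤ 2 := by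
      intro i _
      have h3 : 2 * ∑ p ∈ P i, ∑ q ∈ P i, L5_c (s i) p ^ 2 * L5_c (s i) q ^ 2 = 2 := by
        rw [← Finset.sum_mul_sum, L5_sum_c (hs i) (hsum i), mul_one, mul_one]
      rw [L5_sym (P i) (fun p q => L5_c (s i) p ^ 2 * L5_c (s i) q ^ 2) (fun p q => mul_comm _ _),
        Finset.mul_sum] at h3
      refine le_of_le_of_eq ?_ h3
      refine Finset.sum_le_sum fun y _ => ?_
      rw [norm_mul, L5w_e_norm, mul_one, Complex.norm_real, Real.norm_eq_abs, sq_abs, mul_pow,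
        mul_pow]
      have h4 : 0 ≤ L5_c (s i) y.1 ^ 2 * L5_c (s i) y.2 ^ 2 := by positivity
      split_ifs <;> nlinarith
    refine (Finset.sum_le_sum h2).trans ?_
    simp [mul_comm]
  · intro j hj k hk hjk
    simp only [hS, Finset.mem_sigma, Finset.mem_filter, Finset.mem_product] at hj hk
    obtain ⟨_, ⟨hj1, hj2⟩, hjle⟩ := hj
    obtain ⟨_, ⟨hk1, hk2⟩, hkle⟩ := hk
    have a1 := hP _ _ hj1
    have a2 := hP _ _ hj2
    have a3 := hP _ _ hk1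
    have a4 := hP _ _ hk2
    have e1 : ∀ {p q : ℕ}, p.Prime ∧ p ≤ x → q.Prime ∧ q ≤ x →
        Real.log p + Real.log q = Real.log ((p * q : ℕ) : ℝ) := by
      intro p q hp hq
      have h1 : (0:ℝ) < p := by exact_mod_cast hp.1.pos
      have h2 : (0:ℝ) < q := by exact_mod_cast hq.1.pos
      rw [Nat.cast_mul, Real.log_mul h1.ne' h2.ne']
    rw [e1 a1 a2, e1 a3 a4]
    refine one_le_mul_log_sub (by exact_mod_cast hx) (L5_mem_xx a1 a2) (L5_mem_xx a3 a4) ?_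
    intro h
    apply hjk
    have h5 : j.2.1 = k.2.1 ∧ j.2.2 = k.2.2 := by
      have h6 : j.2.1 ∣ k.2.1 * k.2.2 := ⟨_, h.symm⟩
      rcases (a1.1.dvd_mul).mp h6 with h7 | h7
      · have h8 := (Nat.prime_dvd_prime_iff_eq a1.1 a3.1).mp h7
        refine ⟨h8, ?_⟩
        rw [h8] at h
        exact Nat.eq_of_mul_eq_mul_left a3.1.pos h
      · have h8 := (Nat.prime_dvd_prime_iff_eq a1.1 a4.1).mp h7
        have h9 : j.2.2 = k.2.1 := by
          rw [h8, mul_comm] at h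
          exact Nat.eq_of_mul_eq_mul_right a4.1.pos h
        omega
    have h6 : j.1 = k.1 := hd _ _ j.2.1 hj1 (h5.1 ▸ hk1)
    rcases j with ⟨j1, j2, j3⟩
    rcases k with ⟨k1, k2, k3⟩
    simp only at h5 h6
    obtain ⟨rfl, rfl⟩ := h5
    subst h6
    rfl

lemma L5w_m3 (w : ℝ) (hP : ∀ i, ∀ p ∈ P i, p.Prime ∧ p ≤ x) (hU : 0 < U)
    (hx : (x : ℝ) ^ 2 ≤ U)
    (hd : ∀ i j, ∀ p, p ∈ P i → p ∈ P j → i = j) (hs : ∀ i, 0 < s i)
    (hsum : ∀ i, ∑ p ∈ P i, (1 : ℝ) / p = s i) :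
    Integrable (fun t : ℝ => ‖((∑ i, (‖L5_N (P i) (s i) (w + t)‖ ^ 2 - 1) : ℝ) : ℂ)‖ ^ 2 *
      fejerW (t / U)) ∧
    ∫ t : ℝ, ‖((∑ i, (‖L5_N (P i) (s i) (w + t)‖ ^ 2 - 1) : ℝ) : ℂ)‖ ^ 2 * fejerW (t / U) ≤
      5 / 2 * Real.pi * U * m := by
  classical
  set S : Finset (Σ _ : Fin m, ℕ × ℕ) :=
    Finset.univ.sigma (fun i => (P i ×ˢ P i).filter (fun x => x.1 ≠ x.2)) with hS
  have h1 : ∀ t, ((∑ i, (‖L5_N (P i) (s i) (w + t)‖ ^ 2 - 1) : ℝ) : ℂ) = ∑ y ∈ S,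
      (((L5_c (s y.1) y.2.1 * L5_c (s y.1) y.2.2 : ℝ) : ℂ) *
        L5_e (Real.log y.2.1 - Real.log y.2.2) w) *
        Complex.exp (-((fun y : (Σ _ : Fin m, ℕ × ℕ) => Real.log y.2.1 - Real.log y.2.2) y * t : ℝ) * I) := by
    intro t
    rw [hS, Finset.sum_sigma, Complex.ofReal_sum]
    refine Finset.sum_congr rfl fun i _ => ?_
    rw [L5_normsq (hs i) (hsum i)]
    refine Finset.sum_congr rfl fun y _ => ?_
    rw [L5w_e_add, ← mul_assoc]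
  simp only [h1]
  refine ⟨fejer_integrable S (fun y => Real.log y.2.1 - Real.log y.2.2)
    (fun y => (((L5_c (s y.1) y.2.1 * L5_c (s y.1) y.2.2 : ℝ) : ℂ) *
        L5_e (Real.log y.2.1 - Real.log y.2.2) w)) hU, ?_⟩
  rw [fejer_mean_value S (fun y => Real.log y.2.1 - Real.log y.2.2)
    (fun y => (((L5_c (s y.1) y.2.1 * L5_c (s y.1) y.2.2 : ℝ) : ℂ) *
        L5_e (Real.log y.2.1 - Real.log y.2.2) w)) hU]
  · refine mul_le_mul_of_nonneg_left ?_ (by positivity)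
    rw [hS, Finset.sum_sigma]
    have h2 : ∀ i : Fin m, ∑ y ∈ (P i ×ˢ P i).filter (fun x => x.1 ≠ x.2),
        ‖((L5_c (s i) y.1 * L5_c (s i) y.2 : ℝ) : ℂ) *
          L5_e (Real.log y.1 - Real.log y.2) w‖ ^ 2 ≤ 1 := by
      intro i
      have h3 : ∑ x ∈ P i ×ˢ P i, L5_c (s i) x.1 ^ 2 * L5_c (s i) x.2 ^ 2 = 1 := by
        rw [Finset.sum_product' (f := fun a b => L5_c (s i) a ^ 2 * L5_c (s i) b ^ 2),
          ← Finset.sum_mul_sum, L5_sum_c (hs i) (hsum i), mul_one]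
      refine le_of_le_of_eq ?_ h3
      refine (Finset.sum_le_sum (g := fun x => L5_c (s i) x.1 ^ 2 * L5_c (s i) x.2 ^ 2)
        fun y _ => ?_).trans (Finset.sum_le_sum_of_subset_of_nonneg (Finset.filter_subset _ _)
          fun y _ _ => by positivity)
      rw [norm_mul, L5w_e_norm, mul_one, Complex.norm_real, Real.norm_eq_abs, sq_abs, mul_pow]
    refine (Finset.sum_le_sum fun i _ => h2 i).trans ?_
    simp
  · intro j hj k hk hjk
    simp only [hS, Finset.mem_sigma, Finset.mem_filter, Finset.mem_product, Finset.mem_univ,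
      true_and] at hj hk
    obtain ⟨⟨hj1, hj2⟩, hjne⟩ := hj
    obtain ⟨⟨hk1, hk2⟩, hkne⟩ := hk
    have a1 := hP _ _ hj1
    have a2 := hP _ _ hj2
    have a3 := hP _ _ hk1
    have a4 := hP _ _ hk2
    have e1 : ∀ {p q : ℕ}, p.Prime ∧ p ≤ x → q.Prime ∧ q ≤ x →
        Real.log p + Real.log q = Real.log ((p * q : ℕ) : ℝ) := by
      intro p q hp hq
      have h1 : (0:ℝ) < p := by exact_mod_cast hp.1.pos
      have h2 : (0:ℝ) < q := by exact_mod_cast hq.1.pos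
      rw [Nat.cast_mul, Real.log_mul h1.ne' h2.ne']
    rw [show Real.log (j.2.1 : ℝ) - Real.log (j.2.2 : ℝ) - (Real.log (k.2.1 : ℝ) - Real.log (k.2.2 : ℝ)) =
      (Real.log (j.2.1 : ℝ) + Real.log (k.2.2 : ℝ)) - (Real.log (k.2.1 : ℝ) + Real.log (j.2.2 : ℝ)) by ring,
      e1 a1 a4, e1 a3 a2]
    refine one_le_mul_log_sub (by exact_mod_cast hx) (L5_mem_xx a1 a4) (L5_mem_xx a3 a2) ?_
    intro h
    apply hjk
    have h5 : j.2.1 = k.2.1 ∧ j.2.2 = k.2.2 := by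
      have h6 : j.2.1 ∣ k.2.1 * j.2.2 := ⟨_, h.symm⟩
      rcases (a1.1.dvd_mul).mp h6 with h7 | h7
      · have h8 := (Nat.prime_dvd_prime_iff_eq a1.1 a3.1).mp h7
        refine ⟨h8, ?_⟩
        rw [h8] at h
        exact (Nat.eq_of_mul_eq_mul_left a3.1.pos h).symm
      · exact absurd ((Nat.prime_dvd_prime_iff_eq a1.1 a2.1).mp h7) hjne
    have h6 : j.1 = k.1 := hd _ _ j.2.1 hj1 (h5.1 ▸ hk1)
    rcases j with ⟨j1, j2, j3⟩
    rcases k with ⟨k1, k2, k3⟩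
    simp only at h5 h6
    obtain ⟨rfl, rfl⟩ := h5
    subst h6
    rfl

lemma L5w_abs (w : ℝ) {K T : ℝ} (hK : 0 < K) (hm : 0 < m) (hT : 0 < T)
    (hP : ∀ i, ∀ p ∈ P i, p.Prime ∧ p ≤ x) (hx : (x : ℝ) ^ 2 ≤ 2 * T)
    (hd : ∀ i j, ∀ p, p ∈ P i → p ∈ P j → i = j) (hs : ∀ i, 0 < s i)
    (hsum : ∀ i, ∑ p ∈ P i, (1 : ℝ) / p = s i) :
    volume.real {t : ℝ | t ∈ Icc T (2 * T) ∧
      ∀ i, -(L5_N (P i) (s i) (w + t)).re < 1 / (8 * K)} ≤
      Real.pi * T * ((1280 * K ^ 2 + 960) / m + 160 / K ^ 2) := by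
  have hm' : (0 : ℝ) < m := by exact_mod_cast hm
  have hU : 0 < 2 * T := by positivity
  obtain ⟨i1, m1⟩ := L5w_m1 w hP hU hx hd hs hsum
  obtain ⟨i2, m2⟩ := L5w_m2 w Finset.univ hP hU hx hd hs hsum
  obtain ⟨i3, m3⟩ := L5w_m3 w hP hU hx hd hs hsum
  have i4 : ∀ i, Integrable (fun t : ℝ => ‖L5_N (P i) (s i) (w + t) ^ 2‖ ^ 2 *
      fejerW (t / (2 * T))) := by
    intro i
    have := (L5w_m2 w {i} hP hU hx hd hs hsum).1
    simpa only [Finset.sum_singleton] using this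
  have m4 : ∀ i, ∫ t : ℝ, ‖L5_N (P i) (s i) (w + t) ^ 2‖ ^ 2 * fejerW (t / (2 * T)) ≤
      5 * Real.pi * (2 * T) := by
    intro i
    have := (L5w_m2 w {i} hP hU hx hd hs hsum).2
    simpa only [Finset.sum_singleton, Finset.card_singleton, Nat.cast_one, mul_one] using this
  set Φ : ℝ → ℝ := fun t => 256 * K ^ 2 / m ^ 2 * (‖∑ i, L5_N (P i) (s i) (w + t)‖ ^ 2 *
        fejerW (t / (2 * T))) +
      64 / m ^ 2 * (‖((∑ i, (‖L5_N (P i) (s i) (w + t)‖ ^ 2 - 1) : ℝ) : ℂ)‖ ^ 2 *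
        fejerW (t / (2 * T))) +
      64 / m ^ 2 * (‖∑ i, L5_N (P i) (s i) (w + t) ^ 2‖ ^ 2 * fejerW (t / (2 * T))) +
      16 / (K ^ 2 * m) * ∑ i, (‖L5_N (P i) (s i) (w + t) ^ 2‖ ^ 2 * fejerW (t / (2 * T))) with hΦ
  obtain ⟨hint, hval⟩ := L5_int4 (256 * K ^ 2 / m ^ 2) (64 / m ^ 2) (64 / m ^ 2)
    (16 / (K ^ 2 * m)) i1 i3 i2 (integrable_finsetSum Finset.univ fun i _ => i4 i)
  rw [integral_finsetSum _ fun i _ => i4 i] at hval
  have hΦ0 : ∀ t, 0 ≤ Φ t := by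
    intro t
    have := fejerW_nonneg (t / (2 * T))
    simp only [hΦ]
    positivity
  have hle : ∫ t, Φ t ≤ Real.pi * T * ((1280 * K ^ 2 + 960) / m + 160 / K ^ 2) := by
    refine hval.trans_le ?_
    have m4' : ∑ i, ∫ t : ℝ, ‖L5_N (P i) (s i) (w + t) ^ 2‖ ^ 2 * fejerW (t / (2 * T)) ≤
        m * (5 * Real.pi * (2 * T)) := by
      refine (Finset.sum_le_sum fun i _ => m4 i).trans ?_
      simp
    rw [Finset.card_univ, Fintype.card_fin] at m2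
    calc _ ≤ 256 * K ^ 2 / m ^ 2 * (5 / 2 * Real.pi * (2 * T) * m) +
          64 / m ^ 2 * (5 / 2 * Real.pi * (2 * T) * m) + 64 / m ^ 2 * (5 * Real.pi * (2 * T) * m) +
          16 / (K ^ 2 * m) * (m * (5 * Real.pi * (2 * T))) := by gcongr
      _ = _ := by field_simp; ring
  have hmark := mul_meas_ge_le_integral_of_nonneg (μ := volume) (Filter.Eventually.of_forall hΦ0) hint 1
  rw [one_mul] at hmark
  refine le_trans ?_ (hmark.trans hle)
  refine measureReal_mono ?_ (hint.measure_ge_lt_top one_pos).ne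
  rintro t ⟨ht, hbad⟩
  have hw : 1 ≤ fejerW (t / (2 * T)) := by
    apply fejerW_ge_one
    rw [abs_le]
    constructor
    · have : 0 ≤ t / (2 * T) := div_nonneg (hT.le.trans ht.1) hU.le
      linarith
    · rw [div_le_one hU]; exact ht.2
  have hp := L5_pt hK hm (fun i => L5_N (P i) (s i) (w + t)) hbad
  show 1 ≤ Φ t
  have : Φ t = (256 * K ^ 2 / m ^ 2 * ‖∑ i, L5_N (P i) (s i) (w + t)‖ ^ 2 +
      64 / m ^ 2 * ‖((∑ i, (‖L5_N (P i) (s i) (w + t)‖ ^ 2 - 1) : ℝ) : ℂ)‖ ^ 2 +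
      64 / m ^ 2 * ‖∑ i, L5_N (P i) (s i) (w + t) ^ 2‖ ^ 2 +
      16 / (K ^ 2 * m) * ∑ i, ‖L5_N (P i) (s i) (w + t) ^ 2‖ ^ 2) * fejerW (t / (2 * T)) := by
    simp only [hΦ]
    rw [← Finset.sum_mul]
    ring
  rw [this]
  exact one_le_mul_of_one_le_of_one_le hp hw

end fam

/-- L5 in windows: anticoncentration -/
theorem anti_w0 {ε : ℝ} (hε : 0 < ε) : ∃ c : ℝ, 0 < c ∧ ∃ m : ℕ, ∀ a b : Fin m → ℝ,
    (∀ i, 0 < a i) → (∀ i, 8 * a i ≤ b i) → (∀ i, b i ≤ 1 / 8) → (∀ i j, i < j → b j ≤ a i) →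
    ∃ T0 : ℝ, ∀ T : ℝ, T0 ≤ T → ∀ w : ℝ,
      volume.real {t : ℝ | t ∈ Icc T (2 * T) ∧ ∀ i,
        -(Dl T (a i) (b i) (w + t)).re < c * Real.sqrt (sg T (a i) (b i))} ≤ ε * T := by
  obtain ⟨C, hC, hsg⟩ := sg_asymp
  have hpi := Real.pi_pos
  set K : ℝ := Real.sqrt (320 * Real.pi / ε) + 1 with hK
  have hK0 : 0 < K := by positivity
  have hK2 : 320 * Real.pi / ε ≤ K ^ 2 := by
    have h1 : Real.sqrt (320 * Real.pi / ε) ^ 2 = 320 * Real.pi / ε := Real.sq_sqrt (by positivity)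
    calc 320 * Real.pi / ε = Real.sqrt (320 * Real.pi / ε) ^ 2 := h1.symm
      _ ≤ K ^ 2 := pow_le_pow_left₀ (Real.sqrt_nonneg _) (by rw [hK]; linarith) 2
  set m : ℕ := ⌈2 * Real.pi * (1280 * K ^ 2 + 960) / ε⌉₊ + 1 with hm
  have hm0 : 0 < m := Nat.succ_pos _
  have hm1 : (0 : ℝ) < m := by exact_mod_cast hm0
  have hm2 : 2 * Real.pi * (1280 * K ^ 2 + 960) / ε ≤ m := by
    rw [hm]; push_cast
    linarith [Nat.le_ceil (2 * Real.pi * (1280 * K ^ 2 + 960) / ε)]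
  refine ⟨1 / (8 * K), by positivity, m, ?_⟩
  intro a b ha hab hb hij
  refine ⟨2 + ∑ i, Real.exp ((1 + C) / a i), fun T hT w => ?_⟩
  have hexp : ∀ i, Real.exp ((1 + C) / a i) ≤ ∑ i, Real.exp ((1 + C) / a i) := fun i =>
    Finset.single_le_sum (f := fun i => Real.exp ((1 + C) / a i)) (fun _ _ => (Real.exp_pos _).le)
      (Finset.mem_univ i)
  have hsum0 : 0 ≤ ∑ i, Real.exp ((1 + C) / a i) := Finset.sum_nonneg fun _ _ => (Real.exp_pos _).le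
  have hT2 : 2 ≤ T := by linarith
  have hT0 : 0 < T := by linarith
  have hT1 : 1 < T := by linarith
  have hlog : ∀ i, (1 + C) / a i ≤ Real.log T := by
    intro i
    rw [Real.le_log_iff_exp_le hT0]
    linarith [hexp i]
  have hlog' : ∀ i, 1 + C ≤ a i * Real.log T := by
    intro i
    have := hlog i
    rwa [div_le_iff₀ (ha i), mul_comm] at this
  have hspos : ∀ i, 0 < sg T (a i) (b i) := by
    intro i
    have h1 := hsg T (a i) (b i) hT1 (ha i) (by linarith [hab i, ha i]) (by linarith [hlog' i])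
    have h2 : C / (a i * Real.log T) ≤ 1 := by
      rw [div_le_one (by linarith [hlog' i])]
      linarith [hlog' i]
    have h3 : Real.log 8 ≤ Real.log (b i / a i) := by
      refine Real.log_le_log (by norm_num) ?_
      rw [le_div_iff₀ (ha i)]
      exact hab i
    have h4 : 2 < Real.log 8 := by
      rw [show (8:ℝ) = 2 ^ 3 by norm_num, Real.log_pow]
      have := Real.log_two_gt_d9
      push_cast
      linarith
    have h5 := (abs_le.mp (h1.trans h2)).1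
    linarith
  set x : ℕ := ⌊T ^ ((1 : ℝ) / 8)⌋₊ with hx
  have hxT : (x : ℝ) ^ 2 ≤ 2 * T := by
    have h1 : (x : ℝ) ≤ T ^ ((1 : ℝ) / 8) := Nat.floor_le (by positivity)
    calc (x : ℝ) ^ 2 ≤ (T ^ ((1 : ℝ) / 8)) ^ 2 := pow_le_pow_left₀ (Nat.cast_nonneg _) h1 2
      _ = T ^ ((1 : ℝ) / 4) := by rw [← Real.rpow_natCast, ← Real.rpow_mul hT0.le]; norm_num
      _ ≤ T ^ (1 : ℝ) := Real.rpow_le_rpow_of_exponent_le hT1.le (by norm_num)
      _ ≤ 2 * T := by rw [Real.rpow_one]; linarith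
  have hPx : ∀ i, ∀ p ∈ PR T (a i) (b i), p.Prime ∧ p ≤ x := by
    intro i p hp
    unfold PR at hp
    rw [Finset.mem_filter, Finset.mem_Ioc] at hp
    refine ⟨hp.2, hp.1.2.trans ?_⟩
    exact Nat.floor_le_floor (Real.rpow_le_rpow_of_exponent_le hT1.le (hb i))
  have hd : ∀ i j, ∀ p, p ∈ PR T (a i) (b i) → p ∈ PR T (a j) (b j) → i = j := by
    have key : ∀ i j, i < j → ∀ p, p ∈ PR T (a i) (b i) → p ∈ PR T (a j) (b j) → False := by
      intro i j hlt p h1 h2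
      unfold PR at h1 h2
      rw [Finset.mem_filter, Finset.mem_Ioc] at h1 h2
      have h3 : ⌊T ^ b j⌋₊ ≤ ⌊T ^ a i⌋₊ :=
        Nat.floor_le_floor (Real.rpow_le_rpow_of_exponent_le hT1.le (hij i j hlt))
      have := h1.1.1
      have := h2.1.2
      omega
    intro i j p h1 h2
    rcases lt_trichotomy i j with h | h | h
    · exact (key i j h p h1 h2).elim
    · exact h
    · exact (key j i h p h2 h1).elim
  have hmain := L5w_abs w (T := T) hK0 hm0 hT0 hPx hxT hd hspos (fun i => rfl)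
  have hset : {t : ℝ | t ∈ Icc T (2 * T) ∧ ∀ i,
        -(Dl T (a i) (b i) (w + t)).re < 1 / (8 * K) * Real.sqrt (sg T (a i) (b i))} =
      {t : ℝ | t ∈ Icc T (2 * T) ∧ ∀ i,
        -(L5_N (PR T (a i) (b i)) (sg T (a i) (b i)) (w + t)).re < 1 / (8 * K)} := by
    ext t
    simp only [mem_ofPred_eq]
    refine and_congr_right fun _ => forall_congr' fun i => ?_
    have h9 := L5_Dl (hspos i) (w + t)
    rw [h9, Complex.re_ofReal_mul, ← mul_neg, mul_comm (1 / (8 * K))]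
    exact mul_lt_mul_iff_right₀ (Real.sqrt_pos.mpr (hspos i))
  rw [hset]
  refine hmain.trans ?_
  have e1 : Real.pi * ((1280 * K ^ 2 + 960) / m) ≤ ε / 2 := by
    rw [div_le_iff₀ hε] at hm2
    rw [← mul_div_assoc, div_le_iff₀ hm1]
    linarith
  have e2 : Real.pi * (160 / K ^ 2) ≤ ε / 2 := by
    rw [div_le_iff₀ hε] at hK2
    rw [← mul_div_assoc, div_le_iff₀ (by positivity)]
    linarith
  calc Real.pi * T * ((1280 * K ^ 2 + 960) / m + 160 / K ^ 2) =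
      (Real.pi * ((1280 * K ^ 2 + 960) / m) + Real.pi * (160 / K ^ 2)) * T := by ring
    _ ≤ ε * T := by
        refine mul_le_mul_of_nonneg_right ?_ hT0.le
        linarith

/-- translation of a set -/
lemma real_shift (w : ℝ) (A : Set ℝ) : volume.real ((fun t : ℝ => w + t) ⁻¹' A) = volume.real A := by
  unfold Measure.real
  rw [measure_preimage_add]

theorem anti_w {ε : ℝ} (hε : 0 < ε) : ∃ c : ℝ, 0 < c ∧ ∃ m : ℕ, ∀ a b : Fin m → ℝ,
    (∀ i, 0 < a i) → (∀ i, 8 * a i ≤ b i) → (∀ i, b i ≤ 1 / 8) → (∀ i j, i < j → b j ≤ a i) →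
    ∃ T0 : ℝ, ∀ T : ℝ, T0 ≤ T → ∀ y : ℝ,
      volume.real {t : ℝ | t ∈ Icc y (y + T) ∧ ∀ i,
        -(Dl T (a i) (b i) t).re < c * Real.sqrt (sg T (a i) (b i))} ≤ ε * T := by
  obtain ⟨c, hc, m, h⟩ := anti_w0 hε
  refine ⟨c, hc, m, fun a b h1 h2 h3 h4 => ?_⟩
  obtain ⟨T0, hT0⟩ := h a b h1 h2 h3 h4
  refine ⟨T0, fun T hT y => ?_⟩
  have h5 := hT0 T hT (y - T)
  rw [← real_shift (y - T)]
  refine le_of_eq_of_le ?_ h5
  congr 1
  ext t
  simp only [mem_preimage, mem_ofPred_eq, mem_Icc]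
  refine and_congr_left fun _ => ?_
  constructor
  · rintro ⟨h6, h7⟩; constructor <;> linarith
  · rintro ⟨h6, h7⟩; constructor <;> linarith

end Pool.Agent.AHW
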