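import Pool.Agent.ZGap.AH.L6
import Pool.Agent.ZGap.DW.L2
import Pool.Agent.ZGap.DW.L34
import Pool.Agent.ZGap.DW.L5

/-!
# Lower bound for V in shifted windows
-/

open scoped ContDiff

namespace Pool.Agent.AHW

open Complex MeasureTheory Set Filter Topology Pool.Agent.Hadamard Pool.Agent.HalfGap
open Pool.Agent.AHD

/-- one scale -/
lemma L6w_one (c C1 C2 C3 η r b A : ℝ) (hc : 0 < c) (hη : 0 < η) (hr : 0 < r) (hb : 0 < b)
    (hb2 : b ≤ 1 / 2)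
    (H1 : ∀ D : AData, ∃ T0 : ℝ, ∀ T : ℝ, T0 ≤ T → ∀ τ : ℝ,
      1 / 3 ≤ τ → τ ≤ 1 / 2 → ∀ w : ℝ,
      ∫ t in T..(2 * T), ‖XXp D T τ (w + t)‖ ^ 2 ≤ C1 * Real.log (1 / D.ep) * T)
    (H2 : ∀ D : AData, ∀ b : ℝ, 2 * D.ep ≤ b → b ≤ 1 / 2 →
      ∃ T0 : ℝ, ∀ T : ℝ, T0 ≤ T → ∀ τ : ℝ, 1 / 3 ≤ τ → τ ≤ 1 / 2 → ∀ w : ℝ,
      ∫ t in T..(2 * T), ‖XXp D T τ (w + t) - Dl T D.ep b (w + t)‖ ^ 2 ≤
        C2 * (1 + Real.log (Real.log (1 / D.ep)) + Real.log (1 / b)) * T)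
    (H3 : ∀ D : AData, ∃ T0 : ℝ, ∀ T : ℝ, T0 ≤ T → ∀ τ : ℝ,
      1 / 3 ≤ τ → τ ≤ 1 / 2 → ∀ w : ℝ,
      ∫ t in T..(2 * T), ‖Vs D T (ss (alp τ T * Yc D.ep) (w + t)) - Qe D T τ (w + t)‖ ^ 2 ≤
        C3 * D.ep * T) :
    ∃ D : AData, D.ep ≤ r ∧ 8 * D.ep ≤ b ∧ ∃ T0 : ℝ, ∀ T : ℝ, T0 ≤ T → ∀ τ : ℝ,
      1 / 3 ≤ τ → τ ≤ 1 / 2 → ∀ w : ℝ,
      volume.real {t : ℝ | t ∈ Icc T (2 * T) ∧
        c * Real.sqrt (sg T D.ep b) ≤ -(Dl T D.ep b (w + t)).re ∧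
        ‖Vs D T (ss (alp τ T * Yc D.ep) (w + t))‖ ≤ Real.log (1 / D.ep) ^ A} ≤ 3 * η * T := by
  obtain ⟨ℓ, hℓ1, h1, h2, h3, h4, h5, h6, h7, h8⟩ := L6_scale (c := c) (C1 := C1) (C2 := C2)
    (C3 := C3) A hc hη hr hb
  obtain ⟨D, hD⟩ := exists_AData (Real.exp_pos (-ℓ)) h2
  have hlog : Real.log (1 / D.ep) = ℓ := by
    rw [hD, one_div, Real.log_inv, Real.log_exp, neg_neg]
  refine ⟨D, by rw [hD]; exact h1, by rw [hD]; exact h3, ?_⟩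
  obtain ⟨T1, hT1⟩ := H1 D
  obtain ⟨T2, hT2⟩ := H2 D b (by rw [hD]; linarith [Real.exp_pos (-ℓ)]) hb2
  obtain ⟨T3, hT3⟩ := H3 D
  obtain ⟨C, hC, hsg⟩ := sg_asymp
  have hep := D.ep_pos
  refine ⟨max (max T1 T2) (max T3 (max 2 (Real.exp (max (1 / D.ep) (C / D.ep))))), ?_⟩
  intro T hT τ ht1 ht2 w
  simp only [max_le_iff] at hT
  obtain ⟨⟨hTa, hTb⟩, hTc, hTd, hTe⟩ := hT
  have hT0 : 0 < T := by linarith
  have hLT : max (1 / D.ep) (C / D.ep) ≤ Real.log T := (Real.le_log_iff_exp_le hT0).2 hTe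
  have hLT1 : 1 ≤ D.ep * Real.log T := by
    have := (le_max_left _ _).trans hLT
    rw [div_le_iff₀ hep] at this
    linarith
  have hLT2 : C / (D.ep * Real.log T) ≤ 1 := by
    have := (le_max_right _ _).trans hLT
    rw [div_le_iff₀ hep] at this
    rw [div_le_one (by linarith)]
    linarith
  have hebb : D.ep ≤ b := by rw [hD]; linarith [Real.exp_pos (-ℓ)]
  have hs : ℓ / 2 ≤ sg T D.ep b := by
    have h9 := hsg T D.ep b (by linarith) hep hebb hLT1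
    have h10 := (abs_le.1 h9).1
    rw [Real.log_div hb.ne' hep.ne', hD, Real.log_exp] at h10
    rw [hD] at hLT2 ⊢
    linarith
  set s := Real.sqrt (ℓ / 2) with hsdef
  have hspos : 0 < s := Real.sqrt_pos.2 (by linarith)
  have hJ8 : 8 * ℓ + 8 ≤ Jd D.ep := by
    unfold Jd
    rw [hlog]
    exact Nat.le_ceil _
  have hJ : 8 ≤ Jd D.ep := by
    have : (8 : ℝ) ≤ Jd D.ep := by linarith
    exact_mod_cast this
  -- continuity
  have hcD : Continuous fun t : ℝ => Dl T D.ep b (w + t) := by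
    unfold Dl
    apply continuous_finsetSum
    intro p hp
    have hp0 : (p : ℂ) ≠ 0 := by
      have := (Finset.mem_filter.1 hp).2.ne_zero
      exact_mod_cast this
    apply Continuous.const_cpow
    · fun_prop
    · left; exact hp0
  have hcX : Continuous fun t : ℝ => XXp D T τ (w + t) := by
    unfold XXp
    apply continuous_finsetSum
    intro p hp
    have hp0 : (p : ℂ) ≠ 0 := by
      have := (Finset.mem_filter.1 hp).2.ne_zero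
      exact_mod_cast this
    apply Continuous.mul continuous_const
    apply Continuous.const_cpow
    · unfold ss; fun_prop
    · left; exact hp0
  have hcQ : Continuous fun t : ℝ => Qe D T τ (w + t) := by
    unfold Qe
    apply continuous_finsetSum
    intro j _
    exact ((hcX.neg).pow j).div_const _
  have hcV : Continuous fun t : ℝ => Vs D T (ss (alp τ T * Yc D.ep) (w + t)) := by
    unfold Vs
    apply continuous_finsetSum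
    intro n hn
    have hp0 : (n : ℂ) ≠ 0 := by
      have := (Finset.mem_Icc.1 hn).1
      have h0 : n ≠ 0 := by omega
      exact_mod_cast h0
    apply Continuous.mul continuous_const
    apply Continuous.const_cpow
    · unfold ss; fun_prop
    · left; exact hp0
  have m1 := L6_cheb (hcX.sub hcD) (lam := c / 4 * s) (η := η) hT0.le (by positivity)
    (hT2 T hTb τ ht1 ht2 w) (by rw [hlog]; exact h4)
  have m2 := L6_cheb hcX (lam := (Jd D.ep : ℝ) / 8) (η := η) hT0.le (by positivity)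
    (hT1 T hTa τ ht1 ht2 w) (by
      rw [hlog]
      have : ℓ * ℓ ≤ ((Jd D.ep : ℝ) / 8) ^ 2 := by nlinarith
      calc C1 * ℓ ≤ (η * ℓ) * ℓ := by gcongr
        _ = η * (ℓ * ℓ) := by ring
        _ ≤ _ := by gcongr)
  have m3 := L6_cheb (hcV.sub hcQ) (lam := 1) (η := η) hT0.le (by norm_num)
    (hT3 T hTc τ ht1 ht2 w) (by rw [hD]; simpa using h6)
  simp only [Pi.sub_apply] at m1 m3
  have hsub : {t : ℝ | t ∈ Icc T (2 * T) ∧ c * Real.sqrt (sg T D.ep b) ≤ -(Dl T D.ep b (w + t)).re ∧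
      ‖Vs D T (ss (alp τ T * Yc D.ep) (w + t))‖ ≤ Real.log (1 / D.ep) ^ A} ⊆
      ({t : ℝ | t ∈ Icc T (2 * T) ∧ c / 4 * s < ‖XXp D T τ (w + t) - Dl T D.ep b (w + t)‖} ∪
       {t : ℝ | t ∈ Icc T (2 * T) ∧ (Jd D.ep : ℝ) / 8 < ‖XXp D T τ (w + t)‖}) ∪
       {t : ℝ | t ∈ Icc T (2 * T) ∧
        1 < ‖Vs D T (ss (alp τ T * Yc D.ep) (w + t)) - Qe D T τ (w + t)‖} := by
    rintro t ⟨ht, hA, hB⟩
    by_contra hcon
    simp only [mem_union, mem_ofPred_eq, ht, true_and, not_or, not_lt] at hcon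
    obtain ⟨⟨q1, q2⟩, q3⟩ := hcon
    have q4 : c * s ≤ -(Dl T D.ep b (w + t)).re := by
      refine le_trans ?_ hA
      rw [hsdef]
      gcongr
    have := L6_det (M := ℓ ^ A) hJ q1 q2 q3 q4 h7
    rw [hlog] at hB
    linarith
  have hfin : ∀ P : ℝ → Prop, volume {t : ℝ | t ∈ Icc T (2 * T) ∧ P t} ≠ ⊤ := fun P =>
    ((measure_mono (fun t ht => ht.1)).trans_lt
      (by simp : volume (Icc T (2 * T)) < ⊤)).ne
  refine (measureReal_mono hsub ?_).trans ?_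
  · exact (measure_union_lt_top (measure_union_lt_top (hfin _).lt_top (hfin _).lt_top)
      (hfin _).lt_top).ne
  · refine (measureReal_union_le _ _).trans ?_
    have := measureReal_union_le (μ := volume)
      {t : ℝ | t ∈ Icc T (2 * T) ∧ c / 4 * s < ‖XXp D T τ (w + t) - Dl T D.ep b (w + t)‖}
       {t : ℝ | t ∈ Icc T (2 * T) ∧ (Jd D.ep : ℝ) / 8 < ‖XXp D T τ (w + t)‖}
    linarith

theorem lower_w0 {ε : ℝ} (hε : 0 < ε) : ∃ m : ℕ, ∀ A r : ℝ, 0 < A → 0 < r →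
    ∃ Dl : Fin m → AData, (∀ i, (Dl i).ep ≤ r) ∧ ∀ τ : ℝ, 1 / 3 ≤ τ → τ ≤ 1 / 2 →
      ∃ T0 : ℝ, ∀ T : ℝ, T0 ≤ T → ∀ w : ℝ,
        volume.real {t : ℝ | t ∈ Icc (5 * T / 4) (7 * T / 4) ∧ ∀ i,
          ‖Vs (Dl i) T (ss (alp τ T * Yc (Dl i).ep) (w + t))‖ ≤ Real.log (1 / (Dl i).ep) ^ A} ≤
          ε * T := by
  obtain ⟨c, hc, m, hanti⟩ := anti_w0 (ε := ε / 4) (by positivity)
  refine ⟨m, fun A r hA hr => ?_⟩
  obtain ⟨C1, hC1, H1'⟩ := XXp_sq_w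
  obtain ⟨C2, hC2, H2'⟩ := XXp_sub_w
  obtain ⟨C3, hC3, H3'⟩ := exp_approx_w
  have hsh : ∀ (f : ℝ → ℝ) (T w : ℝ), ∫ t in T..(2 * T), f (w + t) =
      ∫ t in (w + T)..(w + T + T), f t := by
    intro f T w
    rw [intervalIntegral.integral_comp_add_left]
    congr 1
    ring
  have H1 : ∀ D : AData, ∃ T0 : ℝ, ∀ T : ℝ, T0 ≤ T → ∀ τ : ℝ,
      1 / 3 ≤ τ → τ ≤ 1 / 2 → ∀ w : ℝ,
      ∫ t in T..(2 * T), ‖XXp D T τ (w + t)‖ ^ 2 ≤ C1 * Real.log (1 / D.ep) * T := by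
    intro D
    obtain ⟨T0, h⟩ := H1' D
    refine ⟨T0, fun T hT τ h1 h2 w => ?_⟩
    rw [hsh (fun t => ‖XXp D T τ t‖ ^ 2)]
    exact h T hT τ h1 h2 (w + T)
  have H2 : ∀ D : AData, ∀ b : ℝ, 2 * D.ep ≤ b → b ≤ 1 / 2 →
      ∃ T0 : ℝ, ∀ T : ℝ, T0 ≤ T → ∀ τ : ℝ, 1 / 3 ≤ τ → τ ≤ 1 / 2 → ∀ w : ℝ,
      ∫ t in T..(2 * T), ‖XXp D T τ (w + t) - Dl T D.ep b (w + t)‖ ^ 2 ≤
        C2 * (1 + Real.log (Real.log (1 / D.ep)) + Real.log (1 / b)) * T := by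
    intro D b hb1 hb2
    obtain ⟨T0, h⟩ := H2' D b hb1 hb2
    refine ⟨T0, fun T hT τ h1 h2 w => ?_⟩
    rw [hsh (fun t => ‖XXp D T τ t - Dl T D.ep b t‖ ^ 2)]
    exact h T hT τ h1 h2 (w + T)
  have H3 : ∀ D : AData, ∃ T0 : ℝ, ∀ T : ℝ, T0 ≤ T → ∀ τ : ℝ,
      1 / 3 ≤ τ → τ ≤ 1 / 2 → ∀ w : ℝ,
      ∫ t in T..(2 * T), ‖Vs D T (ss (alp τ T * Yc D.ep) (w + t)) - Qe D T τ (w + t)‖ ^ 2 ≤
        C3 * D.ep * T := by
    intro D
    obtain ⟨T0, h⟩ := H3' D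
    refine ⟨T0, fun T hT τ h1 h2 w => ?_⟩
    rw [hsh (fun t => ‖Vs D T (ss (alp τ T * Yc D.ep) t) - Qe D T τ t‖ ^ 2)]
    exact h T hT τ h1 h2 (w + T)
  set η : ℝ := ε / (4 * (m + 1)) with hη
  have hηpos : 0 < η := by positivity
  have hone : ∀ b : ℝ, ∃ D : AData, 0 < b → b ≤ 1 / 8 → D.ep ≤ r ∧ 8 * D.ep ≤ b ∧
      ∃ T0 : ℝ, ∀ T : ℝ, T0 ≤ T → ∀ τ : ℝ, 1 / 3 ≤ τ → τ ≤ 1 / 2 → ∀ w : ℝ,
      volume.real {t : ℝ | t ∈ Icc T (2 * T) ∧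
        c * Real.sqrt (sg T D.ep b) ≤ -(Dl T D.ep b (w + t)).re ∧
        ‖Vs D T (ss (alp τ T * Yc D.ep) (w + t))‖ ≤ Real.log (1 / D.ep) ^ A} ≤ 3 * η * T := by
    intro b
    by_cases hb : 0 < b ∧ b ≤ 1 / 8
    · obtain ⟨D, hD⟩ := L6w_one c C1 C2 C3 η r b A hc hηpos hr hb.1 (by linarith [hb.2]) H1 H2 H3
      exact ⟨D, fun _ _ => hD⟩
    · obtain ⟨D, _⟩ := exists_AData (ep := 1 / 100) (by norm_num) le_rfl
      exact ⟨D, fun h1 h2 => absurd ⟨h1, h2⟩ hb⟩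
  choose g hg using hone
  -- the scales
  let E : ℕ → ℝ := fun n => Nat.rec (1 / 8) (fun _ x => (g x).ep) n
  have E0 : E 0 = 1 / 8 := rfl
  have ES : ∀ n, E (n + 1) = (g (E n)).ep := fun n => rfl
  have hE : ∀ n, 0 < E n ∧ E n ≤ 1 / 8 := by
    intro n
    induction n with
    | zero => rw [E0]; norm_num
    | succ n ih =>
      rw [ES]
      refine ⟨(g (E n)).ep_pos, ?_⟩
      have := (hg (E n) ih.1 ih.2).2.1
      linarith [ih.2, (g (E n)).ep_pos]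
  have hE8 : ∀ n, 8 * E (n + 1) ≤ E n := fun n => by
    rw [ES]; exact (hg (E n) (hE n).1 (hE n).2).2.1
  have hEanti : Antitone E := antitone_nat_of_succ_le fun n => by
    linarith [hE8 n, (hE (n + 1)).1]
  refine ⟨fun i => g (E i), fun i => (hg (E i) (hE i).1 (hE i).2).1, ?_⟩
  intro τ ht1 ht2
  obtain ⟨T0, hT0⟩ := hanti (fun i => E ((i : ℕ) + 1)) (fun i => E (i : ℕ))
    (fun i => (hE ((i : ℕ) + 1)).1) (fun i => hE8 (i : ℕ)) (fun i => (hE (i : ℕ)).2) (fun i j hij => hEanti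
      (show (i : ℕ) + 1 ≤ (j : ℕ) from hij))
  have hTi : ∀ i : Fin m, ∃ T0 : ℝ, ∀ T : ℝ, T0 ≤ T → ∀ w : ℝ,
      volume.real {t : ℝ | t ∈ Icc T (2 * T) ∧
        c * Real.sqrt (sg T (g (E i)).ep (E i)) ≤ -(Dl T (g (E i)).ep (E i) (w + t)).re ∧
        ‖Vs (g (E i)) T (ss (alp τ T * Yc (g (E i)).ep) (w + t))‖ ≤
          Real.log (1 / (g (E i)).ep) ^ A} ≤ 3 * η * T := by
    intro i
    obtain ⟨T1, h⟩ := (hg (E i) (hE i).1 (hE i).2).2.2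
    exact ⟨T1, fun T hT w => h T hT τ ht1 ht2 w⟩
  choose Ti hTi using hTi
  refine ⟨max (max T0 0) (∑ i, |Ti i|), ?_⟩
  intro T hT w
  simp only [max_le_iff] at hT
  obtain ⟨⟨hTa, hTb⟩, hTc⟩ := hT
  have hTTi : ∀ i, Ti i ≤ T := fun i => (le_abs_self _).trans
    ((Finset.single_le_sum (f := fun i => |Ti i|) (fun j _ => abs_nonneg _)
      (Finset.mem_univ i)).trans hTc)
  have hS0 := hT0 T hTa w
  set S0 : Set ℝ := {t : ℝ | t ∈ Icc T (2 * T) ∧ ∀ i : Fin m,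
        -(Dl T (E (i + 1)) (E i) (w + t)).re < c * Real.sqrt (sg T (E (i + 1)) (E i))} with hS0def
  set Si : Fin m → Set ℝ := fun i => {t : ℝ | t ∈ Icc T (2 * T) ∧
        c * Real.sqrt (sg T (g (E i)).ep (E i)) ≤ -(Dl T (g (E i)).ep (E i) (w + t)).re ∧
        ‖Vs (g (E i)) T (ss (alp τ T * Yc (g (E i)).ep) (w + t))‖ ≤
          Real.log (1 / (g (E i)).ep) ^ A} with hSi
  have hsub : {t : ℝ | t ∈ Icc (5 * T / 4) (7 * T / 4) ∧ ∀ i : Fin m,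
      ‖Vs (g (E i)) T (ss (alp τ T * Yc (g (E i)).ep) (w + t))‖ ≤ Real.log (1 / (g (E i)).ep) ^ A} ⊆
      S0 ∪ ⋃ i ∈ (Finset.univ : Finset (Fin m)), Si i := by
    rintro t ⟨ht, hV⟩
    have ht' : t ∈ Icc T (2 * T) := ⟨by linarith [ht.1], by linarith [ht.2]⟩
    by_cases h : t ∈ S0
    · exact Or.inl h
    · right
      have h' : ¬ ∀ i : Fin m,
          -(Dl T (E (i + 1)) (E i) (w + t)).re < c * Real.sqrt (sg T (E (i + 1)) (E i)) := by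
        intro h2
        exact h ⟨ht', h2⟩
      push Not at h'
      obtain ⟨i, hi⟩ := h'
      simp only [mem_iUnion]
      exact ⟨i, Finset.mem_univ _, ht', hi, hV i⟩
  have hfin : ∀ P : ℝ → Prop, volume {t : ℝ | t ∈ Icc T (2 * T) ∧ P t} ≠ ⊤ := fun P =>
    ((measure_mono (fun t ht => ht.1)).trans_lt
      (by simp : volume (Icc T (2 * T)) < ⊤)).ne
  refine (measureReal_mono hsub ?_).trans ?_
  · refine ((measure_mono (union_subset (fun t ht => ht.1) ?_)).trans_lt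
      (by simp : volume (Icc T (2 * T)) < ⊤)).ne
    intro t ht
    simp only [mem_iUnion] at ht
    obtain ⟨i, _, hi⟩ := ht
    exact hi.1
  · refine (measureReal_union_le _ _).trans ?_
    have h1 : volume.real (⋃ i ∈ (Finset.univ : Finset (Fin m)), Si i) ≤ m * (3 * η * T) := by
      refine (measureReal_biUnion_finset_le _ _).trans ?_
      refine (Finset.sum_le_sum (fun i _ => hTi i T (hTTi i) w)).trans ?_
      simp
    have h2 : (m : ℝ) * (3 * η * T) ≤ 3 * ε / 4 * T := by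
      have : (m : ℝ) * η ≤ ε / 4 := by
        rw [hη]
        rw [mul_div_assoc', div_le_div_iff₀ (by positivity) (by norm_num)]
        nlinarith [hε]
      nlinarith
    linarith

theorem lower_w {ε : ℝ} (hε : 0 < ε) : ∃ m : ℕ, ∀ A r : ℝ, 0 < A → 0 < r →
    ∃ Dl : Fin m → AData, (∀ i, (Dl i).ep ≤ r) ∧ ∀ τ : ℝ, 1 / 3 ≤ τ → τ ≤ 1 / 2 →
      ∃ T0 : ℝ, ∀ T : ℝ, T0 ≤ T → ∀ w : ℝ,
        volume.real {t : ℝ | t ∈ Icc (w + 5 * T / 4) (w + 7 * T / 4) ∧ ∀ i,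
          ‖Vs (Dl i) T (ss (alp τ T * Yc (Dl i).ep) t)‖ ≤ Real.log (1 / (Dl i).ep) ^ A} ≤
          ε * T := by
  obtain ⟨m, h⟩ := lower_w0 hε
  refine ⟨m, fun A r hA hr => ?_⟩
  obtain ⟨Dl, h1, h2⟩ := h A r hA hr
  refine ⟨Dl, h1, fun τ ht1 ht2 => ?_⟩
  obtain ⟨T0, h3⟩ := h2 τ ht1 ht2
  refine ⟨T0, fun T hT w => ?_⟩
  have h5 := h3 T hT w
  rw [← real_shift w]
  refine le_of_eq_of_le ?_ h5
  congr 1
  ext t
  simp only [mem_preimage, mem_ofPred_eq, mem_Icc]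
  refine and_congr_left fun _ => ?_
  constructor
  · rintro ⟨h6, h7⟩; constructor <;> linarith
  · rintro ⟨h6, h7⟩; constructor <;> linarith

end Pool.Agent.AHW
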