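import Pool.Agent.ZGap.AH.Fb3
import Pool.Agent.ZGap.DW.Defs

/-!
# The pointwise inequality of the contour argument, general height
-/

open scoped ContDiff

namespace Pool.Agent.AHW

open Complex MeasureTheory Set Pool.Agent.Hadamard Pool.Agent.HalfGap Pool.Agent.AHD

noncomputable def Kd1 (D : AData) (Y σ T t : ℝ) : ℝ :=
  ∫ b in (bz D σ)..(2 * Y + 1),
    ‖Ds D σ T (ss (-(alp σ T * max b (bz D σ))) t)‖ * Real.exp (-(2 * c0 D σ * b))

noncomputable def Kd2 (D : AData) (Y σ T t : ℝ) : ℝ :=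
  ∫ b in (bz D σ)..(2 * Y + 1), ‖Ds D σ T (ss (alp σ T * max b (bz D σ)) t)‖

noncomputable def Kv0 (D : AData) (_Y σ T t : ℝ) : ℝ :=
  ∫ b in (-bz D σ)..(bz D σ), (‖Vs D T (ss (-(alp σ T * b)) (t + alp σ T))‖ +
    ‖Vs D T (ss (-(alp σ T * b)) t)‖)

noncomputable def Kv1 (D : AData) (Y σ T t : ℝ) : ℝ :=
  ∫ b in (2 * Y)..(2 * Y + 1),
    ‖Vs D T (ss (-(alp σ T * b)) t)‖ * Real.exp (-(2 * c0 D σ * b))

noncomputable def Kv2 (D : AData) (Y σ T t : ℝ) : ℝ :=
  ∫ b in (2 * Y)..(2 * Y + 1), ‖Vs D T (ss (alp σ T * b) t)‖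

/-- the function of the height which controls everything -/
noncomputable def Kf (D : AData) (Y σ T t : ℝ) : ℝ :=
  Kd1 D Y σ T t + Kd2 D Y σ T t + Kv0 D Y σ T t +
    Real.exp (-(2 * Real.pi * Y)) * (Kv1 D Y σ T t + Kv2 D Y σ T t)

variable {D : AData} {Y σ τ T : ℝ}

lemma bz_pos_w (hσ : 0 < σ) : 0 < bz D σ := by
  unfold bz
  have := D.ep_pos
  have := Real.pi_pos
  positivity

lemma c0_nonneg_w (hσ : 0 < σ) : 0 ≤ c0 D σ := by
  unfold c0
  have := D.ep_le
  have := Real.pi_pos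
  have h : 0 ≤ 1 - D.ep := by linarith
  positivity

lemma Kd1_nonneg (hb : bz D σ ≤ 2 * Y + 1) (t : ℝ) : 0 ≤ Kd1 D Y σ T t :=
  intervalIntegral.integral_nonneg hb fun b _ => by positivity

lemma Kd2_nonneg (hb : bz D σ ≤ 2 * Y + 1) (t : ℝ) : 0 ≤ Kd2 D Y σ T t :=
  intervalIntegral.integral_nonneg hb fun b _ => by positivity

lemma Kv0_nonneg (hb : 0 ≤ bz D σ) (t : ℝ) : 0 ≤ Kv0 D Y σ T t :=
  intervalIntegral.integral_nonneg (by linarith) fun b _ => by positivity

lemma Kv1_nonneg (t : ℝ) : 0 ≤ Kv1 D Y σ T t :=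
  intervalIntegral.integral_nonneg (by linarith) fun b _ => by positivity

lemma Kv2_nonneg (t : ℝ) : 0 ≤ Kv2 D Y σ T t :=
  intervalIntegral.integral_nonneg (by linarith) fun b _ => by positivity

/-! ### continuity in the height -/

lemma max_bz_ne_w (hσ : 0 < σ) (hT : 0 < alp σ T) (b : ℝ) :
    alp σ T * max b (bz D σ) ≠ 0 := by
  have h1 : 0 < max b (bz D σ) := lt_max_of_lt_right (bz_pos_w hσ)
  positivity

lemma Kd1_continuous (hRH : RiemannHypothesis) (hσ : 0 < σ) (hT : 0 < alp σ T) :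
    Continuous (Kd1 D Y σ T) := by
  unfold Kd1
  have h := Ds_continuous hRH D σ T (g := fun b => -(alp σ T * max b (bz D σ))) (by fun_prop)
    (fun b => neg_ne_zero.mpr (max_bz_ne_w hσ hT b))
  have h2 : Continuous fun p : ℝ × ℝ => Real.exp (-(2 * c0 D σ * p.2)) := by fun_prop
  exact cont_int (h.mul h2) _ _

lemma Kd2_continuous (hRH : RiemannHypothesis) (hσ : 0 < σ) (hT : 0 < alp σ T) :
    Continuous (Kd2 D Y σ T) := by
  unfold Kd2
  have h := Ds_continuous hRH D σ T (g := fun b => (alp σ T * max b (bz D σ))) (by fun_prop)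
    (fun b => (max_bz_ne_w hσ hT b))
  exact cont_int h _ _

lemma Kv0_continuous : Continuous (Kv0 D Y σ T) := by
  unfold Kv0
  apply cont_int
  have h := Vs_continuous D T
  have h2 : Continuous fun p : ℝ × ℝ => ss (-(alp σ T * p.2)) (p.1 + alp σ T) := by
    unfold ss; fun_prop
  have h3 : Continuous fun p : ℝ × ℝ => ss (-(alp σ T * p.2)) p.1 := by
    unfold ss; fun_prop
  exact (h.comp h2).norm.add (h.comp h3).norm

lemma Kv1_continuous : Continuous (Kv1 D Y σ T) := by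
  unfold Kv1
  apply cont_int
  have h := Vs_continuous D T
  have h3 : Continuous fun p : ℝ × ℝ => ss (-(alp σ T * p.2)) p.1 := by
    unfold ss; fun_prop
  exact (h.comp h3).norm.mul (by fun_prop)

lemma Kv2_continuous : Continuous (Kv2 D Y σ T) := by
  unfold Kv2
  apply cont_int
  have h := Vs_continuous D T
  have h3 : Continuous fun p : ℝ × ℝ => ss (alp σ T * p.2) p.1 := by
    unfold ss; fun_prop
  exact (h.comp h3).norm

lemma Kf_continuous (hRH : RiemannHypothesis) (hσ : 0 < σ) (hT : 0 < alp σ T) :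
    Continuous (Kf D Y σ T) := by
  unfold Kf
  have h1 := Kd1_continuous (D := D) (Y := Y) hRH hσ hT
  have h2 := Kd2_continuous (D := D) (Y := Y) hRH hσ hT
  have h3 := Kv0_continuous (D := D) (Y := Y) (σ := σ) (T := T)
  have h4 := Kv1_continuous (D := D) (Y := Y) (σ := σ) (T := T)
  have h5 := Kv2_continuous (D := D) (Y := Y) (σ := σ) (T := T)
  fun_prop

lemma Kf_nonneg (hσ : 0 < σ) (hb : bz D σ ≤ 2 * Y + 1) (t : ℝ) : 0 ≤ Kf D Y σ T t := by
  unfold Kf
  have h1 := Kd1_nonneg (Y := Y) (T := T) hb t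
  have h2 := Kd2_nonneg (Y := Y) (T := T) hb t
  have h3 := Kv0_nonneg (Y := Y) (T := T) (bz_pos_w (D := D) hσ).le t
  have h4 := Kv1_nonneg (D := D) (Y := Y) (σ := σ) (T := T) t
  have h5 := Kv2_nonneg (D := D) (Y := Y) (σ := σ) (T := T) t
  positivity

lemma Gb3_exp {D : AData} {σ τ Y : ℝ}
    (hc : 0 ≤ Real.pi - c0 D σ - Real.pi * τ ∧ Real.pi - c0 D σ - Real.pi * τ ≤ Real.pi * D.ep)
    (h10 : 10 * Y * D.ep ≤ 1) (hY : 1 ≤ Y) {b : ℝ} (hb : 0 ≤ b) :
    (Y - b) * (Real.pi - c0 D σ - Real.pi * τ) ≤ 1 := by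
  obtain ⟨h1, h2⟩ := hc
  have h3 : (Y - b) * (Real.pi - c0 D σ - Real.pi * τ) ≤
      Y * (Real.pi - c0 D σ - Real.pi * τ) :=
    mul_le_mul_of_nonneg_right (by linarith) h1
  have h4 : Y * (Real.pi - c0 D σ - Real.pi * τ) ≤ Y * (Real.pi * D.ep) :=
    mul_le_mul_of_nonneg_left h2 (by linarith)
  have h5 : Y * (Real.pi * D.ep) = Real.pi * (Y * D.ep) := by ring
  have h6 : Y * D.ep ≤ 1 / 10 := by linarith
  have h7 : Real.pi * (Y * D.ep) ≤ Real.pi * (1 / 10) :=
    mul_le_mul_of_nonneg_left h6 Real.pi_pos.le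
  have h8 := Real.pi_le_four
  linarith

lemma Gb3_key {D : AData} {σ τ : ℝ} {Y : ℝ}
    (hexp : ∀ b, 0 ≤ b → (Y - b) * (Real.pi - c0 D σ - Real.pi * τ) ≤ 1) {b R N X V : ℝ}
    (hX : X ≤ Real.exp R * Real.exp (-(Real.pi * τ * (Y - |b|))) * N) (hN : 0 ≤ N) (hV : 0 ≤ V) :
    Real.exp (-(c0 D σ * b)) * (X * V) * Real.exp (-(Real.pi * |b|)) ≤
      N * Real.exp (c0 D σ * Y - Real.pi * Y) * Real.exp (R + 1) *
        (V * Real.exp (-(2 * c0 D σ * max b 0))) := by
  have h1 := hexp |b| (abs_nonneg b)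
  have h2 : 2 * max b 0 - b = |b| := by
    rcases le_total 0 b with h | h
    · rw [max_eq_left h, abs_of_nonneg h]; ring
    · rw [max_eq_right h, abs_of_nonpos h]; ring
  have h3 : c0 D σ * (2 * max b 0 - b) = c0 D σ * |b| := by rw [h2]
  have h4 : -(c0 D σ * b) + R + -(Real.pi * τ * (Y - |b|)) + -(Real.pi * |b|) ≤
      (c0 D σ * Y - Real.pi * Y) + (R + 1) + -(2 * c0 D σ * max b 0) := by
    nlinarith
  calc Real.exp (-(c0 D σ * b)) * (X * V) * Real.exp (-(Real.pi * |b|))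
      ≤ Real.exp (-(c0 D σ * b)) * ((Real.exp R * Real.exp (-(Real.pi * τ * (Y - |b|))) * N) * V) *
          Real.exp (-(Real.pi * |b|)) := by gcongr
    _ = N * V * Real.exp (-(c0 D σ * b) + R + -(Real.pi * τ * (Y - |b|)) + -(Real.pi * |b|)) := by
        rw [Real.exp_add, Real.exp_add, Real.exp_add]; ring
    _ ≤ N * V * Real.exp ((c0 D σ * Y - Real.pi * Y) + (R + 1) + -(2 * c0 D σ * max b 0)) := by
        gcongr
    _ = _ := by
        rw [Real.exp_add, Real.exp_add]; ring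

section

variable {D : AData} {Y σ τ T : ℝ}

lemma Gb3_cont2 : Continuous fun p : ℝ × ℝ =>
    ‖pz D σ T (p.1 + p.2 * I + 1) + pz D σ T (p.1 + p.2 * I)‖ *
      Real.exp (-(Real.pi * |p.2|)) := by
  have h := (pz_differentiable D σ T).continuous
  have h1 : Continuous fun p : ℝ × ℝ => (p.1 + p.2 * I + 1 : ℂ) := by fun_prop
  have h2 : Continuous fun p : ℝ × ℝ => (p.1 + p.2 * I : ℂ) := by fun_prop
  exact ((h.comp h1).add (h.comp h2)).norm.mul (by fun_prop)

lemma Gb3_contp : Continuous fun p : ℝ × ℝ =>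
    ‖pz D σ T (p.1 + p.2 * I)‖ * Real.exp (-(Real.pi * p.2)) := by
  have h := (pz_differentiable D σ T).continuous
  have h2 : Continuous fun p : ℝ × ℝ => (p.1 + p.2 * I : ℂ) := by fun_prop
  exact (h.comp h2).norm.mul (by fun_prop)

lemma Gb3_contm : Continuous fun p : ℝ × ℝ =>
    ‖pz D σ T (p.1 - p.2 * I)‖ * Real.exp (-(Real.pi * p.2)) := by
  have h := (pz_differentiable D σ T).continuous
  have h2 : Continuous fun p : ℝ × ℝ => (p.1 - p.2 * I : ℂ) := by fun_prop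
  exact (h.comp h2).norm.mul (by fun_prop)

lemma Gb3_slice {f : ℝ → ℝ → ℝ} (hf : Continuous fun p : ℝ × ℝ => f p.1 p.2) (a : ℝ) :
    Continuous fun b => f a b :=
  hf.comp (by fun_prop : Continuous fun b : ℝ => ((a, b) : ℝ × ℝ))

lemma Gb3_c1 (hRH : RiemannHypothesis) (hσ : 0 < σ) (hA : 0 < alp σ T) (t : ℝ) :
    Continuous fun b : ℝ => ‖Ds D σ T (ss (-(alp σ T * max b (bz D σ))) t)‖ *
      Real.exp (-(2 * c0 D σ * b)) := by
  have h := Gb3_slice (f := fun t b : ℝ => ‖Ds D σ T (ss (-(alp σ T * max b (bz D σ))) t)‖)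
    (Ds_continuous hRH D σ T (g := fun b => -(alp σ T * max b (bz D σ))) (by fun_prop)
      (fun b => neg_ne_zero.mpr (max_bz_ne_w hσ hA b))) t
  exact h.mul (by fun_prop)

lemma Gb3_c2 (hRH : RiemannHypothesis) (hσ : 0 < σ) (hA : 0 < alp σ T) (t : ℝ) :
    Continuous fun b : ℝ => ‖Ds D σ T (ss (alp σ T * max b (bz D σ)) t)‖ :=
  Gb3_slice (f := fun t b : ℝ => ‖Ds D σ T (ss (alp σ T * max b (bz D σ)) t)‖)
    (Ds_continuous hRH D σ T (g := fun b => (alp σ T * max b (bz D σ))) (by fun_prop)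
      (fun b => (max_bz_ne_w hσ hA b))) t

lemma Gb3_c3 (t : ℝ) : Continuous fun b : ℝ => (‖Vs D T (ss (-(alp σ T * b)) (t + alp σ T))‖ +
    ‖Vs D T (ss (-(alp σ T * b)) t)‖) := by
  have hVc := Vs_continuous D T
  have h2 : Continuous fun b : ℝ => ss (-(alp σ T * b)) (t + alp σ T) := by
    unfold ss; fun_prop
  have h3 : Continuous fun b : ℝ => ss (-(alp σ T * b)) t := by
    unfold ss; fun_prop
  exact (hVc.comp h2).norm.add (hVc.comp h3).norm

lemma Gb3_c4 (t : ℝ) : Continuous fun b : ℝ => ‖Vs D T (ss (-(alp σ T * b)) t)‖ *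
    Real.exp (-(2 * c0 D σ * b)) := by
  have hVc := Vs_continuous D T
  have h3 : Continuous fun b : ℝ => ss (-(alp σ T * b)) t := by
    unfold ss; fun_prop
  exact (hVc.comp h3).norm.mul (by fun_prop)

lemma Gb3_c5 (t : ℝ) : Continuous fun b : ℝ => ‖Vs D T (ss (alp σ T * b) t)‖ := by
  have hVc := Vs_continuous D T
  have h3 : Continuous fun b : ℝ => ss (alp σ T * b) t := by
    unfold ss; fun_prop
  exact (hVc.comp h3).norm

/-- the inequality for fixed `a` -/
lemma Gb3_fix (hRH : RiemannHypothesis) (hσ : 0 < σ) (hA : 0 < alp σ T)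
    (hbY : bz D σ ≤ 2 * Y) (hY : 1 ≤ Y)
    (hexp : ∀ b, 0 ≤ b → (Y - b) * (Real.pi - c0 D σ - Real.pi * τ) ≤ 1)
    {R N a : ℝ} (hN : 0 ≤ N)
    (h1 : ∀ b, |b| ≤ 2 * Y + 1 → ‖xiF (ss (-(alp σ T * b)) (alp σ T * a))‖ ≤
      Real.exp R * Real.exp (-(Real.pi * τ * (Y - |b|))) * N)
    (h2 : ∀ b, |b| ≤ 2 * Y + 1 → ‖xiF (ss (-(alp σ T * b)) (alp σ T * a + alp σ T))‖ ≤
      Real.exp R * Real.exp (-(Real.pi * τ * (Y - |b|))) * N) :
    (∫ b in (-(2 * Y + 1))..(2 * Y + 1),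
          ‖pz D σ T (a + b * I + 1) + pz D σ T (a + b * I)‖ * Real.exp (-(Real.pi * |b|))) +
      Real.exp (-(2 * Real.pi * Y)) *
        ((∫ b in (2 * Y)..(2 * Y + 1),
            ‖pz D σ T (a + b * I)‖ * Real.exp (-(Real.pi * b))) +
            ∫ b in (2 * Y)..(2 * Y + 1),
              ‖pz D σ T (a - b * I)‖ * Real.exp (-(Real.pi * b))) ≤
      N * Real.exp (c0 D σ * Y - Real.pi * Y) * Real.exp (R + 1) *
        Kf D Y σ T (alp σ T * a) := by
  set K := N * Real.exp (c0 D σ * Y - Real.pi * Y) * Real.exp (R + 1) with hK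
  have hK0 : 0 ≤ K := by rw [hK]; positivity
  have hbz := bz_pos_w (D := D) hσ
  have hc := c0_nonneg_w (D := D) hσ
  set f : ℝ → ℝ := fun b => ‖pz D σ T (a + b * I + 1) + pz D σ T (a + b * I)‖ *
    Real.exp (-(Real.pi * |b|)) with hf
  have hfc : Continuous f := Gb3_slice (f := fun a b : ℝ =>
    ‖pz D σ T (a + b * I + 1) + pz D σ T (a + b * I)‖ * Real.exp (-(Real.pi * |b|))) Gb3_cont2 a
  have hfi : ∀ x y : ℝ, IntervalIntegrable f volume x y := fun x y => hfc.intervalIntegrable x y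
  have hVc := Vs_continuous D T
  -- splitting
  have hsplit : ∫ b in (-(2 * Y + 1))..(2 * Y + 1), f b =
      (∫ b in (bz D σ)..(2 * Y + 1), f (-b)) + (∫ b in (-bz D σ)..(bz D σ), f b) +
        ∫ b in (bz D σ)..(2 * Y + 1), f b := by
    rw [intervalIntegral.integral_comp_neg,
      intervalIntegral.integral_add_adjacent_intervals (hfi _ _) (hfi _ _),
      intervalIntegral.integral_add_adjacent_intervals (hfi _ _) (hfi _ _)]
  -- pointwise bounds
  have hD1 : ∀ b ∈ Icc (bz D σ) (2 * Y + 1), f b ≤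
      K * (‖Ds D σ T (ss (-(alp σ T * max b (bz D σ))) (alp σ T * a))‖ *
        Real.exp (-(2 * c0 D σ * b))) := by
    intro b hb
    have hb0 : 0 < b := hbz.trans_le hb.1
    have hx : xiF (ss (-(alp σ T * b)) (alp σ T * a)) ≠ 0 :=
      xi_ss_ne hRH (neg_ne_zero.mpr (by positivity)) _
    have e1 := pz_add (D := D) a b hx
    have e2 := Gb3_key (D := D) hexp (h1 b (by rw [abs_of_pos hb0]; exact hb.2)) hN
      (norm_nonneg (Ds D σ T (ss (-(alp σ T * b)) (alp σ T * a))))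
    rw [max_eq_left hb0.le] at e2
    rw [max_eq_left hb.1]
    simp only [hf]
    rw [e1]
    exact e2
  have hD2 : ∀ b ∈ Icc (bz D σ) (2 * Y + 1), f (-b) ≤
      K * ‖Ds D σ T (ss (alp σ T * max b (bz D σ)) (alp σ T * a))‖ := by
    intro b hb
    have hb0 : 0 < b := hbz.trans_le hb.1
    have hx : xiF (ss (-(alp σ T * (-b))) (alp σ T * a)) ≠ 0 :=
      xi_ss_ne hRH (neg_ne_zero.mpr (by
        have : alp σ T * b ≠ 0 := by positivity
        simpa using this)) _
    have e1 := pz_add (D := D) a (-b) hx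
    have e2 := Gb3_key (D := D) hexp (h1 (-b) (by rw [abs_neg, abs_of_pos hb0]; exact hb.2)) hN
      (norm_nonneg (Ds D σ T (ss (-(alp σ T * (-b))) (alp σ T * a))))
    rw [max_eq_right (by linarith : -b ≤ 0), mul_zero, neg_zero, Real.exp_zero, mul_one] at e2
    rw [max_eq_left hb.1]
    simp only [hf]
    rw [e1]
    have e3 : ss (-(alp σ T * (-b))) (alp σ T * a) = ss (alp σ T * b) (alp σ T * a) := by
      rw [mul_neg, neg_neg]
    rw [e3] at e2 ⊢
    exact e2
  have hV0 : ∀ b ∈ Icc (-bz D σ) (bz D σ), f b ≤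
      K * (‖Vs D T (ss (-(alp σ T * b)) (alp σ T * a + alp σ T))‖ +
        ‖Vs D T (ss (-(alp σ T * b)) (alp σ T * a))‖) := by
    intro b hb
    have hb1 : |b| ≤ 2 * Y + 1 := by
      have := abs_le.mpr ⟨hb.1, hb.2⟩
      linarith
    have e1 := pz_add_le D (τ := σ) (T := T) a b
    have e2 := Gb3_key (D := D) hexp (h1 b hb1) hN
      (norm_nonneg (Vs D T (ss (-(alp σ T * b)) (alp σ T * a))))
    have e3 := Gb3_key (D := D) hexp (h2 b hb1) hN
      (norm_nonneg (Vs D T (ss (-(alp σ T * b)) (alp σ T * a + alp σ T))))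
    have e4 : Real.exp (-(2 * c0 D σ * max b 0)) ≤ 1 := by
      rw [Real.exp_le_one_iff]
      have : 0 ≤ max b 0 := le_max_right _ _
      have : 0 ≤ 2 * c0 D σ * max b 0 := by positivity
      linarith
    have e5 : ∀ v : ℝ, 0 ≤ v → v * Real.exp (-(2 * c0 D σ * max b 0)) ≤ v := fun v hv =>
      mul_le_of_le_one_right hv e4
    have e6 := mul_le_mul_of_nonneg_left
      (e5 _ (norm_nonneg (Vs D T (ss (-(alp σ T * b)) (alp σ T * a))))) hK0
    have e7 := mul_le_mul_of_nonneg_left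
      (e5 _ (norm_nonneg (Vs D T (ss (-(alp σ T * b)) (alp σ T * a + alp σ T))))) hK0
    simp only [hf]
    refine (mul_le_mul_of_nonneg_right e1 (Real.exp_nonneg _)).trans ?_
    have e8 : Real.exp (-(Real.pi * (1 - D.ep) * σ * b)) *
      (‖Vs D T (ss (-(alp σ T * b)) (alp σ T * a + alp σ T))‖ *
        ‖xiF (ss (-(alp σ T * b)) (alp σ T * a + alp σ T))‖ +
        ‖Vs D T (ss (-(alp σ T * b)) (alp σ T * a))‖ *
        ‖xiF (ss (-(alp σ T * b)) (alp σ T * a))‖) * Real.exp (-(Real.pi * |b|)) =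
      Real.exp (-(c0 D σ * b)) * (‖xiF (ss (-(alp σ T * b)) (alp σ T * a + alp σ T))‖ *
        ‖Vs D T (ss (-(alp σ T * b)) (alp σ T * a + alp σ T))‖) * Real.exp (-(Real.pi * |b|)) +
      Real.exp (-(c0 D σ * b)) * (‖xiF (ss (-(alp σ T * b)) (alp σ T * a))‖ *
        ‖Vs D T (ss (-(alp σ T * b)) (alp σ T * a))‖) * Real.exp (-(Real.pi * |b|)) := by
      unfold c0
      ring
    rw [e8]
    have e9 := add_le_add (e3.trans e7) (e2.trans e6)
    rw [← mul_add] at e9
    exact e9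
  have hV1 : ∀ b ∈ Icc (2 * Y) (2 * Y + 1),
      ‖pz D σ T (a + b * I)‖ * Real.exp (-(Real.pi * b)) ≤
      K * (‖Vs D T (ss (-(alp σ T * b)) (alp σ T * a))‖ * Real.exp (-(2 * c0 D σ * b))) := by
    intro b hb
    have hb0 : 0 < b := by linarith [hb.1]
    have e2 := Gb3_key (D := D) hexp (h1 b (by rw [abs_of_pos hb0]; exact hb.2)) hN
      (norm_nonneg (Vs D T (ss (-(alp σ T * b)) (alp σ T * a))))
    rw [max_eq_left hb0.le, abs_of_pos hb0] at e2
    rw [norm_pz, mul_comm ‖Vs D T _‖]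
    exact e2
  have hV2 : ∀ b ∈ Icc (2 * Y) (2 * Y + 1),
      ‖pz D σ T (a - b * I)‖ * Real.exp (-(Real.pi * b)) ≤
      K * ‖Vs D T (ss (alp σ T * b) (alp σ T * a))‖ := by
    intro b hb
    have hb0 : 0 < b := by linarith [hb.1]
    have e2 := Gb3_key (D := D) hexp (h1 (-b) (by rw [abs_neg, abs_of_pos hb0]; exact hb.2)) hN
      (norm_nonneg (Vs D T (ss (-(alp σ T * (-b))) (alp σ T * a))))
    rw [max_eq_right (by linarith : -b ≤ 0), mul_zero, neg_zero, Real.exp_zero, mul_one,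
      abs_neg, abs_of_pos hb0] at e2
    have e0 : (a - b * I : ℂ) = a + ((-b : ℝ) : ℂ) * I := by push_cast; ring
    rw [e0, norm_pz, mul_comm ‖Vs D T _‖]
    have e3 : ss (-(alp σ T * (-b))) (alp σ T * a) = ss (alp σ T * b) (alp σ T * a) := by
      rw [mul_neg, neg_neg]
    rw [e3] at e2 ⊢
    exact e2
  -- integrability of the majorants
  have c1 := Gb3_c1 (D := D) hRH hσ hA (alp σ T * a)
  have c2 := Gb3_c2 (D := D) hRH hσ hA (alp σ T * a)
  have c3 := Gb3_c3 (D := D) (σ := σ) (T := T) (alp σ T * a)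
  have c4 := Gb3_c4 (D := D) (σ := σ) (T := T) (alp σ T * a)
  have c5 := Gb3_c5 (D := D) (σ := σ) (T := T) (alp σ T * a)
  have hle : bz D σ ≤ 2 * Y + 1 := by linarith
  have i1 : ∫ b in (bz D σ)..(2 * Y + 1), f b ≤ K * Kd1 D Y σ T (alp σ T * a) := by
    unfold Kd1
    rw [← intervalIntegral.integral_const_mul]
    exact intervalIntegral.integral_mono_on hle (hfi _ _)
      ((continuous_const.mul c1).intervalIntegrable _ _) hD1
  have i2 : ∫ b in (bz D σ)..(2 * Y + 1), f (-b) ≤ K * Kd2 D Y σ T (alp σ T * a) := by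
    unfold Kd2
    rw [← intervalIntegral.integral_const_mul]
    exact intervalIntegral.integral_mono_on hle
      ((hfc.comp continuous_neg).intervalIntegrable _ _)
      ((continuous_const.mul c2).intervalIntegrable _ _) hD2
  have i3 : ∫ b in (-bz D σ)..(bz D σ), f b ≤ K * Kv0 D Y σ T (alp σ T * a) := by
    unfold Kv0
    rw [← intervalIntegral.integral_const_mul]
    exact intervalIntegral.integral_mono_on (by linarith) (hfi _ _)
      ((continuous_const.mul c3).intervalIntegrable _ _) hV0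
  have i4 : ∫ b in (2 * Y)..(2 * Y + 1),
      ‖pz D σ T (a + b * I)‖ * Real.exp (-(Real.pi * b)) ≤ K * Kv1 D Y σ T (alp σ T * a) := by
    unfold Kv1
    rw [← intervalIntegral.integral_const_mul]
    refine intervalIntegral.integral_mono_on (by linarith) ?_
      ((continuous_const.mul c4).intervalIntegrable _ _) hV1
    exact (Gb3_slice (f := fun a b : ℝ => ‖pz D σ T (a + b * I)‖ * Real.exp (-(Real.pi * b)))
      Gb3_contp a).intervalIntegrable _ _
  have i5 : ∫ b in (2 * Y)..(2 * Y + 1),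
      ‖pz D σ T (a - b * I)‖ * Real.exp (-(Real.pi * b)) ≤ K * Kv2 D Y σ T (alp σ T * a) := by
    unfold Kv2
    rw [← intervalIntegral.integral_const_mul]
    refine intervalIntegral.integral_mono_on (by linarith) ?_
      ((continuous_const.mul c5).intervalIntegrable _ _) hV2
    exact (Gb3_slice (f := fun a b : ℝ => ‖pz D σ T (a - b * I)‖ * Real.exp (-(Real.pi * b)))
      Gb3_contm a).intervalIntegrable _ _
  have i6 := mul_le_mul_of_nonneg_left (add_le_add i4 i5)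
    (Real.exp_nonneg (-(2 * Real.pi * Y)))
  have hfin : ∫ b in (-(2 * Y + 1))..(2 * Y + 1), f b ≤
      K * Kd2 D Y σ T (alp σ T * a) + K * Kv0 D Y σ T (alp σ T * a) + K * Kd1 D Y σ T (alp σ T * a) := by
    rw [hsplit]
    exact add_le_add (add_le_add i2 i3) i1
  refine (add_le_add hfin i6).trans (le_of_eq ?_)
  unfold Kf
  ring

lemma Gb3_int {u v : ℝ} (huv : u ≤ v) {F G H : ℝ → ℝ} (hF : Continuous F) (hG : Continuous G)
    (hH : Continuous H) (c K : ℝ) (h : ∀ a ∈ Icc u v, F a + c * G a ≤ K * H a) :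
    (∫ a in u..v, F a) + c * (∫ a in u..v, G a) ≤ K * ∫ a in u..v, H a := by
  have hcG : Continuous fun a => c * G a := by fun_prop
  have hFG : Continuous fun a => F a + c * G a := by fun_prop
  have hKH : Continuous fun a => K * H a := by fun_prop
  rw [← intervalIntegral.integral_const_mul, ← intervalIntegral.integral_const_mul,
    ← intervalIntegral.integral_add (hF.intervalIntegrable _ _) (hcG.intervalIntegrable _ _)]
  exact intervalIntegral.integral_mono_on huv (hFG.intervalIntegrable _ _)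
    (hKH.intervalIntegrable _ _) h

end

/-- From the contour inequality for `pz` to a bound of `V` at the height `Yc`. -/
theorem Gb_point (hRH : RiemannHypothesis) {D : AData} {Y σ τ T g : ℝ} (hσ : 0 < σ)
    (hσ2 : σ < 1 / 2) (hbz1 : bz D σ ≤ 1)
    (hc : 0 ≤ Real.pi - c0 D σ - Real.pi * τ ∧ Real.pi - c0 D σ - Real.pi * τ ≤ Real.pi * D.ep)
    (hAL : g * alp σ T = Real.pi * τ) (hYc : 2 * σ * Y = Yc D.ep)
    (hL : 0 < Real.log T) (h10 : 10 * Y * D.ep ≤ 1) (hY : 1 ≤ Y) (hYc1 : 1 ≤ Yc D.ep)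
    {J : ℕ} {C e R g1 t0 : ℝ} (hC : 0 < C) (he : 0 < e) (hg : |t0 - g1| ≤ alp σ T / 8)
    (hZ : ‖pz D σ T (((t0 / alp σ T : ℝ) : ℂ) - (Y : ℂ) * I)‖ *
        Real.exp (-(Real.pi * Y)) ≤
      C / e * ((∫ a in (g1 / alp σ T - 2)..(g1 / alp σ T + J + 2),
          ∫ b in (-(2 * Y + 1))..(2 * Y + 1),
          ‖pz D σ T (a + b * I + 1) + pz D σ T (a + b * I)‖ * Real.exp (-(Real.pi * |b|))) +
        Real.exp (-(2 * Real.pi * (2 * Y - Y))) *
          ∫ a in (g1 / alp σ T - 2)..(g1 / alp σ T + J + 2),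
            ((∫ b in (2 * Y)..(2 * Y + 1),
            ‖pz D σ T (a + b * I)‖ * Real.exp (-(Real.pi * b))) +
            ∫ b in (2 * Y)..(2 * Y + 1),
              ‖pz D σ T (a - b * I)‖ * Real.exp (-(Real.pi * b)))))
    (hR : ∀ s : ℂ, |s.re - 1 / 2| ≤ 20 * Yc D.ep / Real.log T →
      |s.im - t0| ≤ 4 * (J + 4) / Real.log T →
        ‖xiF s‖ ≤ Real.exp R * Real.exp (-(g * (alp σ T * Y - |s.re - 1 / 2|))) *
          ‖xiF (ss (alp σ T * Y) t0)‖) :
    ‖Vs D T (ss (alp σ T * Y) t0)‖ ≤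
      C / e * (Real.exp (R + 1) * ∫ a in (-3)..((J : ℝ) + 3), Kf D Y σ T (t0 + alp σ T * a)) := by
  have hpi := Real.pi_pos
  have hpi4 := Real.pi_le_four
  have hep0 := D.ep_pos
  have hep1 := D.ep_le
  have hA : 0 < alp σ T := by unfold alp; positivity
  have hA4 : alp σ T ≤ 4 / Real.log T := by
    unfold alp
    refine div_le_div_of_nonneg_right ?_ hL.le
    nlinarith
  have hexp : ∀ b, 0 ≤ b → (Y - b) * (Real.pi - c0 D σ - Real.pi * τ) ≤ 1 :=
    fun b hb => Gb3_exp hc h10 hY hb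
  have hbz := bz_pos_w (D := D) hσ
  have hbY : bz D σ ≤ 2 * Y := by linarith
  set N := ‖xiF (ss (alp σ T * Y) t0)‖ with hNdef
  have hN : 0 < N := norm_pos_iff.mpr (xi_ss_ne hRH (by positivity) t0)
  have hxi : ∀ t b : ℝ, |t - t0| ≤ 4 * (J + 4) / Real.log T → |b| ≤ 2 * Y + 1 →
      ‖xiF (ss (-(alp σ T * b)) t)‖ ≤
        Real.exp R * Real.exp (-(Real.pi * τ * (Y - |b|))) * N := by
    intro t b ht hb
    have e0 : (ss (-(alp σ T * b)) t).re - 1 / 2 = -(alp σ T * b) := by rw [ss_re]; ring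
    have e1 : |(ss (-(alp σ T * b)) t).re - 1 / 2| = alp σ T * |b| := by
      rw [e0, abs_neg, abs_mul, abs_of_pos hA]
    have h := hR (ss (-(alp σ T * b)) t) (by
      rw [e1]
      have h1 : alp σ T * |b| ≤ alp σ T * (2 * Y + 1) := mul_le_mul_of_nonneg_left hb hA.le
      have h2 : alp σ T * (2 * Y + 1) = (2 * Real.pi * (2 * σ * Y) + 2 * Real.pi * σ) /
          Real.log T := by
        unfold alp
        field_simp
      refine (h1.trans (le_of_eq h2)).trans ?_
      refine div_le_div_of_nonneg_right ?_ hL.le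
      rw [hYc]
      have h3 : Real.pi * σ ≤ Real.pi * (1 / 2) := mul_le_mul_of_nonneg_left hσ2.le hpi.le
      have h4 : Real.pi * Yc D.ep ≤ 4 * Yc D.ep := mul_le_mul_of_nonneg_right hpi4 (by linarith)
      linarith) (by rw [ss_im]; exact ht)
    rw [e1] at h
    have e2 : g * (alp σ T * Y - alp σ T * |b|) =
        Real.pi * τ * (Y - |b|) := by
      rw [← mul_sub, ← mul_assoc, hAL]
    rw [e2] at h
    exact h
  set K := N * Real.exp (c0 D σ * Y - Real.pi * Y) * Real.exp (R + 1) with hK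
  have hJ : (0 : ℝ) ≤ J := Nat.cast_nonneg J
  have hg' := abs_le.mp hg
  -- fixed `a`
  have hfix : ∀ a ∈ Icc (g1 / alp σ T - 2) (g1 / alp σ T + J + 2),
      (∫ b in (-(2 * Y + 1))..(2 * Y + 1),
          ‖pz D σ T (a + b * I + 1) + pz D σ T (a + b * I)‖ * Real.exp (-(Real.pi * |b|))) +
      Real.exp (-(2 * Real.pi * Y)) *
        ((∫ b in (2 * Y)..(2 * Y + 1),
            ‖pz D σ T (a + b * I)‖ * Real.exp (-(Real.pi * b))) +
            ∫ b in (2 * Y)..(2 * Y + 1),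
              ‖pz D σ T (a - b * I)‖ * Real.exp (-(Real.pi * b))) ≤
      K * Kf D Y σ T (alp σ T * a) := by
    intro a ha
    have h1 : g1 - 2 * alp σ T ≤ alp σ T * a := by
      have := mul_le_mul_of_nonneg_left ha.1 hA.le
      have e : alp σ T * (g1 / alp σ T - 2) = g1 - 2 * alp σ T := by
        field_simp
      linarith
    have h2 : alp σ T * a ≤ g1 + (J + 2) * alp σ T := by
      have := mul_le_mul_of_nonneg_left ha.2 hA.le
      have e : alp σ T * (g1 / alp σ T + J + 2) = g1 + (J + 2) * alp σ T := by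
        field_simp
        ring
      linarith
    have h3 : (J + 4) * alp σ T ≤ 4 * (J + 4) / Real.log T := by
      have := mul_le_mul_of_nonneg_left hA4 (by positivity : (0 : ℝ) ≤ J + 4)
      calc (J + 4) * alp σ T ≤ (J + 4) * (4 / Real.log T) := this
        _ = _ := by ring
    have hJA : 0 ≤ J * alp σ T := by positivity
    refine Gb3_fix hRH hσ hA hbY hY hexp hN.le (fun b hb => hxi _ b ?_ hb)
      (fun b hb => hxi _ b ?_ hb)
    · refine le_trans (abs_le.mpr ⟨?_, ?_⟩) h3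
      · nlinarith
      · nlinarith
    · refine le_trans (abs_le.mpr ⟨?_, ?_⟩) h3
      · nlinarith
      · nlinarith
  -- continuity in `a`
  have k1 : Continuous fun a : ℝ => ∫ b in (-(2 * Y + 1))..(2 * Y + 1),
      ‖pz D σ T (a + b * I + 1) + pz D σ T (a + b * I)‖ * Real.exp (-(Real.pi * |b|)) :=
    cont_int (f := fun a b : ℝ =>
      ‖pz D σ T (a + b * I + 1) + pz D σ T (a + b * I)‖ * Real.exp (-(Real.pi * |b|))) Gb3_cont2 _ _
  have k2 : Continuous fun a : ℝ => ((∫ b in (2 * Y)..(2 * Y + 1),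
            ‖pz D σ T (a + b * I)‖ * Real.exp (-(Real.pi * b))) +
            ∫ b in (2 * Y)..(2 * Y + 1),
              ‖pz D σ T (a - b * I)‖ * Real.exp (-(Real.pi * b))) :=
    (cont_int (f := fun a b : ℝ => ‖pz D σ T (a + b * I)‖ * Real.exp (-(Real.pi * b)))
      Gb3_contp _ _).add
    (cont_int (f := fun a b : ℝ => ‖pz D σ T (a - b * I)‖ * Real.exp (-(Real.pi * b)))
      Gb3_contm _ _)
  have kH : Continuous (Kf D Y σ T) := Kf_continuous hRH hσ hA
  have kHa : Continuous fun a : ℝ => Kf D Y σ T (alp σ T * a) := kH.comp (by fun_prop)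
  have hab : g1 / alp σ T - 2 ≤ g1 / alp σ T + J + 2 := by linarith
  have hint := Gb3_int hab k1 k2 kHa (Real.exp (-(2 * Real.pi * Y))) K hfix
  -- enlarge the window and shift
  have hH0 : ∀ t, 0 ≤ Kf D Y σ T t := fun t => Kf_nonneg hσ (by linarith) t
  have hga : |t0 / alp σ T - g1 / alp σ T| ≤ 1 / 8 := by
    rw [← sub_div, abs_div, abs_of_pos hA, div_le_iff₀ hA]
    linarith
  have hga' := abs_le.mp hga
  have hwin : ∫ a in (g1 / alp σ T - 2)..(g1 / alp σ T + J + 2), Kf D Y σ T (alp σ T * a) ≤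
      ∫ a in (-3)..((J : ℝ) + 3), Kf D Y σ T (t0 + alp σ T * a) := by
    have e1 : ∫ a in (-3)..((J : ℝ) + 3), Kf D Y σ T (t0 + alp σ T * a) =
        ∫ a in (t0 / alp σ T + (-3))..(t0 / alp σ T + ((J : ℝ) + 3)), Kf D Y σ T (alp σ T * a) := by
      rw [← intervalIntegral.integral_comp_add_left (fun a => Kf D Y σ T (alp σ T * a))]
      congr 1
      funext a
      congr 1
      field_simp
    rw [e1]
    refine intervalIntegral.integral_mono_interval (by linarith) hab (by linarith)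
      (Filter.Eventually.of_forall fun a => hH0 _) (kHa.intervalIntegrable _ _)
  have hfinal : ‖pz D σ T (((t0 / alp σ T : ℝ) : ℂ) - (Y : ℂ) * I)‖ *
        Real.exp (-(Real.pi * Y)) ≤
      C / e * (K * ∫ a in (-3)..((J : ℝ) + 3), Kf D Y σ T (t0 + alp σ T * a)) := by
    refine hZ.trans ?_
    refine mul_le_mul_of_nonneg_left ?_ (by positivity)
    have e1 : 2 * Real.pi * (2 * Y - Y) = 2 * Real.pi * Y := by ring
    rw [e1]
    exact hint.trans (mul_le_mul_of_nonneg_left hwin (by positivity))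
  -- the left hand side
  have hlhs : ‖pz D σ T (((t0 / alp σ T : ℝ) : ℂ) - (Y : ℂ) * I)‖ *
        Real.exp (-(Real.pi * Y)) =
      (N * Real.exp (c0 D σ * Y - Real.pi * Y)) *
        ‖Vs D T (ss (alp σ T * Y) t0)‖ := by
    have e0 : (((t0 / alp σ T : ℝ) : ℂ) - (Y : ℂ) * I) =
        ((t0 / alp σ T : ℝ) : ℂ) + ((-(Y) : ℝ) : ℂ) * I := by push_cast; ring
    have e1 : ss (-(alp σ T * (-(Y)))) (alp σ T * (t0 / alp σ T)) =
        ss (alp σ T * Y) t0 := by
      rw [mul_neg, neg_neg, mul_div_cancel₀ _ hA.ne']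
    have e2 : -(Real.pi * (1 - D.ep) * σ * -(Y)) = c0 D σ * Y := by
      unfold c0; ring
    rw [e0, norm_pz, e1, e2, ← hNdef, sub_eq_add_neg, Real.exp_add]
    ring
  rw [hlhs] at hfinal
  have hpos : 0 < N * Real.exp (c0 D σ * Y - Real.pi * Y) := by positivity
  refine le_of_mul_le_mul_left (hfinal.trans (le_of_eq ?_)) hpos
  rw [hK]
  ring

end Pool.Agent.AHW
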