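import Pool.Agent.ZGap.DW.Fb2
import Pool.Agent.ZGap.DW.C2
import Pool.Agent.ZGap.AH.Fb4

/-!
# The mean of the controlling function in a window
-/

open scoped ContDiff

namespace Pool.Agent.AHW

open Complex MeasureTheory Set Pool.Agent.Hadamard Pool.Agent.HalfGap Pool.Agent.AHD

/-- first moment from the second moment -/
theorem Gb4_first (D : AData) {T x C a b : ℝ} {y : ℝ} (ha : y ≤ a) (hab : a ≤ b)
    (hb : b ≤ y + T)
    (h : ∫ t in y..(y + T), ‖Vs D T (ss x t)‖ ^ 2 ≤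
      C / D.ep * Real.exp (2 * (ka D T * max (-x) 0)) * T) :
    ∫ t in a..b, ‖Vs D T (ss x t)‖ ≤ (1 / D.ep + C) * Real.exp (ka D T * max (-x) 0) * T / 2 := by
  have hep := D.ep_pos
  set E := Real.exp (ka D T * max (-x) 0) with hE
  have hE0 : 0 < E := Real.exp_pos _
  have hE2 : Real.exp (2 * (ka D T * max (-x) 0)) = E ^ 2 := by
    rw [hE, ← Real.exp_nat_mul]
    norm_num
  rw [hE2] at h
  have hV := Fb4_V_continuous D T x
  have hV2 : Continuous fun t : ℝ => ‖Vs D T (ss x t)‖ ^ 2 := hV.pow 2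
  have hc2 : Continuous fun t : ℝ => D.ep / (2 * E) * ‖Vs D T (ss x t)‖ ^ 2 :=
    continuous_const.mul hV2
  have hpt : ∀ t ∈ Icc a b, ‖Vs D T (ss x t)‖ ≤
      E / (2 * D.ep) + D.ep / (2 * E) * ‖Vs D T (ss x t)‖ ^ 2 := by
    intro t _
    set v := ‖Vs D T (ss x t)‖
    have h1 : 0 ≤ (E - D.ep * v) ^ 2 / (2 * D.ep * E) := by positivity
    have h2 : (E - D.ep * v) ^ 2 / (2 * D.ep * E) =
        E / (2 * D.ep) + D.ep / (2 * E) * v ^ 2 - v := by
      field_simp
      ring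
    linarith
  have hsub : ∫ t in a..b, ‖Vs D T (ss x t)‖ ^ 2 ≤ ∫ t in y..(y + T), ‖Vs D T (ss x t)‖ ^ 2 :=
    intervalIntegral.integral_mono_interval ha hab hb
      (Filter.Eventually.of_forall (fun t => by positivity)) (hV2.intervalIntegrable _ _)
  calc ∫ t in a..b, ‖Vs D T (ss x t)‖ ≤
      ∫ t in a..b, (E / (2 * D.ep) + D.ep / (2 * E) * ‖Vs D T (ss x t)‖ ^ 2) :=
        intervalIntegral.integral_mono_on hab (hV.intervalIntegrable _ _)
          ((continuous_const.add hc2).intervalIntegrable _ _) hpt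
    _ = E / (2 * D.ep) * (b - a) + D.ep / (2 * E) * ∫ t in a..b, ‖Vs D T (ss x t)‖ ^ 2 := by
        rw [intervalIntegral.integral_add (continuous_const.intervalIntegrable _ _)
          (hc2.intervalIntegrable _ _), intervalIntegral.integral_const,
          intervalIntegral.integral_const_mul, smul_eq_mul]
        ring
    _ ≤ E / (2 * D.ep) * T + D.ep / (2 * E) * (C / D.ep * E ^ 2 * T) := by
        refine add_le_add (mul_le_mul_of_nonneg_left (by linarith) (by positivity)) ?_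
        exact mul_le_mul_of_nonneg_left (hsub.trans h) (by positivity)
    _ = (1 / D.ep + C) * E * T / 2 := by
        field_simp

theorem Gb4_first_shift (D : AData) {T x C a b α y : ℝ} (ha : y ≤ a + α) (hab : a ≤ b)
    (hb : b + α ≤ y + T)
    (h : ∫ t in y..(y + T), ‖Vs D T (ss x t)‖ ^ 2 ≤
      C / D.ep * Real.exp (2 * (ka D T * max (-x) 0)) * T) :
    ∫ t in a..b, ‖Vs D T (ss x (t + α))‖ ≤
      (1 / D.ep + C) * Real.exp (ka D T * max (-x) 0) * T / 2 := by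
  rw [intervalIntegral.integral_comp_add_right (fun t => ‖Vs D T (ss x t)‖)]
  exact Gb4_first D ha (by linarith) hb h

section parts

variable {D : AData} {Y σ T a₁ a₂ M : ℝ}

theorem Gb4_I1 (hRH : RiemannHypothesis) (hσ : 0 < σ) (hα : 0 < alp σ T)
    (hb : bz D σ ≤ 2 * Y + 1)
    (h : ∀ b ∈ Icc (bz D σ) (2 * Y + 1), ∫ t in a₁..a₂,
      ‖Ds D σ T (ss (-(alp σ T * b)) t)‖ ≤ M * Real.exp (2 * c0 D σ * b)) :
    ∫ t in a₁..a₂, Kd1 D Y σ T t ≤ M * (2 * Y + 1 - bz D σ) := by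
  unfold Kd1
  refine Fb4_double (f := fun t b =>
    ‖Ds D σ T (ss (-(alp σ T * max b (bz D σ))) t)‖ * Real.exp (-(2 * c0 D σ * b))) ?_ hb ?_
  · have h := Ds_continuous hRH D σ T (g := fun b => -(alp σ T * max b (bz D σ))) (by fun_prop)
      (fun b => neg_ne_zero.mpr (max_bz_ne_w hσ hα b))
    have h2 : Continuous fun p : ℝ × ℝ => Real.exp (-(2 * c0 D σ * p.2)) := by fun_prop
    exact h.mul h2
  · intro b hb
    simp only [max_eq_left hb.1]
    rw [intervalIntegral.integral_mul_const]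
    calc _ ≤ M * Real.exp (2 * c0 D σ * b) * Real.exp (-(2 * c0 D σ * b)) :=
          mul_le_mul_of_nonneg_right (h b hb) (Real.exp_pos _).le
      _ = M := by
          rw [mul_assoc, ← Real.exp_add, add_neg_cancel, Real.exp_zero, mul_one]

theorem Gb4_I2 (hRH : RiemannHypothesis) (hσ : 0 < σ) (hα : 0 < alp σ T)
    (hb : bz D σ ≤ 2 * Y + 1)
    (h : ∀ b ∈ Icc (bz D σ) (2 * Y + 1), ∫ t in a₁..a₂,
      ‖Ds D σ T (ss (alp σ T * b) t)‖ ≤ M) :
    ∫ t in a₁..a₂, Kd2 D Y σ T t ≤ M * (2 * Y + 1 - bz D σ) := by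
  unfold Kd2
  refine Fb4_double (f := fun t b =>
    ‖Ds D σ T (ss (alp σ T * max b (bz D σ)) t)‖) ?_ hb ?_
  · exact Ds_continuous hRH D σ T (g := fun b => (alp σ T * max b (bz D σ))) (by fun_prop)
      (fun b => (max_bz_ne_w hσ hα b))
  · intro b hb
    simp only [max_eq_left hb.1]
    exact h b hb

theorem Gb4_I3 (hb : 0 ≤ bz D σ)
    (h : ∀ b ∈ Icc (-bz D σ) (bz D σ), ∫ t in a₁..a₂,
      ‖Vs D T (ss (-(alp σ T * b)) (t + alp σ T))‖ ≤ M)
    (h' : ∀ b ∈ Icc (-bz D σ) (bz D σ), ∫ t in a₁..a₂,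
      ‖Vs D T (ss (-(alp σ T * b)) t)‖ ≤ M) :
    ∫ t in a₁..a₂, Kv0 D Y σ T t ≤ (M + M) * (bz D σ - (-bz D σ)) := by
  unfold Kv0
  refine Fb4_double (f := fun t b => ‖Vs D T (ss (-(alp σ T * b)) (t + alp σ T))‖ +
    ‖Vs D T (ss (-(alp σ T * b)) t)‖) ?_ (by linarith) ?_
  · have h := Vs_continuous D T
    have h2 : Continuous fun p : ℝ × ℝ => ss (-(alp σ T * p.2)) (p.1 + alp σ T) := by
      unfold ss; fun_prop
    have h3 : Continuous fun p : ℝ × ℝ => ss (-(alp σ T * p.2)) p.1 := by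
      unfold ss; fun_prop
    exact (h.comp h2).norm.add (h.comp h3).norm
  · intro b hb
    have hc1 : Continuous fun t : ℝ => ‖Vs D T (ss (-(alp σ T * b)) (t + alp σ T))‖ :=
      (Fb4_V_continuous D T (-(alp σ T * b))).comp (continuous_id.add continuous_const)
    show ∫ t in a₁..a₂, (‖Vs D T (ss (-(alp σ T * b)) (t + alp σ T))‖ +
      ‖Vs D T (ss (-(alp σ T * b)) t)‖) ≤ M + M
    rw [intervalIntegral.integral_add (hc1.intervalIntegrable _ _)
      ((Fb4_V_continuous D T _).intervalIntegrable _ _)]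
    exact add_le_add (h b hb) (h' b hb)

theorem Gb4_I4 (h : ∀ b ∈ Icc (2 * Y) (2 * Y + 1), ∫ t in a₁..a₂,
      ‖Vs D T (ss (-(alp σ T * b)) t)‖ ≤ M * Real.exp (2 * c0 D σ * b)) :
    ∫ t in a₁..a₂, Kv1 D Y σ T t ≤ M * (2 * Y + 1 - 2 * Y) := by
  unfold Kv1
  refine Fb4_double (f := fun t b => ‖Vs D T (ss (-(alp σ T * b)) t)‖ *
    Real.exp (-(2 * c0 D σ * b))) ?_ (by linarith) ?_
  · have h := Vs_continuous D T
    have h3 : Continuous fun p : ℝ × ℝ => ss (-(alp σ T * p.2)) p.1 := by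
      unfold ss; fun_prop
    exact (h.comp h3).norm.mul (by fun_prop)
  · intro b hb
    rw [intervalIntegral.integral_mul_const]
    calc _ ≤ M * Real.exp (2 * c0 D σ * b) * Real.exp (-(2 * c0 D σ * b)) :=
          mul_le_mul_of_nonneg_right (h b hb) (Real.exp_pos _).le
      _ = M := by
          rw [mul_assoc, ← Real.exp_add, add_neg_cancel, Real.exp_zero, mul_one]

theorem Gb4_I5 (h : ∀ b ∈ Icc (2 * Y) (2 * Y + 1), ∫ t in a₁..a₂,
      ‖Vs D T (ss (alp σ T * b) t)‖ ≤ M) :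
    ∫ t in a₁..a₂, Kv2 D Y σ T t ≤ M * (2 * Y + 1 - 2 * Y) := by
  unfold Kv2
  refine Fb4_double (f := fun t b => ‖Vs D T (ss (alp σ T * b) t)‖) ?_ (by linarith) ?_
  · have h := Vs_continuous D T
    have h3 : Continuous fun p : ℝ × ℝ => ss (alp σ T * p.2) p.1 := by
      unfold ss; fun_prop
    exact (h.comp h3).norm
  · intro b hb
    exact h b hb

theorem Gb4_split (hRH : RiemannHypothesis) (hσ : 0 < σ) (hα : 0 < alp σ T) :
    ∫ t in a₁..a₂, Kf D Y σ T t = (∫ t in a₁..a₂, Kd1 D Y σ T t) + (∫ t in a₁..a₂, Kd2 D Y σ T t) +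
      (∫ t in a₁..a₂, Kv0 D Y σ T t) +
      Real.exp (-(2 * Real.pi * Y)) * ((∫ t in a₁..a₂, Kv1 D Y σ T t) +
        ∫ t in a₁..a₂, Kv2 D Y σ T t) := by
  have hcd1 := Kd1_continuous (D := D) (Y := Y) (σ := σ) (T := T) hRH hσ hα
  have hcd2 := Kd2_continuous (D := D) (Y := Y) (σ := σ) (T := T) hRH hσ hα
  have hcv0 := Kv0_continuous (D := D) (Y := Y) (σ := σ) (T := T)
  have hcv1 := Kv1_continuous (D := D) (Y := Y) (σ := σ) (T := T)
  have hcv2 := Kv2_continuous (D := D) (Y := Y) (σ := σ) (T := T)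
  unfold Kf
  rw [intervalIntegral.integral_add, intervalIntegral.integral_add,
    intervalIntegral.integral_add, intervalIntegral.integral_const_mul,
    intervalIntegral.integral_add]
  · exact hcv1.intervalIntegrable _ _
  · exact hcv2.intervalIntegrable _ _
  · exact hcd1.intervalIntegrable _ _
  · exact hcd2.intervalIntegrable _ _
  · exact (hcd1.add hcd2).intervalIntegrable _ _
  · exact hcv0.intervalIntegrable _ _
  · exact ((hcd1.add hcd2).add hcv0).intervalIntegrable _ _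
  · exact (continuous_const.mul (hcv1.add hcv2)).intervalIntegrable _ _

theorem Gb4_hka (hL : 0 < Real.log T) (b : ℝ) : ka D T * (alp σ T * b) = 2 * c0 D σ * b := by
  unfold ka c0 alp
  field_simp

/-- the admissible sizes of the shifts -/
theorem Gb4_size (hL : 0 < Real.log T) (hσ : 0 < σ) (hσ2 : σ < 1 / 2)
    (h10 : 10 * Y * D.ep ≤ 1) {b : ℝ} (hb : |b| ≤ 2 * Y + 1) :
    |alp σ T * b| ≤ 1 / (D.ep * Real.log T) := by
  have hep := D.ep_pos
  have hep' := D.ep_le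
  have hpi := Real.pi_pos
  have hpi2 := Real.pi_lt_d2
  have hα0 : 0 < alp σ T := by
    unfold alp
    positivity
  rw [abs_mul, abs_of_pos hα0, le_div_iff₀ (by positivity)]
  have h1 : alp σ T * |b| * (D.ep * Real.log T) = 2 * Real.pi * σ * (|b| * D.ep) := by
    unfold alp
    field_simp
  rw [h1]
  have h2 : |b| * D.ep ≤ 0.21 := by
    calc |b| * D.ep ≤ (2 * Y + 1) * D.ep := mul_le_mul_of_nonneg_right hb hep.le
      _ ≤ 0.21 := by linarith
  have h3 : 2 * Real.pi * σ ≤ 3.15 := by nlinarith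
  have h4 : 0 ≤ |b| * D.ep := by positivity
  calc 2 * Real.pi * σ * (|b| * D.ep) ≤ 3.15 * 0.21 :=
        mul_le_mul h3 h2 h4 (by norm_num)
    _ ≤ 1 := by norm_num

end parts

theorem Gb4_exp (D : AData) {Y : ℝ} (hY : Yc D.ep ≤ Y) : Real.exp (-(2 * Real.pi * Y)) ≤ D.ep := by
  refine le_trans (Real.exp_le_exp.2 (neg_le_neg ?_)) (Fb4_exp D)
  exact mul_le_mul_of_nonneg_left hY (by positivity)

/-- the final arithmetic -/
theorem Gb4_final (D : AData) {B Y Cd CV T b I1 I2 I3 I4 I5 x l : ℝ} (hCd : 0 < Cd) (hCV : 0 < CV)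
    (hT0 : 0 < T) (hb0 : 0 < b) (hb1 : b ≤ D.ep) (hl1 : 1 ≤ l) (hx0 : 0 < x) (hx : x ≤ D.ep)
    (_hB : 0 ≤ B) (hY : Y ≤ B * l ^ 2)
    (hI1 : I1 ≤ Cd * l ^ 2 * T * (2 * Y + 1 - b))
    (hI2 : I2 ≤ Cd * l ^ 2 * T * (2 * Y + 1 - b))
    (hI3 : I3 ≤ ((1 / D.ep + CV) * 3 * T / 2 + (1 / D.ep + CV) * 3 * T / 2) * (b - (-b)))
    (hI4 : I4 ≤ (1 / D.ep + CV) * T / 2) (hI5 : I5 ≤ (1 / D.ep + CV) * T / 2) :
    I1 + I2 + I3 + x * (I4 + I5) ≤ ((4 * B + 2) * Cd + 8 * (1 + CV)) * l ^ 4 * T := by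
  have hep := D.ep_pos
  have hep' := D.ep_le
  have hl2 : 1 ≤ l ^ 2 := one_le_pow₀ hl1
  have hl4 : 1 ≤ l ^ 4 := one_le_pow₀ hl1
  have hA : Cd * l ^ 2 * T * (2 * Y + 1 - b) ≤ (2 * B + 1) * Cd * l ^ 4 * T := by
    have h1 : 2 * Y + 1 - b ≤ (2 * B + 1) * l ^ 2 := by
      linarith
    calc _ ≤ Cd * l ^ 2 * T * ((2 * B + 1) * l ^ 2) :=
          mul_le_mul_of_nonneg_left h1 (by positivity)
      _ = (2 * B + 1) * Cd * l ^ 4 * T := by ring
  have hB : ((1 / D.ep + CV) * 3 * T / 2 + (1 / D.ep + CV) * 3 * T / 2) * (b - (-b)) ≤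
      6 * (1 + CV) * T := by
    have h1 : b - (-b) ≤ 2 * D.ep := by linarith
    have h0 : 0 ≤ (1 / D.ep + CV) * 3 * T / 2 + (1 / D.ep + CV) * 3 * T / 2 := by positivity
    calc _ ≤ ((1 / D.ep + CV) * 3 * T / 2 + (1 / D.ep + CV) * 3 * T / 2) * (2 * D.ep) :=
          mul_le_mul_of_nonneg_left h1 h0
      _ = 6 * (1 + CV * D.ep) * T := by
          field_simp
          ring
      _ ≤ 6 * (1 + CV) * T := by
          have h2 : D.ep ≤ 1 := by linarith
          have h3 : CV * D.ep ≤ CV * 1 := mul_le_mul_of_nonneg_left h2 hCV.le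
          have h4 : 6 * (1 + CV * D.ep) ≤ 6 * (1 + CV) := by linarith
          exact mul_le_mul_of_nonneg_right h4 hT0.le
  have hV1 : 0 ≤ (1 / D.ep + CV) * T := by positivity
  have hC : x * (I4 + I5) ≤ (1 + CV) * T := by
    have h1 : I4 + I5 ≤ (1 / D.ep + CV) * T := by linarith
    calc _ ≤ x * ((1 / D.ep + CV) * T) := mul_le_mul_of_nonneg_left h1 hx0.le
      _ ≤ D.ep * ((1 / D.ep + CV) * T) := mul_le_mul_of_nonneg_right hx hV1
      _ = (1 + D.ep * CV) * T := by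
          field_simp
      _ ≤ (1 + CV) * T := by
          refine mul_le_mul_of_nonneg_right ?_ hT0.le
          have : D.ep * CV ≤ 1 * CV := mul_le_mul_of_nonneg_right (by linarith) hCV.le
          linarith
  have hfin : 8 * (1 + CV) * T ≤ 8 * (1 + CV) * l ^ 4 * T := by
    have h1 : 0 ≤ 8 * (1 + CV) := by positivity
    have h2 : 8 * (1 + CV) * 1 ≤ 8 * (1 + CV) * l ^ 4 := mul_le_mul_of_nonneg_left hl4 h1
    have h3 := mul_le_mul_of_nonneg_right h2 hT0.le
    linarith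
  have hCVT : 0 ≤ (1 + CV) * T := by positivity
  calc _ ≤ (2 * B + 1) * Cd * l ^ 4 * T + (2 * B + 1) * Cd * l ^ 4 * T + 6 * (1 + CV) * T + (1 + CV) * T := by
        linarith
    _ ≤ ((4 * B + 2) * Cd + 8 * (1 + CV)) * l ^ 4 * T := by linarith

/-- The mean of `Kf` over the block. -/
theorem Gb_mean (hRH : RiemannHypothesis) {a : ℝ} (ha : 0 < a) (ha1 : a ≤ 1) : ∃ C : ℝ, 0 < C ∧
    ∀ D : AData, D.ep ≤ a → ∀ τ θ Y : ℝ,
    10 * Y * D.ep ≤ 1 → 1 / (1 + a) - D.ep ^ 2 ≤ τ → τ < 1 / (1 + a) → 0 < θ → θ ≤ 1 / 8 →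
    2 * (a * τ) * Y = Yc D.ep →
    ∃ δ T0 : ℝ, 0 < δ ∧ ∀ T : ℝ, T0 ≤ T → ∀ w : ℝ, Hgt a θ T w → FewW (a * τ) δ θ T w →
      ∫ t in (w + 5 * T / 4)..(w + 7 * T / 4), Kf D Y (a * τ) T t ≤
        C * Real.log (1 / D.ep) ^ 4 * T := by
  obtain ⟨Cd, hCd, hd⟩ := dmean_w hRH ha ha1
  obtain ⟨CV, hCV, hv⟩ := vmean_w
  refine ⟨(4 * (1100 / a) + 2) * Cd + 8 * (1 + CV), by positivity, ?_⟩
  intro D hDa τ θ Y h10 hτ hτ' hθ hθ' hYc
  obtain ⟨δ, T1, hδ, hd⟩ := hd D hDa τ θ hτ hτ' hθ hθ'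
  obtain ⟨T2, hv⟩ := hv D
  refine ⟨δ, max (max T1 T2) 16, hδ, ?_⟩
  intro T hT w hw hF
  have hTa : T1 ≤ T := (le_max_left _ _).trans ((le_max_left _ _).trans hT)
  have hTb : T2 ≤ T := (le_max_right _ _).trans ((le_max_left _ _).trans hT)
  have hT16 : 16 ≤ T := (le_max_right _ _).trans hT
  have hT0 : 0 < T := by linarith
  replace hd := hd T hTa w hw hF
  replace hv := hv T hTb
  have hep := D.ep_pos
  have hep' := D.ep_le
  have hpi := Real.pi_pos
  have hpi2 := Real.pi_lt_d2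
  have hpi3 := Real.pi_gt_three
  have he1 := Real.exp_one_lt_d9
  have hL1 : 1 ≤ Real.log T := by
    rw [Real.le_log_iff_exp_le hT0]
    linarith
  have hL : 0 < Real.log T := by linarith
  have hep2 : D.ep ^ 2 ≤ 1 / 100 := by nlinarith
  have hτ49 := tau_pos ha ha1 hep hep' hτ
  have hτ0 : 0 < τ := by linarith
  have hσ0 : 0 < a * τ := by positivity
  have hσ2 := sig_lt ha ha1 hτ'
  have hσ49 := sig_gt ha hτ49
  obtain ⟨σ, hσdef⟩ : ∃ σ, σ = a * τ := ⟨_, rfl⟩
  rw [← hσdef] at hYc hσ0 hσ2 hσ49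
  simp only [← hσdef] at hd ⊢
  have hl1 := Fb4_log D
  have hYc1 : 1000 ≤ Yc D.ep := by
    unfold Yc
    have : 1 ≤ Real.log (1 / D.ep) ^ 2 := one_le_pow₀ hl1
    linarith
  have hY0 : 0 < Y := by
    by_contra hcon
    have : 2 * σ * Y ≤ 0 := mul_nonpos_of_nonneg_of_nonpos (by positivity) (not_lt.1 hcon)
    linarith
  have hYY : Yc D.ep ≤ Y := by
    rw [← hYc]
    exact mul_le_of_le_one_left hY0.le (by linarith)
  have hYB : Y ≤ 1100 / a * Real.log (1 / D.ep) ^ 2 := by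
    have g1 : 98 / 100 * a * Y ≤ 1000 * Real.log (1 / D.ep) ^ 2 := by
      have g2 : Yc D.ep = 1000 * Real.log (1 / D.ep) ^ 2 := rfl
      rw [← g2, ← hYc]
      exact mul_le_mul_of_nonneg_right (by linarith) hY0.le
    have g3 : 0 ≤ Real.log (1 / D.ep) ^ 2 := by positivity
    rw [div_mul_eq_mul_div, le_div_iff₀ ha]
    linarith
  have hα0 : 0 < alp σ T := by
    unfold alp
    positivity
  have hα4 : alp σ T ≤ T / 4 := by
    unfold alp
    rw [div_le_iff₀ hL]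
    have h1 : 2 * Real.pi * σ ≤ 4 := by nlinarith
    have h2 : T / 4 * 1 ≤ T / 4 * Real.log T := mul_le_mul_of_nonneg_left hL1 (by linarith)
    linarith
  have hbz0 : 0 < bz D σ := bz_pos_w hσ0
  have hbz1 : bz D σ ≤ D.ep := by
    unfold bz
    rw [div_le_iff₀ (by positivity)]
    have h1 : D.ep ≤ 2 * Real.pi * σ := by
      have g1 : 3 * σ ≤ Real.pi * σ := mul_le_mul_of_nonneg_right hpi3.le hσ0.le
      linarith
    calc D.ep ^ 2 = D.ep * D.ep := by ring
      _ ≤ D.ep * (2 * Real.pi * σ) := mul_le_mul_of_nonneg_left h1 hep.le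
  have hbzL : alp σ T * bz D σ = D.ep ^ 2 / Real.log T := by
    unfold alp bz
    field_simp
  have hbY : bz D σ ≤ 2 * Y + 1 := by linarith
  have hka := Gb4_hka (D := D) (σ := σ) hL
  -- first part
  have hI1 := Gb4_I1 (a₁ := w + 5 * T / 4) (a₂ := w + 7 * T / 4)
    (M := Cd * Real.log (1 / D.ep) ^ 2 * T) hRH hσ0 hα0 hbY (by
      intro b hb
      have hb0 : 0 < b := hbz0.trans_le hb.1
      have h1 := hd (-(alp σ T * b)) (by
        rw [abs_neg, abs_of_pos (by positivity), ← hbzL]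
        exact mul_le_mul_of_nonneg_left hb.1 hα0.le) (by
        rw [abs_neg]
        exact Gb4_size hL hσ0 hσ2 h10 (by rw [abs_of_pos hb0]; exact hb.2))
      rw [neg_neg, max_eq_left (by positivity), hka] at h1
      linarith)
  have hI2 := Gb4_I2 (a₁ := w + 5 * T / 4) (a₂ := w + 7 * T / 4)
    (M := Cd * Real.log (1 / D.ep) ^ 2 * T) hRH hσ0 hα0 hbY (by
      intro b hb
      have hb0 : 0 < b := hbz0.trans_le hb.1
      have hp : 0 < alp σ T * b := by positivity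
      have h1 := hd (alp σ T * b) (by
        rw [abs_of_pos hp, ← hbzL]
        exact mul_le_mul_of_nonneg_left hb.1 hα0.le)
        (Gb4_size hL hσ0 hσ2 h10 (by rw [abs_of_pos hb0]; exact hb.2))
      rw [max_eq_right (by linarith), mul_zero, Real.exp_zero, mul_one] at h1
      exact h1)
  -- V parts
  have hE3 : ∀ b ∈ Icc (-bz D σ) (bz D σ),
      Real.exp (ka D T * max (-(-(alp σ T * b))) 0) ≤ 3 := by
    intro b hb
    have h5 : ka D T * max (-(-(alp σ T * b))) 0 ≤ 1 := by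
      rw [neg_neg]
      have hka0 : 0 ≤ ka D T := by
        unfold ka
        have : 0 ≤ 1 - D.ep := by linarith
        positivity
      have h6 : max (alp σ T * b) 0 ≤ alp σ T * bz D σ :=
        max_le (mul_le_mul_of_nonneg_left hb.2 hα0.le) (by positivity)
      calc ka D T * max (alp σ T * b) 0 ≤ ka D T * (alp σ T * bz D σ) :=
            mul_le_mul_of_nonneg_left h6 hka0
        _ = (1 - D.ep) * D.ep ^ 2 := by
            rw [hbzL]
            unfold ka
            field_simp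
        _ ≤ 1 * D.ep ^ 2 := mul_le_mul_of_nonneg_right (by linarith) (by positivity)
        _ ≤ 1 := by linarith
    calc _ ≤ Real.exp 1 := Real.exp_le_exp.2 h5
      _ ≤ 3 := by linarith
  have hCe : 0 ≤ 1 / D.ep + CV := by positivity
  have hM : ∀ E : ℝ, E ≤ 3 → (1 / D.ep + CV) * E * T / 2 ≤ (1 / D.ep + CV) * 3 * T / 2 := by
    intro E hE
    have h8 := mul_le_mul_of_nonneg_left hE hCe
    have h9 := mul_le_mul_of_nonneg_right h8 hT0.le
    linarith
  have hI3 := Gb4_I3 (D := D) (Y := Y) (σ := σ) (T := T) (a₁ := w + 5 * T / 4) (a₂ := w + 7 * T / 4)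
    (M := (1 / D.ep + CV) * 3 * T / 2) hbz0.le (by
      intro b hb
      have hb' : |b| ≤ bz D σ := abs_le.2 hb
      have h1 := hv (-(alp σ T * b)) (w + T)
      exact (Gb4_first_shift D (a := w + 5 * T / 4) (b := w + 7 * T / 4) (α := alp σ T)
        (y := w + T) (by linarith) (by linarith) (by linarith) h1).trans (hM _ (hE3 b hb)))
    (by
      intro b hb
      have hb' : |b| ≤ bz D σ := abs_le.2 hb
      have h1 := hv (-(alp σ T * b)) (w + T)
      exact (Gb4_first D (y := w + T) (a := w + 5 * T / 4) (b := w + 7 * T / 4) (by linarith) (by linarith)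
        (by linarith) h1).trans (hM _ (hE3 b hb)))
  have hI4 := Gb4_I4 (D := D) (Y := Y) (σ := σ) (T := T) (a₁ := w + 5 * T / 4) (a₂ := w + 7 * T / 4)
    (M := (1 / D.ep + CV) * T / 2) (by
      intro b hb
      have hb0 : 0 < b := by linarith [hb.1]
      have h1 := hv (-(alp σ T * b)) (w + T)
      have h2 := Gb4_first D (y := w + T) (a := w + 5 * T / 4) (b := w + 7 * T / 4) (by linarith) (by linarith)
        (by linarith) h1
      rw [neg_neg, max_eq_left (by positivity), hka] at h2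
      linarith)
  have hI5 := Gb4_I5 (D := D) (Y := Y) (σ := σ) (T := T) (a₁ := w + 5 * T / 4) (a₂ := w + 7 * T / 4)
    (M := (1 / D.ep + CV) * T / 2) (by
      intro b hb
      have hb0 : 0 < b := by linarith [hb.1]
      have hp : 0 < alp σ T * b := by positivity
      have h1 := hv (alp σ T * b) (w + T)
      have h2 := Gb4_first D (y := w + T) (a := w + 5 * T / 4) (b := w + 7 * T / 4) (by linarith) (by linarith)
        (by linarith) h1
      rw [max_eq_right (by linarith), mul_zero, Real.exp_zero, mul_one] at h2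
      exact h2)
  rw [add_sub_cancel_left, mul_one] at hI4 hI5
  rw [Gb4_split hRH hσ0 hα0]
  exact Gb4_final D hCd hCV hT0 hbz0 hbz1 hl1 (Real.exp_pos _) (Gb4_exp D hYY) (by positivity) hYB
    hI1 hI2 hI3 hI4 hI5

end Pool.Agent.AHW
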