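import Pool.Agent.ZGap.AH.H2
import Pool.Agent.ZGap.DW.Defs

/-!
# The sum over close zeros in windows
-/

open scoped ContDiff

namespace Pool.Agent.AHW

open Complex MeasureTheory Set Pool.Agent.Hadamard Pool.Agent.HalfGap Pool.Agent.AHD

/-- The comparison of the kernels, shifted. -/
lemma H2_J_le_w {Λ L T w : ℝ} (hΛ : 1 ≤ Λ) (hL : 0 < L) (hΛL : Λ ≤ L) (hT : 3 ≤ T) (c : ℝ) :
    ∫ t in (w + T)..(w + 2 * T), H2_r Λ L (t - c) ≤
      20 * (1 + Real.log Λ) * ∫ t in (w + T)..(w + 2 * T), (1 + (t - c) ^ 2)⁻¹ := by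
  have h := H2_J_le hΛ hL hΛL hT (c - w)
  unfold H2_P at h
  rw [← intervalIntegral.integral_comp_add_left (fun t => H2_r Λ L (t - c)) w,
    ← intervalIntegral.integral_comp_add_left (fun t => (1 + (t - c) ^ 2)⁻¹) w]
  have e : ∀ u : ℝ, w + u - c = u - (c - w) := fun u => by ring
  simp only [e]
  exact h

/-- Interchange of sum and integral, any interval. -/
lemma H2_swap_gen {u v K : ℝ} (huv : u ≤ v) {g : ℝ → ℝ} (hg : Continuous g) (hg0 : ∀ x, 0 ≤ g x)
    (hK : ∀ x, g x ≤ K * (1 + x ^ 2)⁻¹) :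
    HasSum (fun ρ : ntz => (mult ρ : ℝ) * ∫ t in u..v, g (t - (ρ : ℂ).im))
      (∫ t in u..v, ∑' ρ : ntz, (mult ρ : ℝ) * g (t - (ρ : ℂ).im)) := by
  have hK0 : 0 ≤ K := by
    have := (hg0 0).trans (hK 0)
    simpa using this
  have h2 := hasSum_integral_of_summable_integral_norm (μ := volume.restrict (Ioc u v))
    (F := fun (ρ : ntz) (t : ℝ) => (mult ρ : ℝ) * g (t - (ρ : ℂ).im))
    (fun ρ => by
      have : Continuous fun t : ℝ => (mult ρ : ℝ) * g (t - (ρ : ℂ).im) := by fun_prop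
      exact (this.integrableOn_Icc (a := u) (b := v)).mono_set Ioc_subset_Icc_self) ?_
  · simp_rw [intervalIntegral.integral_of_le huv]
    simp_rw [MeasureTheory.integral_const_mul] at h2
    exact h2
  · have h3 := (summable_weight 0).mul_left (K * (2 * (1 + (|u| + |v|) ^ 2)) * (v - u))
    refine Summable.of_nonneg_of_le (fun ρ => integral_nonneg fun t => norm_nonneg _)
      (fun ρ => ?_) h3
    rw [← intervalIntegral.integral_of_le huv]
    have hcont : Continuous fun t : ℝ => ‖(mult ρ : ℝ) * g (t - (ρ : ℂ).im)‖ := by fun_prop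
    calc ∫ t in u..v, ‖(mult ρ : ℝ) * g (t - (ρ : ℂ).im)‖
        ≤ ∫ t in u..v, ((mult ρ : ℝ) * (K * (2 * (1 + (|u| + |v|) ^ 2) *
            (1 / (1 + (0 - (ρ : ℂ).im) ^ 2))))) := by
          refine intervalIntegral.integral_mono_on huv (hcont.intervalIntegrable _ _)
            (continuous_const.intervalIntegrable _ _) fun t ht => ?_
          rw [norm_mul, Real.norm_natCast, Real.norm_of_nonneg (hg0 _)]
          gcongr
          refine (hK _).trans (mul_le_mul_of_nonneg_left ((H2_shift t (ρ : ℂ).im).trans ?_) hK0)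
          have h4 : |t| ≤ |u| + |v| := by
            rw [abs_le]
            have h5 := neg_abs_le u
            have h6 := abs_nonneg v
            have h7 := le_abs_self v
            have h8 := abs_nonneg u
            exact ⟨by linarith [ht.1], by linarith [ht.2]⟩
          have h5 : t ^ 2 ≤ (|u| + |v|) ^ 2 := by
            rw [← sq_abs t]
            exact pow_le_pow_left₀ (abs_nonneg t) h4 2
          gcongr
      _ = _ := by
          rw [intervalIntegral.integral_const, smul_eq_mul]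
          ring

/-- The mean of the sum over close zeros, general form. -/
lemma H2_gen : ∃ C : ℝ, 0 < C ∧ ∀ (Λ L T w B : ℝ), 1 ≤ Λ → Λ ≤ L → 3 ≤ T →
    (∀ t ∈ Icc (w + T) (w + 2 * T), |t| + 2 ≤ B) →
    ∫ t in (w + T)..(w + 2 * T), ∑' ρ : ntz, (mult ρ : ℝ) * H2_r Λ L (t - (ρ : ℂ).im) ≤
      C * (1 + Real.log Λ) * Real.log B * T := by
  obtain ⟨C, hC, hw⟩ := tsum_weight_le
  refine ⟨20 * C, by positivity, fun Λ L T w B hΛ hΛL hT3 hB => ?_⟩
  have hT0 : 0 < T := by linarith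
  have hL1 : 1 ≤ L := hΛ.trans hΛL
  have hL0 : 0 < L := by linarith
  have hlog : 0 ≤ Real.log Λ := Real.log_nonneg hΛ
  have hle : w + T ≤ w + 2 * T := by linarith
  have hB2 : 2 ≤ B := by
    have := hB (w + T) ⟨le_rfl, hle⟩
    have := abs_nonneg (w + T)
    linarith
  have hlB : 0 ≤ Real.log B := Real.log_nonneg (by linarith)
  have h1 := H2_swap_gen hle (H2_cont hΛ hL0) (H2_r_nonneg hΛ hL0)
    (fun u => by rw [← div_eq_mul_inv]; exact H2_bound hΛ hL1 u)
  have h2 := H2_swap_gen (g := fun u => (1 + u ^ 2)⁻¹) (K := 1) hle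
    (Continuous.inv₀ (by fun_prop) fun t => by positivity) (fun u => by positivity)
    (fun u => by rw [one_mul])
  have h3 : ∫ t in (w + T)..(w + 2 * T), ∑' ρ : ntz, (mult ρ : ℝ) *
      H2_r Λ L (t - (ρ : ℂ).im) ≤
      (20 * (1 + Real.log Λ)) * ∫ t in (w + T)..(w + 2 * T), ∑' ρ : ntz, (mult ρ : ℝ) *
        (1 + (t - (ρ : ℂ).im) ^ 2)⁻¹ := by
    refine hasSum_le (fun ρ => ?_) h1 (h2.mul_left (20 * (1 + Real.log Λ)))
    have h4 := H2_J_le_w (w := w) hΛ hL0 hΛL hT3 (ρ : ℂ).im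
    calc (mult ρ : ℝ) * ∫ t in (w + T)..(w + 2 * T), H2_r Λ L (t - (ρ : ℂ).im)
        ≤ (mult ρ : ℝ) * (20 * (1 + Real.log Λ) *
          ∫ t in (w + T)..(w + 2 * T), (1 + (t - (ρ : ℂ).im) ^ 2)⁻¹) := by gcongr
      _ = _ := by ring
  have h4 : ∫ t in (w + T)..(w + 2 * T), ∑' ρ : ntz, (mult ρ : ℝ) *
      (1 + (t - (ρ : ℂ).im) ^ 2)⁻¹ ≤ C * Real.log B * T := by
    have hb : ∀ t ∈ Set.Icc (w + T) (w + 2 * T), ∑' ρ : ntz, (mult ρ : ℝ) *
        (1 + (t - (ρ : ℂ).im) ^ 2)⁻¹ ≤ C * Real.log B := by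
      intro t ht
      have e1 := hw t
      simp only [div_eq_mul_inv] at e1
      refine e1.trans ?_
      have e2 : Real.log (|t| + 2) ≤ Real.log B :=
        Real.log_le_log (by positivity) (hB t ht)
      gcongr
    by_cases hint : IntervalIntegrable (fun t => ∑' ρ : ntz, (mult ρ : ℝ) *
        (1 + (t - (ρ : ℂ).im) ^ 2)⁻¹) volume (w + T) (w + 2 * T)
    · calc ∫ t in (w + T)..(w + 2 * T), ∑' ρ : ntz, (mult ρ : ℝ) * (1 + (t - (ρ : ℂ).im) ^ 2)⁻¹
          ≤ ∫ t in (w + T)..(w + 2 * T), C * Real.log B :=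
            intervalIntegral.integral_mono_on hle hint
              (continuous_const.intervalIntegrable _ _) hb
        _ = _ := by
            rw [intervalIntegral.integral_const, smul_eq_mul]
            ring
    · rw [intervalIntegral.integral_undef hint]
      positivity
  calc _ ≤ _ := h3
    _ ≤ (20 * (1 + Real.log Λ)) * (C * Real.log B * T) := by gcongr
    _ = _ := by ring

/-- The heights in the window are below the cube of the height. -/
lemma H2_height {a T w : ℝ} (ha : 0 < a) (ha1 : a ≤ 1) (hT : 3 ≤ T) (hw : Hgt a 0 T w) :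
    ∀ t ∈ Icc (w + T) (w + 2 * T), |t| + 2 ≤ (T ^ (1 / a)) ^ 3 := by
  intro t ht
  have h1 := le_rpow_inv ha ha1 (by linarith : 1 ≤ T)
  obtain ⟨h4, h5⟩ := hw
  have h6 : 0 ≤ t := by linarith [ht.1]
  rw [abs_of_nonneg h6]
  set X := T ^ (1 / a) with hX
  have hX3 : 3 ≤ X := hT.trans h1
  have h7 : t ≤ 3 * X := by linarith [ht.2]
  have h8 : 9 * X ≤ X ^ 3 := by nlinarith [mul_nonneg (by linarith : 0 ≤ X) (by nlinarith : 0 ≤ X ^ 2 - 9)]
  linarith

theorem rsum_mean_w (hRH : RiemannHypothesis) {a : ℝ} (ha : 0 < a) (ha1 : a ≤ 1) : ∃ C : ℝ,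
    0 < C ∧ ∀ Λ : ℝ, 1 ≤ Λ → ∃ T0 : ℝ,
    ∀ T : ℝ, T0 ≤ T → Continuous (Rsum T Λ) ∧ ∀ w : ℝ, Hgt a 0 T w →
      ∫ t in (w + T)..(w + 2 * T), Rsum T Λ t ≤ C * (1 + Real.log Λ) * Real.log T * T := by
  obtain ⟨C, hC, hg⟩ := H2_gen
  refine ⟨3 * C / a, by positivity, fun Λ hΛ => ⟨max 3 (Real.exp Λ), fun T hT => ?_⟩⟩
  have hT3 : 3 ≤ T := (le_max_left _ _).trans hT
  have hT0 : 0 < T := by linarith
  have hTe : Real.exp Λ ≤ T := (le_max_right _ _).trans hT
  have hΛL : Λ ≤ Real.log T := (Real.le_log_iff_exp_le hT0).mpr hTe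
  have hL1 : 1 ≤ Real.log T := hΛ.trans hΛL
  refine ⟨H2_continuous hΛ hL1, fun w hw => ?_⟩
  have h1 := hg Λ (Real.log T) T w _ hΛ hΛL hT3 (H2_height ha ha1 hT3 hw)
  rw [Real.log_pow, log_rpow_inv hT0] at h1
  refine le_trans (le_of_eq rfl) (h1.trans (le_of_eq ?_))
  push_cast
  field_simp

end Pool.Agent.AHW
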