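import Pool.Agent.ZGap.DW.H1
import Pool.Agent.ZGap.DW.H2
import Pool.Agent.ZGap.AH.H3
import Pool.Agent.ZGap.PS.Exp

/-!
# Quotients of xi in windows
-/

open scoped ContDiff

namespace Pool.Agent.AHW

open Complex MeasureTheory Set Pool.Agent.Hadamard Pool.Agent.HalfGap Pool.Agent.AHD

/-- The integrand of the vertical growth, extended continuously, with main term `m`. -/
noncomputable def H3_hw (L m t y : ℝ) : ℝ := |(logDeriv xiF (ss (max y (1 / L)) t)).re - m|

lemma H3_hw_cont (hRH : RiemannHypothesis) {L : ℝ} (hL : 0 < L) (m : ℝ) :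
    Continuous (Function.uncurry (H3_hw L m)) := by
  have h1 : Continuous (fun p : ℝ × ℝ => ss (max p.2 (1 / L)) p.1) := by unfold ss; fun_prop
  have h2 : Continuous (deriv xiF) :=
    (xiF_differentiable.contDiff (n := 1)).continuous_deriv le_rfl
  have h3 : Continuous xiF := xiF_differentiable.continuous
  have h4 : Continuous (fun p : ℝ × ℝ => logDeriv xiF (ss (max p.2 (1 / L)) p.1)) := by
    simp only [logDeriv_apply]
    refine (h2.comp h1).div (h3.comp h1) fun p h => ?_
    exact ss_notMem hRH (lt_of_lt_of_le (by positivity) (le_max_right p.2 (1 / L))) p.1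
      (xiF_eq_zero_iff.mp h)
  exact ((continuous_re.comp h4).sub continuous_const).abs

lemma H3_hw_cont_swap (hRH : RiemannHypothesis) {L : ℝ} (hL : 0 < L) (m : ℝ) :
    Continuous (Function.uncurry (fun y t => H3_hw L m t y)) := by
  have e : Function.uncurry (fun y t => H3_hw L m t y) =
      Function.uncurry (H3_hw L m) ∘ Prod.swap := by
    funext p; rfl
  rw [e]
  exact (H3_hw_cont hRH hL m).comp continuous_swap

lemma H3_hw_cont_right (hRH : RiemannHypothesis) {L : ℝ} (hL : 0 < L) (m t0 : ℝ) :
    Continuous (fun y => H3_hw L m t0 y) := by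
  have e : (fun y => H3_hw L m t0 y) = Function.uncurry (H3_hw L m) ∘ (fun y => (t0, y)) := by
    funext p; rfl
  rw [e]
  exact (H3_hw_cont hRH hL m).comp (Continuous.prodMk_right t0)

lemma H3_hw_nonneg (L m t y : ℝ) : 0 ≤ H3_hw L m t y := abs_nonneg _

/-- The mean value of the vertical growth, any interval. -/
lemma H3_mean_w (hRH : RiemannHypothesis) {u v L Λ B m : ℝ} (huv : u ≤ v) (hL : 0 < L)
    (hΛ : 1 ≤ Λ)
    (h : ∀ x ∈ Icc (1 / L) (Λ / L), ∫ t in u..v, |(logDeriv xiF (ss x t)).re - m| ≤ B / x) :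
    ∫ t in u..v, ∫ y in (1 / L)..(Λ / L), H3_hw L m t y ≤ B * Real.log Λ := by
  have hc := H3_hw_cont hRH hL m
  have hle : 1 / L ≤ Λ / L := by gcongr
  have h1 : 0 < 1 / L := by positivity
  have h2 : 0 < Λ / L := by positivity
  have hint : IntegrableOn (Function.uncurry (H3_hw L m))
      (uIoc u v ×ˢ uIoc (1 / L) (Λ / L)) := by
    refine (hc.continuousOn.integrableOn_compact
      ((isCompact_uIcc (a := u) (b := v)).prod
        (isCompact_uIcc (a := 1 / L) (b := Λ / L)))).mono_set ?_
    exact prod_mono uIoc_subset_uIcc uIoc_subset_uIcc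
  rw [intervalIntegral_intervalIntegral_swap hint]
  have h3 : Continuous (fun y => ∫ t in u..v, H3_hw L m t y) := by
    exact intervalIntegral.continuous_parametric_intervalIntegral_of_continuous'
      (H3_hw_cont_swap hRH hL m) _ _
  have h4 : ContinuousOn (fun y : ℝ => B / y) (uIcc (1 / L) (Λ / L)) := by
    refine continuousOn_const.div continuousOn_id fun y hy => ?_
    rw [uIcc_of_le hle] at hy
    exact (h1.trans_le hy.1).ne'
  calc ∫ y in (1 / L)..(Λ / L), ∫ t in u..v, H3_hw L m t y
      ≤ ∫ y in (1 / L)..(Λ / L), B / y := by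
        refine intervalIntegral.integral_mono_on hle (h3.intervalIntegrable _ _)
          h4.intervalIntegrable fun y hy => ?_
        have := h y hy
        unfold H3_hw
        rw [max_eq_left hy.1]
        exact this
    _ = B * Real.log Λ := by
        simp_rw [div_eq_mul_inv B]
        rw [intervalIntegral.integral_const_mul, integral_inv_of_pos h1 h2]
        congr 2
        field_simp

theorem xi_ratio_w (hRH : RiemannHypothesis) {a : ℝ} (ha : 0 < a) (ha1 : a ≤ 1) (G : ℝ)
    (hG : 0 ≤ G) : ∃ C : ℝ, 0 < C ∧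
    ∀ Λ : ℝ, 1 ≤ Λ → ∃ T0 : ℝ, ∀ T : ℝ, T0 ≤ T → ∀ w : ℝ, Hgt a 0 T w → ∃ R : ℝ → ℝ,
      IntervalIntegrable R volume (w + 5 * T / 4) (w + 7 * T / 4) ∧ (∀ t, 0 ≤ R t) ∧
      ∫ t in (w + 5 * T / 4)..(w + 7 * T / 4), R t ≤ C * (1 + Real.log Λ) * T ∧
      ∀ t0 ∈ Icc (w + 5 * T / 4) (w + 7 * T / 4),
      ∀ x1 ∈ Icc (1 / Real.log T) (Λ / Real.log T),
      ∀ s : ℂ, |s.re - 1 / 2| ≤ Λ / Real.log T → |s.im - t0| ≤ G / Real.log T →
        ‖xiF s‖ ≤ Real.exp (R t0) *
          Real.exp (-(Real.log T / (2 * a) * (x1 - |s.re - 1 / 2|))) * ‖xiF (ss x1 t0)‖ := by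
  set b : ℕ := ⌈1 / a⌉₊ with hb
  have hba : 1 / a ≤ (b : ℝ) := Nat.le_ceil _
  have hb0 : (0 : ℝ) < b := lt_of_lt_of_le (by positivity) hba
  have hb1 : 1 ≤ b := Nat.succ_le_of_lt (by exact_mod_cast hb0)
  obtain ⟨C1, T1, hC1, hexp⟩ := ShortPos.exp_moment_short hRH hb1 1 one_pos
  obtain ⟨C2, hC2, hrs⟩ := H2_gen
  obtain ⟨C3, hC3, hvm⟩ := vert_mean_w hRH ha ha1
  set K := (1 + G) * G ^ 2 / a ^ 2 + G / a with hK
  have hK0 : 0 ≤ K := by positivity
  set la := Real.log (1 / a) with hla
  have hla0 : 0 ≤ la := Real.log_nonneg (by rw [le_div_iff₀ ha]; linarith)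
  refine ⟨1 / (2 * a) + K * C1 + G * (C2 * (3 / a) * (1 + la)) + C3, by positivity,
    fun Λ hΛ => ?_⟩
  obtain ⟨T3, hvm⟩ := hvm Λ hΛ
  refine ⟨max (max (Real.exp 4) T1) (max (Real.exp Λ) T3), fun T hT w hw => ?_⟩
  have hT4 : Real.exp 4 ≤ T := (le_max_left _ _).trans ((le_max_left _ _).trans hT)
  have hTT1 : T1 ≤ T := (le_max_right _ _).trans ((le_max_left _ _).trans hT)
  have hTT2 : Real.exp Λ ≤ T := (le_max_left _ _).trans ((le_max_right _ _).trans hT)
  have hTT3 : T3 ≤ T := (le_max_right _ _).trans ((le_max_right _ _).trans hT)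
  have hvm := hvm T hTT3 w hw
  have hT0 : 0 < T := (Real.exp_pos _).trans_le hT4
  have hT5 : 5 ≤ T := by
    have := Real.add_one_le_exp (4:ℝ); linarith
  set L := Real.log T with hL
  have hL4 : 4 ≤ L := by rw [hL, Real.le_log_iff_exp_le hT0]; exact hT4
  have hΛL : Λ ≤ L := by rw [hL, Real.le_log_iff_exp_le hT0]; exact hTT2
  have hL0 : 0 < L := by linarith
  have hL1 : 1 ≤ L := by linarith
  have hlΛ : 0 ≤ Real.log Λ := Real.log_nonneg hΛ
  -- the height
  set Th := T ^ (1 / a) with hTh
  have hTTh : T ≤ Th := le_rpow_inv ha ha1 (by linarith)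
  have hTh0 : 0 < Th := by linarith
  have hlogTh : Real.log Th = L / a := log_rpow_inv hT0
  have hLa : L ≤ L / a := by
    rw [le_div_iff₀ ha]
    exact mul_le_of_le_one_right hL0.le ha1
  have hLh1 : 1 ≤ Real.log Th := by rw [hlogTh]; linarith
  have hLh0 : 0 < Real.log Th := by linarith
  have hXc := XX_continuous hRH (T := Th) hLh1
  have hXnn : ∀ t, 0 ≤ XX Th t := fun t => by
    unfold XX
    have : 0 ≤ Pool.Agent.ZGap.Res.FM.W1 Th t := tsum_nonneg fun ρ => by positivity
    positivity
  have hΛa : 1 ≤ Λ / a := by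
    rw [le_div_iff₀ ha]; linarith
  have hΛaL : Λ / a ≤ Real.log Th := by
    rw [hlogTh]; gcongr
  have hrc : Continuous (Rsum Th (Λ / a)) := H2_continuous hΛa hLh1
  have hRnn : ∀ t, 0 ≤ Rsum Th (Λ / a) t := fun t => tsum_nonneg fun ρ => by
    have : 0 ≤ (Λ / a - 1) / Real.log Th := div_nonneg (by linarith) hLh0.le
    positivity
  have hle : 1 / L ≤ Λ / L := by gcongr
  set m := L / (2 * a) with hm
  have hm0 : 0 < m := by positivity
  set J : ℝ → ℝ := fun t => ∫ y in (1 / L)..(Λ / L), H3_hw L m t y with hJ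
  have hJc : Continuous J :=
    intervalIntegral.continuous_parametric_intervalIntegral_of_continuous'
      (H3_hw_cont hRH hL0 m) _ _
  have hJnn : ∀ t, 0 ≤ J t := fun t =>
    intervalIntegral.integral_nonneg hle fun y _ => H3_hw_nonneg _ _ _ _
  have hle2 : w + T ≤ w + 2 * T := by linarith
  have hJm : ∫ t in (w + T)..(w + 2 * T), J t ≤ C3 * T * Real.log Λ :=
    H3_mean_w hRH hle2 hL0 hΛ hvm
  set R : ℝ → ℝ := fun t => 1 / (2 * a) + K * XX Th t + G / L * Rsum Th (Λ / a) t + J t with hR
  have hRc : Continuous R := ((continuous_const.add (hXc.const_mul K)).add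
    (hrc.const_mul _)).add hJc
  have hRn : ∀ t, 0 ≤ R t := fun t => by
    have := hXnn t
    have := hRnn t
    have := hJnn t
    simp only [hR]
    positivity
  refine ⟨R, hRc.intervalIntegrable _ _, hRn, ?_, ?_⟩
  · -- the mean value
    have hX1 : ∫ t in (w + T)..(w + 2 * T), XX Th t ≤ C1 * T := by
      obtain ⟨h4, h5⟩ := hw
      have hTb : Th ^ (1 / (b : ℝ)) ≤ T := by
        rw [hTh, ← Real.rpow_mul hT0.le]
        calc T ^ (1 / a * (1 / (b : ℝ))) ≤ T ^ (1 : ℝ) := by
              apply Real.rpow_le_rpow_of_exponent_le (by linarith)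
              rw [mul_one_div, div_le_one hb0]
              exact hba
          _ = T := Real.rpow_one T
      have h6 := hexp Th (hTT1.trans hTTh) (w + T) T (by linarith) (by linarith) hTb
      have e : w + T + T = w + 2 * T := by ring
      rw [e] at h6
      have hexpc : Continuous fun t => Real.exp (1 * (Pool.Agent.ZGap.Res.FM.W1 Th t +
          |D1 Th t|)) := by
        have : (fun t => Real.exp (1 * (Pool.Agent.ZGap.Res.FM.W1 Th t + |D1 Th t|))) =
            fun t => Real.exp (1 * XX Th t) := rfl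
        rw [this]
        fun_prop
      refine le_trans ?_ h6
      refine intervalIntegral.integral_mono_on hle2
        (hXc.intervalIntegrable _ _) (hexpc.intervalIntegrable _ _) fun t _ => ?_
      rw [one_mul]
      have := Real.add_one_le_exp (XX Th t)
      unfold XX at this ⊢
      linarith
    have hR1 : ∫ t in (w + T)..(w + 2 * T), Rsum Th (Λ / a) t ≤
        C2 * (3 / a) * (1 + la) * (1 + Real.log Λ) * L * T := by
      have h6 := hrs (Λ / a) (Real.log Th) T w _ hΛa hΛaL (by linarith)
        (H2_height ha ha1 (by linarith) hw)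
      rw [Real.log_pow, ← hTh, hlogTh] at h6
      have e : Real.log (Λ / a) = Real.log Λ + la := by
        rw [hla, Real.log_div (by positivity) ha.ne', Real.log_div one_ne_zero ha.ne',
          Real.log_one]
        ring
      rw [e] at h6
      have h7 : 1 + (Real.log Λ + la) ≤ (1 + la) * (1 + Real.log Λ) := by nlinarith
      have e9 : (∫ t in (w + T)..(w + 2 * T), Rsum Th (Λ / a) t) =
          ∫ t in (w + T)..(w + 2 * T), ∑' ρ : ntz, (mult ρ : ℝ) *
            H2_r (Λ / a) (L / a) (t - (ρ : ℂ).im) := by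
        rw [← hlogTh]
        rfl
      rw [e9]
      refine h6.trans ?_
      push_cast
      calc C2 * (1 + (Real.log Λ + la)) * (3 * (L / a)) * T
          ≤ C2 * ((1 + la) * (1 + Real.log Λ)) * (3 * (L / a)) * T := by gcongr
        _ = _ := by ring
    calc ∫ t in (w + 5 * T / 4)..(w + 7 * T / 4), R t ≤ ∫ t in (w + T)..(w + 2 * T), R t := by
          refine intervalIntegral.integral_mono_interval (by linarith) (by linarith)
            (by linarith) ?_ (hRc.intervalIntegrable _ _)
          exact Filter.Eventually.of_forall hRn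
      _ = 1 / (2 * a) * T + K * (∫ t in (w + T)..(w + 2 * T), XX Th t) +
          G / L * (∫ t in (w + T)..(w + 2 * T), Rsum Th (Λ / a) t)
          + ∫ t in (w + T)..(w + 2 * T), J t := by
          simp only [hR]
          rw [intervalIntegral.integral_add, intervalIntegral.integral_add,
            intervalIntegral.integral_add, intervalIntegral.integral_const,
            intervalIntegral.integral_const_mul, intervalIntegral.integral_const_mul]
          · rw [smul_eq_mul]; ring
          · exact continuous_const.intervalIntegrable _ _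
          · exact (hXc.const_mul K).intervalIntegrable _ _
          · exact (continuous_const.add (hXc.const_mul K)).intervalIntegrable _ _
          · exact (hrc.const_mul _).intervalIntegrable _ _
          · exact ((continuous_const.add (hXc.const_mul K)).add
              (hrc.const_mul _)).intervalIntegrable _ _
          · exact hJc.intervalIntegrable _ _
      _ ≤ 1 / (2 * a) * T + K * (C1 * T) +
          G / L * (C2 * (3 / a) * (1 + la) * (1 + Real.log Λ) * L * T) +
          C3 * T * Real.log Λ := by gcongr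
      _ = 1 / (2 * a) * T + K * C1 * T +
          G * (C2 * (3 / a) * (1 + la)) * (1 + Real.log Λ) * T + C3 * T * Real.log Λ := by
          field_simp
      _ ≤ (1 / (2 * a) + K * C1 + G * (C2 * (3 / a) * (1 + la)) + C3) *
            (1 + Real.log Λ) * T := by
          have e : (1 / (2 * a) + K * C1 + G * (C2 * (3 / a) * (1 + la)) + C3) *
              (1 + Real.log Λ) * T -
            (1 / (2 * a) * T + K * C1 * T +
              G * (C2 * (3 / a) * (1 + la)) * (1 + Real.log Λ) * T + C3 * T * Real.log Λ) =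
            1 / (2 * a) * Real.log Λ * T + K * C1 * Real.log Λ * T + C3 * T := by ring
          have : 0 ≤ 1 / (2 * a) * Real.log Λ * T + K * C1 * Real.log Λ * T + C3 * T := by
            positivity
          linarith
  · -- the pointwise bound
    intro t0 ht0 x1 hx1 s hs ht
    set x := |s.re - 1 / 2| with hx
    set t := s.im with htdef
    have hx0 : 0 ≤ x := abs_nonneg _
    have h1 : ‖xiF s‖ = ‖xiF (ss x t)‖ := by
      rcases le_or_gt 0 (s.re - 1 / 2) with h | h
      · congr 2
        rw [hx, abs_of_nonneg h, htdef]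
        apply Complex.ext
        · simp
        · simp
      · have e : ss x t = 1 - (starRingEnd ℂ) s := by
          rw [hx, abs_of_neg h, htdef]
          apply Complex.ext
          · simp; ring
          · simp
        rw [e, xiF_one_sub, xiF_conj', Complex.norm_conj]
    rw [h1]
    set x' := max x (1 / L) with hx'
    have h1L : 0 < 1 / L := by positivity
    have hx'0 : 0 < x' := h1L.trans_le (le_max_right _ _)
    have hx'm : x' ∈ Icc (1 / L) (Λ / L) := ⟨le_max_right _ _, max_le hs hle⟩
    have h2 : ‖xiF (ss x t)‖ ≤ ‖xiF (ss x' t)‖ := H3_mono hRH t hx0 (le_max_left _ _) hx'0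
    refine h2.trans ?_
    have hx10 : 0 < x1 := h1L.trans_le hx1.1
    have p1 : 0 < ‖xiF (ss x' t)‖ := norm_pos_iff.mpr (xiF_ne (ss_notMem hRH hx'0 t))
    have p2 : 0 < ‖xiF (ss x1 t0)‖ := norm_pos_iff.mpr (xiF_ne (ss_notMem hRH hx10 t0))
    have hGx : G / L ≤ G * x' := by
      rw [div_eq_mul_one_div]
      exact mul_le_mul_of_nonneg_left hx'm.1 hG
    have h3 := H3_log_le hRH hx'0 hG (ht.trans hGx)
    have h4 := H3_log_eq hRH t0 hx'0 hx10
    have h5 : Real.log ‖xiF (ss x' t0)‖ - Real.log ‖xiF (ss x1 t0)‖ ≤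
        J t0 - m * (x1 - x') := by
      have h6 : ∫ v in x'..x1, (logDeriv xiF (ss v t0)).re =
          (∫ v in x'..x1, ((logDeriv xiF (ss v t0)).re - m)) + m * (x1 - x') := by
        rw [intervalIntegral.integral_sub, intervalIntegral.integral_const, smul_eq_mul]
        · ring
        · exact (H3_cont_x hRH t0 (lt_min hx'0 hx10)).intervalIntegrable
        · exact continuous_const.intervalIntegrable _ _
      have h7 : |∫ v in x'..x1, ((logDeriv xiF (ss v t0)).re - m)| ≤ J t0 := by
        have h8 := intervalIntegral.norm_integral_le_integral_norm_uIoc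
          (f := fun v => (logDeriv xiF (ss v t0)).re - m) (a := x') (b := x1) (μ := volume)
        rw [Real.norm_eq_abs] at h8
        refine h8.trans ?_
        have h9 : J t0 = ∫ y in Ioc (1 / L) (Λ / L), H3_hw L m t0 y := by
          simp only [hJ]
          rw [intervalIntegral.integral_of_le hle]
        have hsub : uIoc x' x1 ⊆ Ioc (1 / L) (Λ / L) :=
          Ioc_subset_Ioc (le_min hx'm.1 hx1.1) (max_le hx'm.2 hx1.2)
        have h10 : ∫ v in uIoc x' x1, ‖(logDeriv xiF (ss v t0)).re - m‖ =
            ∫ v in uIoc x' x1, H3_hw L m t0 v := by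
          refine setIntegral_congr_fun measurableSet_uIoc fun v hv => ?_
          simp only [H3_hw]
          rw [max_eq_left (hsub hv).1.le, Real.norm_eq_abs]
        rw [h10, h9]
        have hc0 : Continuous (fun y => H3_hw L m t0 y) := H3_hw_cont_right hRH hL0 m t0
        exact setIntegral_mono_set (hc0.integrableOn_Ioc)
          (Filter.Eventually.of_forall fun y => H3_hw_nonneg _ _ _ _) hsub.eventuallyLE
      have h9 := neg_abs_le (∫ v in x'..x1, ((logDeriv xiF (ss v t0)).re - m))
      linarith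
    have h6 : |t - t0| * (|(logDeriv xiF (ss x' t0)).im| +
        |t - t0| * (1 + G) * ((logDeriv xiF (ss x' t0)).re / x')) ≤
        K * XX Th t0 + G / L * Rsum Th (Λ / a) t0 := by
      have hxh1 : 1 / Real.log Th ≤ x' := by
        refine le_trans ?_ hx'm.1
        rw [hlogTh]
        exact one_div_le_one_div_of_le hL0 hLa
      have hxh2 : x' ≤ Λ / a / Real.log Th := by
        refine hx'm.2.trans (le_of_eq ?_)
        rw [hlogTh]
        field_simp
      have h7 := H3_re_le hRH hLh1 hxh1 t0
      have h8 := H3_im_le hRH hLh1 ⟨hxh1, hxh2⟩ t0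
      have hre : 0 ≤ (logDeriv xiF (ss x' t0)).re / x' :=
        (H3_hasSum_inv hRH hx'0 t0).nonneg fun ρ => by positivity
      have hW : 0 ≤ Pool.Agent.ZGap.Res.FM.W1 Th t0 := tsum_nonneg fun ρ => by positivity
      rw [hlogTh] at h7 h8
      calc |t - t0| * (|(logDeriv xiF (ss x' t0)).im| +
          |t - t0| * (1 + G) * ((logDeriv xiF (ss x' t0)).re / x'))
          ≤ G / L * ((L / a * |D1 Th t0| + Rsum Th (Λ / a) t0) +
            G / L * (1 + G) * ((L / a) ^ 2 * Pool.Agent.ZGap.Res.FM.W1 Th t0)) := by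
            gcongr
        _ = G / a * |D1 Th t0| + (1 + G) * G ^ 2 / a ^ 2 * Pool.Agent.ZGap.Res.FM.W1 Th t0 +
            G / L * Rsum Th (Λ / a) t0 := by
            field_simp
            ring
        _ ≤ K * XX Th t0 + G / L * Rsum Th (Λ / a) t0 := by
            unfold XX
            have e : K * (Pool.Agent.ZGap.Res.FM.W1 Th t0 + |D1 Th t0|) -
              (G / a * |D1 Th t0| + (1 + G) * G ^ 2 / a ^ 2 *
                Pool.Agent.ZGap.Res.FM.W1 Th t0) =
              G / a * Pool.Agent.ZGap.Res.FM.W1 Th t0 +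
                (1 + G) * G ^ 2 / a ^ 2 * |D1 Th t0| := by
              rw [hK]; ring
            have : 0 ≤ G / a * Pool.Agent.ZGap.Res.FM.W1 Th t0 +
                (1 + G) * G ^ 2 / a ^ 2 * |D1 Th t0| := by
              positivity
            linarith
    have h7 : x' - x ≤ 1 / L := by
      rw [hx']
      rcases le_total x (1 / L) with h | h
      · rw [max_eq_right h]; linarith
      · rw [max_eq_left h]; linarith
    have h8 : m * (x' - x) ≤ 1 / (2 * a) := by
      calc m * (x' - x) ≤ m * (1 / L) := by gcongr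
        _ = 1 / (2 * a) := by rw [hm]; field_simp
    have h9 : Real.log ‖xiF (ss x' t)‖ ≤ R t0 + -(m * (x1 - x)) +
        Real.log ‖xiF (ss x1 t0)‖ := by
      simp only [hR]
      have e : m * (x1 - x) = m * (x1 - x') + m * (x' - x) := by ring
      linarith
    calc ‖xiF (ss x' t)‖ = Real.exp (Real.log ‖xiF (ss x' t)‖) := (Real.exp_log p1).symm
      _ ≤ Real.exp (R t0 + -(m * (x1 - x)) + Real.log ‖xiF (ss x1 t0)‖) :=
          Real.exp_le_exp.mpr h9
      _ = _ := by rw [Real.exp_add, Real.exp_add, Real.exp_log p2]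

end Pool.Agent.AHW
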