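import Pool.Agent.ZGap.DW.Fb4
import Pool.Agent.ZGap.DW.H3
import Pool.Agent.ZGap.AH.Fb6

/-!
# The block argument for one mollifier in a window
-/

open scoped ContDiff

namespace Pool.Agent.AHW

open Complex MeasureTheory Set Pool.Agent.Hadamard Pool.Agent.HalfGap Pool.Agent.AHD

/-- the local average of `Hf` -/
noncomputable def Pf (D : AData) (Y σ T : ℝ) (J : ℕ) (t : ℝ) : ℝ :=
  ∫ a in (-3)..((J : ℝ) + 3), Kf D Y σ T (t + alp σ T * a)

variable {D : AData} {Y σ T : ℝ}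

lemma Pf_continuous (hRH : RiemannHypothesis) (hσ : 0 < σ) (hT : 0 < alp σ T) (J : ℕ) :
    Continuous (Pf D Y σ T J) := by
  unfold Pf
  apply cont_int
  exact (Kf_continuous hRH hσ hT).comp (by fun_prop)

lemma Pf_nonneg (hσ : 0 < σ) (hb : bz D σ ≤ 2 * Y + 1) (J : ℕ) (t : ℝ) :
    0 ≤ Pf D Y σ T J t := by
  unfold Pf
  refine intervalIntegral.integral_nonneg ?_ fun a _ => Kf_nonneg hσ hb _
  have : (0 : ℝ) ≤ J := Nat.cast_nonneg J
  linarith

lemma Pf_integral (hRH : RiemannHypothesis) (hσ : 0 < σ) (hT : 0 < alp σ T)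
    (hb : bz D σ ≤ 2 * Y + 1) (J : ℕ) (hJ : alp σ T * (J + 3) ≤ 1) (hT1 : 8 ≤ T) (w : ℝ) :
    ∫ t in (w + 5 * T / 4 + 1)..(w + 7 * T / 4 - 1), Pf D Y σ T J t ≤
      (J + 6) * ∫ t in (w + 5 * T / 4)..(w + 7 * T / 4), Kf D Y σ T t := by
  have hJ0 : (0 : ℝ) ≤ J := Nat.cast_nonneg J
  have hc := Kf_continuous (D := D) (Y := Y) hRH hσ hT
  have hn := fun t => Kf_nonneg (D := D) (T := T) hσ hb t
  unfold Pf
  rw [swap_cont (f := fun t a => Kf D Y σ T (t + alp σ T * a)) (hc.comp (by fun_prop)) (by linarith)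
    (by linarith)]
  have h1 : ∀ a ∈ Icc (-3 : ℝ) (J + 3),
      ∫ t in (w + 5 * T / 4 + 1)..(w + 7 * T / 4 - 1), Kf D Y σ T (t + alp σ T * a) ≤
      ∫ t in (w + 5 * T / 4)..(w + 7 * T / 4), Kf D Y σ T t := by
    intro a ha
    rw [intervalIntegral.integral_comp_add_right (fun t => Kf D Y σ T t)]
    have h3 : alp σ T * a ≤ 1 := by
      refine le_trans ?_ hJ
      exact mul_le_mul_of_nonneg_left ha.2 hT.le
    have h4 : -1 ≤ alp σ T * a := by
      have h5 : alp σ T * (-3) ≤ alp σ T * a := mul_le_mul_of_nonneg_left ha.1 hT.le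
      have h6 : alp σ T * 3 ≤ alp σ T * (J + 3) := mul_le_mul_of_nonneg_left (by linarith) hT.le
      linarith
    apply intervalIntegral.integral_mono_interval (by linarith) (by linarith) (by linarith)
    · exact Filter.Eventually.of_forall hn
    · exact hc.intervalIntegrable _ _
  have h2 : ∫ a in (-3)..((J : ℝ) + 3),
      ∫ t in (w + 5 * T / 4 + 1)..(w + 7 * T / 4 - 1), Kf D Y σ T (t + alp σ T * a) ≤
      ∫ _a in (-3)..((J : ℝ) + 3), ∫ t in (w + 5 * T / 4)..(w + 7 * T / 4), Kf D Y σ T t := by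
    apply intervalIntegral.integral_mono_on (by linarith)
    · apply Continuous.intervalIntegrable
      exact cont_int (f := fun a t => Kf D Y σ T (t + alp σ T * a)) (hc.comp (by fun_prop)) _ _
    · exact (continuous_const).intervalIntegrable _ _
    · exact h1
  refine h2.trans (le_of_eq ?_)
  rw [intervalIntegral.integral_const, smul_eq_mul]
  ring

/-- the exceptional set for `Qf` -/
lemma Pf_bad (hRH : RiemannHypothesis) (hσ : 0 < σ) (hT : 0 < alp σ T)
    (hb : bz D σ ≤ 2 * Y + 1) (J : ℕ) (hJ : alp σ T * (J + 3) ≤ 1) (hT1 : 8 ≤ T) (w : ℝ)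
    {K M : ℝ} (hM : 0 < M) (hK : ∫ t in (w + 5 * T / 4)..(w + 7 * T / 4), Kf D Y σ T t ≤ K) :
    volume.real {t | t ∈ Icc (w + 5 * T / 4 + 1) (w + 7 * T / 4 - 1) ∧ M ≤ Pf D Y σ T J t} ≤
      (J + 6) * K / M := by
  apply markov (by linarith) hM ((Pf_continuous hRH hσ hT J).intervalIntegrable _ _)
    (Pf_nonneg hσ hb J)
  refine (Pf_integral hRH hσ hT hb J hJ hT1 w).trans ?_
  have hJ0 : (0 : ℝ) ≤ J := Nat.cast_nonneg J
  exact mul_le_mul_of_nonneg_left hK (by linarith)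

/-- the constants of the argument -/
lemma const_ep_w {K B ep : ℝ} (hK : 0 < K) (hB : 1 ≤ B) (h0 : 0 < ep)
    (h : ep ≤ Real.exp (-(K + 2 * Real.log (80000 * B) + 1))) :
    K ≤ Real.log (1 / ep) ∧ 1 ≤ Real.log (1 / ep) ∧ 10 * (B * Yc ep) * ep ≤ 1 ∧ 1 ≤ Yc ep := by
  have hB0 : 0 < B := by linarith
  have h8 : 0 < Real.log (80000 * B) := Real.log_pos (by linarith)
  set L := Real.log (1 / ep) with hL
  have hL1 : K + 2 * Real.log (80000 * B) + 1 ≤ L := by
    rw [hL, Real.le_log_iff_exp_le (by positivity), le_div_iff₀ h0, ← le_div_iff₀' (Real.exp_pos _),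
      one_div, ← Real.exp_neg]
    exact h
  refine ⟨by linarith, by linarith, ?_, ?_⟩
  · have e1 : ep = Real.exp (-L) := by
      rw [hL, one_div, Real.log_inv, neg_neg, Real.exp_log h0]
    unfold Yc
    rw [← hL]
    have h2 : L ^ 2 ≤ 8 * Real.exp (L / 2) := by
      have := Real.quadratic_le_exp_of_nonneg (x := L / 2) (by linarith)
      nlinarith
    have h3 : Real.exp (-L) = Real.exp (-(L / 2)) * Real.exp (-(L / 2)) := by
      rw [← Real.exp_add]; congr 1; ring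
    have h4 : Real.exp (L / 2) * Real.exp (-(L / 2)) = 1 := by
      rw [← Real.exp_add]; simp
    have h5 : Real.exp (-(L / 2)) ≤ 1 / (80000 * B) := by
      rw [one_div, ← Real.exp_log (by positivity : (0:ℝ) < 80000 * B), ← Real.exp_neg,
        Real.exp_le_exp]
      linarith
    have h6 := Real.exp_pos (-(L / 2))
    have h7 : 80000 * B * Real.exp (-(L / 2)) ≤ 1 := by
      calc 80000 * B * Real.exp (-(L / 2)) ≤ 80000 * B * (1 / (80000 * B)) := by gcongr
        _ = 1 := by field_simp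
    rw [e1, h3]
    calc 10 * (B * (1000 * L ^ 2)) * (Real.exp (-(L / 2)) * Real.exp (-(L / 2)))
        ≤ 10 * (B * (1000 * (8 * Real.exp (L / 2)))) *
          (Real.exp (-(L / 2)) * Real.exp (-(L / 2))) := by
          gcongr
      _ = 80000 * B * (Real.exp (L / 2) * Real.exp (-(L / 2))) * Real.exp (-(L / 2)) := by ring
      _ = 80000 * B * Real.exp (-(L / 2)) := by rw [h4]; ring
      _ ≤ 1 := h7
  · unfold Yc
    rw [← hL]
    nlinarith

/-- One set of data: outside a small set, a non-lattice gap bounds the value of `V`. -/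
theorem block_one_w (hRH : RiemannHypothesis) {a : ℝ} (ha : 0 < a) (ha1 : a ≤ 1) {e θ μ : ℝ}
    (he : 0 < e) (he1 : e ≤ 1) (hθ : 0 < θ)
    (hθ8 : θ ≤ 1 / 8) (hμ : 0 < μ) (J : ℕ) : ∃ A r : ℝ, 0 < A ∧ 0 < r ∧
    ∀ D : AData, D.ep ≤ r → ∀ τ : ℝ, 1 / (1 + a) - D.ep ^ 2 ≤ τ → τ < 1 / (1 + a) →
    ∃ δ T0 : ℝ, 0 < δ ∧ ∀ T : ℝ, T0 ≤ T → ∀ w : ℝ, Hgt a θ T w → FewW (a * τ) δ θ T w →
      ∃ S : Set ℝ, volume.real S ≤ μ * T ∧ S ⊆ Icc (w + 5 * T / 4) (w + 7 * T / 4) ∧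
        ∀ t0 ∈ Icc (w + 5 * T / 4 + 1) (w + 7 * T / 4 - 1), t0 ∉ S → ∀ g1 g2 : ℝ, Xr g1 = 0 →
          Xr g2 = 0 → |t0 - g1| ≤ alp (a * τ) T / 8 → 0 < g2 - g1 →
          g2 - g1 ≤ J * alp (a * τ) T →
          (∀ m : ℤ, e ≤ |(g2 - g1) / alp (a * τ) T - m|) →
          ‖Vs D T (ss (alp (1 / 2) T * Yc D.ep) t0)‖ ≤ Real.log (1 / D.ep) ^ A := by
  obtain ⟨C4, hC4, hZ⟩ := contour_rigid J
  obtain ⟨C3, hC3, hX⟩ := xi_ratio_w hRH ha ha1 (4 * ((J : ℝ) + 4)) (by positivity)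
  obtain ⟨CM, hCM, hM⟩ := Gb_mean hRH ha ha1
  have hJ0 : (0 : ℝ) ≤ J := Nat.cast_nonneg J
  have hpi := Real.pi_pos
  have hpi3 := Real.pi_gt_three
  have hpi4 := Real.pi_le_four
  set c : ℝ := 2 * C3 / μ with hc
  have hc0 : 0 < c := by positivity
  set P : ℝ := C4 / e * (2 * ((J + 6) * CM) / μ) with hP
  have hP0 : 0 < P := by positivity
  set K0 : ℝ := P * Real.exp (c * (1 + Real.log 20000) + 1) with hK0
  have hK00 : 0 < K0 := by positivity
  have hB : 1 ≤ 2 / a := by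
    rw [le_div_iff₀ ha]; linarith
  refine ⟨2 * c + 5, min a (Real.exp (-(K0 + 2 * Real.log (80000 * (2 / a)) + 1))),
    by positivity, lt_min ha (Real.exp_pos _), ?_⟩
  intro D hD τ hτ hτ'
  have hep := D.ep_pos
  have hep1 := D.ep_le
  have hDa : D.ep ≤ a := hD.trans (min_le_left _ _)
  obtain ⟨k1, k2, k3', k4'⟩ := const_ep_w hK00 hB D.ep_pos (hD.trans (min_le_right _ _))
  have hτ49 := tau_pos ha ha1 hep hep1 hτ
  have hτ0 : 0 < τ := by linarith
  have hσ0' : 0 < a * τ := by positivity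
  have hσ2' := sig_lt ha ha1 hτ'
  have hσ49' := sig_gt ha hτ49
  obtain ⟨hm1, hm2⟩ := tau_mul ha ha1 hτ hτ'
  have hcc : 0 ≤ Real.pi - c0 D (a * τ) - Real.pi * τ ∧
      Real.pi - c0 D (a * τ) - Real.pi * τ ≤ Real.pi * D.ep := by
    have e0 : Real.pi - c0 D (a * τ) - Real.pi * τ =
        Real.pi * (1 - τ * (1 + a) + D.ep * (a * τ)) := by
      unfold c0
      ring
    have g1 : 0 ≤ D.ep * (a * τ) := by positivity
    have g2 : D.ep * (a * τ) ≤ D.ep * (1 / 2) := mul_le_mul_of_nonneg_left hσ2'.le hep.le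
    have g3 : D.ep ^ 2 ≤ 1 / 100 * D.ep := by nlinarith
    rw [e0]
    exact ⟨mul_nonneg hpi.le (by linarith), mul_le_mul_of_nonneg_left (by linarith) hpi.le⟩
  have hbz1 : bz D (a * τ) ≤ 1 := by
    unfold bz
    rw [div_le_one (by positivity)]
    have g1 : 3 * (a * τ) ≤ Real.pi * (a * τ) := mul_le_mul_of_nonneg_right hpi3.le hσ0'.le
    have g2 : D.ep ^ 2 ≤ 1 * D.ep := by nlinarith
    linarith
  obtain ⟨Y, hYdef⟩ : ∃ Y, Y = Yc D.ep / (2 * (a * τ)) := ⟨_, rfl⟩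
  have hYc : 2 * (a * τ) * Y = Yc D.ep := by
    rw [hYdef]
    field_simp
  have hY0 : 0 < Y := by
    rw [hYdef]
    have : 0 < Yc D.ep := by linarith
    positivity
  have hYY : Yc D.ep ≤ Y := by
    rw [← hYc]
    exact mul_le_of_le_one_left hY0.le (by linarith)
  have hYB : Y ≤ 2 / a * Yc D.ep := by
    rw [← hYc]
    have g1 : Y * 1 ≤ Y * (2 / a * (2 * (a * τ))) := by
      refine mul_le_mul_of_nonneg_left ?_ hY0.le
      have g2 : 2 / a * (2 * (a * τ)) = 4 * τ := by field_simp; ring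
      rw [g2]
      linarith
    linarith
  have k3 : 10 * Y * D.ep ≤ 1 := by
    refine le_trans ?_ k3'
    exact mul_le_mul_of_nonneg_right (mul_le_mul_of_nonneg_left hYB (by norm_num)) hep.le
  have k4 : 1 ≤ Y := k4'.trans hYY
  have habs := const_absorb (c := c) k2 (P := P) (K0 := K0) le_rfl k1
  obtain ⟨δ, T1, hδ, hmean⟩ := hM D hDa τ θ Y k3 hτ hτ' hθ hθ8 hYc
  obtain ⟨T2, hxi⟩ := hX (20 * Yc D.ep) (by linarith)
  obtain ⟨σ, hσdef⟩ : ∃ σ, σ = a * τ := ⟨_, rfl⟩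
  rw [← hσdef] at hσ0' hσ2' hσ49' hcc hbz1 hYc
  simp only [← hσdef] at hmean ⊢
  set L := Real.log (1 / D.ep) with hL
  have hL0 : 0 < L := by linarith
  have hlogT : ∀ᶠ T in Filter.atTop, Real.pi * (J + 3) + 1 ≤ Real.log T :=
    Real.tendsto_log_atTop.eventually_ge_atTop _
  obtain ⟨T3, hT3⟩ := Filter.eventually_atTop.mp hlogT
  refine ⟨δ, max (max T1 T2) (max T3 8), hδ, fun T hT w hw hFew => ?_⟩
  have hT1 : T1 ≤ T := le_trans (le_trans (le_max_left _ _) (le_max_left _ _)) hT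
  have hT2 : T2 ≤ T := le_trans (le_trans (le_max_right _ _) (le_max_left _ _)) hT
  have hT3' : T3 ≤ T := le_trans (le_trans (le_max_left _ _) (le_max_right _ _)) hT
  have hT8 : 8 ≤ T := le_trans (le_trans (le_max_right _ _) (le_max_right _ _)) hT
  have hlog := hT3 T hT3'
  have hlog1 : 1 ≤ Real.log T := by
    have : 0 ≤ Real.pi * (J + 3) := by positivity
    linarith
  have hlog0 : 0 < Real.log T := by linarith
  have hA1 : 2 * Real.pi * σ ≤ Real.pi := by
    have : Real.pi * (2 * σ) ≤ Real.pi * 1 := mul_le_mul_of_nonneg_left (by linarith) hpi.le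
    linarith
  have hα : 0 < alp σ T := by unfold alp; positivity
  have hα2 : alp σ T * Real.log T = 2 * Real.pi * σ := by unfold alp; field_simp
  have hαle : alp σ T * (J + 3) ≤ 1 := by
    have h1 : alp σ T * (J + 3) = 2 * Real.pi * σ * (J + 3) / Real.log T := by unfold alp; ring
    rw [h1, div_le_one hlog0]
    have h3 : 2 * Real.pi * σ * (J + 3) ≤ Real.pi * (J + 3) :=
      mul_le_mul_of_nonneg_right hA1 (by linarith)
    linarith
  have hT0 : 0 < T := by linarith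
  have hw0 : Hgt a 0 T w := Hgt_mono hT0.le hw hθ.le
  obtain ⟨R, hRi, hR0, hRm, hR⟩ := hxi T hT2 w hw0
  have hm := hmean T hT1 w hw hFew
  have hAL : Real.log T / (2 * a) * alp σ T = Real.pi * τ := by
    rw [hσdef]
    unfold alp
    field_simp
  have hYT : alp σ T * Y = alp (1 / 2) T * Yc D.ep := by
    rw [← hYc]
    unfold alp
    field_simp
  rw [← hYT]
  have hlogΛ : 0 ≤ Real.log (20 * Yc D.ep) := Real.log_nonneg (by linarith)
  set Λ1 : ℝ := 1 + Real.log (20 * Yc D.ep) with hΛ1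
  have hΛ10 : 0 < Λ1 := by linarith
  have hMR : 0 < c * Λ1 := by positivity
  set MQ := 2 * ((J + 6) * CM) / μ * L ^ 4 with hMQd
  have hMQ : 0 < MQ := by positivity
  have b1 : volume.real {t | t ∈ Icc (w + 5 * T / 4) (w + 7 * T / 4) ∧ c * Λ1 ≤ R t} ≤
      C3 * Λ1 * T / (c * Λ1) := markov (by linarith) hMR hRi hR0 hRm
  have b2 := Pf_bad (D := D) (Y := Y) hRH hσ0' hα (by linarith) J hαle hT8 w hMQ hm
  refine ⟨{t | t ∈ Icc (w + 5 * T / 4) (w + 7 * T / 4) ∧ c * Λ1 ≤ R t} ∪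
    {t | t ∈ Icc (w + 5 * T / 4 + 1) (w + 7 * T / 4 - 1) ∧ MQ ≤ Pf D Y σ T J t}, ?_, ?_, ?_⟩
  · refine (measureReal_union_le _ _).trans ?_
    have e1 : C3 * Λ1 * T / (c * Λ1) = μ / 2 * T := by
      rw [hc]; field_simp
    have e2 : (J + 6) * (CM * L ^ 4 * T) / MQ = μ / 2 * T := by
      rw [hMQd]; field_simp
    rw [e1] at b1
    rw [e2] at b2
    linarith
  · rintro t (h | h)
    · exact h.1
    · exact ⟨by linarith [h.1.1], by linarith [h.1.2]⟩
  · intro t0 ht0 hS g1 g2 hg1 hg2 hg hd1 hd2 hdm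
    rw [mem_union, not_or] at hS
    have ht0' : t0 ∈ Icc (w + 5 * T / 4) (w + 7 * T / 4) := ⟨by linarith [ht0.1], by linarith [ht0.2]⟩
    have h1 : R t0 < c * Λ1 := by
      by_contra h
      exact hS.1 ⟨ht0', not_lt.mp h⟩
    have h2 : Pf D Y σ T J t0 < MQ := by
      by_contra h
      exact hS.2 ⟨ht0, not_lt.mp h⟩
    have hdiv : g2 / alp σ T - g1 / alp σ T = (g2 - g1) / alp σ T := by ring
    have hz := hZ (pz D σ T) (pz_differentiable D σ T) (g1 / alp σ T) (g2 / alp σ T)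
      (t0 / alp σ T) Y (2 * Y) e (pz_zero D hα.ne' hg1) (pz_zero D hα.ne' hg2)
      (by rw [hdiv]; positivity) (by rw [hdiv, div_le_iff₀ hα]; exact hd2) he he1
      (fun m => by rw [hdiv]; exact hdm m)
      (by
        have h3 : t0 / alp σ T - g1 / alp σ T = (t0 - g1) / alp σ T := by ring
        rw [h3, abs_div, abs_of_pos hα, div_le_iff₀ hα]
        linarith) k4 le_rfl
    have hp := Gb_point hRH (J := J) (C := C4) (e := e) (R := c * Λ1) hσ0' hσ2' hbz1 hcc hAL hYc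
      hlog0 k3 k4 k4' hC4 he hg
      hz (by
        intro s hs1 hs2
        have h3 : alp σ T * Y * Real.log T = Real.pi * Yc D.ep := by
          rw [← hYc]
          calc alp σ T * Y * Real.log T = alp σ T * Real.log T * Y := by ring
            _ = _ := by rw [hα2]; ring
        refine (hR t0 ht0' (alp σ T * Y) ⟨?_, ?_⟩ s hs1 hs2).trans ?_
        · rw [div_le_iff₀ hlog0, h3]
          calc (1 : ℝ) = 1 * 1 := by ring
            _ ≤ Real.pi * Yc D.ep := by gcongr; linarith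
        · rw [le_div_iff₀ hlog0, h3]
          exact mul_le_mul_of_nonneg_right (by linarith) (by linarith)
        · have h3 : Real.exp (R t0) ≤ Real.exp (c * Λ1) := Real.exp_le_exp.mpr h1.le
          gcongr)
    refine hp.trans ?_
    have h3 : (∫ a in (-3)..((J : ℝ) + 3), Kf D Y σ T (t0 + alp σ T * a)) = Pf D Y σ T J t0 := rfl
    rw [h3]
    refine le_trans ?_ habs
    have h5 : Real.exp (c * Λ1 + 1) * (P * L ^ 4) = C4 / e * (Real.exp (c * Λ1 + 1) * MQ) := by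
      rw [hP, hMQd]; ring
    rw [h5]
    have h6 : Real.exp (c * Λ1 + 1) * Pf D Y σ T J t0 ≤ Real.exp (c * Λ1 + 1) * MQ :=
      mul_le_mul_of_nonneg_left h2.le (Real.exp_pos _).le
    exact mul_le_mul_of_nonneg_left h6 (by positivity)

end Pool.Agent.AHW
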