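import Pool.Agent.ZGap.DW.Defs
import Pool.Agent.ZGap.AH.Fd
import Pool.Agent.ZGap.PS.Index

/-!
# Counting in a window, for the dichotomy
-/

set_option autoImplicit false

open scoped ContDiff

namespace Pool.Agent.AHW

open Complex MeasureTheory Set Pool.Agent.Hadamard Pool.Agent.HalfGap Pool.Agent.AHD

lemma ordinate_zero : ZetaGaps.ordinate 0 = 0 := by
  unfold ZetaGaps.ordinate
  simp [Real.sInf_univ]

/-- Close pairs in a window cover the exceptional set. -/
lemma FdW_EE_le {α x y : ℝ} {A : Finset ℕ} (hα : 0 < α) (hx : 2 * α ≤ x)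
    (hA : ∀ n : ℕ, 1 ≤ n → x - 2 * α ≤ ZetaGaps.ordinate n →
      ZetaGaps.ordinate (n + 1) ≤ y + 2 * α →
      ZetaGaps.ordinate (n + 1) - ZetaGaps.ordinate n < α → n ∈ A) :
    volume.real (EE α ∩ Icc x y) ≤ A.card * (3 * α) := by
  have hcov : EE α ∩ Icc x y ⊆ ⋃ n ∈ A, Set.Icc (ZetaGaps.ordinate n - 3 * α / 2)
      (ZetaGaps.ordinate n + 3 * α / 2) := by
    rintro t ⟨⟨z, hz, hbz, htz⟩, ht1, ht2⟩
    have htz' := abs_le.mp htz
    have hex : ∃ w, Xr w = 0 ∧ (z ≠ w ∨ deriv Xr z = 0) ∧ |w - z| < α := by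
      rcases hbz with h | ⟨w, hw, hne, hlt⟩
      · exact ⟨z, hz, Or.inr h, by simpa using hα⟩
      · exact ⟨w, hw, Or.inl (Ne.symm hne), hlt⟩
    obtain ⟨w, hw, hor, hlt⟩ := hex
    have hlt' := abs_lt.mp hlt
    set M := max z w with hM
    have e1 : z ≤ M := le_max_left z w
    have e2 : w ≤ M := le_max_right z w
    have e3 : M < z + α := max_lt (by linarith) (by linarith [hlt'.2])
    have e4 : M < w + α := max_lt (by linarith [hlt'.1]) (by linarith)
    have h1 : ZetaGaps.zeroCount (M - α) + 2 ≤ ZetaGaps.zeroCount M :=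
      count_of_two hz hw hor (by linarith) (by linarith) e1 (by linarith) e2
    set n := ZetaGaps.zeroCount (M - α) + 1 with hn
    have hn1 : 1 ≤ n := by omega
    have h2 : M - α < ZetaGaps.ordinate n := by
      by_contra hcon
      push Not at hcon
      have := (ZetaGaps.le_zeroCount_iff (ZetaGaps.zeroCount_unbounded n) hn1).mpr hcon
      omega
    have h3 : ZetaGaps.ordinate (n + 1) ≤ M :=
      (ZetaGaps.le_zeroCount_iff (ZetaGaps.zeroCount_unbounded (n + 1)) (by omega)).mp (by omega)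
    have h4 := ZetaGaps.ordinate_mono (ZetaGaps.zeroCount_unbounded (n + 1)) hn1
      (show n ≤ n + 1 by omega)
    have h5 : n ∈ A := hA n hn1 (by linarith) (by linarith) (by linarith)
    simp only [Set.mem_iUnion, Set.mem_Icc, exists_prop]
    exact ⟨n, h5, by linarith, by linarith⟩
  have hfin : volume (⋃ n ∈ A, Set.Icc (ZetaGaps.ordinate n - 3 * α / 2)
      (ZetaGaps.ordinate n + 3 * α / 2)) ≠ ⊤ := by
    refine ne_top_of_le_ne_top ?_ (measure_biUnion_finset_le A _)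
    refine ENNReal.sum_ne_top.mpr fun n _ => ?_
    rw [Real.volume_Icc]; exact ENNReal.ofReal_ne_top
  refine (measureReal_mono hcov hfin).trans ?_
  refine (measureReal_biUnion_finset_le A _).trans ?_
  rw [← nsmul_eq_mul, ← Finset.sum_const]
  refine Finset.sum_le_sum fun n hn => ?_
  rw [Real.volume_real_Icc, max_eq_left (by linarith)]
  linarith

/-- Facts on a large height. -/
lemma FdW_alp {τ T : ℝ} (hτ0 : 49 / 100 < τ) (hτ1 : τ < 1) (hL : 14 ≤ Real.log T) :
    0 < alp τ T ∧ alp τ T * Real.log T = 2 * Real.pi * τ ∧ alp τ T ≤ 1 / 2 := by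
  have hpi := Real.pi_pos
  have hpi4 := Real.pi_lt_d2
  have hLpos : 0 < Real.log T := by linarith
  have hα : 0 < alp τ T := by unfold alp; positivity
  have hαL : alp τ T * Real.log T = 2 * Real.pi * τ := by
    unfold alp; exact div_mul_cancel₀ _ hLpos.ne'
  refine ⟨hα, hαL, ?_⟩
  by_contra hcon
  push Not at hcon
  have h1 : 1 / 2 * 14 ≤ alp τ T * Real.log T :=
    mul_le_mul hcon.le hL (by norm_num) hα.le
  rw [hαL] at h1
  have h2 : 2 * Real.pi * τ ≤ 2 * Real.pi * 1 := mul_le_mul_of_nonneg_left hτ1.le (by positivity)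
  linarith

/-- The logarithm of an ordinate in the window. -/
lemma FdW_log {T γ : ℝ} (hT : 1 ≤ T) (hγ0 : 0 < γ) (hγ : γ ≤ 2 * T) :
    Real.log γ ≤ Real.log T + 1 := by
  have h8 := Real.log_le_log hγ0 hγ
  rw [Real.log_mul (by norm_num) (by linarith)] at h8
  have := Real.log_two_lt_d9
  linarith

/-- Few small gaps give a small exceptional set. -/
lemma FdW_few {c τ δ T x y : ℝ} {A : Finset ℕ} (hτ0 : 49 / 100 < τ) (hτ1 : τ < 1) (hτc : τ < c)
    (hδ : δ ≤ (c - τ) / 2) (hL : 14 ≤ Real.log T) (hLc : 8 / (c - τ) ≤ Real.log T) (hT : 1 ≤ T)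
    (hx : T + 1 ≤ x) (hy : y + 1 ≤ 2 * T)
    (hA : ∀ n : ℕ, 1 ≤ n → x - 1 ≤ ZetaGaps.ordinate n → ZetaGaps.ordinate (n + 1) ≤ y + 1 →
      ZetaGaps.gap n < c - δ → n ∈ A) :
    volume.real (EE (alp τ T) ∩ Icc x y) ≤ A.card * (3 * alp τ T) := by
  have hpi := Real.pi_pos
  have hd : 0 < c - τ := by linarith
  obtain ⟨hα, hαL, hα2⟩ := FdW_alp hτ0 hτ1 hL
  rw [div_le_iff₀ hd] at hLc
  apply FdW_EE_le hα (by linarith)
  intro n hn h0 h1 h2
  have hpos := ZetaGaps.ordinate_pos (ZetaGaps.zeroCount_unbounded (n + 1))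
    (show 1 ≤ n + 1 by omega)
  have h3 : ZetaGaps.ordinate (n + 1) ≤ 2 * T := by linarith
  have h4 := FdW_log hT hpos h3
  apply hA n hn (by linarith) (by linarith)
  set L := Real.log T with hLdef
  have hLpos : 0 < L := by linarith
  have h5 := ZetaGaps.gap_le hn
  have h6 : (ZetaGaps.ordinate (n + 1) - ZetaGaps.ordinate n) *
      (Real.log (ZetaGaps.ordinate (n + 1)) + 1) ≤ alp τ T * (L + 2) := by
    have e2 : 0 ≤ ZetaGaps.ordinate (n + 1) - ZetaGaps.ordinate n := by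
      have := ZetaGaps.ordinate_mono (ZetaGaps.zeroCount_unbounded (n + 1)) hn
        (show n ≤ n + 1 by omega)
      linarith
    calc _ ≤ (ZetaGaps.ordinate (n + 1) - ZetaGaps.ordinate n) * (L + 2) := by
          apply mul_le_mul_of_nonneg_left (by linarith) e2
      _ ≤ _ := by
          apply mul_le_mul_of_nonneg_right (by linarith) (by linarith)
  have h7 : ZetaGaps.gap n ≤ alp τ T * (L + 2) / (2 * Real.pi) :=
    h5.trans (div_le_div_of_nonneg_right h6 (by positivity))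
  have h8 : alp τ T * (L + 2) / (2 * Real.pi) = τ + 2 * τ / L := by
    unfold alp
    rw [← hLdef]
    field_simp
  have h9 : 2 * τ / L < (c - τ) / 2 := by
    rw [div_lt_iff₀ hLpos]
    linarith
  linarith

/-- A bad gap of moderate size. -/
lemma FdW_bad {a τ e ε T : ℝ} {n S : ℕ} (ha : 0 < a) (ha1 : a ≤ 1) (hτ0 : 49 / 100 < τ)
    (hτe : 1 / (1 + a) - e ≤ τ) (hτc : τ < 1 / (1 + a))
    (he : 0 < e) (heS : e * (6 * S + 1) ≤ ε / 2) (hLS : 8 * S ≤ ε * Real.log T)
    (hL : 14 ≤ Real.log T) (hT : 1 ≤ T) (hn : 1 ≤ n)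
    (hγ : T ≤ ZetaGaps.ordinate n) (hγ2 : ZetaGaps.ordinate n + 2 * S ≤ 2 * T)
    (hg1 : 1 / 3 ≤ ZetaGaps.gap n) (hg2 : ZetaGaps.gap n ≤ S)
    (hbad : ∀ m : ℤ, ε < |ZetaGaps.gap n - m / (1 + a)|) :
    alp τ T / 4 < ZetaGaps.ordinate (n + 1) - ZetaGaps.ordinate n ∧
    ZetaGaps.ordinate (n + 1) - ZetaGaps.ordinate n ≤ (3 * S : ℕ) * alp τ T ∧
    ∀ m : ℤ, e ≤ |(ZetaGaps.ordinate (n + 1) - ZetaGaps.ordinate n) / alp τ T - m| := by
  have hpi := Real.pi_pos
  have hpi4 := Real.pi_lt_d2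
  have hpi3 := Real.pi_gt_three
  have h1a : 0 < 1 + a := by linarith
  have hτ1 : τ < 1 := by
    have : 1 / (1 + a) < 1 := by rw [div_lt_one h1a]; linarith
    linarith
  obtain ⟨hα, hαL, hα2⟩ := FdW_alp hτ0 hτ1 hL
  set L := Real.log T with hLdef
  have hLpos : 0 < L := by linarith
  have hS0 : (0 : ℝ) < S := by linarith
  have hTpos : 0 < T := by linarith
  set D := ZetaGaps.ordinate (n + 1) - ZetaGaps.ordinate n with hD
  have hDnn : 0 ≤ D := by
    have := ZetaGaps.ordinate_mono (ZetaGaps.zeroCount_unbounded (n + 1)) hn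
      (show n ≤ n + 1 by omega)
    linarith
  have hlog : L ≤ Real.log (ZetaGaps.ordinate n) := Real.log_le_log hTpos hγ
  have h1 : D * L ≤ 2 * Real.pi * ZetaGaps.gap n :=
    (mul_le_mul_of_nonneg_left hlog hDnn).trans (ZetaGaps.gap_ge hn)
  have h2 : D * L ≤ 2 * Real.pi * S := h1.trans (by gcongr)
  have hD4 : D ≤ 2 * S := by
    by_contra hcon
    push Not at hcon
    have h3 := mul_le_mul_of_nonneg_left hL hDnn
    have h4 := mul_le_mul_of_nonneg_right hpi4.le hS0.le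
    linarith
  have hpos := ZetaGaps.ordinate_pos (ZetaGaps.zeroCount_unbounded (n + 1))
    (show 1 ≤ n + 1 by omega)
  have h3 : ZetaGaps.ordinate (n + 1) ≤ 2 * T := by linarith
  have h4 := FdW_log hT hpos h3
  rw [← hLdef] at h4
  have h5 : 2 * Real.pi * ZetaGaps.gap n ≤ D * (L + 2) := by
    have h6 := ZetaGaps.gap_le hn
    rw [le_div_iff₀ (by positivity)] at h6
    calc 2 * Real.pi * ZetaGaps.gap n = ZetaGaps.gap n * (2 * Real.pi) := by ring
      _ ≤ _ := h6
      _ ≤ D * (L + 2) := mul_le_mul_of_nonneg_left (by linarith) hDnn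
  refine ⟨?_, ?_, ?_⟩
  · -- lower bound
    by_contra hcon
    push Not at hcon
    have e1 : D * (L + 2) ≤ alp τ T / 4 * (L + 2) :=
      mul_le_mul_of_nonneg_right hcon (by linarith)
    have e3 := mul_le_mul_of_nonneg_left hτ1.le hpi.le
    have e4 := mul_le_mul_of_nonneg_left hg1 hpi.le
    linarith
  · -- upper bound
    push_cast
    have e1 : D * L ≤ 3 * S * alp τ T * L := by
      rw [mul_assoc (3 * (S : ℝ)), hαL]
      have e2 := mul_le_mul_of_nonneg_left hτ0.le (mul_pos hpi hS0).le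
      have e3 : 0 < Real.pi * S := mul_pos hpi hS0
      linarith
    exact le_of_mul_le_mul_right e1 hLpos
  · intro m
    set x := D / alp τ T with hx
    have hxα : x * alp τ T = D := div_mul_cancel₀ _ hα.ne'
    -- `x τ = D L / 2π`
    have e1 : x * τ * (2 * Real.pi) = D * L := by
      calc x * τ * (2 * Real.pi) = x * (2 * Real.pi * τ) := by ring
        _ = x * (alp τ T * L) := by rw [hαL]
        _ = D * L := by rw [← mul_assoc, hxα]
    have hx0 : 0 ≤ x := div_nonneg hDnn hα.le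
    have e2 : x * τ ≤ ZetaGaps.gap n := by
      have : x * τ * (2 * Real.pi) ≤ ZetaGaps.gap n * (2 * Real.pi) := by
        rw [e1]; linarith
      exact le_of_mul_le_mul_right this (by positivity)
    have e4 : ZetaGaps.gap n ≤ x * τ + 2 * S / L := by
      have e5 : ZetaGaps.gap n * (2 * Real.pi) ≤ (x * τ + 2 * S / L) * (2 * Real.pi) := by
        have e6 : (x * τ + 2 * S / L) * (2 * Real.pi) = D * L + 2 * (2 * Real.pi * S / L) := by
          rw [add_mul, e1]; ring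
        have e7 : D ≤ 2 * Real.pi * S / L := by
          rw [le_div_iff₀ hLpos]; exact h2
        rw [e6]
        linarith
      exact le_of_mul_le_mul_right e5 (by positivity)
    have e5 : 2 * (S : ℝ) / L ≤ ε / 4 := by
      rw [div_le_iff₀ hLpos]
      linarith
    have e6 : x ≤ 3 * S := by
      have : x * τ ≤ S := e2.trans hg2
      have h7 := mul_le_mul_of_nonneg_left hτ0.le hx0
      linarith
    -- `(1 + a) τ` is nearly one
    have e8 : 1 - (1 + a) * τ ≤ 2 * e := by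
      have h6 := mul_le_mul_of_nonneg_left hτe h1a.le
      rw [mul_sub, mul_one_div, div_self h1a.ne'] at h6
      nlinarith
    have e9 : 0 ≤ 1 - (1 + a) * τ := by
      have h6 := mul_lt_mul_of_pos_left hτc h1a
      rw [mul_one_div, div_self h1a.ne'] at h6
      linarith
    have e7 : |x - (1 + a) * ZetaGaps.gap n| ≤ 6 * e * S + ε / 2 := by
      have e10 : x * (1 - (1 + a) * τ) ≤ 6 * e * S := by
        calc x * (1 - (1 + a) * τ) ≤ 3 * S * (2 * e) := by gcongr
          _ = _ := by ring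
      have e11 : 0 ≤ x * (1 - (1 + a) * τ) := mul_nonneg hx0 e9
      have e12 : x - (1 + a) * ZetaGaps.gap n =
          x * (1 - (1 + a) * τ) - (1 + a) * (ZetaGaps.gap n - x * τ) := by ring
      have e13 : 0 ≤ (1 + a) * (ZetaGaps.gap n - x * τ) := mul_nonneg h1a.le (by linarith)
      have e14 : (1 + a) * (ZetaGaps.gap n - x * τ) ≤ 2 * (ε / 4) :=
        mul_le_mul (by linarith) (by linarith) (by linarith) (by norm_num)
      rw [e12, abs_le]
      constructor <;> linarith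
    have e10 := hbad m
    have e11 : (1 + a) * |ZetaGaps.gap n - m / (1 + a)| = |(1 + a) * ZetaGaps.gap n - m| := by
      rw [← abs_of_pos h1a, ← abs_mul, abs_of_pos h1a]
      congr 1
      field_simp
    have e12 : |(1 + a) * ZetaGaps.gap n - m| ≤ |x - m| + |x - (1 + a) * ZetaGaps.gap n| := by
      have := abs_sub (x - m) (x - (1 + a) * ZetaGaps.gap n)
      have e13 : x - m - (x - (1 + a) * ZetaGaps.gap n) = (1 + a) * ZetaGaps.gap n - m := by ring
      rw [e13] at this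
      exact this
    have e13 : 1 * |ZetaGaps.gap n - m / (1 + a)| ≤ (1 + a) * |ZetaGaps.gap n - m / (1 + a)| :=
      mul_le_mul_of_nonneg_right (by linarith) (abs_nonneg _)
    linarith

/-- The bad gaps of one window. -/
lemma FdW_block (hRH : RiemannHypothesis) {a τ e ε ε' T U x y : ℝ} {S : ℕ} {G : Finset ℕ}
    (ha : 0 < a) (ha1 : a ≤ 1) (hτ0 : 49 / 100 < τ)
    (hτe : 1 / (1 + a) - e ≤ τ) (hτc : τ < 1 / (1 + a))
    (he : 0 < e) (heS : e * (6 * S + 1) ≤ ε / 2) (hLS : 8 * S ≤ ε * Real.log T)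
    (hL : 14 ≤ Real.log T) (hT : 1 ≤ T) (hxy : x + 1 ≤ y) (hx : T ≤ x)
    (hy : y + 2 * S ≤ 2 * T)
    (hG : ∀ n ∈ G, 1 ≤ n ∧ x ≤ ZetaGaps.ordinate n ∧ ZetaGaps.ordinate n ≤ y ∧
      1 / 3 ≤ ZetaGaps.gap n ∧ ZetaGaps.gap n ≤ S ∧
      ∀ m : ℤ, ε < |ZetaGaps.gap n - m / (1 + a)|)
    (hblock : volume.real {t0 : ℝ | t0 ∈ Icc x y ∧ ∃ g1 g2 : ℝ, Xr g1 = 0 ∧
        Xr g2 = 0 ∧ |t0 - g1| ≤ alp τ T / 8 ∧ 0 < g2 - g1 ∧ g2 - g1 ≤ (3 * S : ℕ) * alp τ T ∧
        ∀ m : ℤ, e ≤ |(g2 - g1) / alp τ T - m|} ≤ ε' * U) :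
    (G.card : ℝ) ≤ 4 * ε' * (U * Real.log T) := by
  have hpi := Real.pi_pos
  have hpi3 := Real.pi_gt_three
  have h1a : 0 < 1 + a := by linarith
  have hτ1 : τ < 1 := by
    have : 1 / (1 + a) < 1 := by rw [div_lt_one h1a]; linarith
    linarith
  obtain ⟨hα, hαL, hα2⟩ := FdW_alp hτ0 hτ1 hL
  set L := Real.log T with hLdef
  have hLpos : 0 < L := by linarith
  have hXr : ∀ n : ℕ, 1 ≤ n → Xr (ZetaGaps.ordinate n) = 0 := by
    intro n hn
    obtain ⟨ρ, hρ, hρ2⟩ := ZetaGaps.exists_zero_ordinate (ZetaGaps.zeroCount_unbounded n) hn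
    rw [← hρ2]
    exact Xr_of_ntz hRH hρ
  have hcons : ∀ n ∈ G, alp τ T / 4 < ZetaGaps.ordinate (n + 1) - ZetaGaps.ordinate n ∧
      ZetaGaps.ordinate (n + 1) - ZetaGaps.ordinate n ≤ (3 * S : ℕ) * alp τ T ∧
      ∀ m : ℤ, e ≤ |(ZetaGaps.ordinate (n + 1) - ZetaGaps.ordinate n) / alp τ T - m| := by
    intro n hn
    obtain ⟨h1, h2, h3, h4, h5, h6⟩ := hG n hn
    exact FdW_bad ha ha1 hτ0 hτe hτc he heS hLS hL hT h1 (by linarith) (by linarith) h4 h5 h6
  have key := Fd_card_le (G := G) (γ := ZetaGaps.ordinate) (a := x) (b := y)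
    (r := alp τ T / 8) (S := {t0 : ℝ | t0 ∈ Icc x y ∧ ∃ g1 g2 : ℝ, Xr g1 = 0 ∧
        Xr g2 = 0 ∧ |t0 - g1| ≤ alp τ T / 8 ∧ 0 < g2 - g1 ∧ g2 - g1 ≤ (3 * S : ℕ) * alp τ T ∧
        ∀ m : ℤ, e ≤ |(g2 - g1) / alp τ T - m|}) (by positivity) (by linarith)
    (fun n hn => ⟨(hG n hn).2.1, (hG n hn).2.2.1⟩) ?_ ?_ ?_
  · have h1 : (G.card : ℝ) * (alp τ T / 8) * L ≤ ε' * U * L :=
      mul_le_mul_of_nonneg_right (key.trans hblock) hLpos.le
    have h2 : (G.card : ℝ) * (alp τ T / 8) * L = G.card * (2 * Real.pi * τ / 8) := by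
      rw [← hαL]; ring
    rw [h2] at h1
    have h3 : (1 : ℝ) / 4 ≤ 2 * Real.pi * τ / 8 := by
      have h5 := mul_le_mul_of_nonneg_left hτ0.le hpi.le
      linarith
    have h4 : (G.card : ℝ) * (1 / 4) ≤ G.card * (2 * Real.pi * τ / 8) :=
      mul_le_mul_of_nonneg_left h3 (Nat.cast_nonneg _)
    linarith
  · intro m hm n hn hmn
    have h1 := (hcons m hm).1
    have h2 := ZetaGaps.ordinate_mono (ZetaGaps.zeroCount_unbounded n)
      (show 1 ≤ m + 1 by omega) (show m + 1 ≤ n by omega)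
    linarith
  · intro t ht n hn hr
    obtain ⟨h1, h2, h3⟩ := hcons n hn
    have hn1 := (hG n hn).1
    exact ⟨ht, ZetaGaps.ordinate n, ZetaGaps.ordinate (n + 1), hXr n hn1, hXr (n + 1) (by omega),
      hr, by linarith, h2, h3⟩
  · refine ne_top_of_le_ne_top ?_ (measure_mono (fun u hu => hu.1 :
      _ ⊆ Icc x y))
    rw [Real.volume_Icc]; exact ENNReal.ofReal_ne_top

/-- The long gaps of a window. -/
lemma FdW_long {T U : ℝ} {S : ℕ} {G : Finset ℕ} (hS : 1 ≤ S) (hL : 14 ≤ Real.log T) (hT : 1 ≤ T)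
    (hU : S ≤ U) (hUT : U ≤ T)
    (hG : ∀ n ∈ G, 1 ≤ n ∧ T ≤ ZetaGaps.ordinate n ∧ ZetaGaps.ordinate n ≤ T + U ∧
      (S : ℝ) < ZetaGaps.gap n) :
    (G.card : ℝ) * S ≤ U * Real.log T := by
  have hpi := Real.pi_pos
  have hpi3 := Real.pi_gt_three
  have hLpos : 0 < Real.log T := by linarith
  have hS1 : (1 : ℝ) ≤ S := by exact_mod_cast hS
  have key := Fd_card_le (G := G) (γ := ZetaGaps.ordinate) (a := T) (b := T + U)
    (r := S / Real.log T) (S := Icc T (T + U)) (by positivity)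
    (by
      have : (S : ℝ) / Real.log T ≤ S / 2 := div_le_div_of_nonneg_left (by linarith) (by norm_num)
        (by linarith)
      linarith)
    (fun n hn => ⟨(hG n hn).2.1, (hG n hn).2.2.1⟩) ?_ (fun t ht _ _ _ => ht)
    (by rw [Real.volume_Icc]; exact ENNReal.ofReal_ne_top)
  · rw [Real.volume_real_Icc_of_le (by linarith)] at key
    have h1 : (G.card : ℝ) * (S / Real.log T) * Real.log T ≤ (T + U - T) * Real.log T :=
      mul_le_mul_of_nonneg_right key hLpos.le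
    have h2 : (G.card : ℝ) * (S / Real.log T) * Real.log T = G.card * S := by
      field_simp
    rw [h2] at h1
    linarith
  · intro m hm n hn hmn
    obtain ⟨h1, h2, h3, h4⟩ := hG m hm
    obtain ⟨g1, g2, g3, g4⟩ := hG n hn
    have h5 := ZetaGaps.ordinate_mono (ZetaGaps.zeroCount_unbounded n)
      (show 1 ≤ m + 1 by omega) (show m + 1 ≤ n by omega)
    have hpos := ZetaGaps.ordinate_pos (ZetaGaps.zeroCount_unbounded (m + 1))
      (show 1 ≤ m + 1 by omega)
    have h6 := FdW_log hT hpos (by linarith)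
    have h7 := ZetaGaps.gap_le h1
    have hDnn : 0 ≤ ZetaGaps.ordinate (m + 1) - ZetaGaps.ordinate m := by
      have := ZetaGaps.ordinate_mono (ZetaGaps.zeroCount_unbounded (m + 1)) h1
        (show m ≤ m + 1 by omega)
      linarith
    rw [le_div_iff₀ (by positivity)] at h7
    have h8 : ZetaGaps.gap m * (2 * Real.pi) ≤
        (ZetaGaps.ordinate (m + 1) - ZetaGaps.ordinate m) * (2 * Real.log T) :=
      h7.trans (mul_le_mul_of_nonneg_left (by linarith) hDnn)
    have h9 : S * (2 * Real.pi) < ZetaGaps.gap m * (2 * Real.pi) :=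
      mul_lt_mul_of_pos_right h4 (by positivity)
    have h10 : 2 * (S / Real.log T) < ZetaGaps.ordinate (m + 1) - ZetaGaps.ordinate m := by
      rw [← mul_div_assoc, div_lt_iff₀ hLpos]
      nlinarith
    linarith

end Pool.Agent.AHW
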