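import Pool.Agent.ZGap.DW.Fb
import Pool.Agent.ZGap.DW.FdLem

/-!
# The dichotomy in short windows
-/

set_option autoImplicit false

open scoped ContDiff

namespace Pool.Agent.AHW

open Complex MeasureTheory Set Pool.Agent.Hadamard Pool.Agent.HalfGap Pool.Agent.AHD

/-- The facts on a large height. -/
lemma FdW_height {a : ℝ} (ha : 0 < a) (K : ℝ) : ∃ T0 : ℝ, ∀ T : ℝ, T0 ≤ T →
    K ≤ T ∧ K ≤ Real.log T ∧ K ≤ T ^ a := by
  have h1 := Filter.eventually_ge_atTop K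
  have h2 := Real.tendsto_log_atTop.eventually_ge_atTop K
  have h3 := (tendsto_rpow_atTop ha).eventually_ge_atTop K
  obtain ⟨T0, hT0⟩ := Filter.eventually_atTop.mp (h1.and (h2.and h3))
  exact ⟨T0, hT0⟩

/-- The dichotomy in every window `(T, T + T ^ a]`. -/
theorem dichotomy_w (hRH : RiemannHypothesis) {a ε : ℝ} (ha : 0 < a) (ha1 : a ≤ 1) (hε : 0 < ε) :
    ∃ δ : ℝ, 0 < δ ∧ ∃ T0 : ℝ, ∀ T : ℝ, T0 ≤ T →
      δ * (T ^ a * Real.log T) ≤
        ((({n ∈ Finset.Ioc (ZetaGaps.zeroCount T) (ZetaGaps.zeroCount (T + T ^ a)) |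
          ZetaGaps.gap n < 1 / (1 + a) - δ} : Finset ℕ).card : ℕ) : ℝ) ∨
      (({n : ℕ | n ∈ Finset.Ioc (ZetaGaps.zeroCount T) (ZetaGaps.zeroCount (T + T ^ a)) ∧
        ∀ m : ℤ, ε < |ZetaGaps.gap n - m / (1 + a)|}.ncard : ℕ) : ℝ) ≤
          ε * (T ^ a * Real.log T) := by
  classical
  have hpi := Real.pi_pos
  have hpi3 := Real.pi_gt_three
  have hpi4 := Real.pi_lt_d2
  have h1a : 0 < 1 + a := by linarith
  obtain ⟨c, hc⟩ : ∃ c : ℝ, c = 1 / (1 + a) := ⟨_, rfl⟩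
  have hc1 : c < 1 := by rw [hc, div_lt_one h1a]; linarith
  have hch : 1 / 2 ≤ c := by
    rw [hc, div_le_div_iff₀ (by norm_num) h1a]; linarith
  obtain ⟨ε1, hε1⟩ : ∃ ε1 : ℝ, ε1 = min ε 1 := ⟨_, rfl⟩
  have hε10 : 0 < ε1 := by rw [hε1]; exact lt_min hε one_pos
  have hε11 : ε1 ≤ 1 := by rw [hε1]; exact min_le_right _ _
  have hε1e : ε1 ≤ ε := by rw [hε1]; exact min_le_left _ _
  obtain ⟨S, hS⟩ := exists_nat_ge (max 1 (8 / ε1))
  have hS1 : (1 : ℝ) ≤ S := (le_max_left _ _).trans hS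
  have hS1' : 1 ≤ S := by exact_mod_cast hS1
  have hSε : 8 ≤ ε1 * S := by
    have h1 : 8 / ε1 ≤ S := (le_max_right _ _).trans hS
    rw [div_le_iff₀ hε10] at h1
    linarith
  obtain ⟨e, he⟩ : ∃ e : ℝ, e = ε1 / (24 * (S + 1)) := ⟨_, rfl⟩
  have he0 : 0 < e := by rw [he]; positivity
  have heS : e * (6 * S + 1) ≤ ε1 / 2 := by
    rw [he, div_mul_eq_mul_div, div_le_iff₀ (by positivity)]
    nlinarith
  obtain ⟨θ, hθ⟩ : ∃ θ : ℝ, θ = ε1 / 32 := ⟨_, rfl⟩
  have hθ0 : 0 < θ := by rw [hθ]; positivity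
  have hθ8 : θ ≤ 1 / 8 := by rw [hθ]; linarith
  obtain ⟨τ, δ', T1, hτ0, hτe, hτc, hδ', hblock⟩ := block_w hRH ha ha1 he0
    (show 0 < ε1 / 1000 by positivity) hθ0 hθ8 (3 * S)
  obtain ⟨C, T2, hC, hzc⟩ := ShortPos.zc_short
  have hτc' : τ < c := by rw [hc]; exact hτc
  have hτ1 : τ < 1 := hτc'.trans hc1
  have hd : 0 < c - τ := by linarith
  obtain ⟨δ, hδ⟩ : ∃ δ : ℝ, δ = min ((c - τ) / 2) (min (δ' / 20) (ε1 / 8)) := ⟨_, rfl⟩
  have hδ0 : 0 < δ := by rw [hδ]; exact lt_min (by linarith) (lt_min (by positivity) (by positivity))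
  have hδ1 : δ ≤ (c - τ) / 2 := by rw [hδ]; exact min_le_left _ _
  have hδ2 : δ ≤ δ' / 20 := by rw [hδ]; exact (min_le_right _ _).trans (min_le_left _ _)
  have hδ3 : δ ≤ ε1 / 8 := by rw [hδ]; exact (min_le_right _ _).trans (min_le_right _ _)
  obtain ⟨T0, hT0⟩ := FdW_height ha (max (max (max (T1) (T2 + 1)) (max 14 (8 / (c - τ))))
    (max (max (64 * S / ε1) (8 + 8 * S)) (max (1000 * (C + 4) / ε1) 1000)))
  refine ⟨δ, hδ0, max T0 1, fun T hT => ?_⟩
  obtain ⟨hb1, hb2, hb3⟩ := hT0 T ((le_max_left _ _).trans hT)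
  have hT1' : 1 ≤ T := (le_max_right _ _).trans hT
  obtain ⟨K, hK⟩ : ∃ K : ℝ, K = max (max (max (T1) (T2 + 1)) (max 14 (8 / (c - τ))))
    (max (max (64 * S / ε1) (8 + 8 * S)) (max (1000 * (C + 4) / ε1) 1000)) := ⟨_, rfl⟩
  have q1 : T1 ≤ K := by
    rw [hK]; exact (le_max_left _ _).trans ((le_max_left _ _).trans (le_max_left _ _))
  have q2 : T2 + 1 ≤ K := by
    rw [hK]; exact (le_max_right _ _).trans ((le_max_left _ _).trans (le_max_left _ _))
  have q3 : 14 ≤ K := by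
    rw [hK]; exact (le_max_left _ _).trans ((le_max_right _ _).trans (le_max_left _ _))
  have q4 : 8 / (c - τ) ≤ K := by
    rw [hK]; exact (le_max_right _ _).trans ((le_max_right _ _).trans (le_max_left _ _))
  have q5 : 64 * S / ε1 ≤ K := by
    rw [hK]; exact (le_max_left _ _).trans ((le_max_left _ _).trans (le_max_right _ _))
  have q6 : 8 + 8 * (S : ℝ) ≤ K := by
    rw [hK]; exact (le_max_right _ _).trans ((le_max_left _ _).trans (le_max_right _ _))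
  have q7 : 1000 * (C + 4) / ε1 ≤ K := by
    rw [hK]; exact (le_max_left _ _).trans ((le_max_right _ _).trans (le_max_right _ _))
  have q8 : 1000 ≤ K := by
    rw [hK]; exact (le_max_right _ _).trans ((le_max_right _ _).trans (le_max_right _ _))
  rw [← hK] at hb1 hb2 hb3
  obtain ⟨U, hU⟩ : ∃ U : ℝ, U = T ^ a := ⟨_, rfl⟩
  rw [← hU] at hb3 ⊢
  obtain ⟨L, hLdef⟩ : ∃ L : ℝ, L = Real.log T := ⟨_, rfl⟩
  rw [← hLdef] at hb2 ⊢
  have hTpos : 0 < T := by linarith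
  have hUpos : 0 < U := by linarith
  have hLpos : 0 < L := by linarith
  have hL14 : 14 ≤ Real.log T := by rw [← hLdef]; linarith
  have hUT : U ≤ T := by
    calc U = T ^ a := hU
      _ ≤ T ^ (1 : ℝ) := Real.rpow_le_rpow_of_exponent_le hT1' ha1
      _ = T := Real.rpow_one T
  have hUinv : U ^ (1 / a) = T := by
    rw [hU, ← Real.rpow_mul hTpos.le, mul_one_div, div_self ha.ne', Real.rpow_one]
  have halp : alp (a * τ) U = alp τ T := by
    rw [← alp_scale hUpos, hUinv]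
  obtain ⟨hα, hαL, hα2⟩ := FdW_alp (T := T) hτ0 hτ1 hL14
  -- the sets
  set A := ({n ∈ Finset.Ioc (ZetaGaps.zeroCount T) (ZetaGaps.zeroCount (T + U)) |
    ZetaGaps.gap n < 1 / (1 + a) - δ} : Finset ℕ) with hA
  set B := ({n ∈ Finset.Ioc (ZetaGaps.zeroCount T) (ZetaGaps.zeroCount (T + U)) |
    ∀ m : ℤ, ε1 < |ZetaGaps.gap n - m / (1 + a)|} : Finset ℕ) with hB
  by_cases hfirst : δ * (U * L) ≤ ((A.card : ℕ) : ℝ)
  · exact Or.inl hfirst
  right
  push Not at hfirst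
  -- indices and ordinates
  have hmem : ∀ n : ℕ, n ∈ Finset.Ioc (ZetaGaps.zeroCount T) (ZetaGaps.zeroCount (T + U)) →
      1 ≤ n ∧ T < ZetaGaps.ordinate n ∧ ZetaGaps.ordinate n ≤ T + U := by
    intro n hn
    rw [Finset.mem_Ioc] at hn
    have h1 : 1 ≤ n := by omega
    refine ⟨h1, ?_, ?_⟩
    · by_contra hcon
      push Not at hcon
      have := (ZetaGaps.le_zeroCount_iff (ZetaGaps.zeroCount_unbounded n) h1).mpr hcon
      omega
    · exact (ZetaGaps.le_zeroCount_iff (ZetaGaps.zeroCount_unbounded n) h1).mp hn.2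
  have hmem2 : ∀ n : ℕ, 1 ≤ n → T < ZetaGaps.ordinate n → ZetaGaps.ordinate n ≤ T + U →
      n ∈ Finset.Ioc (ZetaGaps.zeroCount T) (ZetaGaps.zeroCount (T + U)) := by
    intro n h1 h2 h3
    rw [Finset.mem_Ioc]
    refine ⟨?_, (ZetaGaps.le_zeroCount_iff (ZetaGaps.zeroCount_unbounded n) h1).mpr h3⟩
    by_contra hcon
    push Not at hcon
    have := (ZetaGaps.le_zeroCount_iff (ZetaGaps.zeroCount_unbounded n) h1).mp hcon
    linarith
  -- few small gaps in every subwindow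
  have hfewall : ∀ x y : ℝ, T + 2 ≤ x → y + 2 ≤ T + U →
      volume.real (EE (alp τ T) ∩ Icc x y) ≤ δ' * U := by
    intro x y hx hy
    have h4 := FdW_few (A := A) (δ := δ) (x := x) (y := y) hτ0 hτ1 hτc' hδ1 hL14
      (by rw [← hLdef]; linarith) hT1' (by linarith) (by linarith) (by
        intro n hn h1 h2 h3
        rw [hA, Finset.mem_filter, ← hc]
        have h5 := ZetaGaps.ordinate_mono (ZetaGaps.zeroCount_unbounded (n + 1)) hn
          (show n ≤ n + 1 by omega)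
        exact ⟨hmem2 n hn (by linarith) (by linarith), h3⟩)
    refine h4.trans ?_
    have h5 : (A.card : ℝ) * (3 * alp τ T) ≤ δ * (U * L) * (3 * alp τ T) :=
      mul_le_mul_of_nonneg_right hfirst.le (by positivity)
    refine h5.trans ?_
    have h6 : δ * (U * L) * (3 * alp τ T) = δ * U * (3 * (alp τ T * Real.log T)) := by
      rw [hLdef]; ring
    rw [h6, hαL]
    have h7 : 3 * (2 * Real.pi * τ) ≤ 20 := by
      have : 2 * Real.pi * τ ≤ 2 * Real.pi * 1 := mul_le_mul_of_nonneg_left hτ1.le (by positivity)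
      linarith
    calc δ * U * (3 * (2 * Real.pi * τ)) ≤ δ * U * 20 :=
          mul_le_mul_of_nonneg_left h7 (by positivity)
      _ ≤ δ' / 20 * U * 20 := by gcongr
      _ = δ' * U := by ring
  -- numbers
  have hθU : θ * U = ε1 / 32 * U := by rw [hθ]
  have hε1U : ε1 * U ≤ U := mul_le_of_le_one_left hUpos.le hε11
  have r5 : 64 * (S : ℝ) ≤ ε1 * U := by
    rw [div_le_iff₀ hε10] at q5
    have := mul_le_mul_of_nonneg_right hb3 hε10.le
    linarith
  have r5L : 64 * (S : ℝ) ≤ ε1 * L := by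
    rw [div_le_iff₀ hε10] at q5
    have := mul_le_mul_of_nonneg_right hb2 hε10.le
    linarith
  have r7 : 1000 * (C + 4) ≤ ε1 * U := by
    rw [div_le_iff₀ hε10] at q7
    have := mul_le_mul_of_nonneg_right hb3 hε10.le
    linarith
  -- the bad gaps of a window
  have hwin : ∀ w : ℝ, T + 2 ≤ w + (5 / 4 - θ) * U → w + (7 / 4 + θ) * U + 2 ≤ T + U →
      ∀ G : Finset ℕ, (∀ n ∈ G, 1 ≤ n ∧ w + 5 * U / 4 ≤ ZetaGaps.ordinate n ∧
        ZetaGaps.ordinate n ≤ w + 7 * U / 4 ∧ 1 / 3 ≤ ZetaGaps.gap n ∧ ZetaGaps.gap n ≤ S ∧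
        ∀ m : ℤ, ε1 < |ZetaGaps.gap n - m / (1 + a)|) →
      (G.card : ℝ) ≤ 4 * (ε1 / 1000) * (U * L) := by
    intro w hw1 hw2 G hG
    have hH : Hgt a θ U w := by
      unfold Hgt
      rw [hUinv]
      exact ⟨by linarith, by linarith⟩
    have hF : FewW (a * τ) δ' θ U w := by
      unfold FewW
      rw [halp]
      exact hfewall _ _ hw1 hw2
    have h7 := hblock U (by linarith) w hH hF
    rw [halp] at h7
    have h8 := FdW_block hRH (G := G) (U := U) (x := w + 5 * U / 4) (y := w + 7 * U / 4) ha ha1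
      hτ0 hτe hτc he0 heS (by rw [← hLdef]; linarith) hL14 hT1' (by linarith) (by linarith)
      (by linarith) hG h7
    rw [← hLdef] at h8
    exact h8
  obtain ⟨w1, hw1⟩ : ∃ w1 : ℝ, w1 = T + 2 - (5 / 4 - θ) * U := ⟨_, rfl⟩
  obtain ⟨w2, hw2⟩ : ∃ w2 : ℝ, w2 = T + U - 2 - (7 / 4 + θ) * U := ⟨_, rfl⟩
  set G1 := B.filter (fun n => w1 + 5 * U / 4 ≤ ZetaGaps.ordinate n ∧
        ZetaGaps.ordinate n ≤ w1 + 7 * U / 4 ∧ 1 / 3 ≤ ZetaGaps.gap n ∧ ZetaGaps.gap n ≤ S)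
    with hG1
  set G2 := B.filter (fun n => w2 + 5 * U / 4 ≤ ZetaGaps.ordinate n ∧
        ZetaGaps.ordinate n ≤ w2 + 7 * U / 4 ∧ 1 / 3 ≤ ZetaGaps.gap n ∧ ZetaGaps.gap n ≤ S)
    with hG2
  have k1 : (G1.card : ℝ) ≤ 4 * (ε1 / 1000) * (U * L) := by
    refine hwin w1 (by linarith) (by linarith) G1 fun n hn => ?_
    rw [hG1, Finset.mem_filter, hB, Finset.mem_filter] at hn
    obtain ⟨⟨h1, h2⟩, h3, h4, h5, h6⟩ := hn
    exact ⟨(hmem n h1).1, h3, h4, h5, h6, h2⟩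
  have k2 : (G2.card : ℝ) ≤ 4 * (ε1 / 1000) * (U * L) := by
    refine hwin w2 (by linarith) (by linarith) G2 fun n hn => ?_
    rw [hG2, Finset.mem_filter, hB, Finset.mem_filter] at hn
    obtain ⟨⟨h1, h2⟩, h3, h4, h5, h6⟩ := hn
    exact ⟨(hmem n h1).1, h3, h4, h5, h6, h2⟩
  -- the ends
  obtain ⟨v1, hv1⟩ : ∃ v1 : ℝ, v1 = T + 2 + θ * U := ⟨_, rfl⟩
  obtain ⟨u2, hu2⟩ : ∃ u2 : ℝ, u2 = T + U - 2 - θ * U := ⟨_, rfl⟩
  set E1 := Finset.Ioc (ZetaGaps.zeroCount T) (ZetaGaps.zeroCount v1) with hE1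
  set E2 := Finset.Ioc (ZetaGaps.zeroCount (u2 - 1)) (ZetaGaps.zeroCount (T + U)) with hE2
  have hUL : 0 < U * L := mul_pos hUpos hLpos
  have k3 : (E1.card : ℝ) ≤ ε1 / 8 * (U * L) := by
    have h1 : ZetaGaps.zeroCount T ≤ ZetaGaps.zeroCount v1 :=
      ZetaGaps.zeroCount_mono (by linarith)
    have h2 : (ZetaGaps.zeroCount (T - 1) : ℝ) ≤ ZetaGaps.zeroCount T := by
      exact_mod_cast ZetaGaps.zeroCount_mono (by linarith)
    have h3 := (hzc T (by linarith)).2.2 v1 (by linarith) (by linarith)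
    rw [hE1, Nat.card_Ioc, Nat.cast_sub h1]
    rw [← hLdef] at h3
    have h4 : ((v1 - T + 1) / 3 + C) * L ≤ ε1 / 8 * U * L :=
      mul_le_mul_of_nonneg_right (by linarith) hLpos.le
    linarith
  have k4 : (E2.card : ℝ) ≤ ε1 / 8 * (U * L) := by
    have h1 : ZetaGaps.zeroCount (u2 - 1) ≤ ZetaGaps.zeroCount (T + U) :=
      ZetaGaps.zeroCount_mono (by linarith)
    have h3 := (hzc u2 (by linarith)).2.2 (T + U) (by linarith) (by linarith)
    rw [hE2, Nat.card_Ioc, Nat.cast_sub h1]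
    have h5 : Real.log u2 ≤ 2 * L := by
      have := FdW_log (γ := u2) hT1' (by linarith) (by linarith)
      rw [← hLdef] at this
      linarith
    have h6 : ((T + U - u2 + 1) / 3 + C) * Real.log u2 ≤ ((T + U - u2 + 1) / 3 + C) * (2 * L) :=
      mul_le_mul_of_nonneg_left h5 (by linarith)
    have h4 : ((T + U - u2 + 1) / 3 + C) * (2 * L) ≤ ε1 / 16 * U * (2 * L) :=
      mul_le_mul_of_nonneg_right (by linarith) (by linarith)
    linarith
  -- the long gaps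
  set B3 := ({n ∈ Finset.Ioc (ZetaGaps.zeroCount T) (ZetaGaps.zeroCount (T + U)) |
    (S : ℝ) < ZetaGaps.gap n} : Finset ℕ) with hB3
  have k5 : (B3.card : ℝ) ≤ ε1 / 8 * (U * L) := by
    have h1 := FdW_long (T := T) (U := U) (S := S) (G := B3) hS1' hL14 hT1' (by linarith) hUT (by
      intro n hn
      rw [hB3, Finset.mem_filter] at hn
      obtain ⟨g1, g2, g3⟩ := hmem n hn.1
      exact ⟨g1, g2.le, g3, hn.2⟩)
    rw [← hLdef] at h1
    have h2 : (B3.card : ℝ) * 8 ≤ B3.card * (ε1 * S) :=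
      mul_le_mul_of_nonneg_left hSε (Nat.cast_nonneg _)
    have h3 : (B3.card : ℝ) * (ε1 * S) = ε1 * (B3.card * S) := by ring
    have h4 : ε1 * (B3.card * S) ≤ ε1 * (U * L) := mul_le_mul_of_nonneg_left h1 hε10.le
    linarith
  have k6 : (A.card : ℝ) ≤ ε1 / 8 * (U * L) :=
    hfirst.le.trans (mul_le_mul_of_nonneg_right hδ3 hUL.le)
  -- covering
  have hcov : B ⊆ E1 ∪ (E2 ∪ (B3 ∪ (A ∪ (G1 ∪ G2)))) := by
    intro n hn
    have hn' := hn
    rw [hB, Finset.mem_filter] at hn'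
    obtain ⟨hnI, hbad⟩ := hn'
    obtain ⟨g1, g2, g3⟩ := hmem n hnI
    rw [Finset.mem_Ioc] at hnI
    by_contra hcon
    simp only [Finset.mem_union, not_or] at hcon
    obtain ⟨c1, c2, c3, c4, c5, c6⟩ := hcon
    have d1 : v1 < ZetaGaps.ordinate n := by
      by_contra h
      push Not at h
      have h1 := (ZetaGaps.le_zeroCount_iff (ZetaGaps.zeroCount_unbounded n) g1).mpr h
      exact c1 (by rw [hE1, Finset.mem_Ioc]; exact ⟨hnI.1, h1⟩)
    have d2 : ZetaGaps.ordinate n < u2 := by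
      by_contra h
      push Not at h
      have h1 : ZetaGaps.zeroCount (u2 - 1) < n := by
        by_contra h2
        push Not at h2
        have := (ZetaGaps.le_zeroCount_iff (ZetaGaps.zeroCount_unbounded n) g1).mp h2
        linarith
      exact c2 (by rw [hE2, Finset.mem_Ioc]; exact ⟨h1, hnI.2⟩)
    have d3 : ZetaGaps.gap n ≤ S := by
      by_contra h
      push Not at h
      exact c3 (by rw [hB3, Finset.mem_filter, Finset.mem_Ioc]; exact ⟨hnI, h⟩)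
    have d4 : 1 / (1 + a) - δ ≤ ZetaGaps.gap n := by
      by_contra h
      push Not at h
      exact c4 (by rw [hA, Finset.mem_filter, Finset.mem_Ioc]; exact ⟨hnI, h⟩)
    rw [← hc] at d4
    have d5 : 1 / 3 ≤ ZetaGaps.gap n := by linarith
    rcases le_total (ZetaGaps.ordinate n) (w1 + 7 * U / 4) with d6 | d6
    · apply c5
      rw [hG1, Finset.mem_filter]
      exact ⟨hn, by linarith, d6, d5, d3⟩
    · apply c6
      rw [hG2, Finset.mem_filter]
      exact ⟨hn, by linarith, by linarith, d5, d3⟩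
  have hcard : (B.card : ℝ) ≤ ε1 * (U * L) := by
    have h2 := (Finset.card_le_card hcov).trans (Finset.card_union_le _ _)
    have h3 := Finset.card_union_le E2 (B3 ∪ (A ∪ (G1 ∪ G2)))
    have h4 := Finset.card_union_le B3 (A ∪ (G1 ∪ G2))
    have h5 := Finset.card_union_le A (G1 ∪ G2)
    have h6 := Finset.card_union_le G1 G2
    have h7 : B.card ≤ E1.card + (E2.card + (B3.card + (A.card + (G1.card + G2.card)))) := by
      omega
    have h8 : (B.card : ℝ) ≤ E1.card + (E2.card + (B3.card + (A.card + (G1.card + G2.card)))) := by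
      exact_mod_cast h7
    have h9 : 0 < ε1 * (U * L) := mul_pos hε10 hUL
    linarith
  -- conclusion
  have hsub : {n : ℕ | n ∈ Finset.Ioc (ZetaGaps.zeroCount T) (ZetaGaps.zeroCount (T + U)) ∧
      ∀ m : ℤ, ε < |ZetaGaps.gap n - m / (1 + a)|} ⊆ (B : Set ℕ) := by
    rintro n ⟨h1, h2⟩
    rw [Finset.mem_coe, hB, Finset.mem_filter]
    exact ⟨h1, fun m => hε1e.trans_lt (h2 m)⟩
  have h1 := Set.ncard_le_ncard hsub B.finite_toSet
  rw [Set.ncard_coe_finset] at h1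
  have h2 : (({n : ℕ | n ∈ Finset.Ioc (ZetaGaps.zeroCount T) (ZetaGaps.zeroCount (T + U)) ∧
      ∀ m : ℤ, ε < |ZetaGaps.gap n - m / (1 + a)|}.ncard : ℕ) : ℝ) ≤ B.card := by
    exact_mod_cast h1
  exact h2.trans (hcard.trans (mul_le_mul_of_nonneg_right hε1e hUL.le))

end Pool.Agent.AHW
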