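import Pool.Agent.ZGap.DW.Fd
import Pool.Agent.ZGap.DW.Count

/-!
# The dichotomy in all intervals of length at least `T ^ a`
-/

namespace Pool.Agent.AHW

open Set Pool.Agent.ZetaGaps

/-- The dichotomy in all intervals `(T, T + H]`, `H ≥ T ^ a`. -/
theorem dichotomy_long (hRH : RiemannHypothesis) {a ε : ℝ} (ha : 0 < a) (ha1 : a ≤ 1)
    (hε : 0 < ε) :
    ∃ δ : ℝ, 0 < δ ∧ ∃ T₀ : ℝ, ∀ T : ℝ, T₀ ≤ T → ∀ H : ℝ, T ^ a ≤ H →
      δ * ((zeroCount (T + H) : ℝ) - zeroCount T) ≤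
        ((({n ∈ Finset.Ioc (zeroCount T) (zeroCount (T + H)) |
          gap n < 1 / (1 + a) - δ} : Finset ℕ).card : ℕ) : ℝ) ∨
      (({n : ℕ | n ∈ Finset.Ioc (zeroCount T) (zeroCount (T + H)) ∧
          ∀ m : ℤ, ε < |gap n - m / (1 + a)|}.ncard : ℕ) : ℝ) ≤
        ε * ((zeroCount (T + H) : ℝ) - zeroCount T) := by
  have hε' : 0 < ε / 80 := by positivity
  obtain ⟨δ1, hδ1, T1, hD⟩ := dichotomy_w hRH ha ha1 hε'
  obtain ⟨T2, hT2, hN⟩ := count_win ha ha1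
  obtain ⟨c, hc⟩ : ∃ c : ℝ, c = 1 / (1 + a) := ⟨_, rfl⟩
  obtain ⟨P, hP⟩ : ∃ P : ℝ → ℕ → Prop, P = fun δ n => gap n < 1 / (1 + a) - δ := ⟨_, rfl⟩
  obtain ⟨Q, hQ⟩ : ∃ Q : ℝ → ℕ → Prop, Q = fun ε n => ∀ m : ℤ, ε < |gap n - m / (1 + a)| :=
    ⟨_, rfl⟩
  have hcard : ∀ (δ : ℝ) (i j : ℕ), ((({n ∈ Finset.Ioc i j |
      gap n < 1 / (1 + a) - δ} : Finset ℕ).card : ℕ) : ℝ) = cn (P δ) i j := by
    intro δ i j
    rw [hP]
    unfold cn
    rw [← Set.ncard_coe_finset]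
    congr 2
    ext n
    simp
  have hncard : ∀ (η : ℝ) (i j : ℕ), (({n : ℕ | n ∈ Finset.Ioc i j ∧
      ∀ m : ℤ, η < |gap n - m / (1 + a)|}.ncard : ℕ) : ℝ) = cn (Q η) i j := by
    intro η i j
    rw [hQ]
    rfl
  have hPm : ∀ {δ δ' : ℝ} (_ : δ ≤ δ') (i j : ℕ), cn (P δ') i j ≤ cn (P δ) i j := by
    intro δ δ' h i j
    apply cn_imp
    intro n hn
    rw [hP] at hn ⊢
    beta_reduce at hn ⊢
    linarith
  have hQm : ∀ {η η' : ℝ} (_ : η ≤ η') (i j : ℕ), cn (Q η') i j ≤ cn (Q η) i j := by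
    intro η η' h i j
    apply cn_imp
    intro n hn
    rw [hQ] at hn ⊢
    exact fun m => lt_of_le_of_lt h (hn m)
  have hW : ∀ T : ℝ, max (max T1 T2) 1 ≤ T → cn (Q ε) (zeroCount T) (zeroCount (T + T ^ a)) ≤
      ε / 4 * ((zeroCount (T + T ^ a) : ℝ) - zeroCount T) +
        1 / δ1 * cn (P δ1) (zeroCount T) (zeroCount (T + T ^ a)) := by
    intro T hT
    have g1 : T1 ≤ T := (le_max_left _ _).trans ((le_max_left _ _).trans hT)
    have g2 : T2 ≤ T := (le_max_right _ _).trans ((le_max_left _ _).trans hT)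
    have g3 : 1 ≤ T := (le_max_right _ _).trans hT
    obtain ⟨n1, n2⟩ := hN T g2
    have hpos : (1 : ℝ) ≤ T ^ a := Real.one_le_rpow g3 ha.le
    have hcc := zeroCount_mono (show T ≤ T + T ^ a by linarith)
    have hccr : (zeroCount T : ℝ) ≤ zeroCount (T + T ^ a) := by exact_mod_cast hcc
    rcases hD T g1 with h | h
    · rw [hcard] at h
      have h1 := cn_le (Q ε) hcc
      have h2 : δ1 * ((zeroCount (T + T ^ a) : ℝ) - zeroCount T) ≤
          cn (P δ1) (zeroCount T) (zeroCount (T + T ^ a)) :=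
        (mul_le_mul_of_nonneg_left n2 hδ1.le).trans h
      have h3 : (zeroCount (T + T ^ a) : ℝ) - zeroCount T ≤
          1 / δ1 * cn (P δ1) (zeroCount T) (zeroCount (T + T ^ a)) := by
        rw [one_div_mul_eq_div, le_div_iff₀ hδ1]
        linarith
      have h4 : 0 ≤ ε / 4 * ((zeroCount (T + T ^ a) : ℝ) - zeroCount T) :=
        mul_nonneg (by positivity) (by linarith)
      linarith
    · rw [hncard] at h
      have h1 := hQm (show ε / 80 ≤ ε by linarith) (zeroCount T) (zeroCount (T + T ^ a))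
      have h2 : ε / 80 * (T ^ a * Real.log T) ≤
          ε / 4 * ((zeroCount (T + T ^ a) : ℝ) - zeroCount T) := by
        have h3 := mul_le_mul_of_nonneg_left n1 (show (0 : ℝ) ≤ ε / 4 by positivity)
        linarith
      have h4 : 0 ≤ 1 / δ1 * cn (P δ1) (zeroCount T) (zeroCount (T + T ^ a)) :=
        mul_nonneg (by positivity) (cn_nonneg _ _ _)
      linarith
  obtain ⟨δ, hδ⟩ : ∃ δ : ℝ, δ = min δ1 (ε * δ1 / 4) := ⟨_, rfl⟩
  have hδ0 : 0 < δ := by rw [hδ]; exact lt_min hδ1 (by positivity)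
  have hδa : δ ≤ δ1 := by rw [hδ]; exact min_le_left _ _
  have hδb : δ ≤ ε * δ1 / 4 := by rw [hδ]; exact min_le_right _ _
  refine ⟨δ, hδ0, max (max T1 T2) 1, fun T hT H hH => ?_⟩
  rw [hcard, hncard]
  have g3 : 1 ≤ T := (le_max_right _ _).trans hT
  have hpos : (1 : ℝ) ≤ T ^ a := Real.one_le_rpow g3 ha.le
  have hcc := zeroCount_mono (show T ≤ T + H by linarith)
  have hccr : (zeroCount T : ℝ) ≤ zeroCount (T + H) := by exact_mod_cast hcc
  obtain ⟨k, hk⟩ := exists_nat_ge H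
  have hG := glue ha (show (0 : ℝ) ≤ ε / 4 by positivity) (show (0 : ℝ) ≤ 1 / δ1 by positivity)
    (le_max_right _ _) hW k T hT H hH hk
  rcases le_or_gt (δ * ((zeroCount (T + H) : ℝ) - zeroCount T))
    (cn (P δ) (zeroCount T) (zeroCount (T + H))) with h | h
  · exact Or.inl h
  · right
    have h1 := hPm hδa (zeroCount T) (zeroCount (T + H))
    have h2 : δ * ((zeroCount (T + H) : ℝ) - zeroCount T) ≤
        ε * δ1 / 4 * ((zeroCount (T + H) : ℝ) - zeroCount T) :=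
      mul_le_mul_of_nonneg_right hδb (by linarith)
    have h3 : 2 * (1 / δ1) * cn (P δ1) (zeroCount T) (zeroCount (T + H)) ≤
        2 * (1 / δ1) * (ε * δ1 / 4 * ((zeroCount (T + H) : ℝ) - zeroCount T)) :=
      mul_le_mul_of_nonneg_left (by linarith) (by positivity)
    have h4 : 2 * (1 / δ1) * (ε * δ1 / 4 * ((zeroCount (T + H) : ℝ) - zeroCount T)) =
        ε / 2 * ((zeroCount (T + H) : ℝ) - zeroCount T) := by
      field_simp
      ring
    linarith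

end Pool.Agent.AHW
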