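import Pool.Agent.ZGap.AH.H1
import Pool.Agent.ZGap.DW.Defs

/-!
# The logarithmic derivative in windows
-/

open scoped ContDiff

namespace Pool.Agent.AHW

open Complex MeasureTheory Set Pool.Agent.Hadamard Pool.Agent.HalfGap Pool.Agent.AHD

/-- The shifted coefficients. -/
noncomputable def H1_aw (D d : ℝ) (h : 0 ≤ d * D) (w : ℝ) (n : ℕ) : ℂ :=
  H1_a D d h n * (n : ℂ) ^ (-(w * I) : ℂ)

lemma H1_norm_aw (D d : ℝ) (h : 0 ≤ d * D) (w : ℝ) {n : ℕ} (hn : 1 ≤ n) :
    ‖H1_aw D d h w n‖ = ‖H1_a D d h n‖ := by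
  have hn0 : (0:ℝ) < n := by exact_mod_cast hn
  have e : ‖(n : ℂ) ^ (-(w * I) : ℂ)‖ = 1 := by
    rw [← Complex.ofReal_natCast, Complex.norm_cpow_eq_rpow_re_of_pos hn0]
    simp
  rw [H1_aw, norm_mul, e, mul_one]

lemma H1_V_shift (D d : ℝ) (h : 0 ≤ d * D) (N : ℕ) (w u : ℝ) :
    H1_V D d h N (w + u) = ∑ n ∈ Finset.Icc 1 N, H1_aw D d h w n * (n : ℂ) ^ (-(u * I) : ℂ) := by
  unfold H1_V H1_aw
  refine Finset.sum_congr rfl fun n hn => ?_
  have hn0 : (n : ℂ) ≠ 0 := by
    have := (Finset.mem_Icc.mp hn).1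
    exact_mod_cast (by omega : n ≠ 0)
  rw [mul_assoc, ← Complex.cpow_add _ _ hn0]
  congr 2
  push_cast
  ring

/-- The mean square of the prime polynomial, shifted. -/
lemma H1_mean_w : ∃ C : ℝ, 0 < C ∧ ∀ (D d T : ℝ) (h : 0 ≤ d * D) (N : ℕ) (w : ℝ), 0 < D →
    0 < d → d ≤ 1 → 0 < T → (N : ℝ) ≤ 2 * T →
    Integrable (fun u : ℝ => ‖H1_V D d h N (w + u)‖ ^ 2 * fejerW (u / (2 * T))) ∧
    ∫ u : ℝ, ‖H1_V D d h N (w + u)‖ ^ 2 * fejerW (u / (2 * T)) ≤ C * T / d ^ 2 := by
  obtain ⟨C, hC, hs⟩ := H1_sum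
  refine ⟨5 * Real.pi * C, by positivity, fun D d T h N w hD hd hd1 hT hN => ⟨?_, ?_⟩⟩
  · have h1 := fejer_integrable (Finset.Icc 1 N) (fun n => Real.log n) (H1_aw D d h w)
      (T := 2 * T) (by positivity)
    refine h1.congr (Filter.Eventually.of_forall fun t => ?_)
    simp only [H1_V_shift]
    congr 3
    refine Finset.sum_congr rfl fun n hn => ?_
    have hn0 : (n:ℂ) ≠ 0 := by
      have := (Finset.mem_Icc.mp hn).1
      exact_mod_cast (by omega : n ≠ 0)
    rw [Complex.cpow_def_of_ne_zero hn0, ← Complex.ofReal_natCast,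
      ← Complex.ofReal_log (Nat.cast_nonneg n)]
    congr 2
    push_cast
    ring
  · have h1 := dirichlet_mean_value (T := 2 * T) (by positivity) hN (H1_aw D d h w)
    have h2 : ∑ n ∈ Finset.Icc 1 N, ‖H1_aw D d h w n‖ ^ 2 ≤ C / d ^ 2 :=
      (Finset.sum_le_sum fun n hn => by
        rw [H1_norm_aw D d h w (Finset.mem_Icc.mp hn).1]
        exact H1_norm_a hD h (Finset.mem_Icc.mp hn).1).trans (hs d N hd hd1)
    have hpi := Real.pi_pos
    simp only [H1_V_shift]
    calc _ = 5 / 2 * Real.pi * (2 * T) * ∑ n ∈ Finset.Icc 1 N, ‖H1_aw D d h w n‖ ^ 2 := h1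
      _ ≤ 5 / 2 * Real.pi * (2 * T) * (C / d ^ 2) := by gcongr
      _ = _ := by ring

/-- The mean of a function dominated by the prime polynomial, in a window. -/
lemma H1_dom_w : ∃ C : ℝ, 0 < C ∧ ∀ (D d T : ℝ) (h : 0 ≤ d * D) (N : ℕ) (w : ℝ), 0 < D →
    0 < d → d ≤ 1 → 0 < T → (N : ℝ) ≤ 2 * T → ∀ (g : ℝ → ℝ) (A B : ℝ), 0 ≤ A → 0 ≤ B →
    Continuous g → (∀ t ∈ Icc (w + T) (w + 2 * T), g t ≤ A + B * ‖H1_V D d h N t‖) →
    ∫ t in (w + T)..(w + 2 * T), g t ≤ A * T + C * B * T / d := by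
  obtain ⟨C, hC, hm⟩ := H1_mean_w
  refine ⟨1 + C, by positivity, fun D d T h N w hD hd hd1 hT hN g A B hA hB hg hb => ?_⟩
  have hle : T ≤ 2 * T := by linarith
  obtain ⟨hint, hm2⟩ := hm D d T h N w hD hd hd1 hT hN
  rw [← intervalIntegral.integral_comp_add_left (fun t => g t) w]
  have hgc : Continuous fun u => g (w + u) := by fun_prop
  have e1 : ∫ u in T..(2 * T), g (w + u) ≤ ∫ u in T..(2 * T),
      ((A + B / d) + B * d * (‖H1_V D d h N (w + u)‖ ^ 2 * fejerW (u / (2 * T)))) := by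
    apply intervalIntegral.integral_mono_on hle (hgc.intervalIntegrable _ _)
    · exact (intervalIntegrable_const).add (hint.intervalIntegrable.const_mul _)
    · intro t ht
      refine (hb (w + t) ⟨by linarith [ht.1], by linarith [ht.2]⟩).trans ?_
      have h1 : 1 ≤ fejerW (t / (2 * T)) := by
        apply fejerW_ge_one
        rw [abs_div, abs_of_pos (by positivity : 0 < 2 * T), div_le_one (by positivity),
          abs_of_nonneg (by linarith [ht.1])]
        exact ht.2
      set v := ‖H1_V D d h N (w + t)‖ with hv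
      have hv0 : 0 ≤ v := norm_nonneg _
      have h2 : v ≤ 1 / d + d * v ^ 2 := by
        have h3 : 0 ≤ (1 / d) * ((d * v - 1 / 2) ^ 2 + 3 / 4) := by positivity
        have h4 : (1 / d) * ((d * v - 1 / 2) ^ 2 + 3 / 4) = d * v ^ 2 - v + 1 / d := by
          field_simp; ring
        linarith
      have h5 : v ^ 2 ≤ v ^ 2 * fejerW (t / (2 * T)) := le_mul_of_one_le_right (sq_nonneg v) h1
      calc A + B * v ≤ A + B * (1 / d + d * (v ^ 2 * fejerW (t / (2 * T)))) := by
            gcongr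
            refine h2.trans ?_
            gcongr
        _ = _ := by ring
  have e2 : ∫ t in T..(2 * T), (‖H1_V D d h N (w + t)‖ ^ 2 * fejerW (t / (2 * T))) ≤
      C * T / d ^ 2 := by
    refine le_trans ?_ hm2
    rw [intervalIntegral.integral_of_le hle]
    exact setIntegral_le_integral hint (Filter.Eventually.of_forall fun t =>
      mul_nonneg (sq_nonneg _) (fejerW_nonneg _))
  rw [intervalIntegral.integral_add intervalIntegrable_const
    (hint.intervalIntegrable.const_mul _), intervalIntegral.integral_const_mul,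
    intervalIntegral.integral_const, smul_eq_mul] at e1
  refine e1.trans ?_
  calc (2 * T - T) * (A + B / d) + B * d *
        ∫ t in T..(2 * T), (‖H1_V D d h N (w + t)‖ ^ 2 * fejerW (t / (2 * T)))
      ≤ (2 * T - T) * (A + B / d) + B * d * (C * T / d ^ 2) := by gcongr
    _ = _ := by field_simp; ring

/-- The pointwise bound at height `Th`, with a polynomial of length `T ^ (1/4)`. -/
lemma H1_ptw_w (hRH : RiemannHypothesis) : ∃ C1 : ℝ, 0 < C1 ∧ ∀ (M T Th d t : ℝ)
    (h : 0 ≤ d * (Real.log T / 4)), 16 ≤ M → 0 < T → M ≤ Real.log T →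
    C1 * (1 + M / 4) ^ 2 ≤ Real.log T → T ≤ Th → 16 / Real.log T ≤ d → d ≤ M / Real.log T →
    Th / 2 ≤ t → t ≤ 3 * Th →
    |(logDeriv xiF (ss d t)).re - Real.log Th / 2| ≤
      2 / (Real.log T / 4 * d) * (logDeriv xiF (ss d t)).re +
      ‖H1_V (Real.log T / 4) d h ⌊Real.exp (Real.log T / 4)⌋₊ t‖ + 3 := by
  obtain ⟨C0, hC0, hex⟩ := ZGap.Gen.exists_explicit hRH
  refine ⟨256 * C0, by positivity, fun M T Th d t h hM hT hML hCL hTh hd1 hd2 ht1 ht2 => ?_⟩
  set L := Real.log T with hL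
  have hL16 : 16 ≤ L := hM.trans hML
  have hL0 : 0 < L := by linarith
  set D := L / 4 with hD
  have hD0 : 0 < D := by positivity
  have hd0 : 0 < d := lt_of_lt_of_le (by positivity) hd1
  have hexpL : Real.exp L = T := by rw [hL, Real.exp_log hT]
  have hT16 : 17 ≤ T := by
    rw [← hexpL]; have := Real.add_one_le_exp L; linarith
  have hTh0 : 0 < Th := by linarith
  set Lh := Real.log Th with hLh
  have hLLh : L ≤ Lh := Real.log_le_log hT hTh
  have hLh0 : 0 < Lh := by linarith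
  have hexpLh : Real.exp Lh = Th := by rw [hLh, Real.exp_log hTh0]
  have ht0 : 0 < t := by linarith
  have htge1 : 1 ≤ t := by linarith
  set N := ⌊Real.exp D⌋₊ with hN
  obtain ⟨S, hS, hSb⟩ := hex (H1_phi (d * D) h) D N t (by linarith) (Nat.lt_floor_add_one _).le htge1
  have hcmp := H1_cmp hRH hD0 hd0 h t S hS
  set R := (logDeriv xiF (ss d t)).re with hR
  set q := (1 + d * D) ^ 2 with hq
  have hq0 : 0 < q := by positivity
  have hf0 : (H1_phi (d * D) h).f0 0 = 1 / q := by
    simp [H1_phi, hq]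
  rw [hf0] at hSb
  have hvm := H1_vm D d h N t
  set vm := DirPoly.vmPoly (ZGap.Gen.bb (H1_phi (d * D) h) D) N t with hvmdef
  have hre : q * vm.re = (H1_V D d h N t).re := by
    rw [← hvm, Complex.re_ofReal_mul]
  have hreabs : |q * vm.re| ≤ ‖H1_V D d h N t‖ := by
    rw [hre]; exact Complex.abs_re_le_norm _
  have hlog2 : Real.log 2 ≤ 1 := by have := Real.log_two_lt_d9; linarith
  have hlog3 : Real.log 3 ≤ 2 := by
    rw [Real.log_le_iff_le_exp (by norm_num)]
    have := Real.add_one_le_exp (2:ℝ); linarith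
  have htup : Real.log t ≤ Lh + 2 := by
    have h1 : Real.log t ≤ Real.log (3 * Th) := Real.log_le_log ht0 ht2
    rw [Real.log_mul (by norm_num) hTh0.ne'] at h1
    linarith
  -- the error term
  have hsmall : q * (C0 * Real.exp D * (1 + Real.log t) / Real.sqrt t) ≤ 1 := by
    have e1 : q ≤ (1 + M / 4) ^ 2 := by
      have h1 : d * D ≤ M / 4 := by
        calc d * D ≤ M / L * D := by gcongr
          _ = M / 4 := by rw [hD]; field_simp
      have h2 : 0 ≤ d * D := h
      rw [hq]; gcongr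
    have e2 : 1 + Real.log t ≤ 16 * Real.exp (Lh / 8) := by
      have h3 := Real.add_one_le_exp (Lh / 8)
      linarith
    have e3 : Real.exp (Lh / 2) / 2 ≤ Real.sqrt t := by
      apply Real.le_sqrt_of_sq_le
      rw [div_pow, ← Real.exp_nat_mul]
      have : ((2:ℕ) : ℝ) * (Lh / 2) = Lh := by push_cast; ring
      rw [this, hexpLh]
      linarith
    have e4 : 0 ≤ 1 + Real.log t := by
      have := Real.log_nonneg htge1; linarith
    have e5 : Real.exp D ≤ Real.exp (Lh / 4) := Real.exp_le_exp.mpr (by rw [hD]; linarith)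
    calc q * (C0 * Real.exp D * (1 + Real.log t) / Real.sqrt t)
        ≤ (1 + M / 4) ^ 2 * (C0 * Real.exp (Lh / 4) * (16 * Real.exp (Lh / 8)) /
            (Real.exp (Lh / 2) / 2)) := by
          gcongr
      _ = 32 * C0 * (1 + M / 4) ^ 2 *
          (Real.exp (Lh / 4) * Real.exp (Lh / 8) * (Real.exp (Lh / 2))⁻¹) := by
          rw [div_div_eq_mul_div, div_eq_mul_inv]; ring
      _ = 32 * C0 * (1 + M / 4) ^ 2 * Real.exp (-(Lh / 8)) := by
          congr 1
          rw [← Real.exp_neg, ← Real.exp_add, ← Real.exp_add]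
          congr 1
          ring
      _ ≤ 32 * C0 * (1 + M / 4) ^ 2 * (8 / Lh) := by
          gcongr
          rw [Real.exp_neg, inv_le_comm₀ (Real.exp_pos _) (by positivity)]
          have h3 := Real.add_one_le_exp (Lh / 8)
          have h4 : (8 / Lh)⁻¹ = Lh / 8 := by rw [inv_div]
          rw [h4]; linarith
      _ = (256 * C0 * (1 + M / 4) ^ 2) / Lh := by ring
      _ ≤ 1 := by rw [div_le_one hLh0]; exact hCL.trans hLLh
  have hexp2 : |q * S - (Real.log (t / (2 * Real.pi)) / 2 - q * vm.re)| ≤ 1 := by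
    have e1 : q * S - (Real.log (t / (2 * Real.pi)) / 2 - q * vm.re) =
        q * (S - (1 / q / 2 * Real.log (t / (2 * Real.pi)) - vm.re)) := by
      field_simp
    rw [e1, abs_mul, abs_of_pos hq0]
    exact (mul_le_mul_of_nonneg_left hSb hq0.le).trans hsmall
  have hlog : |Real.log (t / (2 * Real.pi)) / 2 - Lh / 2| ≤ 2 := by
    have hpi := Real.pi_pos
    rw [Real.log_div ht0.ne' (by positivity)]
    have h2 : Lh - 1 ≤ Real.log t := by
      have h1 : Real.log (Th / 2) ≤ Real.log t := Real.log_le_log (by positivity) ht1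
      rw [Real.log_div hTh0.ne' (by norm_num)] at h1
      linarith
    have h3 : Real.log 2 ≤ Real.log (2 * Real.pi) :=
      Real.log_le_log (by norm_num) (by linarith [Real.pi_gt_three])
    have h3' : 0 ≤ Real.log 2 := Real.log_nonneg (by norm_num)
    have h4 : Real.log (2 * Real.pi) ≤ 2 := by
      rw [Real.log_le_iff_le_exp (by positivity)]
      have h5 : Real.exp 2 = Real.exp 1 * Real.exp 1 := by rw [← Real.exp_add]; norm_num
      have h6 := Real.exp_one_gt_d9
      have h7 := Real.pi_lt_d2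
      rw [h5]
      nlinarith
    rw [abs_le]
    constructor <;> linarith
  -- combine
  have a1 := abs_le.mp hcmp
  have a2 := abs_le.mp hexp2
  have a3 := abs_le.mp hreabs
  have a4 := abs_le.mp hlog
  rw [abs_le]
  constructor <;> linarith [a1.1, a1.2, a2.1, a2.2, a3.1, a3.2, a4.1, a4.2]

theorem vert_mean_w (hRH : RiemannHypothesis) {a : ℝ} (ha : 0 < a) (ha1 : a ≤ 1) : ∃ C : ℝ,
    0 < C ∧ ∀ Λ : ℝ, 1 ≤ Λ → ∃ T0 : ℝ,
    ∀ T : ℝ, T0 ≤ T → ∀ w : ℝ, Hgt a 0 T w → ∀ x ∈ Icc (1 / Real.log T) (Λ / Real.log T),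
      ∫ t in (w + T)..(w + 2 * T),
        |(logDeriv xiF (ss x t)).re - Real.log T / (2 * a)| ≤ C * T / x := by
  obtain ⟨C1, hC1, hptw⟩ := H1_ptw_w hRH
  obtain ⟨C2, hC2, hdom⟩ := H1_dom_w
  refine ⟨24 / a + 16 + 16 * C2, by positivity, fun Λ hΛ => ?_⟩
  set M := max Λ 16 with hM
  have hM16 : 16 ≤ M := le_max_right _ _
  refine ⟨Real.exp (max M (C1 * (1 + M / 4) ^ 2)), fun T hTT w hw x hx => ?_⟩
  have hT : 0 < T := (Real.exp_pos _).trans_le hTT
  have hLL : max M (C1 * (1 + M / 4) ^ 2) ≤ Real.log T := by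
    rwa [Real.le_log_iff_exp_le hT]
  have hML : M ≤ Real.log T := (le_max_left _ _).trans hLL
  set L := Real.log T with hL
  have hL16 : 16 ≤ L := hM16.trans hML
  have hL0 : 0 < L := by linarith
  have hexpL : Real.exp L = T := by rw [hL, Real.exp_log hT]
  have hT1 : 1 ≤ T := by
    rw [← hexpL]; exact Real.one_le_exp hL0.le
  have hTh := le_rpow_inv ha ha1 hT1
  have hlogTh : Real.log (T ^ (1 / a)) = L / a := log_rpow_inv hT
  have hhgt : ∀ t ∈ Icc (w + T) (w + 2 * T), T ^ (1 / a) / 2 ≤ t ∧ t ≤ 3 * T ^ (1 / a) := by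
    intro t ht
    obtain ⟨h4, h5⟩ := hw
    constructor
    · linarith [ht.1]
    · linarith [ht.2]
  have hptw' := fun (d t : ℝ) (h : 0 ≤ d * (L / 4)) => hptw M T (T ^ (1 / a)) d t h hM16 hT
    ((le_max_left _ _).trans hLL) ((le_max_right _ _).trans hLL) hTh
  rw [hlogTh] at hptw'
  have hD0 : 0 < L / 4 := by positivity
  have hN : ((⌊Real.exp (L / 4)⌋₊ : ℕ) : ℝ) ≤ 2 * T := by
    have h1 := Nat.floor_le (Real.exp_pos (L / 4)).le
    have h2 : Real.exp (L / 4) ≤ Real.exp L := Real.exp_le_exp.mpr (by linarith)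
    linarith
  have hle : w + T ≤ w + 2 * T := by linarith
  have hLa : 0 < L / a := by positivity
  have hLa2 : L / (2 * a) = L / a / 2 := by rw [div_div, mul_comm]
  rw [hLa2]
  -- consequences of the pointwise bound
  have key : ∀ d : ℝ, 16 / L ≤ d → d ≤ M / L → ∀ h : 0 ≤ d * (L / 4),
      ∀ t ∈ Icc (w + T) (w + 2 * T),
      (logDeriv xiF (ss d t)).re ≤ (L / a + 6) +
        2 * ‖H1_V (L / 4) d h ⌊Real.exp (L / 4)⌋₊ t‖ ∧
      |(logDeriv xiF (ss d t)).re - L / a / 2| ≤ (8 / a + 6) / d +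
        2 * ‖H1_V (L / 4) d h ⌊Real.exp (L / 4)⌋₊ t‖ := by
    intro d hd1 hd2 h t ht
    have hd0 : 0 < d := lt_of_lt_of_le (by positivity) hd1
    have h1 := hptw' d t h hd1 hd2 (hhgt t ht).1 (hhgt t ht).2
    have hR := H1_nonneg hRH hd0 t
    set R := (logDeriv xiF (ss d t)).re with hRdef
    have hV : 0 ≤ ‖H1_V (L / 4) d h ⌊Real.exp (L / 4)⌋₊ t‖ := norm_nonneg _
    set V := ‖H1_V (L / 4) d h ⌊Real.exp (L / 4)⌋₊ t‖ with hVdef
    have hLd : 16 ≤ L * d := by
      rw [div_le_iff₀ hL0] at hd1; linarith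
    have hc : 2 / (L / 4 * d) ≤ 1 / 2 := by
      rw [div_le_iff₀ (by positivity)]
      linarith
    have hd1' : d ≤ 1 := hd2.trans (by rw [div_le_one hL0]; exact hML)
    have h2 : R ≤ (L / a + 6) + 2 * V := by
      have h3 := (abs_le.mp h1).2
      have h4 : 2 / (L / 4 * d) * R ≤ 1 / 2 * R := by gcongr
      linarith
    refine ⟨h2, h1.trans ?_⟩
    have h5 : 2 / (L / 4 * d) * R ≤ 8 / a / d + (V + 3) := by
      calc 2 / (L / 4 * d) * R ≤ 2 / (L / 4 * d) * ((L / a + 6) + 2 * V) := by gcongr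
        _ = 8 / a / d + 2 / (L / 4 * d) * (6 + 2 * V) := by field_simp; ring
        _ ≤ 8 / a / d + 1 / 2 * (6 + 2 * V) := by gcongr
        _ = _ := by ring
    have h6 : 6 ≤ 6 / d := by
      rw [le_div_iff₀ hd0]; linarith
    have h7 : (8 / a + 6) / d = 8 / a / d + 6 / d := by ring
    rw [h7]
    linarith
  have hx0 : 0 < x := lt_of_lt_of_le (by positivity) hx.1
  rcases le_total (16 / L) x with hc | hc
  · -- large x
    have hx2 : x ≤ M / L := hx.2.trans (by gcongr; exact le_max_left _ _)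
    have hx1 : x ≤ 1 := hx2.trans (by rw [div_le_one hL0]; exact hML)
    have h : 0 ≤ x * (L / 4) := by positivity
    have hcont : Continuous (fun t : ℝ => |(logDeriv xiF (ss x t)).re - L / a / 2|) :=
      ((continuous_re.comp (logDeriv_ss_continuous hRH hx0)).sub continuous_const).abs
    have := hdom (L / 4) x T h ⌊Real.exp (L / 4)⌋₊ w hD0 hx0 hx1 hT hN _ ((8 / a + 6) / x) 2
      (by positivity) (by norm_num) hcont fun t ht => (key x hc hx2 h t ht).2
    refine this.trans ?_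
    have e1 : (8 / a + 6) / x * T + C2 * 2 * T / x = (8 / a + 6 + 2 * C2) * T / x := by ring
    rw [e1]
    have e2 : 8 / a ≤ 24 / a := by gcongr; norm_num
    have e3 : 8 / a + 6 + 2 * C2 ≤ 24 / a + 16 + 16 * C2 := by linarith
    have e4 : 0 ≤ T / x := by positivity
    rw [mul_div_assoc, mul_div_assoc]
    exact mul_le_mul_of_nonneg_right e3 e4
  · -- small x
    have hb0 : 0 < 16 / L := by positivity
    have hb1 : 16 / L ≤ 1 := by rw [div_le_one hL0]; exact hL16
    have hbM : 16 / L ≤ M / L := by gcongr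
    have h : 0 ≤ 16 / L * (L / 4) := by positivity
    have hcont : Continuous (fun t : ℝ => (logDeriv xiF (ss (16 / L) t)).re) :=
      continuous_re.comp (logDeriv_ss_continuous hRH hb0)
    have h1 := hdom (L / 4) (16 / L) T h ⌊Real.exp (L / 4)⌋₊ w hD0 hb0 hb1 hT hN _ (L / a + 6) 2
      (by positivity) (by norm_num) hcont fun t ht => (key (16 / L) le_rfl hbM h t ht).1
    have hcont2 : Continuous (fun t : ℝ => |(logDeriv xiF (ss x t)).re - L / a / 2|) :=
      ((continuous_re.comp (logDeriv_ss_continuous hRH hx0)).sub continuous_const).abs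
    have h2 : ∫ t in (w + T)..(w + 2 * T), |(logDeriv xiF (ss x t)).re - L / a / 2| ≤
        ∫ t in (w + T)..(w + 2 * T),
          (16 / L / x * (logDeriv xiF (ss (16 / L) t)).re + L / a / 2) := by
      apply intervalIntegral.integral_mono_on hle (hcont2.intervalIntegrable _ _)
      · exact Continuous.intervalIntegrable (by fun_prop) _ _
      · intro t _
        have h3 := H1_mono hRH hx0 hc t
        have h4 := H1_nonneg hRH hx0 t
        rw [abs_le]
        constructor <;> linarith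
    rw [intervalIntegral.integral_add (Continuous.intervalIntegrable (by fun_prop) _ _)
      intervalIntegrable_const, intervalIntegral.integral_const_mul,
      intervalIntegral.integral_const, smul_eq_mul] at h2
    refine h2.trans ?_
    have h5 : L ≤ 16 / x := by
      rw [le_div_iff₀ hx0]
      rw [le_div_iff₀ hL0] at hc
      linarith
    have h6 : C2 * 2 * T / (16 / L) = C2 * L * T / 8 := by field_simp; ring
    rw [h6] at h1
    have h7 : w + 2 * T - (w + T) = T := by ring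
    rw [h7]
    calc 16 / L / x * (∫ t in (w + T)..(w + 2 * T), (logDeriv xiF (ss (16 / L) t)).re) +
          T * (L / a / 2)
        ≤ 16 / L / x * ((L / a + 6) * T + C2 * L * T / 8) + T * (L / a / 2) := by gcongr
      _ ≤ 16 / L / x * ((L / a + L) * T + C2 * L * T) + T * (16 / x / a / 2) := by
          have e0 : 0 ≤ C2 * L * T := by positivity
          gcongr
          · linarith
          · linarith
      _ = (24 / a + 16 + 16 * C2) * T / x := by field_simp; ring

end Pool.Agent.AHW
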