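import Pool.Agent.ZGap.DW.Count
import Pool.Agent.ZetaGaps.Unbounded
import Pool.Agent.ZetaGaps.VoidCount

/-!
# The mean gap, and the case of a lattice
-/

namespace Pool.Agent.AHW

open Set Pool.Agent.ZetaGaps

lemma Me_low : ∃ C : ℝ, 0 < C ∧ ∀ x : ℝ, 4 ≤ x → ∀ h : ℝ, 0 ≤ h →
    ((x + h) * Real.log (x + h) - x * Real.log x) - h * Real.log (2 * Real.pi * Real.exp 1) -
      C * Real.log (x + h) ≤ 2 * Real.pi * ((zeroCount (x + h) : ℝ) - zeroCount x) := by
  obtain ⟨C, hC, hN⟩ := zeroCount_asymp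
  have hpi := Real.pi_pos
  obtain ⟨E, hE⟩ : ∃ E : ℝ, E = 2 * Real.pi * Real.exp 1 := ⟨_, rfl⟩
  have hE0 : 0 < E := by rw [hE]; positivity
  refine ⟨4 * Real.pi * C, by positivity, fun x hx h hh => ?_⟩
  have h1 := abs_le.mp (hN x (by linarith))
  have h2 := abs_le.mp (hN (x + h) (by linarith))
  rw [← hE] at h1 h2 ⊢
  rw [Real.log_div (by linarith) hE0.ne'] at h1 h2
  have h3 : Real.log x ≤ Real.log (x + h) := Real.log_le_log (by linarith) (by linarith)
  have h4 : C * Real.log x ≤ C * Real.log (x + h) := mul_le_mul_of_nonneg_left h3 hC.le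
  have h5 : (x + h) / (2 * Real.pi) * (Real.log (x + h) - Real.log E) -
      x / (2 * Real.pi) * (Real.log x - Real.log E) - 2 * (C * Real.log (x + h)) ≤
      (zeroCount (x + h) : ℝ) - zeroCount x := by linarith [h1.2, h2.1]
  have h6 := mul_le_mul_of_nonneg_left h5 (show (0 : ℝ) ≤ 2 * Real.pi by positivity)
  refine le_trans (le_of_eq ?_) h6
  field_simp
  ring

lemma Me_next : ∃ C T0 : ℝ, 0 < C ∧ 4 ≤ T0 ∧ ∀ x : ℝ, T0 ≤ x →
    ordinate (zeroCount x + 1) ≤ x + C := by
  obtain ⟨C, hC, hN⟩ := Me_low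
  have hpi := Real.pi_pos
  obtain ⟨E, hE⟩ : ∃ E : ℝ, E = 2 * Real.pi * Real.exp 1 := ⟨_, rfl⟩
  rw [← hE] at hN
  have ev2 : ∀ᶠ T : ℝ in Filter.atTop, 2 * Real.log E + 1 ≤ Real.log T :=
    Real.tendsto_log_atTop.eventually_ge_atTop _
  obtain ⟨T0, hT0⟩ := Filter.eventually_atTop.mp (ev2.and (Filter.eventually_ge_atTop (4 * C)))
  refine ⟨4 * C, max T0 4, by positivity, le_max_right _ _, fun x hx => ?_⟩
  obtain ⟨e1, e2⟩ := hT0 x ((le_max_left _ _).trans hx)
  have hx4 : 4 ≤ x := (le_max_right _ _).trans hx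
  have hx0 : 0 < x := by linarith
  have h1 := hN x hx4 (4 * C) (by positivity)
  have h2 := Fe_xlogx_ge hx0 (show x ≤ x + 4 * C by linarith)
  have hlx : 0 < Real.log x := Real.log_pos (by linarith)
  have h3 : Real.log (x + 4 * C) ≤ 2 * Real.log x := by
    have h4 : Real.log (x + 4 * C) ≤ Real.log (x * x) := by
      apply Real.log_le_log (by linarith)
      nlinarith
    rw [Real.log_mul hx0.ne' hx0.ne'] at h4
    linarith
  have h5 : C * Real.log (x + 4 * C) ≤ C * (2 * Real.log x) := mul_le_mul_of_nonneg_left h3 hC.le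
  have h6 : 4 * C * (2 * Real.log E + 1) ≤ 4 * C * Real.log x :=
    mul_le_mul_of_nonneg_left e1 (by positivity)
  have h7 : 0 < 2 * Real.pi * ((zeroCount (x + 4 * C) : ℝ) - zeroCount x) := by nlinarith
  have h8 : (zeroCount x : ℝ) < zeroCount (x + 4 * C) := by
    by_contra hcon
    push Not at hcon
    have : 2 * Real.pi * ((zeroCount (x + 4 * C) : ℝ) - zeroCount x) ≤ 0 :=
      mul_nonpos_of_nonneg_of_nonpos (by positivity) (by linarith)
    linarith
  have h9 : zeroCount x + 1 ≤ zeroCount (x + 4 * C) := by exact_mod_cast h8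
  exact (le_zeroCount_iff (zeroCount_unbounded _) (by omega)).mp h9

lemma Me_tele {i j : ℕ} (h : i ≤ j) :
    ∑ n ∈ Finset.Ioc i j, gap n = normOrdinate (j + 1) - normOrdinate (i + 1) := by
  induction j, h using Nat.le_induction with
  | base => simp
  | succ k hk ih =>
    rw [Finset.sum_Ioc_succ_top (by omega), ih]
    unfold gap
    ring

lemma Me_gt {T : ℝ} {n : ℕ} (h : zeroCount T < n) : T ≤ ordinate n := by
  by_contra hcon
  push Not at hcon
  have := (le_zeroCount_iff (zeroCount_unbounded n) (by omega)).mpr hcon.le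
  omega

lemma Me_mono {x y : ℝ} (hx : 1 ≤ x) (hxy : x ≤ y) : x * Real.log x ≤ y * Real.log y := by
  have h1 := Fe_xlogx_ge (by linarith) hxy
  have h2 : 0 ≤ Real.log x := Real.log_nonneg hx
  have h3 : 0 ≤ (y - x) * Real.log x := mul_nonneg (by linarith) h2
  linarith

/-- The mean of the gaps in `(T, T + H]` is at most `1 + η`. -/
theorem mean_gap {a η : ℝ} (ha : 0 < a) (hη : 0 < η) (hη1 : η ≤ 1) : ∃ T0 : ℝ, 4 ≤ T0 ∧
    ∀ T : ℝ, T0 ≤ T → ∀ H : ℝ, T ^ a ≤ H →
      ∑ n ∈ Finset.Ioc (zeroCount T) (zeroCount (T + H)), gap n ≤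
        (1 + η) * ((zeroCount (T + H) : ℝ) - zeroCount T) := by
  obtain ⟨C, hC, hN⟩ := Me_low
  obtain ⟨C0, T1, hC0, hT1, hO⟩ := Me_next
  have hpi := Real.pi_pos
  obtain ⟨E, hE⟩ : ∃ E : ℝ, E = 2 * Real.pi * Real.exp 1 := ⟨_, rfl⟩
  rw [← hE] at hN
  obtain ⟨K, hK⟩ : ∃ K : ℝ, K = 40 * (C0 + C + 1) / η := ⟨_, rfl⟩
  have hKη : C0 + C + 1 = η / 40 * K := by rw [hK]; field_simp
  have ev1 : ∀ᶠ T : ℝ in Filter.atTop, K ≤ T ^ a := (tendsto_rpow_atTop ha).eventually_ge_atTop _
  have ev2 : ∀ᶠ T : ℝ in Filter.atTop, 40 * Real.log E / η ≤ Real.log T :=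
    Real.tendsto_log_atTop.eventually_ge_atTop _
  have ev3 : ∀ᶠ T : ℝ in Filter.atTop, 1 ≤ Real.log T :=
    Real.tendsto_log_atTop.eventually_ge_atTop _
  obtain ⟨T0, hT0⟩ := Filter.eventually_atTop.mp
    (ev1.and (ev2.and (ev3.and (Filter.eventually_ge_atTop K))))
  refine ⟨max T0 T1, hT1.trans (le_max_right _ _), fun T hT H hH => ?_⟩
  obtain ⟨e1, e2, e3, e4⟩ := hT0 T ((le_max_left _ _).trans hT)
  have hT1' : T1 ≤ T := (le_max_right _ _).trans hT
  have hT4 : 4 ≤ T := hT1.trans hT1'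
  have hTp : 0 < T := by linarith
  have hHK : K ≤ H := e1.trans hH
  have hK0 : 0 < K := by rw [hK]; positivity
  have hH0 : 0 < H := by linarith
  have hTH : T ≤ T + H := by linarith
  have hcc := zeroCount_mono hTH
  rw [Me_tele hcc]
  have hy1 := hO (T + H) (by linarith)
  have hy2 : T + H ≤ ordinate (zeroCount (T + H) + 1) := Me_gt (Nat.lt_succ_self _)
  have hz : T ≤ ordinate (zeroCount T + 1) := Me_gt (Nat.lt_succ_self _)
  have h1 := Me_mono (show (1 : ℝ) ≤ T by linarith) hz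
  have h2 := Me_mono (show (1 : ℝ) ≤ ordinate (zeroCount (T + H) + 1) by linarith) hy1
  have h3 := Fe_xlogx_le (show 0 < T + H by linarith) (show T + H ≤ T + H + C0 by linarith)
  have h4 := hN T hT4 H hH0.le
  have h5 := Fe_xlogx_ge hTp hTH
  obtain ⟨L, hL⟩ : ∃ L : ℝ, L = Real.log T := ⟨_, rfl⟩
  obtain ⟨r, hr⟩ : ∃ r : ℝ, r = H / T := ⟨_, rfl⟩
  have hr0 : 0 ≤ r := by rw [hr]; positivity
  have hl1 : Real.log (T + H + C0) ≤ L + r + 1 := by
    have g1 : T + H + C0 = T * (1 + r + C0 / T) := by rw [hr]; field_simp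
    have g2 : Real.log (1 + r + C0 / T) ≤ (1 + r + C0 / T) - 1 :=
      Real.log_le_sub_one_of_pos (by positivity)
    have g3 : C0 / T ≤ 1 := by
      rw [div_le_one hTp]
      nlinarith
    rw [g1, Real.log_mul hTp.ne' (by positivity), ← hL]
    linarith
  have hl2 : Real.log (T + H) ≤ L + r + 1 :=
    (Real.log_le_log (by linarith) (by linarith)).trans hl1
  obtain ⟨P, hP⟩ : ∃ P : ℝ, P = H * L := ⟨_, rfl⟩
  rw [← hL] at e2 e3 h5
  have hL0 : 0 < L := by linarith
  have hHP : H ≤ P := by rw [hP]; nlinarith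
  have k1 : (C0 + C + 1) * L ≤ η / 40 * P := by
    rw [hKη, hP, mul_assoc]
    exact mul_le_mul_of_nonneg_left (mul_le_mul_of_nonneg_right hHK hL0.le) (by positivity)
  have k2 : (C0 + C + 1) * r ≤ η / 40 * P := by
    have g1 : (C0 + C + 1) * r ≤ η / 40 * T * r := by
      rw [hKη]
      exact mul_le_mul_of_nonneg_right (mul_le_mul_of_nonneg_left e4 (by positivity)) hr0
    have g2 : η / 40 * T * r = η / 40 * H := by rw [hr]; field_simp
    rw [g2] at g1
    exact g1.trans (mul_le_mul_of_nonneg_left hHP (by positivity))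
  have k3 : C0 + C + 1 ≤ η / 40 * P := by
    rw [hKη]
    exact mul_le_mul_of_nonneg_left (hHK.trans hHP) (by positivity)
  have k4 : H * Real.log E ≤ η / 40 * P := by
    rw [div_le_iff₀ hη] at e2
    have g1 : Real.log E ≤ η / 40 * L := by linarith
    have g2 := mul_le_mul_of_nonneg_left g1 hH0.le
    rw [hP]
    linarith
  have k5 : C0 * (Real.log (T + H + C0) + 1) ≤ C0 * (L + r + 2) :=
    mul_le_mul_of_nonneg_left (by linarith) hC0.le
  have k6 : C * Real.log (T + H) ≤ C * (L + r + 1) := mul_le_mul_of_nonneg_left hl2 hC.le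
  have k7 : 0 ≤ C * L := by positivity
  have k8 : 0 ≤ C * r := by positivity
  have k9 : 0 ≤ C0 * L := by positivity
  have k10 : 0 ≤ C0 * r := by positivity
  have hD : P ≤ (T + H) * Real.log (T + H) - T * L := by
    rw [hP]
    have : T + H - T = H := by ring
    rw [this] at h5
    linarith
  rw [← hL] at h1 h4
  obtain ⟨D, hDd⟩ : ∃ D : ℝ, D = (T + H) * Real.log (T + H) - T * L := ⟨_, rfl⟩
  rw [← hDd] at hD h4
  have e5 : T + H + C0 - (T + H) = C0 := by ring
  rw [e5] at h3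
  have u1 : C0 * (L + r + 2) ≤ η / 10 * P := by nlinarith
  have u2 : H * Real.log E + C * (L + r + 1) ≤ η / 10 * P := by nlinarith
  -- the sum
  have s1 : 2 * Real.pi * (normOrdinate (zeroCount (T + H) + 1) - normOrdinate (zeroCount T + 1)) ≤
      D + η / 10 * P := by
    unfold normOrdinate
    have g1 : 2 * Real.pi * (ordinate (zeroCount (T + H) + 1) *
        Real.log (ordinate (zeroCount (T + H) + 1)) / (2 * Real.pi) -
        ordinate (zeroCount T + 1) * Real.log (ordinate (zeroCount T + 1)) / (2 * Real.pi)) =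
        ordinate (zeroCount (T + H) + 1) * Real.log (ordinate (zeroCount (T + H) + 1)) -
        ordinate (zeroCount T + 1) * Real.log (ordinate (zeroCount T + 1)) := by
      field_simp
    rw [g1]
    linarith
  have s2 : D - η / 10 * P ≤ 2 * Real.pi * ((zeroCount (T + H) : ℝ) - zeroCount T) := by
    linarith
  have hP0 : 0 < P := by linarith
  have s3 : D + η / 10 * P ≤ (1 + η) * (D - η / 10 * P) := by
    have g1 : η * P ≤ η * D := mul_le_mul_of_nonneg_left hD hη.le
    have g2 : η * (η * P) ≤ 1 * (η * P) := mul_le_mul_of_nonneg_right hη1 (by positivity)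
    nlinarith [mul_pos hη hP0]
  have s4 : (1 + η) * (D - η / 10 * P) ≤
      (1 + η) * (2 * Real.pi * ((zeroCount (T + H) : ℝ) - zeroCount T)) :=
    mul_le_mul_of_nonneg_left s2 (by positivity)
  have s5 := s1.trans (s3.trans s4)
  have s6 : (1 + η) * (2 * Real.pi * ((zeroCount (T + H) : ℝ) - zeroCount T)) =
      2 * Real.pi * ((1 + η) * ((zeroCount (T + H) : ℝ) - zeroCount T)) := by ring
  rw [s6] at s5
  exact le_of_mul_le_mul_left s5 (by positivity)

end Pool.Agent.AHW
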